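import Pool.Agent.Lib.MP_dd84fd_nt.SW.Defs

/-!
# Elementary tools for the sums `∑ b(n) (log n)^j n^{-s}`
-/

set_option autoImplicit false

namespace Pool.MP_dd84fd_nt.SW

open Finset

/-- `(log u)^j u^{-s}` -/
noncomputable def gj (j : ℕ) (s : ℂ) (u : ℝ) : ℂ := (Real.log u : ℂ) ^ j * (u : ℂ) ^ (-s)

theorem gj_norm (j : ℕ) (s : ℂ) {u : ℝ} (hu : 1 ≤ u) :
    ‖gj j s u‖ = Real.log u ^ j * u ^ (-s.re) := by
  unfold gj
  rw [norm_mul, norm_pow, Complex.norm_cpow_eq_rpow_re_of_pos (by linarith), Complex.norm_real,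
    Real.norm_of_nonneg (Real.log_nonneg hu), Complex.neg_re]

theorem gj_hasDerivAt (j : ℕ) (s : ℂ) {u : ℝ} (hu : 0 < u) :
    HasDerivAt (gj j s) ((j : ℂ) * (Real.log u : ℂ) ^ (j - 1) * ((u⁻¹ : ℝ) : ℂ) * (u : ℂ) ^ (-s) +
      (Real.log u : ℂ) ^ j * (-s * (u : ℂ) ^ (-s - 1))) u := by
  have h1 : HasDerivAt (fun u : ℝ => (Real.log u : ℂ)) ((u⁻¹ : ℝ) : ℂ) u :=
    (Real.hasDerivAt_log hu.ne').ofReal_comp
  have h2 := h1.pow j
  have h3 : HasDerivAt (fun z : ℂ => z ^ (-s)) (-s * (u : ℂ) ^ (-s - 1)) (u : ℂ) := by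
    have := (hasDerivAt_id (u : ℂ)).cpow_const (c := -s) (by
      left
      simpa using hu)
    simpa using this
  have h4 : HasDerivAt (fun u : ℝ => (u : ℂ) ^ (-s)) (-s * (u : ℂ) ^ (-s - 1)) u :=
    h3.comp_ofReal
  exact h2.mul h4

/-- the bound for `|g'|` on `[n, n+1]` -/
noncomputable def gB (j : ℕ) (s : ℂ) (n : ℕ) : ℝ :=
  (j + ‖s‖) * Real.log (n + 1) ^ j / (n : ℝ) ^ 2

theorem gB_nonneg (j : ℕ) (s : ℂ) (n : ℕ) : 0 ≤ gB j s n := by
  unfold gB
  have : 0 ≤ Real.log ((n : ℝ) + 1) := Real.log_nonneg (by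
    have : (0 : ℝ) ≤ n := by positivity
    linarith)
  positivity

theorem SumTools_log_ge_one {x : ℝ} (hx : 3 ≤ x) : 1 ≤ Real.log x := by
  rw [Real.le_log_iff_exp_le (by linarith)]
  exact (Real.exp_one_lt_d9.le).trans (by linarith)

theorem gj_deriv_norm (j : ℕ) {s : ℂ} (hs : 1 ≤ s.re) {n : ℕ} (hn : 2 ≤ n) {u : ℝ}
    (hu : (n : ℝ) ≤ u) (hu' : u ≤ n + 1) :
    ‖(j : ℂ) * (Real.log u : ℂ) ^ (j - 1) * ((u⁻¹ : ℝ) : ℂ) * (u : ℂ) ^ (-s) +
      (Real.log u : ℂ) ^ j * (-s * (u : ℂ) ^ (-s - 1))‖ ≤ gB j s n := by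
  have hn' : (2 : ℝ) ≤ n := by exact_mod_cast hn
  have hn0 : (0 : ℝ) < n := by linarith
  have hu0 : 0 < u := by linarith
  have hu1 : 1 ≤ u := by linarith
  have hl0 : 0 ≤ Real.log u := Real.log_nonneg hu1
  have hl1 : Real.log u ≤ Real.log (n + 1) := Real.log_le_log hu0 hu'
  have hL : 1 ≤ Real.log ((n : ℝ) + 1) := SumTools_log_ge_one (by linarith)
  have h1 : ‖(u : ℂ) ^ (-s)‖ ≤ (n : ℝ)⁻¹ := by
    rw [Complex.norm_cpow_eq_rpow_re_of_pos hu0, Complex.neg_re]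
    calc u ^ (-s.re) ≤ u ^ (-1 : ℝ) := Real.rpow_le_rpow_of_exponent_le hu1 (by linarith)
      _ = u⁻¹ := Real.rpow_neg_one u
      _ ≤ (n : ℝ)⁻¹ := inv_anti₀ hn0 hu
  have h2 : ‖(u : ℂ) ^ (-s - 1)‖ ≤ (n : ℝ)⁻¹ * (n : ℝ)⁻¹ := by
    rw [Complex.norm_cpow_eq_rpow_re_of_pos hu0]
    have e : (-s - 1).re = -s.re - 1 := by simp
    rw [e]
    calc u ^ (-s.re - 1) ≤ u ^ (-2 : ℝ) := Real.rpow_le_rpow_of_exponent_le hu1 (by linarith)
      _ = u⁻¹ * u⁻¹ := by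
          rw [Real.rpow_neg hu0.le, show (2 : ℝ) = ((2 : ℕ) : ℝ) by norm_num, Real.rpow_natCast,
            pow_two, mul_inv]
      _ ≤ (n : ℝ)⁻¹ * (n : ℝ)⁻¹ := by
          have := inv_anti₀ hn0 hu
          exact mul_le_mul this this (by positivity) (by positivity)
  have h3 : ‖(j : ℂ) * (Real.log u : ℂ) ^ (j - 1) * ((u⁻¹ : ℝ) : ℂ) * (u : ℂ) ^ (-s)‖ ≤
      j * Real.log (n + 1) ^ j * ((n : ℝ)⁻¹ * (n : ℝ)⁻¹) := by
    rw [norm_mul, norm_mul, norm_mul, norm_pow, Complex.norm_real, Complex.norm_real,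
      Real.norm_of_nonneg hl0, Real.norm_of_nonneg (by positivity : 0 ≤ u⁻¹),
      Complex.norm_natCast]
    have e1 : Real.log u ^ (j - 1) ≤ Real.log (n + 1) ^ j := by
      calc Real.log u ^ (j - 1) ≤ Real.log (n + 1) ^ (j - 1) := pow_le_pow_left₀ hl0 hl1 _
        _ ≤ Real.log (n + 1) ^ j := pow_le_pow_right₀ hL (Nat.sub_le _ _)
    have e2 : u⁻¹ ≤ (n : ℝ)⁻¹ := inv_anti₀ hn0 hu
    calc (j : ℝ) * Real.log u ^ (j - 1) * u⁻¹ * ‖(u : ℂ) ^ (-s)‖ ≤
        j * Real.log (n + 1) ^ j * (n : ℝ)⁻¹ * (n : ℝ)⁻¹ := by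
          refine mul_le_mul (mul_le_mul (mul_le_mul_of_nonneg_left e1 (by positivity)) e2
            (by positivity) (by positivity)) h1 (by positivity) (by positivity)
      _ = j * Real.log (n + 1) ^ j * ((n : ℝ)⁻¹ * (n : ℝ)⁻¹) := by ring
  have h4 : ‖(Real.log u : ℂ) ^ j * (-s * (u : ℂ) ^ (-s - 1))‖ ≤
      ‖s‖ * Real.log (n + 1) ^ j * ((n : ℝ)⁻¹ * (n : ℝ)⁻¹) := by
    rw [norm_mul, norm_mul, norm_pow, Complex.norm_real, Real.norm_of_nonneg hl0, norm_neg]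
    calc Real.log u ^ j * (‖s‖ * ‖(u : ℂ) ^ (-s - 1)‖) ≤
        Real.log (n + 1) ^ j * (‖s‖ * ((n : ℝ)⁻¹ * (n : ℝ)⁻¹)) := by
          refine mul_le_mul (pow_le_pow_left₀ hl0 hl1 _)
            (mul_le_mul_of_nonneg_left h2 (norm_nonneg _)) (by positivity) (by positivity)
      _ = ‖s‖ * Real.log (n + 1) ^ j * ((n : ℝ)⁻¹ * (n : ℝ)⁻¹) := by ring
  refine (norm_add_le _ _).trans ((add_le_add h3 h4).trans (le_of_eq ?_))
  unfold gB
  rw [div_eq_mul_inv, pow_two, mul_inv]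
  ring

theorem gj_sub_norm (j : ℕ) {s : ℂ} (hs : 1 ≤ s.re) {n : ℕ} (hn : 2 ≤ n) {u : ℝ}
    (hu : (n : ℝ) ≤ u) (hu' : u ≤ n + 1) : ‖gj j s u - gj j s n‖ ≤ gB j s n := by
  have hn' : (2 : ℝ) ≤ n := by exact_mod_cast hn
  have h := Convex.norm_image_sub_le_of_norm_hasDerivWithin_le (f := gj j s)
    (f' := fun u => (j : ℂ) * (Real.log u : ℂ) ^ (j - 1) * ((u⁻¹ : ℝ) : ℂ) * (u : ℂ) ^ (-s) +
      (Real.log u : ℂ) ^ j * (-s * (u : ℂ) ^ (-s - 1))) (C := gB j s n)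
    (s := Set.Icc (n : ℝ) (n + 1)) (x := (n : ℝ)) (y := u)
    (fun x hx => (gj_hasDerivAt j s (by linarith [hx.1])).hasDerivWithinAt)
    (fun x hx => gj_deriv_norm j hs hn hx.1 hx.2) (convex_Icc _ _)
    ⟨le_rfl, by linarith⟩ ⟨hu, hu'⟩
  refine h.trans ?_
  rw [Real.norm_of_nonneg (by linarith)]
  calc gB j s n * (u - n) ≤ gB j s n * 1 :=
        mul_le_mul_of_nonneg_left (by linarith) (gB_nonneg j s n)
    _ = gB j s n := mul_one _

/-- the antiderivative of `(log u)^j u^{-s}` -/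
noncomputable def Gj (s : ℂ) : ℕ → ℝ → ℂ
  | 0, u => (u : ℂ) ^ (1 - s) / (1 - s)
  | j + 1, u => ((Real.log u : ℂ) ^ (j + 1) * (u : ℂ) ^ (1 - s) - (j + 1) * Gj s j u) / (1 - s)

theorem Gj_hasDerivAt {s : ℂ} (hs : s ≠ 1) (j : ℕ) : ∀ {u : ℝ}, 0 < u →
    HasDerivAt (Gj s j) (gj j s u) u := by
  have hs' : 1 - s ≠ 0 := sub_ne_zero.2 (Ne.symm hs)
  have hpow : ∀ {u : ℝ}, 0 < u → HasDerivAt (fun u : ℝ => (u : ℂ) ^ (1 - s))
      ((1 - s) * (u : ℂ) ^ (-s)) u := by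
    intro u hu
    have h3 : HasDerivAt (fun z : ℂ => z ^ (1 - s)) ((1 - s) * (u : ℂ) ^ (-s)) (u : ℂ) := by
      have := (hasDerivAt_id (u : ℂ)).cpow_const (c := 1 - s) (by
        left
        simpa using hu)
      have e : 1 - s - 1 = -s := by ring
      rw [e] at this
      simpa using this
    exact h3.comp_ofReal
  induction j with
  | zero =>
    intro u hu
    have := (hpow hu).div_const (1 - s)
    refine this.congr_deriv ?_
    unfold gj
    field_simp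
  | succ j ih =>
    intro u hu
    have h1 : HasDerivAt (fun u : ℝ => (Real.log u : ℂ)) ((u⁻¹ : ℝ) : ℂ) u :=
      (Real.hasDerivAt_log hu.ne').ofReal_comp
    have h1' : HasDerivAt (fun u : ℝ => (Real.log u : ℂ) ^ (j + 1))
        (((j + 1 : ℕ) : ℂ) * (Real.log u : ℂ) ^ j * ((u⁻¹ : ℝ) : ℂ)) u := by
      have := h1.pow (j + 1)
      simpa using! this
    have h2 : HasDerivAt (Gj s (j + 1)) _ u := ((h1'.mul (hpow hu)).sub
      ((ih hu).const_mul ((j : ℂ) + 1))).div_const (1 - s)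
    refine h2.congr_deriv ?_
    have e1 : (u : ℂ) ^ (1 - s) = (u : ℂ) * (u : ℂ) ^ (-s) := by
      rw [sub_eq_add_neg, Complex.cpow_add _ _ (by exact_mod_cast hu.ne'), Complex.cpow_one]
    have hu' : (u : ℂ) ≠ 0 := by exact_mod_cast hu.ne'
    simp only [e1]
    unfold gj
    push_cast
    field_simp
    ring

theorem Gj_zero_norm (s : ℂ) {u : ℝ} (hu : 1 ≤ u) :
    ‖Gj s 0 u‖ = u ^ (1 - s.re) / ‖s - 1‖ := by
  show ‖(u : ℂ) ^ (1 - s) / (1 - s)‖ = _
  rw [norm_div, Complex.norm_cpow_eq_rpow_re_of_pos (by linarith), norm_sub_rev 1 s]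
  simp

theorem Gj_norm (j : ℕ) : ∃ C : ℝ, 0 < C ∧ ∀ s : ℂ, 1 / 2 ≤ ‖s - 1‖ →
    ∀ u : ℝ, 1 ≤ u → ‖Gj s j u‖ ≤ C * (1 + Real.log u) ^ j * u ^ (1 - s.re) := by
  induction j with
  | zero =>
    refine ⟨2, by norm_num, fun s hs u hu => ?_⟩
    rw [Gj_zero_norm s hu, pow_zero, mul_one, div_le_iff₀ (by linarith)]
    have : 0 ≤ u ^ (1 - s.re) := by positivity
    nlinarith
  | succ j ih =>
    obtain ⟨C, hC, ih⟩ := ih
    refine ⟨2 * (1 + (j + 1) * C), by positivity, fun s hs u hu => ?_⟩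
    show ‖((Real.log u : ℂ) ^ (j + 1) * (u : ℂ) ^ (1 - s) - (j + 1) * Gj s j u) / (1 - s)‖ ≤ _
    have hl : 0 ≤ Real.log u := Real.log_nonneg hu
    have hp : 0 ≤ u ^ (1 - s.re) := by positivity
    have h1 : ‖(Real.log u : ℂ) ^ (j + 1) * (u : ℂ) ^ (1 - s)‖ ≤
        (1 + Real.log u) ^ (j + 1) * u ^ (1 - s.re) := by
      rw [norm_mul, norm_pow, Complex.norm_real, Real.norm_of_nonneg hl,
        Complex.norm_cpow_eq_rpow_re_of_pos (by linarith)]
      have e : (1 - s).re = 1 - s.re := by simp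
      rw [e]
      exact mul_le_mul_of_nonneg_right (pow_le_pow_left₀ hl (by linarith) _) hp
    have h2 : ‖((j : ℂ) + 1) * Gj s j u‖ ≤
        (j + 1) * C * ((1 + Real.log u) ^ (j + 1) * u ^ (1 - s.re)) := by
      have e : ‖((j : ℂ) + 1)‖ = j + 1 := by
        have : ((j : ℂ) + 1) = ((j + 1 : ℕ) : ℂ) := by push_cast; ring
        rw [this, Complex.norm_natCast]
        push_cast
        ring
      rw [norm_mul, e]
      have h3 := ih s hs u hu
      have h4 : (1 + Real.log u) ^ j ≤ (1 + Real.log u) ^ (j + 1) :=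
        pow_le_pow_right₀ (by linarith) (Nat.le_succ _)
      have h5 : C * (1 + Real.log u) ^ j * u ^ (1 - s.re) ≤
          C * (1 + Real.log u) ^ (j + 1) * u ^ (1 - s.re) :=
        mul_le_mul_of_nonneg_right (mul_le_mul_of_nonneg_left h4 hC.le) hp
      calc ((j : ℝ) + 1) * ‖Gj s j u‖ ≤
          (j + 1) * (C * (1 + Real.log u) ^ (j + 1) * u ^ (1 - s.re)) :=
            mul_le_mul_of_nonneg_left (h3.trans h5) (by positivity)
        _ = _ := by ring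
    rw [norm_div, norm_sub_rev 1 s, div_le_iff₀ (by linarith)]
    have h6 := (norm_sub_le ((Real.log u : ℂ) ^ (j + 1) * (u : ℂ) ^ (1 - s))
      (((j : ℂ) + 1) * Gj s j u)).trans (add_le_add h1 h2)
    refine h6.trans ?_
    have h7 : 0 ≤ (1 + (j + 1) * C) * ((1 + Real.log u) ^ (j + 1) * u ^ (1 - s.re)) := by
      positivity
    calc (1 + Real.log u) ^ (j + 1) * u ^ (1 - s.re) +
        (j + 1) * C * ((1 + Real.log u) ^ (j + 1) * u ^ (1 - s.re)) =
        ((1 + (j + 1) * C) * ((1 + Real.log u) ^ (j + 1) * u ^ (1 - s.re))) * 1 := by ring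
      _ ≤ ((1 + (j + 1) * C) * ((1 + Real.log u) ^ (j + 1) * u ^ (1 - s.re))) *
          (2 * ‖s - 1‖) := mul_le_mul_of_nonneg_left (by linarith) h7
      _ = 2 * (1 + (j + 1) * C) * (1 + Real.log u) ^ (j + 1) * u ^ (1 - s.re) * ‖s - 1‖ := by ring

theorem Gj_tendsto {s : ℂ} (hs : 1 < s.re) (hs1 : 1 / 2 ≤ ‖s - 1‖ ) (j : ℕ) :
    Filter.Tendsto (fun K : ℕ => Gj s j K) Filter.atTop (nhds 0) := by
  obtain ⟨C, hC, h⟩ := Gj_norm j
  have h1 : Filter.Tendsto (fun x : ℝ => Real.log x ^ (j : ℝ) / x ^ (s.re - 1)) Filter.atTop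
      (nhds 0) :=
    (isLittleO_log_rpow_rpow_atTop (j : ℝ) (by linarith : 0 < s.re - 1)).tendsto_div_nhds_zero
  have h2 : Filter.Tendsto (fun x : ℝ => (C * 2 ^ j) * (Real.log x ^ (j : ℝ) / x ^ (s.re - 1)))
      Filter.atTop (nhds 0) := by
    simpa using h1.const_mul (C * 2 ^ j)
  have h3 : Filter.Tendsto (fun K : ℕ => (C * 2 ^ j) * (Real.log (K : ℝ) ^ (j : ℝ) /
      (K : ℝ) ^ (s.re - 1))) Filter.atTop (nhds 0) := h2.comp tendsto_natCast_atTop_atTop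
  refine squeeze_zero_norm' ?_ h3
  filter_upwards [Filter.eventually_ge_atTop 3] with K hK
  have hK' : (3 : ℝ) ≤ K := by exact_mod_cast hK
  have hl := SumTools_log_ge_one hK'
  refine (h s hs1 K (by linarith)).trans ?_
  rw [Real.rpow_natCast]
  have e1 : (K : ℝ) ^ (1 - s.re) = ((K : ℝ) ^ (s.re - 1))⁻¹ := by
    rw [← Real.rpow_neg (by positivity)]
    congr 1
    ring
  have e2 : (1 + Real.log K) ^ j ≤ (2 * Real.log K) ^ j :=
    pow_le_pow_left₀ (by linarith) (by linarith) _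
  rw [e1]
  calc C * (1 + Real.log K) ^ j * ((K : ℝ) ^ (s.re - 1))⁻¹ ≤
      C * (2 * Real.log K) ^ j * ((K : ℝ) ^ (s.re - 1))⁻¹ :=
        mul_le_mul_of_nonneg_right (mul_le_mul_of_nonneg_left e2 hC.le) (by positivity)
    _ = _ := by rw [mul_pow]; ring

theorem Gj_zero_tendsto {s : ℂ} (hs : 1 < s.re) :
    Filter.Tendsto (fun K : ℕ => Gj s 0 K) Filter.atTop (nhds 0) := by
  have h1 : Filter.Tendsto (fun x : ℝ => x ^ (1 - s.re) / ‖s - 1‖) Filter.atTop (nhds 0) := by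
    have h2 : Filter.Tendsto (fun x : ℝ => x ^ (-(s.re - 1))) Filter.atTop (nhds 0) :=
      tendsto_rpow_neg_atTop (by linarith)
    have h3 := h2.div_const ‖s - 1‖
    simpa using h3
  refine squeeze_zero_norm' ?_ (h1.comp tendsto_natCast_atTop_atTop)
  filter_upwards [Filter.eventually_ge_atTop 1] with K hK
  have hK' : (1 : ℝ) ≤ K := by exact_mod_cast hK
  rw [Gj_zero_norm s hK']
  rfl

/-! ### sums of `gB` -/

private theorem SumTools_step (j : ℕ) {n : ℕ} (hn : 1 ≤ n) :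
    Real.log (n + 1) ^ j / (n : ℝ) ^ 2 ≤
      8 * ((2 * j + Real.log n) ^ j / n - (2 * j + Real.log (n + 1)) ^ j / (n + 1)) := by
  have hn' : (1 : ℝ) ≤ n := by exact_mod_cast hn
  have hn0 : (0 : ℝ) < n := by linarith
  have hd : ∀ u : ℝ, 1 ≤ u → HasDerivAt (fun u => (2 * j + Real.log u) ^ j / u)
      ((j * (2 * j + Real.log u) ^ (j - 1) * u⁻¹ * u - (2 * j + Real.log u) ^ j * 1) / u ^ 2) u := by
    intro u hu
    have h1 : HasDerivAt (fun u => 2 * j + Real.log u) (u⁻¹) u :=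
      (Real.hasDerivAt_log (by linarith)).const_add _
    exact (h1.pow j).div (hasDerivAt_id u) (by simp; linarith)
  obtain ⟨κ, hκ⟩ : ∃ κ : ℝ, κ = (1 / 2) * ((2 * j + Real.log n) ^ j / (n + 1) ^ 2) := ⟨_, rfl⟩
  have hanti : AntitoneOn (fun u => (2 * j + Real.log u) ^ j / u + κ * u) (Set.Icc (n : ℝ) (n + 1)) := by
    have hd2 : ∀ u : ℝ, 1 ≤ u → HasDerivAt (fun u => (2 * j + Real.log u) ^ j / u + κ * u)
      ((j * (2 * j + Real.log u) ^ (j - 1) * u⁻¹ * u - (2 * j + Real.log u) ^ j * 1) / u ^ 2 + κ) u := by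
      intro u hu
      have h3 : HasDerivAt (fun u : ℝ => κ * u) κ u := by
        simpa using (hasDerivAt_id u).const_mul κ
      exact (hd u hu).add h3
    refine antitoneOn_of_deriv_nonpos (convex_Icc _ _) ?_ ?_ ?_
    · intro u hu
      exact (hd2 u (by linarith [hu.1])).continuousAt.continuousWithinAt
    · intro u hu
      rw [interior_Icc] at hu
      exact (hd2 u (by linarith [hu.1])).differentiableAt.differentiableWithinAt
    · intro u hu
      rw [interior_Icc] at hu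
      have hu1 : 1 ≤ u := by linarith [hu.1]
      have hu0 : 0 < u := by linarith
      rw [(hd2 u hu1).deriv]
      have hl : 0 ≤ Real.log u := Real.log_nonneg hu1
      have hln : 0 ≤ Real.log n := Real.log_nonneg hn'
      have hlu : Real.log n ≤ Real.log u := Real.log_le_log hn0 hu.1.le
      have e1 : (j : ℝ) * (2 * j + Real.log u) ^ (j - 1) ≤ 1 / 2 * (2 * j + Real.log u) ^ j := by
        rcases Nat.eq_zero_or_pos j with h0 | h0
        · subst h0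
          simp
        · obtain ⟨i, rfl⟩ : ∃ i, j = i + 1 := ⟨j - 1, by omega⟩
          rw [Nat.add_sub_cancel, pow_succ]
          have : 0 ≤ (2 * ((i + 1 : ℕ) : ℝ) + Real.log u) ^ i := by positivity
          nlinarith
      have e2 : (2 * j + Real.log n) ^ j ≤ (2 * j + Real.log u) ^ j :=
        pow_le_pow_left₀ (by positivity) (by linarith) _
      have e3 : κ ≤ (1 / 2) * ((2 * j + Real.log u) ^ j / u ^ 2) := by
        rw [hκ]
        refine mul_le_mul_of_nonneg_left ?_ (by norm_num)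
        exact div_le_div₀ (by positivity) e2 (by positivity)
          (pow_le_pow_left₀ hu0.le hu.2.le 2)
      have e4 : (j : ℝ) * (2 * j + Real.log u) ^ (j - 1) * u⁻¹ * u =
          j * (2 * j + Real.log u) ^ (j - 1) := by
        field_simp
      rw [e4, mul_one]
      have e5 : (j * (2 * j + Real.log u) ^ (j - 1) - (2 * j + Real.log u) ^ j) / u ^ 2 ≤
          (-(1 / 2) * (2 * j + Real.log u) ^ j) / u ^ 2 :=
        div_le_div_of_nonneg_right (by linarith) (by positivity)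
      have e6 : (-(1 / 2) * (2 * j + Real.log u) ^ j) / u ^ 2 =
          -((1 / 2) * ((2 * j + Real.log u) ^ j / u ^ 2)) := by ring
      linarith
  have h1 := hanti (Set.left_mem_Icc.2 (by linarith)) (Set.right_mem_Icc.2 (by linarith))
    (by linarith : (n : ℝ) ≤ n + 1)
  simp only at h1
  have h2 : κ ≤ (2 * j + Real.log n) ^ j / n - (2 * j + Real.log (n + 1)) ^ j / (n + 1) := by
    linarith
  refine le_trans ?_ (mul_le_mul_of_nonneg_left h2 (by norm_num : (0 : ℝ) ≤ 8))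
  rw [hκ]
  have hln : 0 ≤ Real.log n := Real.log_nonneg hn'
  have hln1 : 0 ≤ Real.log ((n : ℝ) + 1) := Real.log_nonneg (by linarith)
  have e1 : Real.log (n + 1) ≤ Real.log n + 1 := by
    have h3 : Real.log ((n : ℝ) + 1) = Real.log n + Real.log (1 + 1 / n) := by
      rw [← Real.log_mul (by positivity) (by positivity)]
      congr 1
      field_simp
    have h4 : Real.log (1 + 1 / (n : ℝ)) ≤ 1 / n := by
      have := Real.log_le_sub_one_of_pos (by positivity : (0 : ℝ) < 1 + 1 / n)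
      linarith
    have h5 : 1 / (n : ℝ) ≤ 1 := by rw [div_le_one hn0]; exact hn'
    linarith
  have e2 : Real.log (n + 1) ^ j ≤ (2 * j + Real.log n) ^ j := by
    rcases Nat.eq_zero_or_pos j with h0 | h0
    · subst h0
      simp
    · have : (1 : ℝ) ≤ j := by exact_mod_cast h0
      exact pow_le_pow_left₀ hln1 (by linarith) _
  have e3 : ((n : ℝ) + 1) ^ 2 ≤ 4 * (n : ℝ) ^ 2 := by nlinarith
  rw [div_le_iff₀ (by positivity)]
  have e4 : 8 * (1 / 2 * ((2 * j + Real.log n) ^ j / ((n : ℝ) + 1) ^ 2)) * (n : ℝ) ^ 2 =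
      (2 * j + Real.log n) ^ j * (4 * (n : ℝ) ^ 2 / ((n : ℝ) + 1) ^ 2) := by ring
  rw [e4]
  have e5 : 1 ≤ 4 * (n : ℝ) ^ 2 / ((n : ℝ) + 1) ^ 2 := by
    rw [le_div_iff₀ (by positivity)]
    linarith
  calc Real.log (n + 1) ^ j ≤ (2 * j + Real.log n) ^ j * 1 := by linarith
    _ ≤ _ := mul_le_mul_of_nonneg_left e5 (by positivity)

theorem sum_log_div_sq (j : ℕ) {N K : ℕ} (hN : 3 ≤ N) (hK : N ≤ K) :
    ∑ n ∈ Ico N K, Real.log (n + 1) ^ j / (n : ℝ) ^ 2 ≤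
      8 * (2 * j + 1) ^ j * (Real.log N ^ j / N) := by
  have h1 : ∀ K, N ≤ K → ∑ n ∈ Ico N K, Real.log (n + 1) ^ j / (n : ℝ) ^ 2 ≤
      8 * ((2 * j + Real.log N) ^ j / N - (2 * j + Real.log K) ^ j / K) := by
    intro K hK
    induction K, hK using Nat.le_induction with
    | base => simp
    | succ K hK ih =>
      rw [Finset.sum_Ico_succ_top hK]
      have h2 := SumTools_step j (n := K) (by omega)
      push_cast
      linarith
  have hN' : (3 : ℝ) ≤ N := by exact_mod_cast hN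
  have hl := SumTools_log_ge_one hN'
  refine (h1 K hK).trans ?_
  have hK' : (3 : ℝ) ≤ K := by
    have : 3 ≤ K := hN.trans hK
    exact_mod_cast this
  have hlK := SumTools_log_ge_one hK'
  have h3 : 0 ≤ (2 * j + Real.log K) ^ j / (K : ℝ) := by positivity
  have h4 : (2 * j + Real.log N) ^ j ≤ ((2 * j + 1) * Real.log N) ^ j := by
    refine pow_le_pow_left₀ (by positivity) ?_ _
    have : (0 : ℝ) ≤ j := by positivity
    nlinarith
  have h5 : (2 * j + Real.log N) ^ j / (N : ℝ) ≤ ((2 * j + 1) * Real.log N) ^ j / N :=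
    div_le_div_of_nonneg_right h4 (by positivity)
  rw [mul_pow] at h5
  calc 8 * ((2 * j + Real.log N) ^ j / N - (2 * j + Real.log K) ^ j / K) ≤
      8 * ((2 * j + 1) ^ j * Real.log N ^ j / N) := by linarith
    _ = _ := by ring

theorem sum_gB (j : ℕ) (s : ℂ) {N K : ℕ} (hN : 3 ≤ N) (hK : N ≤ K) :
    ∑ n ∈ Ico N K, gB j s n ≤ (j + ‖s‖) * (8 * (2 * j + 1) ^ j * (Real.log N ^ j / N)) := by
  have h1 : ∑ n ∈ Ico N K, gB j s n =
      (j + ‖s‖) * ∑ n ∈ Ico N K, Real.log (n + 1) ^ j / (n : ℝ) ^ 2 := by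
    rw [Finset.mul_sum]
    refine Finset.sum_congr rfl fun n _ => ?_
    unfold gB
    ring
  rw [h1]
  exact mul_le_mul_of_nonneg_left (sum_log_div_sq j hN hK) (by positivity)

/-! ### Abel summation -/

theorem abel_bound {b g : ℕ → ℂ} {N : ℕ} {B : ℝ} (hB : ∀ n, N ≤ n → ‖∑ m ∈ Ico N n, b m‖ ≤ B)
    {K : ℕ} (hK : N ≤ K) :
    ‖∑ n ∈ Ico N K, b n * g n‖ ≤ B * (‖g K‖ + ∑ n ∈ Ico N K, ‖g (n + 1) - g n‖) := by
  have hid : ∑ n ∈ Ico N K, b n * g n = (∑ m ∈ Ico N K, b m) * g K -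
      ∑ n ∈ Ico N K, (∑ m ∈ Ico N (n + 1), b m) * (g (n + 1) - g n) := by
    induction K, hK using Nat.le_induction with
    | base => simp
    | succ K hK ih =>
      rw [Finset.sum_Ico_succ_top hK, ih, Finset.sum_Ico_succ_top hK,
        Finset.sum_Ico_succ_top hK (fun n => (∑ m ∈ Ico N (n + 1), b m) * (g (n + 1) - g n)),
        Finset.sum_Ico_succ_top hK]
      ring
  rw [hid]
  refine (norm_sub_le _ _).trans ?_
  rw [mul_add]
  refine add_le_add ?_ ?_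
  · rw [norm_mul]
    exact mul_le_mul_of_nonneg_right (hB K hK) (norm_nonneg _)
  · refine (norm_sum_le _ _).trans ?_
    rw [Finset.mul_sum]
    refine Finset.sum_le_sum fun n hn => ?_
    rw [norm_mul]
    exact mul_le_mul_of_nonneg_right (hB (n + 1) (by have := (Finset.mem_Ico.1 hn).1; omega))
      (norm_nonneg _)

theorem tail_bound (j : ℕ) {s : ℂ} (hs : 1 ≤ s.re) {N K : ℕ} (hN : 3 ≤ N) (hK : N ≤ K)
    {b : ℕ → ℂ} {B : ℝ} (hB : ∀ n, N ≤ n → ‖∑ m ∈ Ico N n, b m‖ ≤ B) :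
    ‖∑ n ∈ Ico N K, b n * gj j s n‖ ≤
      B * ((1 + 2 * ((j + ‖s‖) * (8 * (2 * j + 1) ^ j))) * (Real.log N ^ j / N)) := by
  have hB0 : 0 ≤ B := (norm_nonneg _).trans (hB N le_rfl)
  have h1 := abel_bound (g := fun n => gj j s n) hB hK
  refine h1.trans (mul_le_mul_of_nonneg_left ?_ hB0)
  have hN' : (3 : ℝ) ≤ N := by exact_mod_cast hN
  have h2 : ∀ n ∈ Ico N K, ‖gj j s ((n + 1 : ℕ) : ℝ) - gj j s n‖ ≤ gB j s n := by
    intro n hn
    have hn2 : 2 ≤ n := by have := (Finset.mem_Ico.1 hn).1; omega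
    have := gj_sub_norm j hs hn2 (u := (n : ℝ) + 1) (by linarith) le_rfl
    simpa using this
  have h3 : ∑ n ∈ Ico N K, ‖gj j s ((n + 1 : ℕ) : ℝ) - gj j s n‖ ≤
      (j + ‖s‖) * (8 * (2 * j + 1) ^ j * (Real.log N ^ j / N)) :=
    (Finset.sum_le_sum h2).trans (sum_gB j s hN hK)
  have h4 : ‖gj j s N‖ ≤ Real.log N ^ j / N := by
    rw [gj_norm j s (by linarith), div_eq_mul_inv]
    refine mul_le_mul_of_nonneg_left ?_ (pow_nonneg (Real.log_nonneg (by linarith)) _)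
    calc (N : ℝ) ^ (-s.re) ≤ (N : ℝ) ^ (-1 : ℝ) :=
          Real.rpow_le_rpow_of_exponent_le (by linarith) (by linarith)
      _ = (N : ℝ)⁻¹ := Real.rpow_neg_one _
  have h5 : gj j s K = gj j s N + ∑ n ∈ Ico N K, (gj j s ((n + 1 : ℕ) : ℝ) - gj j s n) := by
    clear h1 h2 h3
    induction K, hK using Nat.le_induction with
    | base => simp
    | succ K hK ih =>
      rw [Finset.sum_Ico_succ_top hK, ← add_assoc, ← ih]
      ring
  have h6 : ‖gj j s K‖ ≤ ‖gj j s N‖ + ∑ n ∈ Ico N K, ‖gj j s ((n + 1 : ℕ) : ℝ) - gj j s n‖ := by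
    rw [h5]
    exact (norm_add_le _ _).trans (add_le_add le_rfl (norm_sum_le _ _))
  calc ‖gj j s K‖ + ∑ n ∈ Ico N K, ‖gj j s ((n + 1 : ℕ) : ℝ) - gj j s n‖ ≤
      Real.log N ^ j / N + 2 * ((j + ‖s‖) * (8 * (2 * j + 1) ^ j * (Real.log N ^ j / N))) := by
        linarith
    _ = _ := by ring

/-- comparison with the integral -/
theorem int_bound (j : ℕ) {s : ℂ} (hs : 1 ≤ s.re) (hs1 : s ≠ 1) {N K : ℕ} (hN : 3 ≤ N)
    (hK : N ≤ K) :
    ‖∑ n ∈ Ico N K, gj j s n - (Gj s j K - Gj s j N)‖ ≤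
      (j + ‖s‖) * (8 * (2 * j + 1) ^ j * (Real.log N ^ j / N)) := by
  have h1 : ∑ n ∈ Ico N K, gj j s n - (Gj s j K - Gj s j N) =
      ∑ n ∈ Ico N K, (gj j s n - (Gj s j ((n + 1 : ℕ) : ℝ) - Gj s j n)) := by
    induction K, hK using Nat.le_induction with
    | base => simp
    | succ K hK ih =>
      rw [Finset.sum_Ico_succ_top hK, Finset.sum_Ico_succ_top hK, ← ih]
      ring
  rw [h1]
  refine (norm_sum_le _ _).trans ((Finset.sum_le_sum ?_).trans (sum_gB j s hN hK))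
  intro n hn
  have hn2 : 2 ≤ n := by have := (Finset.mem_Ico.1 hn).1; omega
  have hn' : (2 : ℝ) ≤ n := by exact_mod_cast hn2
  have h2 := Convex.norm_image_sub_le_of_norm_hasDerivWithin_le
    (f := fun u : ℝ => Gj s j u - (u : ℂ) * gj j s n)
    (f' := fun u => gj j s u - gj j s n) (C := gB j s n)
    (s := Set.Icc (n : ℝ) (n + 1)) (x := (n : ℝ)) (y := (n : ℝ) + 1)
    (fun x hx => by
      have e1 := Gj_hasDerivAt hs1 j (u := x) (by linarith [hx.1])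
      have e2 : HasDerivAt (fun u : ℝ => (u : ℂ) * gj j s n) (gj j s n) x := by
        have := (hasDerivAt_id x).ofReal_comp.mul_const (gj j s n)
        simpa using this
      exact (e1.sub e2).hasDerivWithinAt)
    (fun x hx => gj_sub_norm j hs hn2 hx.1 hx.2) (convex_Icc _ _)
    ⟨le_rfl, by linarith⟩ ⟨by linarith, le_rfl⟩
  have e3 : (n : ℝ) + 1 - n = 1 := by ring
  rw [e3, norm_one, mul_one] at h2
  refine le_trans (le_of_eq ?_) h2
  rw [← norm_neg]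
  congr 1
  push_cast
  ring

/-- the beginning of the sum -/
theorem head_bound (j : ℕ) {s : ℂ} (hs : 1 ≤ s.re) {b : ℕ → ℂ} (hb : ∀ n, ‖b n‖ ≤ 1) {N : ℕ}
    (hN : 3 ≤ N) :
    ‖∑ n ∈ Ico 1 N, b n * gj j s n‖ ≤ Real.log N ^ j * (1 + Real.log N) := by
  have hN' : (3 : ℝ) ≤ N := by exact_mod_cast hN
  have hl := SumTools_log_ge_one hN'
  have h1 : ∀ n ∈ Ico 1 N, ‖b n * gj j s n‖ ≤ Real.log N ^ j * (n : ℝ)⁻¹ := by
    intro n hn
    rw [Finset.mem_Ico] at hn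
    have hn1 : (1 : ℝ) ≤ n := by exact_mod_cast hn.1
    have hn2 : (n : ℝ) ≤ N := by exact_mod_cast hn.2.le
    rw [norm_mul, gj_norm j s hn1]
    have e1 : Real.log n ^ j ≤ Real.log N ^ j :=
      pow_le_pow_left₀ (Real.log_nonneg hn1) (Real.log_le_log (by linarith) hn2) _
    have e2 : (n : ℝ) ^ (-s.re) ≤ (n : ℝ)⁻¹ := by
      calc (n : ℝ) ^ (-s.re) ≤ (n : ℝ) ^ (-1 : ℝ) :=
            Real.rpow_le_rpow_of_exponent_le hn1 (by linarith)
        _ = (n : ℝ)⁻¹ := Real.rpow_neg_one _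
    have e3 : 0 ≤ Real.log (n : ℝ) ^ j := pow_nonneg (Real.log_nonneg hn1) _
    calc ‖b n‖ * (Real.log n ^ j * (n : ℝ) ^ (-s.re)) ≤ 1 * (Real.log n ^ j * (n : ℝ) ^ (-s.re)) :=
          mul_le_mul_of_nonneg_right (hb n) (by positivity)
      _ ≤ Real.log N ^ j * (n : ℝ)⁻¹ := by
          rw [one_mul]
          exact mul_le_mul e1 e2 (by positivity) (by positivity)
  refine (norm_sum_le _ _).trans ((Finset.sum_le_sum h1).trans ?_)
  rw [← Finset.mul_sum]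
  refine mul_le_mul_of_nonneg_left ?_ (by positivity)
  have h2 : ∑ n ∈ Ico 1 N, (n : ℝ)⁻¹ ≤ ((harmonic N : ℚ) : ℝ) := by
    have h3 : ((harmonic N : ℚ) : ℝ) = ∑ n ∈ Icc 1 N, (n : ℝ)⁻¹ := by
      rw [harmonic_eq_sum_Icc]
      push_cast
      rfl
    rw [h3]
    refine Finset.sum_le_sum_of_subset_of_nonneg ?_ (fun _ _ _ => by positivity)
    intro n hn
    rw [Finset.mem_Ico] at hn
    rw [Finset.mem_Icc]
    omega
  exact h2.trans (harmonic_le_one_add_log N)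

/-! ### periodic functions -/

theorem periodic_sum_shift {b : ℕ → ℂ} {q : ℕ} (hb : ∀ n, b (n + q) = b n) (N : ℕ) :
    ∑ m ∈ Ico N (N + q), b m = ∑ m ∈ range q, b m := by
  induction N with
  | zero => simp
  | succ N ih =>
    have h1 : ∑ m ∈ Ico N (N + q + 1), b m = b N + ∑ m ∈ Ico (N + 1) (N + q + 1), b m := by
      rw [Finset.sum_eq_sum_Ico_succ_bot (by omega)]
    have h2 : ∑ m ∈ Ico N (N + q + 1), b m = ∑ m ∈ Ico N (N + q), b m + b (N + q) :=
      Finset.sum_Ico_succ_top (by omega) _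
    have h3 : N + 1 + q = N + q + 1 := by ring
    rw [h3, ← ih]
    rw [hb] at h2
    have := h1.symm.trans h2
    linear_combination this

theorem periodic_bound {b : ℕ → ℂ} {q : ℕ} (hq : 1 ≤ q) (hb : ∀ n, b (n + q) = b n)
    (h0 : ∑ m ∈ range q, b m = 0) (h1 : ∀ n, ‖b n‖ ≤ 1) :
    ∀ (k N : ℕ), ‖∑ m ∈ Ico N (N + k), b m‖ ≤ q := by
  intro k
  induction k using Nat.strong_induction_on with
  | _ k ih =>
    intro N
    by_cases hk : k < q
    · refine (norm_sum_le _ _).trans ((Finset.sum_le_sum fun n _ => h1 n).trans ?_)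
      simp only [sum_const, Nat.card_Ico, nsmul_eq_mul, mul_one]
      have : N + k - N = k := by omega
      rw [this]
      exact_mod_cast hk.le
    · push Not at hk
      have h2 := ih (k - q) (by omega) (N + q)
      have e : N + q + (k - q) = N + k := by omega
      rw [e] at h2
      have h3 : ∑ m ∈ Ico N (N + k), b m =
          ∑ m ∈ Ico N (N + q), b m + ∑ m ∈ Ico (N + q) (N + k), b m :=
        (Finset.sum_Ico_consecutive _ (by omega) (by omega)).symm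
      rw [h3, periodic_sum_shift hb, h0, zero_add]
      exact h2

theorem sum_range_zmod {q : ℕ} [NeZero q] (f : ZMod q → ℂ) :
    ∑ m ∈ range q, f (m : ZMod q) = ∑ a : ZMod q, f a := by
  refine Finset.sum_nbij' (fun i => (i : ZMod q)) ZMod.val ?_ ?_ ?_ ?_ ?_
  · intro i _
    exact Finset.mem_univ _
  · intro a _
    exact Finset.mem_range.2 (ZMod.val_lt a)
  · intro i hi
    exact ZMod.val_natCast_of_lt (Finset.mem_range.1 hi)
  · intro a _
    exact ZMod.natCast_zmod_val a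
  · intro i _
    rfl

theorem char_sum_bound {q : ℕ} (hq : 1 ≤ q) (χ : DirichletCharacter ℂ q) (hχ : χ ≠ 1)
    {N n : ℕ} (hn : N ≤ n) : ‖∑ m ∈ Ico N n, χ (m : ZMod q)‖ ≤ q := by
  have : NeZero q := ⟨by omega⟩
  obtain ⟨k, rfl⟩ := Nat.exists_eq_add_of_le hn
  refine periodic_bound (b := fun m => χ (m : ZMod q)) hq ?_ ?_ ?_ k N
  · intro m
    simp
  · rw [sum_range_zmod (fun a => χ a)]
    exact MulChar.sum_eq_zero_of_ne_one hχ
  · intro m
    exact DirichletCharacter.norm_le_one χ _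

/-! ### the parameter `N` -/

/-- the splitting point -/
noncomputable def NN (q : ℕ) (t : ℝ) : ℕ := ⌈(q : ℝ) * (|t| + 3)⌉₊

theorem NN_ge (q : ℕ) (t : ℝ) : (q : ℝ) * (|t| + 3) ≤ NN q t := Nat.le_ceil _

theorem NN_three {q : ℕ} (hq : 1 ≤ q) (t : ℝ) : 3 ≤ NN q t := by
  have hq' : (1 : ℝ) ≤ q := by exact_mod_cast hq
  have h := NN_ge q t
  have h1 := abs_nonneg t
  have : (3 : ℝ) ≤ NN q t := by nlinarith
  exact_mod_cast this

theorem ell_ge_one {q : ℕ} (hq : 1 ≤ q) (t : ℝ) : 1 ≤ ell q t := by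
  have hq' : (1 : ℝ) ≤ q := by exact_mod_cast hq
  have h1 := abs_nonneg t
  exact SumTools_log_ge_one (by nlinarith)

theorem NN_log {q : ℕ} (hq : 1 ≤ q) (t : ℝ) : Real.log (NN q t) ≤ 2 * ell q t := by
  have hq' : (1 : ℝ) ≤ q := by exact_mod_cast hq
  have h1 := abs_nonneg t
  have h3 : 3 ≤ (q : ℝ) * (|t| + 3) := by nlinarith
  have h4 : (NN q t : ℝ) < q * (|t| + 3) + 1 := Nat.ceil_lt_add_one (by linarith)
  have h5 : (NN q t : ℝ) ≤ (q * (|t| + 3)) ^ 2 := by nlinarith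
  have h6 := NN_ge q t
  calc Real.log (NN q t) ≤ Real.log ((q * (|t| + 3)) ^ 2) :=
        Real.log_le_log (by linarith) h5
    _ = 2 * ell q t := by
        rw [Real.log_pow]
        rfl

theorem NN_s {q : ℕ} (hq : 1 ≤ q) {s : ℂ} (hs : 0 ≤ s.re) (hs2 : s.re ≤ 2) :
    (q : ℝ) * (1 + ‖s‖) / NN q s.im ≤ 1 := by
  have hq' : (1 : ℝ) ≤ q := by exact_mod_cast hq
  have h3 : (3 : ℝ) ≤ NN q s.im := by exact_mod_cast NN_three hq s.im
  rw [div_le_one (by linarith)]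
  refine le_trans ?_ (NN_ge q s.im)
  refine mul_le_mul_of_nonneg_left ?_ (by linarith)
  have h1 := Complex.norm_le_abs_re_add_abs_im s
  rw [abs_of_nonneg hs] at h1
  linarith

/-! ### the Dirichlet series -/

theorem term_eq {q : ℕ} (χ : DirichletCharacter ℂ q) (j : ℕ) (s : ℂ) {n : ℕ} (hn : 1 ≤ n) :
    LSeries.term (ej χ j) s n = χ n * gj j s n := by
  rw [LSeries.term_of_ne_zero (by omega)]
  unfold ej gj
  rw [Complex.cpow_neg, div_eq_mul_inv]
  push_cast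
  ring

/-- a uniform bound for the partial sums bounds the series -/
theorem LSeries_le {q : ℕ} (χ : DirichletCharacter ℂ q) (j : ℕ) (s : ℂ) {M : ℝ} {E : ℕ → ℝ}
    (hM : 0 ≤ M) (hE : Filter.Tendsto E Filter.atTop (nhds 0)) {N : ℕ}
    (h : ∀ K, N ≤ K → ‖∑ n ∈ Ico 1 K, χ (n : ZMod q) * gj j s (n : ℝ)‖ ≤ M + E K) :
    ‖LSeries (ej χ j) s‖ ≤ M := by
  by_cases hs : LSeriesSummable (ej χ j) s
  · have h1 := hs.hasSum.tendsto_sum_nat
    have h2 : Filter.Tendsto (fun K : ℕ => ∑ n ∈ Ico 1 K, χ (n : ZMod q) * gj j s (n : ℝ))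
        Filter.atTop
        (nhds (LSeries (ej χ j) s)) := by
      refine Filter.Tendsto.congr' ?_ h1
      filter_upwards [Filter.eventually_ge_atTop 1] with K hK
      rw [Finset.range_eq_Ico, Finset.sum_eq_sum_Ico_succ_bot (by omega), LSeries.term_zero,
        zero_add]
      refine Finset.sum_congr rfl fun n hn => ?_
      exact term_eq χ j s (Finset.mem_Ico.1 hn).1
    have h3 : Filter.Tendsto (fun K => M + E K) Filter.atTop (nhds M) := by
      simpa using hE.const_add M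
    refine le_of_tendsto_of_tendsto h2.norm h3 ?_
    filter_upwards [Filter.eventually_ge_atTop N] with K hK
    exact h K hK
  · have : LSeries (ej χ j) s = 0 := tsum_eq_zero_of_not_summable hs
    rw [this, norm_zero]
    exact hM

/-- numerical assembly -/
theorem SumTools_final (j : ℕ) {L l D : ℝ} (hl : 1 ≤ l) (hL0 : 0 ≤ L) (hL : L ≤ 2 * l)
    (hD : 0 ≤ D) : L ^ j * (1 + L) + D * L ^ j ≤ 2 ^ j * (3 + D) * l ^ (j + 1) := by
  have h1 : L ^ j ≤ 2 ^ j * l ^ j := by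
    rw [← mul_pow]
    exact pow_le_pow_left₀ hL0 hL j
  have h2 : 1 + L ≤ 3 * l := by linarith
  have h3 : L ^ j * (1 + L) ≤ (2 ^ j * l ^ j) * (3 * l) :=
    mul_le_mul h1 h2 (by linarith) (by positivity)
  have h4 : D * L ^ j ≤ D * (2 ^ j * l ^ j) * l := by
    calc D * L ^ j ≤ D * (2 ^ j * l ^ j) := mul_le_mul_of_nonneg_left h1 hD
      _ ≤ D * (2 ^ j * l ^ j) * l := le_mul_of_one_le_right (by positivity) hl
  calc L ^ j * (1 + L) + D * L ^ j ≤ (2 ^ j * l ^ j) * (3 * l) + D * (2 ^ j * l ^ j) * l :=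
        add_le_add h3 h4
    _ = _ := by ring

/-- the remainder factor -/
theorem SumTools_rem (j : ℕ) {q : ℕ} (hq : 1 ≤ q) {s : ℂ} (hs : 0 ≤ s.re) (hs2 : s.re ≤ 2)
    {L : ℝ} (hL : 0 ≤ L) :
    (q : ℝ) * ((j + ‖s‖) * (8 * (2 * j + 1) ^ j * (L ^ j / NN q s.im))) ≤
      (j + 1) * (8 * (2 * j + 1) ^ j) * L ^ j := by
  have h1 := NN_s hq hs hs2
  have h3 : (3 : ℝ) ≤ NN q s.im := by exact_mod_cast NN_three hq s.im
  have h4 : (j : ℝ) + ‖s‖ ≤ (j + 1) * (1 + ‖s‖) := by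
    have : 0 ≤ (j : ℝ) * ‖s‖ := by positivity
    nlinarith
  calc (q : ℝ) * ((j + ‖s‖) * (8 * (2 * j + 1) ^ j * (L ^ j / NN q s.im))) ≤
      (q : ℝ) * (((j + 1) * (1 + ‖s‖)) * (8 * (2 * j + 1) ^ j * (L ^ j / NN q s.im))) := by
        refine mul_le_mul_of_nonneg_left (mul_le_mul_of_nonneg_right h4 ?_) (by positivity)
        positivity
    _ = ((j + 1) * (8 * (2 * j + 1) ^ j) * L ^ j) * ((q : ℝ) * (1 + ‖s‖) / NN q s.im) := by
        field_simp
    _ ≤ ((j + 1) * (8 * (2 * j + 1) ^ j) * L ^ j) * 1 :=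
        mul_le_mul_of_nonneg_left h1 (by positivity)
    _ = _ := mul_one _

end Pool.MP_dd84fd_nt.SW
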