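import Pool.Agent.Lib.MP_dd84fd_nt.SW.MuChar
import Pool.Agent.Lib.MP_dd84fd_nt.SW.SumTools

set_option autoImplicit false

namespace Pool.MP_dd84fd_nt.SW

open Finset Filter

private lemma LamChar_ev (K : ℝ) (n : ℕ) (s : ℝ) (hs : 0 < s) :
    ∀ᶠ x : ℝ in atTop, K * Real.log x ^ n ≤ x ^ s := by
  have h := (isLittleO_log_rpow_rpow_atTop (n : ℝ) hs).bound
    (show (0 : ℝ) < 1 / (|K| + 1) by positivity)
  filter_upwards [h, eventually_ge_atTop (1 : ℝ)] with x h3 hx
  rw [Real.rpow_natCast, Real.norm_eq_abs, Real.norm_eq_abs,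
    abs_of_nonneg (Real.rpow_nonneg (by linarith) s)] at h3
  have hp : 0 < |K| + 1 := by positivity
  have hX0 : (0 : ℝ) ≤ x ^ s := Real.rpow_nonneg (by linarith) s
  calc K * Real.log x ^ n ≤ |K * Real.log x ^ n| := le_abs_self _
    _ = |K| * |Real.log x ^ n| := abs_mul _ _
    _ ≤ |K| * (1 / (|K| + 1) * x ^ s) := mul_le_mul_of_nonneg_left h3 (abs_nonneg _)
    _ = (|K| / (|K| + 1)) * x ^ s := by ring
    _ ≤ 1 * x ^ s := by
        apply mul_le_mul_of_nonneg_right _ hX0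
        rw [div_le_one hp]
        linarith
    _ = x ^ s := one_mul _

private lemma LamChar_id {q : ℕ} (χ : DirichletCharacter ℂ q) (X : ℕ) :
    ∑ n ∈ Icc 1 X, (ArithmeticFunction.vonMangoldt n : ℂ) * χ n =
      ∑ k ∈ Ioc 0 X, (χ k * (Real.log k : ℂ)) *
        ∑ m ∈ Ioc 0 (X / k), ((ArithmeticFunction.moebius m : ℤ) : ℂ) * χ m := by
  let g : ArithmeticFunction ℂ := ⟨fun n => χ n * (Real.log n : ℂ), by simp⟩
  let f : ArithmeticFunction ℂ := ⟨fun n => ((ArithmeticFunction.moebius n : ℤ) : ℂ) * χ n,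
    by simp⟩
  have h := ArithmeticFunction.sum_Ioc_mul_eq_sum_sum g f X
  have hI : Icc 1 X = Ioc 0 X := by
    ext n; simp only [mem_Icc, mem_Ioc]; omega
  rw [hI]
  refine Eq.trans ?_ h
  refine Finset.sum_congr rfl fun n _ => ?_
  rw [ArithmeticFunction.mul_apply]
  have h1 : ArithmeticFunction.vonMangoldt n =
      ∑ x ∈ n.divisorsAntidiagonal, Real.log x.1 * ((ArithmeticFunction.moebius x.2 : ℤ) : ℝ) := by
    rw [← ArithmeticFunction.log_mul_moebius_eq_vonMangoldt, ArithmeticFunction.mul_apply]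
    rfl
  rw [h1, Complex.ofReal_sum, Finset.sum_mul]
  refine Finset.sum_congr rfl fun x hx => ?_
  rw [Complex.ofReal_mul, Complex.ofReal_intCast]
  have hx' := (Nat.mem_divisorsAntidiagonal.1 hx).1
  show (Real.log x.1 : ℂ) * ((ArithmeticFunction.moebius x.2 : ℤ) : ℂ) * χ n =
    (χ x.1 * (Real.log x.1 : ℂ)) * (((ArithmeticFunction.moebius x.2 : ℤ) : ℂ) * χ x.2)
  rw [← hx', Nat.cast_mul, map_mul]
  ring

private lemma LamChar_inner {q : ℕ} (hq : 1 ≤ q) (χ : DirichletCharacter ℂ q) (hχ : χ ≠ 1)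
    (K Y : ℕ) : ‖∑ k ∈ Ioc K Y, χ k * (Real.log k : ℂ)‖ ≤ 2 * q * Real.log (Y + 1) := by
  rcases le_or_gt Y K with hKY | hKY
  · rw [Finset.Ioc_eq_empty (by omega), Finset.sum_empty, norm_zero]
    have : 0 ≤ Real.log ((Y : ℝ) + 1) := Real.log_nonneg (by
      have : (0 : ℝ) ≤ Y := Nat.cast_nonneg Y
      linarith)
    positivity
  · have hI : Ioc K Y = Ico (K + 1) (Y + 1) := by
      ext n; simp only [mem_Ico, mem_Ioc]; omega
    rw [hI]
    have h := abel_bound (b := fun n => χ (n : ZMod q)) (g := fun n => (Real.log n : ℂ))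
      (N := K + 1) (B := q) (fun n hn => char_sum_bound hq χ hχ hn) (K := Y + 1) (by omega)
    refine h.trans ?_
    have hg : ∀ n ∈ Ico (K + 1) (Y + 1),
        ‖(Real.log ((n + 1 : ℕ) : ℝ) : ℂ) - (Real.log (n : ℝ) : ℂ)‖ =
          Real.log ((n + 1 : ℕ) : ℝ) - Real.log (n : ℝ) := by
      intro n hn
      rw [mem_Ico] at hn
      rw [← Complex.ofReal_sub, Complex.norm_real, Real.norm_of_nonneg]
      rw [sub_nonneg]
      apply Real.log_le_log
      · have : 0 < n := by omega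
        exact_mod_cast this
      · push_cast; linarith
    rw [Finset.sum_congr rfl hg]
    rw [Finset.sum_Ico_sub (fun n : ℕ => Real.log (n : ℝ)) (by omega : K + 1 ≤ Y + 1)]
    have h1 : ‖(Real.log ((Y + 1 : ℕ) : ℝ) : ℂ)‖ = Real.log ((Y : ℝ) + 1) := by
      rw [Complex.norm_real, Real.norm_of_nonneg]
      · push_cast; rfl
      · apply Real.log_nonneg
        push_cast
        have : (0 : ℝ) ≤ Y := Nat.cast_nonneg Y
        linarith
    have h2 : 0 ≤ Real.log ((K + 1 : ℕ) : ℝ) := by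
      apply Real.log_nonneg
      push_cast
      have : (0 : ℝ) ≤ K := Nat.cast_nonneg K
      linarith
    rw [h1]
    have h3 : Real.log ((Y + 1 : ℕ) : ℝ) = Real.log ((Y : ℝ) + 1) := by push_cast; rfl
    rw [h3]
    have hq0 : (0 : ℝ) ≤ q := Nat.cast_nonneg q
    calc (q : ℝ) * (Real.log ((Y : ℝ) + 1) + (Real.log ((Y : ℝ) + 1) -
          Real.log ((K + 1 : ℕ) : ℝ)))
        ≤ q * (Real.log ((Y : ℝ) + 1) + Real.log ((Y : ℝ) + 1)) :=
          mul_le_mul_of_nonneg_left (by linarith) hq0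
      _ = 2 * q * Real.log (Y + 1) := by ring

theorem lam_char (A B : ℕ) : ∃ X0 : ℕ, ∀ X : ℕ, X0 ≤ X → ∀ (q : ℕ) (χ : DirichletCharacter ℂ q),
    1 ≤ q → (q : ℝ) ≤ Real.log X ^ B → χ ≠ 1 →
    ‖∑ n ∈ Icc 1 X, (ArithmeticFunction.vonMangoldt n : ℂ) * χ n‖ ≤ X / Real.log X ^ A := by
  obtain ⟨Y0, hmu⟩ := mu_char (2 * A + B + 5) (B + 1)
  have e1 : ∀ᶠ x : ℝ in atTop, 4 * Real.log x ^ (A + B + 3) ≤ x ^ (1 / 2 : ℝ) :=
    LamChar_ev 4 (A + B + 3) (1 / 2) (by norm_num)
  have e2 : ∀ᶠ x : ℝ in atTop, (Y0 : ℝ) ≤ x ^ (1 / 2 : ℝ) :=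
    (tendsto_rpow_atTop (by norm_num : (0 : ℝ) < 1 / 2)).eventually_ge_atTop _
  have e3 : ∀ᶠ x : ℝ in atTop, (2 : ℝ) ^ (2 * A + B + 10) ≤ Real.log x :=
    Real.tendsto_log_atTop.eventually_ge_atTop _
  have e4 := ((e1.and e2).and e3).and (eventually_ge_atTop (2 : ℝ))
  obtain ⟨X0, hX0⟩ := eventually_atTop.1 (tendsto_natCast_atTop_atTop.eventually e4)
  refine ⟨X0, fun X hX q χ hq hqL hχ => ?_⟩
  obtain ⟨⟨⟨h1, h2⟩, h3⟩, h4⟩ := hX0 X hX
  obtain ⟨L, hL⟩ : ∃ L : ℝ, Real.log X = L := ⟨_, rfl⟩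
  rw [hL] at h1 h3 hqL ⊢
  have hL1 : 1 ≤ L := le_trans (one_le_pow₀ (by norm_num)) h3
  have hLpos : 0 < L := by linarith
  have hXpos : (0 : ℝ) < X := by linarith
  obtain ⟨R, hR⟩ : ∃ R : ℝ, (X : ℝ) ^ (1 / 2 : ℝ) = R := ⟨_, rfl⟩
  rw [hR] at h1 h2
  have hRR : R * R = X := by
    rw [← hR, ← Real.rpow_add hXpos]; norm_num
  have hR1 : 1 ≤ R := by
    have : 1 ≤ 4 * L ^ (A + B + 3) := by
      have := one_le_pow₀ hL1 (n := A + B + 3)
      linarith
    linarith
  have hlogR : Real.log R = L / 2 := by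
    rw [← hR, Real.log_rpow hXpos, hL]; ring
  -- the splitting point
  obtain ⟨K, hK⟩ : ∃ K : ℕ, K = ⌈L ^ (A + B + 3)⌉₊ := ⟨_, rfl⟩
  have hKge : L ^ (A + B + 3) ≤ K := by rw [hK]; exact Nat.le_ceil _
  have hLp : 1 ≤ L ^ (A + B + 3) := one_le_pow₀ hL1
  have hKle : (K : ℝ) ≤ 2 * L ^ (A + B + 3) := by
    have := Nat.ceil_lt_add_one (a := L ^ (A + B + 3)) (by positivity)
    rw [← hK] at this
    linarith
  have hK1 : 1 ≤ K := by
    have : (1 : ℝ) ≤ K := by linarith
    exact_mod_cast this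
  have hKR : (K : ℝ) * 2 ≤ R := by linarith
  have hKX : K ≤ X := by
    have h5 : (K : ℝ) ≤ X := by
      calc (K : ℝ) ≤ R * 1 := by linarith
        _ ≤ R * R := mul_le_mul_of_nonneg_left hR1 (by linarith)
        _ = X := hRR
    exact_mod_cast h5
  have hq1 : (1 : ℝ) ≤ q := by exact_mod_cast hq
  rw [LamChar_id χ X, ← Finset.sum_Ioc_consecutive _ (Nat.zero_le K) hKX]
  refine (norm_add_le _ _).trans ?_
  -- first part
  have hS1 : ‖∑ k ∈ Ioc 0 K, (χ k * (Real.log k : ℂ)) *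
      ∑ m ∈ Ioc 0 (X / k), ((ArithmeticFunction.moebius m : ℤ) : ℂ) * χ m‖ ≤
      X / (2 * L ^ A) := by
    have hterm : ∀ k ∈ Ioc 0 K, ‖(χ k * (Real.log k : ℂ)) *
        ∑ m ∈ Ioc 0 (X / k), ((ArithmeticFunction.moebius m : ℤ) : ℂ) * χ m‖ ≤
        L * (X / (L / 2) ^ (2 * A + B + 5)) := by
      intro k hk
      rw [mem_Ioc] at hk
      have hk0 : (0 : ℝ) < k := by exact_mod_cast hk.1
      have hkK : (k : ℝ) ≤ K := by exact_mod_cast hk.2
      have hk1 : (1 : ℝ) ≤ k := by exact_mod_cast hk.1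
      -- X / k ≥ R
      have hYR : R ≤ ((X / k : ℕ) : ℝ) := by
        have h6 : (X : ℝ) / k < ((X / k : ℕ) : ℝ) + 1 := by
          rw [div_lt_iff₀ hk0]
          have := Nat.lt_div_mul_add (a := X) (b := k) (by omega)
          have h7 : (X : ℝ) < ((X / k : ℕ) : ℝ) * k + k := by exact_mod_cast this
          linarith
        have h8 : R + 1 ≤ (X : ℝ) / k := by
          rw [le_div_iff₀ hk0]
          calc (R + 1) * k ≤ (R + R) * k := mul_le_mul_of_nonneg_right (by linarith) hk0.le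
            _ = R * (k * 2) := by ring
            _ ≤ R * R := mul_le_mul_of_nonneg_left (by linarith) (by linarith)
            _ = X := hRR
        linarith
      have hYpos : (0 : ℝ) < ((X / k : ℕ) : ℝ) := by linarith
      have hY0 : Y0 ≤ X / k := by
        have : (Y0 : ℝ) ≤ ((X / k : ℕ) : ℝ) := h2.trans hYR
        exact_mod_cast this
      have hlogY : L / 2 ≤ Real.log ((X / k : ℕ) : ℝ) := by
        rw [← hlogR]
        exact Real.log_le_log (by linarith) hYR
      have hqY : (q : ℝ) ≤ Real.log ((X / k : ℕ) : ℝ) ^ (B + 1) := by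
        refine hqL.trans (le_trans ?_ (pow_le_pow_left₀ (by linarith) hlogY (B + 1)))
        rw [div_pow, le_div_iff₀ (by positivity), pow_succ L B]
        apply mul_le_mul_of_nonneg_left _ (by positivity)
        refine le_trans (pow_le_pow_right₀ (by norm_num) (by omega)) h3
      have hM := hmu (X / k) hY0 q χ hq hqY (Or.inl hχ)
      have hI : Icc 1 (X / k) = Ioc 0 (X / k) := by
        ext n; simp only [mem_Icc, mem_Ioc]; omega
      rw [hI] at hM
      rw [norm_mul, norm_mul]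
      have hlogk : ‖(Real.log k : ℂ)‖ ≤ L := by
        rw [Complex.norm_real, Real.norm_of_nonneg (Real.log_nonneg hk1), ← hL]
        apply Real.log_le_log hk0
        have : k ≤ X := by omega
        exact_mod_cast this
      have hchi : ‖χ k‖ * ‖(Real.log k : ℂ)‖ ≤ L := by
        calc ‖χ k‖ * ‖(Real.log k : ℂ)‖ ≤ 1 * L :=
              mul_le_mul (DirichletCharacter.norm_le_one χ _) hlogk (norm_nonneg _) (by norm_num)
          _ = L := one_mul L
      refine mul_le_mul hchi (hM.trans ?_) (norm_nonneg _) hLpos.le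
      apply div_le_div₀ hXpos.le ?_ (by positivity) (pow_le_pow_left₀ (by linarith) hlogY _)
      exact_mod_cast Nat.div_le_self X k
    refine (Finset.sum_le_sum hterm |> (norm_sum_le _ _).trans).trans ?_
    rw [Finset.sum_const, Nat.card_Ioc, Nat.sub_zero, nsmul_eq_mul]
    have h5 : (K : ℝ) * (L * (X / (L / 2) ^ (2 * A + B + 5))) ≤
        (2 * L ^ (A + B + 3)) * (L * (X / (L / 2) ^ (2 * A + B + 5))) :=
      mul_le_mul_of_nonneg_right hKle (by positivity)
    refine h5.trans ?_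
    have h6 : (2 * L ^ (A + B + 3)) * (L * (X / (L / 2) ^ (2 * A + B + 5))) =
        (2 ^ (2 * A + B + 6) * X) / (L ^ A * L) := by
      rw [div_pow, show 2 * A + B + 5 = (A + B + 3) + (A + 2) by ring,
        show 2 * A + B + 6 = (A + B + 3) + (A + 2) + 1 by ring]
      rw [pow_add L (A + B + 3) (A + 2), pow_succ 2 ((A + B + 3) + (A + 2)), pow_add L A 2]
      field_simp
    rw [h6, div_le_div_iff₀ (by positivity) (by positivity)]
    have h7 : (2 : ℝ) ^ (2 * A + B + 6) * 2 ≤ L := by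
      refine le_trans ?_ h3
      rw [← pow_succ]
      exact pow_le_pow_right₀ (by norm_num) (by omega)
    calc 2 ^ (2 * A + B + 6) * (X : ℝ) * (2 * L ^ A)
        = (2 ^ (2 * A + B + 6) * 2) * (X * L ^ A) := by ring
      _ ≤ L * (X * L ^ A) := mul_le_mul_of_nonneg_right h7 (by positivity)
      _ = X * (L ^ A * L) := by ring
  -- second part
  have hS2 : ‖∑ k ∈ Ioc K X, (χ k * (Real.log k : ℂ)) *
      ∑ m ∈ Ioc 0 (X / k), ((ArithmeticFunction.moebius m : ℤ) : ℂ) * χ m‖ ≤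
      X / (2 * L ^ A) := by
    have hsw : ∑ k ∈ Ioc K X, (χ k * (Real.log k : ℂ)) *
        ∑ m ∈ Ioc 0 (X / k), ((ArithmeticFunction.moebius m : ℤ) : ℂ) * χ m =
        ∑ m ∈ Ioc 0 (X / K), (((ArithmeticFunction.moebius m : ℤ) : ℂ) * χ m) *
          ∑ k ∈ Ioc K (X / m), (χ k * (Real.log k : ℂ)) := by
      simp only [Finset.mul_sum]
      rw [Finset.sum_comm' (t' := Ioc 0 (X / K)) (s' := fun m => Ioc K (X / m))]
      · refine Finset.sum_congr rfl fun m _ => Finset.sum_congr rfl fun k _ => ?_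
        ring
      · intro k m
        simp only [mem_Ioc]
        constructor
        · rintro ⟨⟨ha, hb⟩, hc, hd⟩
          have hk : 0 < k := by omega
          have h5 : m * k ≤ X := (Nat.le_div_iff_mul_le hk).1 hd
          refine ⟨⟨ha, ?_⟩, hc, ?_⟩
          · exact (Nat.le_div_iff_mul_le hc).2 (by rw [mul_comm]; exact h5)
          · exact (Nat.le_div_iff_mul_le hK1).2
              (le_trans (Nat.mul_le_mul_left m ha.le) h5)
        · rintro ⟨⟨ha, hb⟩, hc, hd⟩
          have hk : 0 < k := by omega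
          have h5 : k * m ≤ X := (Nat.le_div_iff_mul_le hc).1 hb
          refine ⟨⟨ha, le_trans hb (Nat.div_le_self X m)⟩, hc, ?_⟩
          exact (Nat.le_div_iff_mul_le hk).2 (by rw [mul_comm]; exact h5)
    rw [hsw]
    have hterm : ∀ m ∈ Ioc 0 (X / K), ‖(((ArithmeticFunction.moebius m : ℤ) : ℂ) * χ m) *
        ∑ k ∈ Ioc K (X / m), (χ k * (Real.log k : ℂ))‖ ≤ 4 * L ^ (B + 1) := by
      intro m hm
      rw [norm_mul, norm_mul]
      have hmu1 : ‖((ArithmeticFunction.moebius m : ℤ) : ℂ)‖ ≤ 1 := by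
        rw [Complex.norm_intCast]
        exact_mod_cast ArithmeticFunction.abs_moebius_le_one
      have h5 : ‖((ArithmeticFunction.moebius m : ℤ) : ℂ)‖ * ‖χ m‖ ≤ 1 :=
        mul_le_one₀ hmu1 (norm_nonneg _) (DirichletCharacter.norm_le_one χ _)
      have h6 := LamChar_inner hq χ hχ K (X / m)
      have h7 : Real.log (((X / m : ℕ) : ℝ) + 1) ≤ 2 * L := by
        have h8 : (((X / m : ℕ) : ℝ) + 1) ≤ (X : ℝ) ^ 2 := by
          have h9 : ((X / m : ℕ) : ℝ) ≤ X := by exact_mod_cast Nat.div_le_self X m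
          nlinarith
        calc Real.log (((X / m : ℕ) : ℝ) + 1) ≤ Real.log ((X : ℝ) ^ 2) :=
              Real.log_le_log (by positivity) h8
          _ = 2 * L := by rw [Real.log_pow, hL]; norm_num
      calc _ ≤ 1 * (2 * q * Real.log (((X / m : ℕ) : ℝ) + 1)) :=
            mul_le_mul h5 h6 (norm_nonneg _) (by norm_num)
        _ ≤ 1 * (2 * L ^ B * (2 * L)) := by
            apply mul_le_mul_of_nonneg_left _ (by norm_num)
            apply mul_le_mul (by linarith) h7 ?_ (by positivity)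
            apply Real.log_nonneg
            have : (0 : ℝ) ≤ ((X / m : ℕ) : ℝ) := Nat.cast_nonneg _
            linarith
        _ = 4 * L ^ (B + 1) := by rw [pow_succ]; ring
    refine (Finset.sum_le_sum hterm |> (norm_sum_le _ _).trans).trans ?_
    rw [Finset.sum_const, Nat.card_Ioc, Nat.sub_zero, nsmul_eq_mul]
    have h5 : ((X / K : ℕ) : ℝ) ≤ X / L ^ (A + B + 3) := by
      refine le_trans Nat.cast_div_le ?_
      exact div_le_div_of_nonneg_left hXpos.le (by positivity) hKge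
    have h6 : ((X / K : ℕ) : ℝ) * (4 * L ^ (B + 1)) ≤
        X / L ^ (A + B + 3) * (4 * L ^ (B + 1)) :=
      mul_le_mul_of_nonneg_right h5 (by positivity)
    refine h6.trans ?_
    have h7 : (X : ℝ) / L ^ (A + B + 3) * (4 * L ^ (B + 1)) = 4 * X / (L ^ A * L ^ 2) := by
      rw [show A + B + 3 = A + 2 + (B + 1) by ring, pow_add L (A + 2) (B + 1), pow_add L A 2]
      field_simp
    rw [h7, div_le_div_iff₀ (by positivity) (by positivity)]
    have h8 : (8 : ℝ) ≤ L := by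
      refine le_trans ?_ h3
      calc (8 : ℝ) = 2 ^ 3 := by norm_num
        _ ≤ 2 ^ (2 * A + B + 10) := pow_le_pow_right₀ (by norm_num) (by omega)
    have h9 : (8 : ℝ) ≤ L ^ 2 := by nlinarith only [h8]
    calc 4 * (X : ℝ) * (2 * L ^ A) = 8 * (X * L ^ A) := by ring
      _ ≤ L ^ 2 * (X * L ^ A) := mul_le_mul_of_nonneg_right h9 (by positivity)
      _ = X * (L ^ A * L ^ 2) := by ring
  have hfin : (X : ℝ) / L ^ A = X / (2 * L ^ A) + X / (2 * L ^ A) := by
    field_simp; ring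
  rw [hfin]
  exact add_le_add hS1 hS2

end Pool.MP_dd84fd_nt.SW
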