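import Pool.Agent.Lib.MP_dd84fd_nt.SW.Defs

set_option autoImplicit false

namespace Pool.MP_dd84fd_nt.SW

open Finset

private theorem dp_card (T y : ℕ) :
    ((Ioc 0 T ×ˢ Ioc 0 y).filter fun p : ℕ × ℕ => p.1 * p.2 ≤ y).card = ∑ a ∈ Ioc 0 T, y / a := by
  rw [Finset.card_filter, Finset.sum_product]
  refine Finset.sum_congr rfl fun a ha => ?_
  have ha' := Finset.mem_Ioc.1 ha
  rw [← Finset.card_filter]
  have h : ((Ioc 0 y).filter fun b => a * b ≤ y) = Ioc 0 (y / a) := by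
    ext b
    simp only [Finset.mem_filter, Finset.mem_Ioc]
    constructor
    · rintro ⟨⟨h1, _⟩, h3⟩
      exact ⟨h1, (Nat.le_div_iff_mul_le ha'.1).2 (by rw [mul_comm]; exact h3)⟩
    · rintro ⟨h1, h2⟩
      have h3 := (Nat.le_div_iff_mul_le ha'.1).1 h2
      exact ⟨⟨h1, le_trans (Nat.le_mul_of_pos_right b ha'.1) h3⟩, by rw [mul_comm]; exact h3⟩
  show ((Ioc 0 y).filter fun b => a * b ≤ y).card = y / a
  rw [h, Nat.card_Ioc, Nat.sub_zero]

private theorem dp_hyp (y : ℕ) :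
    ∑ a ∈ Ioc 0 y, y / a + Nat.sqrt y ^ 2 = 2 * ∑ a ∈ Ioc 0 (Nat.sqrt y), y / a := by
  set s := Nat.sqrt y with hs
  have hsy : s ≤ y := Nat.sqrt_le_self y
  have hss : s * s ≤ y := Nat.sqrt_le y
  have hlt : y < (s + 1) * (s + 1) := Nat.lt_succ_sqrt y
  set D1 := (Ioc 0 s ×ˢ Ioc 0 y).filter fun p : ℕ × ℕ => p.1 * p.2 ≤ y with hD1
  set D2 := (Ioc 0 y ×ˢ Ioc 0 s).filter fun p : ℕ × ℕ => p.1 * p.2 ≤ y with hD2
  have hunion : D1 ∪ D2 = (Ioc 0 y ×ˢ Ioc 0 y).filter fun p : ℕ × ℕ => p.1 * p.2 ≤ y := by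
    ext ⟨a, b⟩
    simp only [hD1, hD2, Finset.mem_union, Finset.mem_filter, Finset.mem_product, Finset.mem_Ioc]
    constructor
    · rintro (⟨⟨⟨h1, h2⟩, h3, h4⟩, h5⟩ | ⟨⟨⟨h1, h2⟩, h3, h4⟩, h5⟩)
      · exact ⟨⟨⟨h1, h2.trans hsy⟩, h3, h4⟩, h5⟩
      · exact ⟨⟨⟨h1, h2⟩, h3, h4.trans hsy⟩, h5⟩
    · rintro ⟨⟨⟨h1, h2⟩, h3, h4⟩, h5⟩
      by_cases h : a ≤ s
      · exact Or.inl ⟨⟨⟨h1, h⟩, h3, h4⟩, h5⟩
      · refine Or.inr ⟨⟨⟨h1, h2⟩, h3, ?_⟩, h5⟩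
        by_contra hb
        push Not at h hb
        have := Nat.mul_le_mul (Nat.succ_le_of_lt h) (Nat.succ_le_of_lt hb)
        exact absurd (lt_of_lt_of_le hlt (le_trans this h5)) (lt_irrefl _)
  have hinter : D1 ∩ D2 = Ioc 0 s ×ˢ Ioc 0 s := by
    ext ⟨a, b⟩
    simp only [hD1, hD2, Finset.mem_inter, Finset.mem_filter, Finset.mem_product, Finset.mem_Ioc]
    constructor
    · rintro ⟨⟨⟨⟨h1, h2⟩, h3, h4⟩, h5⟩, ⟨⟨h6, h7⟩, h8, h9⟩, h10⟩
      exact ⟨⟨h1, h2⟩, h3, h9⟩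
    · rintro ⟨⟨h1, h2⟩, h3, h4⟩
      have h5 : a * b ≤ y := le_trans (Nat.mul_le_mul h2 h4) hss
      exact ⟨⟨⟨⟨h1, h2⟩, h3, h4.trans hsy⟩, h5⟩, ⟨⟨h1, h2.trans hsy⟩, h3, h4⟩, h5⟩
  have hswap : D2.card = D1.card := by
    refine Finset.card_bij (fun p _ => (p.2, p.1)) ?_ ?_ ?_
    · rintro ⟨a, b⟩ h
      simp only [hD1, hD2, Finset.mem_filter, Finset.mem_product, Finset.mem_Ioc] at h ⊢
      exact ⟨⟨h.1.2, h.1.1⟩, by rw [mul_comm]; exact h.2⟩
    · rintro ⟨a, b⟩ _ ⟨c, d⟩ _ h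
      simp only [Prod.mk.injEq] at h ⊢
      exact ⟨h.2, h.1⟩
    · rintro ⟨a, b⟩ h
      refine ⟨(b, a), ?_, rfl⟩
      simp only [hD1, hD2, Finset.mem_filter, Finset.mem_product, Finset.mem_Ioc] at h ⊢
      exact ⟨⟨h.1.2, h.1.1⟩, by rw [mul_comm]; exact h.2⟩
  have h1 := Finset.card_union_add_card_inter D1 D2
  rw [hunion, hinter, hswap, dp_card, Finset.card_product, Nat.card_Ioc, Nat.sub_zero] at h1
  have h2 : D1.card = ∑ a ∈ Ioc 0 s, y / a := dp_card s y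
  rw [h2] at h1
  nlinarith [h1]

private theorem dp_log (y : ℕ) (hy : 1 ≤ y) :
    (y : ℝ) * Real.log y - y + 1 ≤ ∑ n ∈ Icc 1 y, Real.log n ∧
      ∑ n ∈ Icc 1 y, Real.log n ≤ (y : ℝ) * Real.log y - y + 1 + Real.log y := by
  induction y, hy using Nat.le_induction with
  | base => simp
  | succ y hy ih =>
    obtain ⟨h1, h2⟩ := ih
    have hy0 : (0 : ℝ) < y := by exact_mod_cast hy
    rw [Finset.sum_Icc_succ_top (by omega)]
    push_cast
    have hq : (0 : ℝ) < (y + 1) / y := by positivity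
    have e : Real.log ((y + 1 : ℝ) / y) = Real.log (y + 1) - Real.log y :=
      Real.log_div (by positivity) hy0.ne'
    have u1 : Real.log ((y + 1 : ℝ) / y) ≤ (y + 1) / y - 1 := Real.log_le_sub_one_of_pos hq
    have u2 : 1 - ((y + 1 : ℝ) / y)⁻¹ ≤ Real.log ((y + 1 : ℝ) / y) :=
      Real.one_sub_inv_le_log_of_pos hq
    rw [e] at u1 u2
    have v1 : (y : ℝ) * (Real.log (y + 1) - Real.log y) ≤ 1 := by
      have := mul_le_mul_of_nonneg_left u1 hy0.le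
      have e2 : (y : ℝ) * ((y + 1) / y - 1) = 1 := by field_simp; ring
      linarith
    have v2 : 1 ≤ ((y : ℝ) + 1) * (Real.log (y + 1) - Real.log y) := by
      have := mul_le_mul_of_nonneg_left u2 (by positivity : (0 : ℝ) ≤ y + 1)
      have e2 : ((y : ℝ) + 1) * (1 - ((y + 1 : ℝ) / y)⁻¹) = 1 := by field_simp; ring
      linarith
    constructor
    · nlinarith [h1, v1]
    · nlinarith [h2, v2]

private theorem dp_harm (s : ℕ) (hs : 1 ≤ s) :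
    0 ≤ ∑ a ∈ Ioc 0 s, (a : ℝ)⁻¹ - Real.log s - Real.eulerMascheroniConstant ∧
      ∑ a ∈ Ioc 0 s, (a : ℝ)⁻¹ - Real.log s - Real.eulerMascheroniConstant ≤ (s : ℝ)⁻¹ := by
  have hs0 : (0 : ℝ) < s := by exact_mod_cast hs
  have hH : ((harmonic s : ℚ) : ℝ) = ∑ a ∈ Ioc 0 s, (a : ℝ)⁻¹ := by
    rw [harmonic_eq_sum_Icc]
    push_cast
    refine Finset.sum_congr ?_ fun _ _ => rfl
    ext a
    simp only [Finset.mem_Icc, Finset.mem_Ioc]
    omega
  have h1 := Real.eulerMascheroniSeq_lt_eulerMascheroniConstant s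
  have h2 := Real.eulerMascheroniConstant_lt_eulerMascheroniSeq' s
  unfold Real.eulerMascheroniSeq at h1
  unfold Real.eulerMascheroniSeq' at h2
  rw [if_neg (by omega)] at h2
  rw [hH] at h1 h2
  have hq : (0 : ℝ) < (s + 1) / s := by positivity
  have e : Real.log ((s + 1 : ℝ) / s) = Real.log (s + 1) - Real.log s :=
    Real.log_div (by positivity) hs0.ne'
  have u1 : Real.log ((s + 1 : ℝ) / s) ≤ (s + 1) / s - 1 := Real.log_le_sub_one_of_pos hq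
  rw [e] at u1
  have e2 : ((s : ℝ) + 1) / s - 1 = (s : ℝ)⁻¹ := by field_simp; ring
  constructor <;> linarith

theorem div_problem : ∃ C : ℝ, 0 < C ∧ ∀ y : ℕ, 1 ≤ y →
    |∑ n ∈ Icc 1 y, (Real.log n - (n.divisors.card : ℝ) + 2 * Real.eulerMascheroniConstant)| ≤
      C * Real.sqrt y := by
  refine ⟨15, by norm_num, fun y hy => ?_⟩
  set γ := Real.eulerMascheroniConstant with hγ
  set s := Nat.sqrt y with hs
  set r := Real.sqrt y with hr
  have hy1 : (1 : ℝ) ≤ y := by exact_mod_cast hy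
  have hs1 : 1 ≤ s := Nat.le_sqrt.2 (by omega)
  have hs1' : (1 : ℝ) ≤ s := by exact_mod_cast hs1
  have hr1 : 1 ≤ r := Real.one_le_sqrt.2 hy1
  have hr2 : r * r = y := Real.mul_self_sqrt (by linarith)
  have hsr : (s : ℝ) ≤ r := by
    rw [hr, hs]
    exact Real.nat_sqrt_le_real_sqrt
  have hrs : r < s + 1 := by
    rw [hr, hs]
    exact Real.real_sqrt_lt_nat_sqrt_succ
  have hlog := dp_log y hy
  have hharm := dp_harm s hs1
  -- the divisor sum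
  have hT : ∑ n ∈ Icc 1 y, (n.divisors.card : ℝ) =
      2 * ∑ a ∈ Ioc 0 s, ((y / a : ℕ) : ℝ) - (s : ℝ) ^ 2 := by
    have h1 := ArithmeticFunction.sum_Ioc_sigma0_eq_sum_div y
    have h2 := dp_hyp y
    rw [← h1] at h2
    have h3 : ∑ n ∈ Ioc 0 y, ArithmeticFunction.sigma 0 n = ∑ n ∈ Icc 1 y, n.divisors.card := by
      refine Finset.sum_congr ?_ fun n _ => ArithmeticFunction.sigma_zero_apply n
      ext a
      simp only [Finset.mem_Icc, Finset.mem_Ioc]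
      omega
    rw [h3] at h2
    have h4 : ((∑ n ∈ Icc 1 y, n.divisors.card + s ^ 2 : ℕ) : ℝ) =
        ((2 * ∑ a ∈ Ioc 0 s, y / a : ℕ) : ℝ) := by exact_mod_cast h2
    push_cast at h4
    linarith
  -- the floors
  have hA : |∑ a ∈ Ioc 0 s, ((y / a : ℕ) : ℝ) - (y : ℝ) * ∑ a ∈ Ioc 0 s, (a : ℝ)⁻¹| ≤ s := by
    rw [Finset.mul_sum, ← Finset.sum_sub_distrib]
    refine (Finset.abs_sum_le_sum_abs _ _).trans ?_
    have h1 : ∀ a ∈ Ioc 0 s, |((y / a : ℕ) : ℝ) - (y : ℝ) * (a : ℝ)⁻¹| ≤ 1 := by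
      intro a ha
      have ha0 : (0 : ℝ) < a := by exact_mod_cast (Finset.mem_Ioc.1 ha).1
      have h2 : ((y / a : ℕ) : ℝ) ≤ (y : ℝ) / a := Nat.cast_div_le
      have h3 : (y : ℝ) / a < ((y / a : ℕ) : ℝ) + 1 := by
        rw [div_lt_iff₀ ha0]
        have h4 : y < (y / a + 1) * a := by
          have h5 := Nat.div_add_mod y a
          have h6 := Nat.mod_lt y (Finset.mem_Ioc.1 ha).1
          nlinarith
        exact_mod_cast h4
      rw [← div_eq_mul_inv, abs_le]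
      constructor <;> linarith
    refine (Finset.sum_le_sum h1).trans ?_
    simp
  rw [Finset.sum_add_distrib, Finset.sum_sub_distrib, hT]
  rw [Finset.sum_const, Nat.card_Icc, Nat.add_sub_cancel, nsmul_eq_mul]
  set H := ∑ a ∈ Ioc 0 s, (a : ℝ)⁻¹ with hH
  set A := ∑ a ∈ Ioc 0 s, ((y / a : ℕ) : ℝ) with hAdef
  set Λ := ∑ n ∈ Icc 1 y, Real.log n with hΛ
  -- elementary estimates
  have hs0 : (0 : ℝ) < s := by linarith
  have hr0 : (0 : ℝ) < r := by linarith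
  have hlogy : Real.log y = 2 * Real.log r := by
    rw [← hr2, Real.log_mul hr0.ne' hr0.ne']
    ring
  have hlr : Real.log r ≤ r - 1 := Real.log_le_sub_one_of_pos hr0
  have hlr0 : 0 ≤ Real.log r := Real.log_nonneg hr1
  have hd0 : 0 ≤ Real.log r - Real.log s := by
    have := Real.log_le_log hs0 hsr
    linarith
  have hd1 : (s : ℝ) * (Real.log r - Real.log s) ≤ 1 := by
    have h1 : Real.log (r / s) ≤ r / s - 1 := Real.log_le_sub_one_of_pos (by positivity)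
    rw [Real.log_div hr0.ne' hs0.ne'] at h1
    have h2 := mul_le_mul_of_nonneg_left h1 hs0.le
    have h3 : (s : ℝ) * (r / s - 1) = r - s := by field_simp
    linarith
  have h2s : r ≤ 2 * s := by linarith
  -- `y * x ≤ 2 r` when `s x ≤ 1`
  have key : ∀ x : ℝ, 0 ≤ x → (s : ℝ) * x ≤ 1 → (y : ℝ) * x ≤ 2 * r := by
    intro x hx h
    rw [← hr2]
    nlinarith [mul_nonneg hr0.le hx, mul_nonneg hr0.le (mul_nonneg hr0.le hx)]
  have k1 := key _ hd0 hd1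
  have k2 : (y : ℝ) * (H - Real.log s - γ) ≤ 2 * r := by
    refine key _ hharm.1 ?_
    have := mul_le_mul_of_nonneg_left hharm.2 hs0.le
    rwa [mul_inv_cancel₀ hs0.ne'] at this
  have k3 : 0 ≤ (y : ℝ) * (H - Real.log s - γ) := mul_nonneg (by linarith) hharm.1
  have k4 : 0 ≤ (y : ℝ) * (Real.log r - Real.log s) := mul_nonneg (by linarith) hd0
  have k5 : (s : ℝ) ^ 2 ≤ y := by rw [← hr2]; nlinarith
  have k6 : (y : ℝ) ≤ (s : ℝ) ^ 2 + 2 * r := by rw [← hr2]; nlinarith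
  obtain ⟨a1, a2⟩ := abs_le.1 hA
  obtain ⟨l1, l2⟩ := hlog
  rw [hlogy] at l1 l2
  rw [abs_le]
  constructor <;> nlinarith

end Pool.MP_dd84fd_nt.SW
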