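import Pool.Agent.Lib.MP_dd84fd_nt.SW.MuChar
import Pool.Agent.Lib.MP_dd84fd_nt.SW.DivProblem


set_option autoImplicit false

namespace Pool.MP_dd84fd_nt.SW

open Finset

namespace PNT

open ArithmeticFunction in
/-- Dirichlet's hyperbola split. -/
theorem hyper (f g : ArithmeticFunction ℝ) (K N : ℕ) :
    ∑ n ∈ Ioc 0 N, (f * g) n = ∑ k ∈ Ioc 0 K, g k * ∑ m ∈ Ioc 0 (N / k), f m +
      ∑ m ∈ Ioc 0 N, f m * ∑ k ∈ Ioc K (N / m), g k := by
  rw [sum_Ioc_mul_eq_sum_sum]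
  have h1 : ∀ m ∈ Ioc 0 N, f m * ∑ k ∈ Ioc 0 (N / m), g k =
      (∑ k ∈ Ioc 0 K, if k ≤ N / m then f m * g k else 0) + f m * ∑ k ∈ Ioc K (N / m), g k := by
    intro m hm
    rw [← sum_filter]
    rw [mul_sum, mul_sum]
    rcases le_total K (N / m) with h | h
    · have e1 : (Ioc 0 K).filter (fun k => k ≤ N / m) = Ioc 0 K := by
        apply filter_true_of_mem
        intro k hk
        rw [mem_Ioc] at hk
        omega
      rw [e1]
      rw [sum_Ioc_consecutive _ (Nat.zero_le _) h]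
    · have e1 : (Ioc 0 K).filter (fun k => k ≤ N / m) = Ioc 0 (N / m) := by
        ext k
        simp only [mem_filter, mem_Ioc]
        omega
      rw [e1, Ioc_eq_empty_of_le h]
      simp
  rw [sum_congr rfl h1, sum_add_distrib]
  congr 1
  rw [sum_comm]
  refine sum_congr rfl fun k hk => ?_
  rw [mem_Ioc] at hk
  rw [← sum_filter, mul_sum]
  have e1 : (Ioc 0 N).filter (fun m => k ≤ N / m) = Ioc 0 (N / k) := by
    ext m
    simp only [mem_filter, mem_Ioc]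
    constructor
    · rintro ⟨⟨h2, h3⟩, h4⟩
      refine ⟨h2, ?_⟩
      rw [Nat.le_div_iff_mul_le (by omega)] at h4 ⊢
      rwa [mul_comm]
    · rintro ⟨h2, h3⟩
      rw [Nat.le_div_iff_mul_le (by omega)] at h3
      refine ⟨⟨h2, ?_⟩, ?_⟩
      · nlinarith
      · rw [Nat.le_div_iff_mul_le h2]
        rwa [mul_comm]
  rw [e1]
  exact sum_congr rfl fun m _ => mul_comm _ _

open ArithmeticFunction in
theorem zz_eq : (zeta * zeta : ArithmeticFunction ℕ) = sigma 0 := by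
  rw [← zeta_mul_pow_eq_sigma, pow_zero_eq_zeta]

/-- `u n = log n - τ n + 2γ`. -/
noncomputable def u (n : ℕ) : ℝ :=
  Real.log n - (n.divisors.card : ℝ) + 2 * Real.eulerMascheroniConstant

open ArithmeticFunction in
/-- the real valued Moebius function -/
noncomputable def mr (n : ℕ) : ℝ := ((moebius n : ℤ) : ℝ)

theorem abs_mr_le (n : ℕ) : |mr n| ≤ 1 := by
  unfold mr
  rw [← Int.cast_abs]
  exact_mod_cast ArithmeticFunction.abs_moebius_le_one

open ArithmeticFunction in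
/-- the basic identity -/
theorem main_identity (K N : ℕ) (hN : 1 ≤ N) :
    ∑ n ∈ Ioc 0 N, vonMangoldt n - N + 2 * Real.eulerMascheroniConstant =
      ∑ k ∈ Ioc 0 K, u k * ∑ m ∈ Ioc 0 (N / k), mr m +
      ∑ m ∈ Ioc 0 N, mr m * ∑ k ∈ Ioc K (N / m), u k := by
  have h1 := hyper ((moebius : ArithmeticFunction ℤ) : ArithmeticFunction ℝ) log K N
  have h2 := hyper ((moebius : ArithmeticFunction ℤ) : ArithmeticFunction ℝ)
    (((zeta * zeta : ArithmeticFunction ℕ)) : ArithmeticFunction ℝ) K N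
  have h3 := hyper ((moebius : ArithmeticFunction ℤ) : ArithmeticFunction ℝ)
    ((zeta : ArithmeticFunction ℕ) : ArithmeticFunction ℝ) K N
  rw [moebius_mul_log_eq_vonMangoldt] at h1
  have e3 : ((moebius : ArithmeticFunction ℤ) : ArithmeticFunction ℝ) *
      ((zeta : ArithmeticFunction ℕ) : ArithmeticFunction ℝ) = 1 := by
    exact coe_moebius_mul_coe_zeta
  have e2 : ((moebius : ArithmeticFunction ℤ) : ArithmeticFunction ℝ) *
      (((zeta * zeta : ArithmeticFunction ℕ)) : ArithmeticFunction ℝ) =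
      ((zeta : ArithmeticFunction ℕ) : ArithmeticFunction ℝ) := by
    rw [natCoe_mul, ← mul_assoc, e3, one_mul]
  rw [e3] at h3
  rw [e2] at h2
  have s3 : ∑ n ∈ Ioc 0 N, (1 : ArithmeticFunction ℝ) n = 1 := by
    rw [sum_eq_single 1]
    · simp
    · intro b _ hb
      exact one_apply_ne hb
    · intro h
      exact absurd (mem_Ioc.mpr ⟨one_pos, hN⟩) h
  have s2 : ∑ n ∈ Ioc 0 N, ((zeta : ArithmeticFunction ℕ) : ArithmeticFunction ℝ) n = N := by
    simp_rw [natCoe_apply]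
    rw_mod_cast [sum_Ioc_zeta]
  rw [s3] at h3
  rw [s2] at h2
  have hu : ∀ k : ℕ, 0 < k → u k = log k -
      (((zeta * zeta : ArithmeticFunction ℕ)) : ArithmeticFunction ℝ) k +
      2 * Real.eulerMascheroniConstant *
        ((zeta : ArithmeticFunction ℕ) : ArithmeticFunction ℝ) k := by
    intro k hk
    rw [zz_eq, natCoe_apply, natCoe_apply, sigma_zero_apply, log_apply, zeta_apply_ne hk.ne']
    simp [u]
  have t1 : ∑ k ∈ Ioc 0 K, u k * ∑ m ∈ Ioc 0 (N / k), mr m =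
      ∑ k ∈ Ioc 0 K, log k * ∑ m ∈ Ioc 0 (N / k),
        ((moebius : ArithmeticFunction ℤ) : ArithmeticFunction ℝ) m -
      ∑ k ∈ Ioc 0 K, (((zeta * zeta : ArithmeticFunction ℕ)) : ArithmeticFunction ℝ) k *
        ∑ m ∈ Ioc 0 (N / k), ((moebius : ArithmeticFunction ℤ) : ArithmeticFunction ℝ) m +
      2 * Real.eulerMascheroniConstant *
      ∑ k ∈ Ioc 0 K, ((zeta : ArithmeticFunction ℕ) : ArithmeticFunction ℝ) k *
        ∑ m ∈ Ioc 0 (N / k), ((moebius : ArithmeticFunction ℤ) : ArithmeticFunction ℝ) m := by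
    rw [mul_sum, ← sum_sub_distrib, ← sum_add_distrib]
    refine sum_congr rfl fun k hk => ?_
    rw [hu k (mem_Ioc.mp hk).1]
    have : ∑ m ∈ Ioc 0 (N / k), mr m = ∑ m ∈ Ioc 0 (N / k),
      ((moebius : ArithmeticFunction ℤ) : ArithmeticFunction ℝ) m := rfl
    rw [this]
    ring
  have t2 : ∑ m ∈ Ioc 0 N, mr m * ∑ k ∈ Ioc K (N / m), u k =
      ∑ m ∈ Ioc 0 N, ((moebius : ArithmeticFunction ℤ) : ArithmeticFunction ℝ) m *
        ∑ k ∈ Ioc K (N / m), log k -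
      ∑ m ∈ Ioc 0 N, ((moebius : ArithmeticFunction ℤ) : ArithmeticFunction ℝ) m *
        ∑ k ∈ Ioc K (N / m), (((zeta * zeta : ArithmeticFunction ℕ)) : ArithmeticFunction ℝ) k +
      2 * Real.eulerMascheroniConstant *
      ∑ m ∈ Ioc 0 N, ((moebius : ArithmeticFunction ℤ) : ArithmeticFunction ℝ) m *
        ∑ k ∈ Ioc K (N / m), ((zeta : ArithmeticFunction ℕ) : ArithmeticFunction ℝ) k := by
    rw [mul_sum, ← sum_sub_distrib, ← sum_add_distrib]
    refine sum_congr rfl fun m _ => ?_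
    have : ∑ k ∈ Ioc K (N / m), u k = ∑ k ∈ Ioc K (N / m), log k -
        ∑ k ∈ Ioc K (N / m), (((zeta * zeta : ArithmeticFunction ℕ)) : ArithmeticFunction ℝ) k +
        2 * Real.eulerMascheroniConstant *
        ∑ k ∈ Ioc K (N / m), ((zeta : ArithmeticFunction ℕ) : ArithmeticFunction ℝ) k := by
      rw [mul_sum, ← sum_sub_distrib, ← sum_add_distrib]
      refine sum_congr rfl fun k hk => ?_
      rw [hu k (lt_of_le_of_lt (Nat.zero_le _) (mem_Ioc.mp hk).1)]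
    rw [this]
    have e : mr m = ((moebius : ArithmeticFunction ℤ) : ArithmeticFunction ℝ) m := rfl
    rw [e]
    ring
  rw [t1, t2]
  linear_combination h1 - h2 + 2 * Real.eulerMascheroniConstant * h3

theorem sum_inv_sqrt_le (M : ℕ) : ∑ m ∈ Ioc 0 M, 1 / Real.sqrt m ≤ 2 * Real.sqrt M := by
  induction M with
  | zero => simp
  | succ M ih =>
    rw [sum_Ioc_succ_top (Nat.zero_le M)]
    have h0 : 0 < Real.sqrt ((M + 1 : ℕ) : ℝ) := Real.sqrt_pos.mpr (by positivity)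
    have h1 : 0 ≤ Real.sqrt (M : ℝ) := Real.sqrt_nonneg _
    have h2 : Real.sqrt (M : ℝ) ^ 2 = M := Real.sq_sqrt (by positivity)
    have h3 : Real.sqrt ((M + 1 : ℕ) : ℝ) ^ 2 = (M : ℝ) + 1 := by
      rw [Real.sq_sqrt (by positivity)]
      push_cast
      ring
    have h4 : 1 / Real.sqrt ((M + 1 : ℕ) : ℝ) ≤
        2 * (Real.sqrt ((M + 1 : ℕ) : ℝ) - Real.sqrt (M : ℝ)) := by
      rw [div_le_iff₀ h0]
      nlinarith only [h2, h3, sq_nonneg (Real.sqrt ((M + 1 : ℕ) : ℝ) - Real.sqrt (M : ℝ))]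
    linarith

theorem second_bound (C : ℝ) (hC : 0 < C)
    (hU : ∀ y : ℕ, 1 ≤ y → |∑ n ∈ Ioc 0 y, u n| ≤ C * Real.sqrt y) (K N : ℕ) (hK : 1 ≤ K) :
    |∑ m ∈ Ioc 0 N, mr m * ∑ k ∈ Ioc K (N / m), u k| ≤ 4 * C * N / Real.sqrt K := by
  have hK0 : 0 < Real.sqrt (K : ℝ) := Real.sqrt_pos.mpr (by positivity)
  have step : ∀ m ∈ Ioc 0 N, |mr m * ∑ k ∈ Ioc K (N / m), u k| ≤
      if m ≤ N / K then 2 * C * Real.sqrt N * (1 / Real.sqrt m) else 0 := by
    intro m hm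
    rw [mem_Ioc] at hm
    have hm0 : 0 < Real.sqrt (m : ℝ) := Real.sqrt_pos.mpr (by exact_mod_cast hm.1)
    rw [abs_mul]
    rcases Nat.lt_or_ge K (N / m) with h | h
    · have h1 : m ≤ N / K := by
        rw [Nat.le_div_iff_mul_le (by omega)]
        have := (Nat.le_div_iff_mul_le hm.1).mp h.le
        rwa [mul_comm]
      rw [if_pos h1]
      have h2 : ∑ k ∈ Ioc K (N / m), u k = ∑ k ∈ Ioc 0 (N / m), u k - ∑ k ∈ Ioc 0 K, u k := by
        rw [← sum_Ioc_consecutive _ (Nat.zero_le K) h.le]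
        ring
      have h3 := hU (N / m) (by omega)
      have h4 := hU K hK
      have h5 : Real.sqrt (K : ℝ) ≤ Real.sqrt ((N / m : ℕ) : ℝ) :=
        Real.sqrt_le_sqrt (by exact_mod_cast h.le)
      have h6 : Real.sqrt ((N / m : ℕ) : ℝ) ≤ Real.sqrt N * (1 / Real.sqrt m) := by
        rw [mul_one_div, ← Real.sqrt_div (by positivity)]
        exact Real.sqrt_le_sqrt Nat.cast_div_le
      have h7 : |∑ k ∈ Ioc K (N / m), u k| ≤ 2 * C * (Real.sqrt N * (1 / Real.sqrt m)) := by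
        rw [h2]
        calc |∑ k ∈ Ioc 0 (N / m), u k - ∑ k ∈ Ioc 0 K, u k|
            ≤ |∑ k ∈ Ioc 0 (N / m), u k| + |∑ k ∈ Ioc 0 K, u k| := abs_sub _ _
          _ ≤ C * Real.sqrt ((N / m : ℕ) : ℝ) + C * Real.sqrt K := add_le_add h3 h4
          _ ≤ 2 * C * (Real.sqrt N * (1 / Real.sqrt m)) := by nlinarith only [h5, h6, hC]
      calc |mr m| * |∑ k ∈ Ioc K (N / m), u k| ≤ 1 * |∑ k ∈ Ioc K (N / m), u k| :=
            mul_le_mul_of_nonneg_right (abs_mr_le m) (abs_nonneg _)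
        _ ≤ 2 * C * Real.sqrt N * (1 / Real.sqrt m) := by rw [one_mul]; linarith only [h7]
    · rw [Ioc_eq_empty_of_le h, sum_empty, abs_zero, mul_zero]
      split_ifs
      · positivity
      · exact le_refl _
  calc |∑ m ∈ Ioc 0 N, mr m * ∑ k ∈ Ioc K (N / m), u k|
      ≤ ∑ m ∈ Ioc 0 N, |mr m * ∑ k ∈ Ioc K (N / m), u k| := abs_sum_le_sum_abs _ _
    _ ≤ ∑ m ∈ Ioc 0 N, (if m ≤ N / K then 2 * C * Real.sqrt N * (1 / Real.sqrt m) else 0) :=
        sum_le_sum step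
    _ = ∑ m ∈ Ioc 0 (N / K), 2 * C * Real.sqrt N * (1 / Real.sqrt m) := by
        rw [← sum_filter]
        congr 1
        ext m
        simp only [mem_filter, mem_Ioc]
        constructor
        · rintro ⟨⟨h1, _⟩, h2⟩
          exact ⟨h1, h2⟩
        · rintro ⟨h1, h2⟩
          exact ⟨⟨h1, h2.trans (Nat.div_le_self _ _)⟩, h2⟩
    _ = 2 * C * Real.sqrt N * ∑ m ∈ Ioc 0 (N / K), 1 / Real.sqrt m := by rw [mul_sum]
    _ ≤ 2 * C * Real.sqrt N * (2 * Real.sqrt ((N / K : ℕ) : ℝ)) := by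
        apply mul_le_mul_of_nonneg_left (sum_inv_sqrt_le _) (by positivity)
    _ ≤ 2 * C * Real.sqrt N * (2 * (Real.sqrt N / Real.sqrt K)) := by
        apply mul_le_mul_of_nonneg_left _ (by positivity)
        rw [← Real.sqrt_div (by positivity)]
        have : Real.sqrt ((N / K : ℕ) : ℝ) ≤ Real.sqrt ((N : ℝ) / K) :=
          Real.sqrt_le_sqrt Nat.cast_div_le
        linarith
    _ = 4 * C * N / Real.sqrt K := by
        have h : Real.sqrt (N : ℝ) * Real.sqrt N = N := Real.mul_self_sqrt (by positivity)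
        field_simp
        nlinarith only [h, h]

theorem abs_u_le (k : ℕ) (hk : 1 ≤ k) : |u k| ≤ 4 * k := by
  have hk1 : (1 : ℝ) ≤ k := by exact_mod_cast hk
  have h1 : 0 ≤ Real.log k := Real.log_nonneg hk1
  have h2 : Real.log k ≤ k := (Real.log_le_sub_one_of_pos (by linarith)).trans (by linarith)
  have h3 : (k.divisors.card : ℝ) ≤ k := by exact_mod_cast Nat.card_divisors_le_self k
  have h4 : (0 : ℝ) ≤ k.divisors.card := by positivity
  have h5 := Real.eulerMascheroniConstant_lt_two_thirds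
  have h6 := Real.one_half_lt_eulerMascheroniConstant
  unfold u
  rw [abs_le]
  constructor <;> linarith

theorem mr_sum_bound (A' : ℕ) (X1 y : ℕ) (hy : X1 ≤ y)
    (hM : ∀ X : ℕ, X1 ≤ X → ∀ (q : ℕ) (χ : DirichletCharacter ℂ q),
      1 ≤ q → (q : ℝ) ≤ Real.log X ^ 0 → (χ ≠ 1 ∨ q = 1) →
      ‖∑ n ∈ Icc 1 X, ((ArithmeticFunction.moebius n : ℤ) : ℂ) * χ n‖ ≤ X / Real.log X ^ A') :
    |∑ m ∈ Ioc 0 y, mr m| ≤ y / Real.log y ^ A' := by
  have h := hM y hy 1 1 le_rfl (by simp) (Or.inr rfl)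
  have e : ∑ n ∈ Icc 1 y, ((ArithmeticFunction.moebius n : ℤ) : ℂ) *
      (1 : DirichletCharacter ℂ 1) n = ((∑ m ∈ Ioc 0 y, mr m : ℝ) : ℂ) := by
    rw [Complex.ofReal_sum]
    have e0 : Icc 1 y = Ioc 0 y := by
      ext m
      simp only [mem_Icc, mem_Ioc]
      omega
    rw [e0]
    refine sum_congr rfl fun m _ => ?_
    have h1 : (1 : DirichletCharacter ℂ 1) (m : ZMod 1) = 1 := by
      rw [MulChar.one_apply]
      exact isUnit_of_subsingleton _
    rw [h1, mul_one]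
    unfold mr
    push_cast
    rfl
  rw [e, Complex.norm_real, Real.norm_eq_abs] at h
  exact h

theorem first_bound (A' : ℕ) (X1 X K : ℕ) (hK : 1 ≤ K) (hKX : (4 : ℝ) * K ^ 2 ≤ X)
    (hX1 : (X1 : ℝ) ^ 2 ≤ X) (hL : 1 ≤ Real.log X)
    (hM : ∀ y : ℕ, X1 ≤ y → |∑ m ∈ Ioc 0 y, mr m| ≤ y / Real.log y ^ A') :
    |∑ k ∈ Ioc 0 K, u k * ∑ m ∈ Ioc 0 (X / k), mr m| ≤
      4 * K * X * 2 ^ A' / Real.log X ^ A' := by
  have hX0 : (0 : ℝ) < X := by
    rcases Nat.eq_zero_or_pos X with h | h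
    · rw [h] at hL
      simp at hL
      linarith
    · exact_mod_cast h
  have hs : 0 < Real.sqrt X := Real.sqrt_pos.mpr hX0
  have hss : Real.sqrt X * Real.sqrt X = X := Real.mul_self_sqrt hX0.le
  have hK1 : (1 : ℝ) ≤ K := by exact_mod_cast hK
  have hKs : 2 * (K : ℝ) ≤ Real.sqrt X := by
    apply Real.le_sqrt_of_sq_le
    nlinarith only [hKX]
  have step : ∀ k ∈ Ioc 0 K, |u k * ∑ m ∈ Ioc 0 (X / k), mr m| ≤
      4 * (X * 2 ^ A' / Real.log X ^ A') := by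
    intro k hk
    rw [mem_Ioc] at hk
    have hk0 : (0 : ℝ) < k := by exact_mod_cast hk.1
    have hkK : (k : ℝ) ≤ K := by exact_mod_cast hk.2
    have hy1 : Real.sqrt X ≤ ((X / k : ℕ) : ℝ) := by
      have h1 : (X : ℝ) / k < ((X / k : ℕ) : ℝ) + 1 := by
        rw [div_lt_iff₀ hk0]
        have h2 := Nat.lt_mul_div_succ X hk.1
        have h3 : (X : ℝ) < k * (((X / k : ℕ) : ℝ) + 1) := by exact_mod_cast h2
        linarith
      have h4 : 2 * Real.sqrt X ≤ (X : ℝ) / k := by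
        rw [le_div_iff₀ hk0]
        nlinarith only [hKs, hkK, hs, hss]
      have h5 : 1 ≤ Real.sqrt X := by linarith
      linarith
    have hyX1 : X1 ≤ X / k := by
      have h1 : (X1 : ℝ) ≤ Real.sqrt X := Real.le_sqrt_of_sq_le hX1
      exact_mod_cast h1.trans hy1
    have hlog : Real.log X / 2 ≤ Real.log ((X / k : ℕ) : ℝ) := by
      rw [← Real.log_sqrt hX0.le]
      exact Real.log_le_log hs hy1
    have h1 := hM (X / k) hyX1
    have h2 : ((X / k : ℕ) : ℝ) / Real.log ((X / k : ℕ) : ℝ) ^ A' ≤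
        (X / k) / (Real.log X / 2) ^ A' := by
      apply div_le_div₀ (by positivity) Nat.cast_div_le (by positivity)
      exact pow_le_pow_left₀ (by linarith) hlog _
    rw [abs_mul]
    calc |u k| * |∑ m ∈ Ioc 0 (X / k), mr m| ≤ (4 * k) * ((X / k) / (Real.log X / 2) ^ A') :=
          mul_le_mul (abs_u_le k hk.1) (h1.trans h2) (abs_nonneg _) (by positivity)
      _ = 4 * (X * 2 ^ A' / Real.log X ^ A') := by
          rw [div_pow]
          field_simp
  calc |∑ k ∈ Ioc 0 K, u k * ∑ m ∈ Ioc 0 (X / k), mr m|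
      ≤ ∑ k ∈ Ioc 0 K, |u k * ∑ m ∈ Ioc 0 (X / k), mr m| := abs_sum_le_sum_abs _ _
    _ ≤ ∑ k ∈ Ioc 0 K, 4 * (X * 2 ^ A' / Real.log X ^ A') := sum_le_sum step
    _ = 4 * K * X * 2 ^ A' / Real.log X ^ A' := by
        rw [sum_const, Nat.card_Ioc, nsmul_eq_mul]
        simp only [Nat.sub_zero]
        ring

end PNT

open PNT in
theorem pnt (A : ℕ) : ∃ X0 : ℕ, ∀ X : ℕ, X0 ≤ X →
    |∑ n ∈ Icc 1 X, ArithmeticFunction.vonMangoldt n - X| ≤ X / Real.log X ^ A := by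
  obtain ⟨C, hC, hU0⟩ := div_problem
  have hIcc : ∀ y : ℕ, Icc 1 y = Ioc 0 y := by
    intro y
    ext m
    simp only [mem_Icc, mem_Ioc]
    omega
  have hU : ∀ y : ℕ, 1 ≤ y → |∑ n ∈ Ioc 0 y, u n| ≤ C * Real.sqrt y := by
    intro y hy
    have := hU0 y hy
    rw [hIcc] at this
    exact this
  obtain ⟨X1, hM0⟩ := mu_char (3 * A + 8) 0
  have hM : ∀ y : ℕ, X1 ≤ y → |∑ m ∈ Ioc 0 y, mr m| ≤ y / Real.log y ^ (3 * A + 8) :=
    fun y hy => mr_sum_bound (3 * A + 8) X1 y hy hM0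
  set D : ℝ := 4 * C + 8 * 2 ^ (3 * A + 8) + 2 with hD
  have hlog : Filter.Tendsto (fun X : ℕ => Real.log (X : ℝ)) Filter.atTop Filter.atTop :=
    Real.tendsto_log_atTop.comp tendsto_natCast_atTop_atTop
  have f1 : ∀ᶠ X : ℕ in Filter.atTop, max 1 D ≤ Real.log (X : ℝ) :=
    hlog.eventually_ge_atTop _
  have f2 : ∀ᶠ X : ℕ in Filter.atTop, Real.log (X : ℝ) ^ (2 * (2 * A + 4)) ≤ (1 / 16) * (X : ℝ) := by
    have h := (Real.isLittleO_pow_log_id_atTop (n := 2 * (2 * A + 4))).bound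
      (show (0 : ℝ) < 1 / 16 by norm_num)
    have h' := tendsto_natCast_atTop_atTop.eventually h
    filter_upwards [h'] with X hX
    simp only [id, Real.norm_eq_abs] at hX
    rw [abs_of_nonneg (Nat.cast_nonneg X : (0 : ℝ) ≤ X)] at hX
    exact (le_abs_self _).trans hX
  have f3 : ∀ᶠ X : ℕ in Filter.atTop, X1 ^ 2 ≤ X := Filter.eventually_ge_atTop _
  obtain ⟨X0, hX0⟩ := Filter.eventually_atTop.mp (f1.and (f2.and f3))
  refine ⟨max X0 1, fun X hX => ?_⟩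
  obtain ⟨g1, g2, g3⟩ := hX0 X ((le_max_left _ _).trans hX)
  have hXpos : 1 ≤ X := (le_max_right _ _).trans hX
  have hXr : (1 : ℝ) ≤ X := by exact_mod_cast hXpos
  set L := Real.log (X : ℝ) with hLdef
  have hL1 : 1 ≤ L := (le_max_left _ _).trans g1
  have hLD : D ≤ L := (le_max_right _ _).trans g1
  set K : ℕ := ⌈L ^ (2 * A + 4)⌉₊ with hKdef
  have hKge : L ^ (2 * A + 4) ≤ K := Nat.le_ceil _
  have hLp : 1 ≤ L ^ (2 * A + 4) := one_le_pow₀ hL1
  have hKle : (K : ℝ) ≤ 2 * L ^ (2 * A + 4) := by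
    have := (Nat.ceil_lt_add_one (show 0 ≤ L ^ (2 * A + 4) by positivity)).le
    linarith
  have hK1 : 1 ≤ K := by
    have : (1 : ℝ) ≤ K := hLp.trans hKge
    exact_mod_cast this
  have hKX : (4 : ℝ) * K ^ 2 ≤ X := by
    have h1 : (K : ℝ) ^ 2 ≤ (2 * L ^ (2 * A + 4)) ^ 2 := pow_le_pow_left₀ (by positivity) hKle 2
    have h2 : (2 * L ^ (2 * A + 4)) ^ 2 = 4 * L ^ (2 * (2 * A + 4)) := by
      rw [mul_pow, ← pow_mul]
      ring_nf
    rw [h2] at h1
    linarith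
  have hX1 : (X1 : ℝ) ^ 2 ≤ X := by exact_mod_cast g3
  have b1 := first_bound (3 * A + 8) X1 X K hK1 hKX hX1 hL1 hM
  have b2 := second_bound C hC hU K X hK1
  have hid := main_identity K X hXpos
  have hLA2 : 0 < L ^ (A + 2) := by positivity
  have hsK : L ^ (A + 2) ≤ Real.sqrt K := by
    apply Real.le_sqrt_of_sq_le
    rw [← pow_mul]
    calc L ^ ((A + 2) * 2) = L ^ (2 * A + 4) := by ring_nf
      _ ≤ K := hKge
  have c2 : 4 * C * X / Real.sqrt K ≤ 4 * C * (X / L ^ (A + 2)) := by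
    rw [mul_div_assoc]
    apply mul_le_mul_of_nonneg_left _ (by positivity)
    exact div_le_div_of_nonneg_left (by positivity) hLA2 hsK
  have c1 : 4 * K * X * 2 ^ (3 * A + 8) / L ^ (3 * A + 8) ≤
      8 * 2 ^ (3 * A + 8) * (X / L ^ (A + 2)) := by
    have h1 : L ^ (3 * A + 8) = L ^ (2 * A + 4) * (L ^ (A + 2) * L ^ 2) := by
      rw [← pow_add, ← pow_add]
      ring_nf
    rw [h1, div_le_iff₀ (by positivity)]
    have h2 : 8 * 2 ^ (3 * A + 8) * (X / L ^ (A + 2)) *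
        (L ^ (2 * A + 4) * (L ^ (A + 2) * L ^ 2)) =
        4 * (2 * L ^ (2 * A + 4)) * X * 2 ^ (3 * A + 8) * L ^ 2 := by
      field_simp
      ring
    rw [h2]
    have h3 : 4 * (K : ℝ) * X * 2 ^ (3 * A + 8) ≤
        4 * (2 * L ^ (2 * A + 4)) * X * 2 ^ (3 * A + 8) := by gcongr
    have h4 : 1 ≤ L ^ 2 := one_le_pow₀ hL1
    have h5 : 0 ≤ 4 * (2 * L ^ (2 * A + 4)) * X * 2 ^ (3 * A + 8) := by positivity
    nlinarith only [h3, h4, h5]
  have c3 : 1 ≤ X / L ^ (A + 2) := by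
    rw [le_div_iff₀ hLA2, one_mul]
    have h1 : L ^ (A + 2) ≤ L ^ (2 * (2 * A + 4)) := pow_le_pow_right₀ hL1 (by omega)
    linarith only [g2, h1, hLA2]
  have hg1 := Real.eulerMascheroniConstant_lt_two_thirds
  have hg2 := Real.one_half_lt_eulerMascheroniConstant
  rw [hIcc]
  have key : |∑ n ∈ Ioc 0 X, ArithmeticFunction.vonMangoldt n - (X : ℝ)| ≤
      D * (X / L ^ (A + 2)) := by
    have e : ∑ n ∈ Ioc 0 X, ArithmeticFunction.vonMangoldt n - (X : ℝ) =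
        (∑ k ∈ Ioc 0 K, u k * ∑ m ∈ Ioc 0 (X / k), mr m) +
        (∑ m ∈ Ioc 0 X, mr m * ∑ k ∈ Ioc K (X / m), u k) -
        2 * Real.eulerMascheroniConstant := by linarith only [hid]
    rw [e]
    have h1 := abs_add_three (∑ k ∈ Ioc 0 K, u k * ∑ m ∈ Ioc 0 (X / k), mr m)
      (∑ m ∈ Ioc 0 X, mr m * ∑ k ∈ Ioc K (X / m), u k) (-(2 * Real.eulerMascheroniConstant))
    rw [← sub_eq_add_neg, abs_neg, abs_of_pos (show 0 < 2 * Real.eulerMascheroniConstant by
      linarith only [hg1, hg2])] at h1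
    rw [hD]
    nlinarith only [b1, b2, c1, c2, c3, h1, hg1, hg2]
  refine key.trans ?_
  have h1 : L ^ (A + 2) = L ^ A * L ^ 2 := pow_add _ _ _
  rw [h1, ← mul_div_assoc, div_le_div_iff₀ (by positivity) (by positivity)]
  have h2 : D ≤ L ^ 2 := by nlinarith only [hL1, hLD]
  have h3 : 0 ≤ (X : ℝ) * L ^ A := by positivity
  nlinarith only [h2, h3, hg1, hg2]

end Pool.MP_dd84fd_nt.SW
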