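import Pool.Agent.Lib.MP_dd84fd_nt.SW.LamChar
import Pool.Agent.Lib.MP_dd84fd_nt.SW.PNT

set_option autoImplicit false

namespace Pool.MP_dd84fd_nt.SW

open Finset

/-- the prime powers not coprime to `r` contribute little -/
private theorem swpsi_noncoprime (X r : ℕ) (hX : 1 ≤ X) (hr : 1 ≤ r) :
    ∑ n ∈ (Icc 1 X).filter (fun n => ¬ Nat.Coprime n r), ArithmeticFunction.vonMangoldt n ≤
      r * Real.log X := by
  classical
  set F := ((Icc 1 X).filter (fun n => ¬ Nat.Coprime n r)).filter (fun n => IsPrimePow n) with hF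
  have h1 : ∑ n ∈ (Icc 1 X).filter (fun n => ¬ Nat.Coprime n r),
      ArithmeticFunction.vonMangoldt n = ∑ n ∈ F, ArithmeticFunction.vonMangoldt n := by
    rw [hF, sum_filter (fun n => IsPrimePow n)]
    apply sum_congr rfl
    intro n _
    split_ifs with h
    · rfl
    · rw [ArithmeticFunction.vonMangoldt_apply, if_neg h]
  have hmap : ∀ n ∈ F, n.minFac ∈ r.primeFactors := by
    intro n hn
    rw [hF, mem_filter, mem_filter, mem_Icc] at hn
    obtain ⟨⟨⟨h2, h3⟩, h4⟩, h5⟩ := hn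
    rw [isPrimePow_nat_iff] at h5
    obtain ⟨p, k, hp, hk, rfl⟩ := h5
    rw [Nat.Prime.pow_minFac hp (by omega)]
    rw [Nat.mem_primeFactors]
    refine ⟨hp, ?_, by omega⟩
    by_contra hcon
    apply h4
    exact Nat.Coprime.pow_left k ((Nat.Prime.coprime_iff_not_dvd hp).2 hcon)
  rw [h1, ← sum_fiberwise_of_maps_to hmap]
  have h2 : ∀ p ∈ r.primeFactors, ∑ n ∈ F.filter (fun n => n.minFac = p),
      ArithmeticFunction.vonMangoldt n ≤ Real.log X := by
    intro p hp
    have hpp : p.Prime := Nat.prime_of_mem_primeFactors hp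
    have h3 : ∀ n ∈ F.filter (fun n => n.minFac = p),
        ArithmeticFunction.vonMangoldt n = Real.log p := by
      intro n hn
      rw [mem_filter, hF, mem_filter] at hn
      rw [ArithmeticFunction.vonMangoldt_apply, if_pos hn.1.2, hn.2]
    rw [sum_congr rfl h3, sum_const, nsmul_eq_mul]
    have h4 : (F.filter (fun n => n.minFac = p)) ⊆ (Icc 1 (Nat.log p X)).image (fun k => p ^ k) := by
      intro n hn
      rw [mem_filter, hF, mem_filter, mem_filter, mem_Icc] at hn
      obtain ⟨⟨⟨⟨h5, h6⟩, h7⟩, h8⟩, h9⟩ := hn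
      rw [isPrimePow_nat_iff] at h8
      obtain ⟨p', k, hp', hk, rfl⟩ := h8
      rw [Nat.Prime.pow_minFac hp' (by omega)] at h9
      subst h9
      rw [mem_image]
      refine ⟨k, ?_, rfl⟩
      rw [mem_Icc]
      exact ⟨hk, Nat.le_log_of_pow_le hp'.one_lt h6⟩
    have h5 : (F.filter (fun n => n.minFac = p)).card ≤ Nat.log p X := by
      refine (card_le_card h4).trans (card_image_le.trans ?_)
      rw [Nat.card_Icc, Nat.add_sub_cancel]
    have h6 : ((Nat.log p X : ℕ) : ℝ) * Real.log p ≤ Real.log X := by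
      rw [← Real.log_pow]
      apply Real.log_le_log
      · have := hpp.pos
        positivity
      · exact_mod_cast Nat.pow_log_le_self p (by omega)
    calc ((F.filter (fun n => n.minFac = p)).card : ℝ) * Real.log p ≤
        ((Nat.log p X : ℕ) : ℝ) * Real.log p := by
          apply mul_le_mul_of_nonneg_right _ (Real.log_natCast_nonneg p)
          exact_mod_cast h5
      _ ≤ _ := h6
  refine (sum_le_sum h2).trans ?_
  rw [sum_const, nsmul_eq_mul]
  apply mul_le_mul_of_nonneg_right _ (Real.log_natCast_nonneg X)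
  have h3 : r.primeFactors.card ≤ r := by
    have h4 : r.primeFactors ⊆ Icc 1 r := by
      intro p hp
      rw [mem_Icc]
      exact ⟨(Nat.prime_of_mem_primeFactors hp).pos,
        Nat.le_of_dvd hr (Nat.dvd_of_mem_primeFactors hp)⟩
    have h5 := card_le_card h4
    rwa [Nat.card_Icc, Nat.add_sub_cancel] at h5
  exact_mod_cast h3

/-- orthogonality -/
private theorem swpsi_orth (X r c : ℕ) [NeZero r] (hc : Nat.Coprime c r) :
    (Nat.totient r : ℂ) * ((∑ n ∈ (Icc 1 X).filter (fun n => n ≡ c [MOD r]),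
      ArithmeticFunction.vonMangoldt n : ℝ) : ℂ) =
      ∑ χ : DirichletCharacter ℂ r, χ ((c : ZMod r)⁻¹) *
        ∑ n ∈ Icc 1 X, (ArithmeticFunction.vonMangoldt n : ℂ) * χ n := by
  have hu : IsUnit ((c : ℕ) : ZMod r) := (ZMod.isUnit_iff_coprime c r).2 hc
  have h1 : ∑ χ : DirichletCharacter ℂ r, χ ((c : ZMod r)⁻¹) *
        ∑ n ∈ Icc 1 X, (ArithmeticFunction.vonMangoldt n : ℂ) * χ n =
      ∑ n ∈ Icc 1 X, (ArithmeticFunction.vonMangoldt n : ℂ) *
        ∑ χ : DirichletCharacter ℂ r, χ ((c : ZMod r)⁻¹) * χ ((n : ℕ) : ZMod r) := by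
    simp only [mul_sum]
    rw [sum_comm]
    apply sum_congr rfl
    intro n _
    apply sum_congr rfl
    intro χ _
    ring
  rw [h1]
  push_cast
  rw [sum_filter, mul_sum]
  apply sum_congr rfl
  intro n _
  rw [DirichletCharacter.sum_char_inv_mul_char_eq ℂ hu]
  by_cases h : n ≡ c [MOD r]
  · rw [if_pos h, if_pos ((ZMod.natCast_eq_natCast_iff _ _ _).2 h.symm)]
    ring
  · rw [if_neg h, if_neg (fun h' => h ((ZMod.natCast_eq_natCast_iff _ _ _).1 h').symm)]
    ring

private theorem swpsi_principal (X r : ℕ) :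
    ∑ n ∈ Icc 1 X, (ArithmeticFunction.vonMangoldt n : ℂ) * (1 : DirichletCharacter ℂ r) n =
      ((∑ n ∈ Icc 1 X, ArithmeticFunction.vonMangoldt n -
        ∑ n ∈ (Icc 1 X).filter (fun n => ¬ Nat.Coprime n r),
          ArithmeticFunction.vonMangoldt n : ℝ) : ℂ) := by
  classical
  rw [sum_filter, ← sum_sub_distrib]
  push_cast
  apply sum_congr rfl
  intro n _
  by_cases h : Nat.Coprime n r
  · rw [MulChar.one_apply ((ZMod.isUnit_iff_coprime n r).2 h), if_neg (not_not.2 h)]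
    push_cast
    ring
  · rw [MulChar.map_nonunit _ (fun h' => h ((ZMod.isUnit_iff_coprime n r).1 h')), if_pos h]
    ring

private theorem swpsi_card (r : ℕ) [NeZero r] :
    Fintype.card (DirichletCharacter ℂ r) = Nat.totient r := by
  rw [← Nat.card_eq_fintype_card]
  exact DirichletCharacter.card_eq_totient_of_hasEnoughRootsOfUnity ℂ r

theorem sw_psi (A B : ℕ) : ∃ X0 : ℕ, ∀ X : ℕ, X0 ≤ X → ∀ r c : ℕ, 1 ≤ r →
    (r : ℝ) ≤ Real.log X ^ B → Nat.Coprime c r →
    |∑ n ∈ (Icc 1 X).filter (fun n => n ≡ c [MOD r]), ArithmeticFunction.vonMangoldt n -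
      X / (Nat.totient r : ℝ)| ≤ X / Real.log X ^ A := by
  classical
  obtain ⟨X1, hX1⟩ := lam_char (A + 1) B
  obtain ⟨X2, hX2⟩ := pnt (A + 1)
  have hev1 : ∀ᶠ X : ℕ in Filter.atTop, 4 ≤ Real.log X :=
    (Real.tendsto_log_atTop.comp tendsto_natCast_atTop_atTop).eventually_ge_atTop _
  have hev2 : ∀ᶠ X : ℕ in Filter.atTop, ‖Real.log X ^ (A + B + 1)‖ ≤ 1 / 2 * ‖(id (X : ℝ))‖ :=
    tendsto_natCast_atTop_atTop.eventually
      ((Real.isLittleO_pow_log_id_atTop (n := A + B + 1)).bound (by norm_num))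
  obtain ⟨X3, hX3⟩ := Filter.eventually_atTop.1 (hev1.and hev2)
  refine ⟨max (max X1 X2) (max X3 1), ?_⟩
  intro X hX r c hr hrL hc
  have hXX1 : X1 ≤ X := ((le_max_left _ _).trans (le_max_left _ _)).trans hX
  have hXX2 : X2 ≤ X := ((le_max_right _ _).trans (le_max_left _ _)).trans hX
  have hXX3 : X3 ≤ X := ((le_max_left _ _).trans (le_max_right _ _)).trans hX
  have hXone : 1 ≤ X := ((le_max_right _ _).trans (le_max_right _ _)).trans hX
  obtain ⟨hL4, hLX⟩ := hX3 X hXX3
  have hX0 : (0 : ℝ) < X := by exact_mod_cast hXone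
  rw [id, Real.norm_of_nonneg hX0.le, Real.norm_of_nonneg (pow_nonneg (by linarith) _)] at hLX
  set L := Real.log X with hL
  have hL0 : 0 < L := by linarith
  have hne : NeZero r := ⟨by omega⟩
  have hphi1 : 1 ≤ Nat.totient r := Nat.totient_pos.2 hr
  have hphi : (1 : ℝ) ≤ Nat.totient r := by exact_mod_cast hphi1
  have hphi0 : (0 : ℝ) < Nat.totient r := by linarith
  set Sx := ∑ n ∈ (Icc 1 X).filter (fun n => n ≡ c [MOD r]), ArithmeticFunction.vonMangoldt n
    with hSx
  have horth := swpsi_orth X r c hc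
  rw [← hSx] at horth
  set N0 := ∑ n ∈ (Icc 1 X).filter (fun n => ¬ Nat.Coprime n r),
    ArithmeticFunction.vonMangoldt n with hN0
  have hN0a : N0 ≤ r * L := swpsi_noncoprime X r hXone hr
  have hN0b : 0 ≤ N0 := sum_nonneg (fun _ _ => ArithmeticFunction.vonMangoldt_nonneg)
  set Ψ := ∑ n ∈ Icc 1 X, ArithmeticFunction.vonMangoldt n with hΨ
  have hpnt : |Ψ - X| ≤ X / L ^ (A + 1) := hX2 X hXX2
  -- split the characters
  have hcu : IsUnit ((c : ZMod r)⁻¹) := by
    have hu : IsUnit ((c : ℕ) : ZMod r) := (ZMod.isUnit_iff_coprime c r).2 hc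
    obtain ⟨u, hu'⟩ := hu
    rw [← hu', ZMod.inv_coe_unit]
    exact u⁻¹.isUnit
  rw [← add_sum_erase _ _ (mem_univ (1 : DirichletCharacter ℂ r)), swpsi_principal,
    MulChar.one_apply hcu, one_mul, ← hΨ, ← hN0, Complex.ofReal_sub] at horth
  have hrest : ‖∑ χ ∈ (univ : Finset (DirichletCharacter ℂ r)).erase 1, χ ((c : ZMod r)⁻¹) *
      ∑ n ∈ Icc 1 X, (ArithmeticFunction.vonMangoldt n : ℂ) * χ n‖ ≤
      Nat.totient r * (X / L ^ (A + 1)) := by
    calc _ ≤ ∑ χ ∈ (univ : Finset (DirichletCharacter ℂ r)).erase 1, X / L ^ (A + 1) := by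
          refine (norm_sum_le _ _).trans (sum_le_sum (fun χ hχ => ?_))
          rw [norm_mul]
          have h1 := hX1 X hXX1 r χ hr hrL (ne_of_mem_erase hχ)
          have h2 := DirichletCharacter.norm_le_one χ ((c : ZMod r)⁻¹)
          calc _ ≤ 1 * (X / L ^ (A + 1)) :=
                mul_le_mul h2 h1 (norm_nonneg _) zero_le_one
            _ = _ := one_mul _
      _ = (((univ : Finset (DirichletCharacter ℂ r)).erase 1).card : ℝ) * (X / L ^ (A + 1)) := by
          rw [sum_const, nsmul_eq_mul]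
      _ ≤ _ := by
          apply mul_le_mul_of_nonneg_right _ (by positivity)
          have h1 : ((univ : Finset (DirichletCharacter ℂ r)).erase 1).card ≤ Nat.totient r := by
            rw [← swpsi_card r, ← card_univ]
            exact card_erase_le
          exact_mod_cast h1
  have hmain : |Nat.totient r * Sx - X| ≤ Nat.totient r * (X / L ^ (A + 1)) +
      X / L ^ (A + 1) + r * L := by
    have h1 : ‖((Nat.totient r * Sx - (Ψ - N0) : ℝ) : ℂ)‖ ≤ Nat.totient r * (X / L ^ (A + 1)) := by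
      have h2 : ((Nat.totient r * Sx - (Ψ - N0) : ℝ) : ℂ) =
          ∑ χ ∈ (univ : Finset (DirichletCharacter ℂ r)).erase 1, χ ((c : ZMod r)⁻¹) *
            ∑ n ∈ Icc 1 X, (ArithmeticFunction.vonMangoldt n : ℂ) * χ n := by
        rw [Complex.ofReal_sub, Complex.ofReal_mul, Complex.ofReal_natCast, Complex.ofReal_sub,
          horth]
        ring
      rw [h2]
      exact hrest
    rw [Complex.norm_real, Real.norm_eq_abs] at h1
    rw [abs_le] at h1 hpnt ⊢
    constructor <;> linarith [h1.1, h1.2, hpnt.1, hpnt.2]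
  have hfin : |Sx - X / Nat.totient r| ≤ 2 * (X / L ^ (A + 1)) + r * L := by
    have h1 : Sx - X / Nat.totient r = (Nat.totient r * Sx - X) / Nat.totient r := by
      field_simp
    rw [h1, abs_div, abs_of_pos hphi0, div_le_iff₀ hphi0]
    have h2 : 0 ≤ X / L ^ (A + 1) := by positivity
    have h3 : 0 ≤ (r : ℝ) * L := by positivity
    nlinarith [mul_le_mul_of_nonneg_left hphi h2, mul_le_mul_of_nonneg_left hphi h3]
  refine hfin.trans ?_
  have h1 : 2 * (X / L ^ (A + 1)) ≤ 1 / 2 * (X / L ^ A) := by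
    rw [pow_succ, ← div_div]
    have h2 : 0 ≤ X / L ^ A := by positivity
    have h3 : X / L ^ A / L ≤ X / L ^ A / 4 := div_le_div_of_nonneg_left h2 (by norm_num) hL4
    linarith
  have h2 : (r : ℝ) * L ≤ 1 / 2 * (X / L ^ A) := by
    rw [← mul_div_assoc, le_div_iff₀ (by positivity)]
    calc (r : ℝ) * L * L ^ A ≤ L ^ B * L * L ^ A := by gcongr
      _ = L ^ (A + B + 1) := by ring
      _ ≤ 1 / 2 * X := hLX
  linarith

theorem sw_theta (A B : ℕ) : ∃ X0 : ℕ, ∀ X : ℕ, X0 ≤ X → ∀ r c : ℕ, 1 ≤ r →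
    (r : ℝ) ≤ Real.log X ^ B → Nat.Coprime c r →
    |∑ p ∈ (Icc 1 X).filter (fun n => n.Prime ∧ n ≡ c [MOD r]), Real.log p -
      X / (Nat.totient r : ℝ)| ≤ X / Real.log X ^ A := by
  classical
  obtain ⟨X1, hX1⟩ := sw_psi (A + 1) B
  obtain ⟨C0, hC0⟩ := Chebyshev.psi_sub_theta_le_mul_sqrt
  set C : ℝ := max C0 1 with hC
  have hC1 : 1 ≤ C := le_max_right _ _
  have hev1 : ∀ᶠ X : ℕ in Filter.atTop, 2 ≤ Real.log X :=
    (Real.tendsto_log_atTop.comp tendsto_natCast_atTop_atTop).eventually_ge_atTop _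
  have hev2 : ∀ᶠ X : ℕ in Filter.atTop, ‖Real.log X ^ (A : ℝ)‖ ≤
      1 / (2 * C) * ‖(X : ℝ) ^ (1 / 2 : ℝ)‖ :=
    tendsto_natCast_atTop_atTop.eventually
      ((isLittleO_log_rpow_rpow_atTop (A : ℝ) (by norm_num : (0 : ℝ) < 1 / 2)).bound
        (by positivity))
  obtain ⟨X3, hX3⟩ := Filter.eventually_atTop.1 (hev1.and hev2)
  refine ⟨max X1 (max X3 1), ?_⟩
  intro X hX r c hr hrL hc
  have hXX1 : X1 ≤ X := (le_max_left _ _).trans hX
  have hXX3 : X3 ≤ X := ((le_max_left _ _).trans (le_max_right _ _)).trans hX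
  have hXone : 1 ≤ X := ((le_max_right _ _).trans (le_max_right _ _)).trans hX
  obtain ⟨hL2, hLX⟩ := hX3 X hXX3
  have hX0 : (0 : ℝ) < X := by exact_mod_cast hXone
  rw [Real.rpow_natCast, Real.norm_of_nonneg (pow_nonneg (by linarith) _),
    Real.norm_of_nonneg (by positivity), ← Real.sqrt_eq_rpow] at hLX
  have hpsi := hX1 X hXX1 r c hr hrL hc
  set L := Real.log X with hL
  have hL0 : 0 < L := by linarith
  have hsplit : ∑ n ∈ (Icc 1 X).filter (fun n => n ≡ c [MOD r]),
      ArithmeticFunction.vonMangoldt n =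
      ∑ p ∈ (Icc 1 X).filter (fun n => n.Prime ∧ n ≡ c [MOD r]), Real.log p +
      ∑ n ∈ (Icc 1 X).filter (fun n => n ≡ c [MOD r] ∧ ¬ n.Prime),
        ArithmeticFunction.vonMangoldt n := by
    rw [sum_filter, sum_filter, sum_filter, ← sum_add_distrib]
    apply sum_congr rfl
    intro n _
    by_cases h1 : n ≡ c [MOD r]
    · by_cases h2 : n.Prime
      · rw [if_pos h1, if_pos ⟨h2, h1⟩, if_neg (fun h => h.2 h2),
          ArithmeticFunction.vonMangoldt_apply_prime h2, add_zero]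
      · rw [if_pos h1, if_neg (fun h => h2 h.1), if_pos ⟨h1, h2⟩, zero_add]
    · rw [if_neg h1, if_neg (fun h => h1 h.2), if_neg (fun h => h1 h.1), zero_add]
  set E := ∑ n ∈ (Icc 1 X).filter (fun n => n ≡ c [MOD r] ∧ ¬ n.Prime),
        ArithmeticFunction.vonMangoldt n with hE
  have hE0 : 0 ≤ E := sum_nonneg (fun _ _ => ArithmeticFunction.vonMangoldt_nonneg)
  have hE1 : E ≤ C * Real.sqrt X := by
    have h1 := hC0 X
    rw [Chebyshev.psi_sub_theta_eq_sum_not_prime, Nat.floor_natCast] at h1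
    refine le_trans ?_ (h1.trans (mul_le_mul_of_nonneg_right (le_max_left _ _)
      (Real.sqrt_nonneg _)))
    apply sum_le_sum_of_subset_of_nonneg
    · intro n hn
      rw [mem_filter, mem_Icc] at hn
      rw [mem_filter, mem_Ioc]
      exact ⟨⟨hn.1.1, hn.1.2⟩, hn.2.2⟩
    · intro n _ _
      exact ArithmeticFunction.vonMangoldt_nonneg
  rw [hsplit] at hpsi
  have h1 : X / L ^ (A + 1) ≤ 1 / 2 * (X / L ^ A) := by
    rw [pow_succ, ← div_div]
    have h2 : 0 ≤ X / L ^ A := by positivity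
    have h3 : X / L ^ A / L ≤ X / L ^ A / 2 := div_le_div_of_nonneg_left h2 (by norm_num) hL2
    linarith
  have h2 : C * Real.sqrt X ≤ 1 / 2 * (X / L ^ A) := by
    rw [← mul_div_assoc, le_div_iff₀ (by positivity)]
    have h3 : Real.sqrt X * Real.sqrt X = X := Real.mul_self_sqrt hX0.le
    have h4 : 0 ≤ C * Real.sqrt X := by positivity
    calc C * Real.sqrt X * L ^ A ≤ C * Real.sqrt X * (1 / (2 * C) * Real.sqrt X) :=
          mul_le_mul_of_nonneg_left hLX h4
      _ = 1 / 2 * (Real.sqrt X * Real.sqrt X) := by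
          field_simp
      _ = 1 / 2 * X := by rw [h3]
  rw [abs_le] at hpsi ⊢
  constructor <;> linarith [hpsi.1, hpsi.2]

end Pool.MP_dd84fd_nt.SW
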