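import Pool.Agent.Lib.MP_dd84fd_nt.SW.Defs

set_option autoImplicit false

namespace Pool.MP_dd84fd_nt.SW

open Finset

/-- summability of `L`-series of functions with logarithmic growth -/
theorem MuRec_summable {f : ℕ → ℂ} {j : ℕ} {s : ℂ} (hs : 1 < s.re)
    (hf : ∀ n, ‖f n‖ ≤ |Real.log n| ^ j) : LSeriesSummable f s := by
  refine LSeriesSummable_of_isBigO_rpow (x := (1 + s.re) / 2) (by linarith) ?_
  have h1 : (fun x : ℝ => Real.log x ^ (j : ℝ)) =o[Filter.atTop]
      fun x => x ^ ((1 + s.re) / 2 - 1) :=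
    isLittleO_log_rpow_rpow_atTop (j : ℝ) (by linarith)
  have h2 := h1.isBigO.comp_tendsto (tendsto_natCast_atTop_atTop (R := ℝ))
  refine Asymptotics.IsBigO.trans (Asymptotics.IsBigO.of_bound 1 ?_) h2
  refine Filter.Eventually.of_forall fun n => ?_
  rw [one_mul, Function.comp_apply, Real.rpow_natCast, norm_pow, Real.norm_eq_abs]
  exact hf n

theorem MuRec_ej_le {q : ℕ} (χ : DirichletCharacter ℂ q) (j n : ℕ) :
    ‖ej χ j n‖ ≤ |Real.log n| ^ j := by
  unfold ej
  rw [norm_mul, norm_pow, Complex.norm_real, Real.norm_eq_abs]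
  have := χ.norm_le_one n
  calc ‖χ n‖ * |Real.log n| ^ j ≤ 1 * |Real.log n| ^ j := by gcongr
    _ = _ := one_mul _

theorem MuRec_ak_le {q : ℕ} (χ : DirichletCharacter ℂ q) (k n : ℕ) :
    ‖ak χ k n‖ ≤ |Real.log n| ^ k := by
  unfold ak
  rw [norm_mul, norm_mul, norm_pow, Complex.norm_real, Real.norm_eq_abs]
  have h1 := χ.norm_le_one n
  have h2 : ‖((ArithmeticFunction.moebius n : ℤ) : ℂ)‖ ≤ 1 := by
    rw [Complex.norm_intCast]
    exact_mod_cast ArithmeticFunction.abs_moebius_le_one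
  calc ‖((ArithmeticFunction.moebius n : ℤ) : ℂ)‖ * ‖χ n‖ * |Real.log n| ^ k
      ≤ 1 * 1 * |Real.log n| ^ k := by gcongr
    _ = _ := by ring

/-- The Dirichlet convolutions of `μ χ log^(k-j)` and `χ log^j`, summed with binomial weights. -/
theorem MuRec_conv {q : ℕ} (χ : DirichletCharacter ℂ q) (k n : ℕ) (hn : n ≠ 0) :
    ∑ j ∈ range (k + 1), (k.choose j : ℂ) * (LSeries.convolution (ak χ (k - j)) (ej χ j)) n =
      if n = 1 then (if k = 0 then 1 else 0) else 0 := by
  have h1 : ∑ j ∈ range (k + 1), (k.choose j : ℂ) * (LSeries.convolution (ak χ (k - j)) (ej χ j)) n =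
      ∑ p ∈ n.divisorsAntidiagonal, ((ArithmeticFunction.moebius p.1 : ℤ) : ℂ) *
        (χ n * (Real.log n : ℂ) ^ k) := by
    simp_rw [LSeries.convolution_def, Finset.mul_sum]
    rw [Finset.sum_comm]
    refine Finset.sum_congr rfl fun p hp => ?_
    rw [Nat.mem_divisorsAntidiagonal] at hp
    obtain ⟨hp1, hp2⟩ := hp
    have hp10 : p.1 ≠ 0 := by
      rintro h0
      rw [h0, zero_mul] at hp1
      exact hn hp1.symm
    have hp20 : p.2 ≠ 0 := by
      rintro h0
      rw [h0, mul_zero] at hp1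
      exact hn hp1.symm
    have hlog : (Real.log n : ℂ) = (Real.log p.2 : ℂ) + (Real.log p.1 : ℂ) := by
      rw [← hp1]
      push_cast
      rw [Real.log_mul (by exact_mod_cast hp10) (by exact_mod_cast hp20)]
      push_cast
      ring
    have hχ : χ n = χ p.1 * χ p.2 := by
      rw [← hp1]
      push_cast
      rw [map_mul]
    rw [hlog, add_pow, hχ, Finset.mul_sum, Finset.mul_sum]
    refine Finset.sum_congr rfl fun j _ => ?_
    unfold ak ej
    ring
  rw [h1, ← Finset.sum_mul]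
  have h2 : ∑ p ∈ n.divisorsAntidiagonal, ((ArithmeticFunction.moebius p.1 : ℤ) : ℂ) =
      if n = 1 then 1 else 0 := by
    have h3 : ∑ p ∈ n.divisorsAntidiagonal, (ArithmeticFunction.moebius p.1 : ℤ) =
        if n = 1 then 1 else 0 := by
      have h5 : (ArithmeticFunction.moebius * (ArithmeticFunction.zeta : ArithmeticFunction ℤ)) n =
          (1 : ArithmeticFunction ℤ) n := by
        rw [ArithmeticFunction.moebius_mul_coe_zeta]
      rw [ArithmeticFunction.one_apply, ArithmeticFunction.mul_apply] at h5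
      rw [← h5]
      refine Finset.sum_congr rfl fun p hp => ?_
      rw [Nat.mem_divisorsAntidiagonal] at hp
      have hp20 : p.2 ≠ 0 := by
        rintro h0
        rw [h0, mul_zero] at hp
        exact hn hp.1.symm
      rw [ArithmeticFunction.natCoe_apply, ArithmeticFunction.zeta_apply, if_neg hp20]
      simp
    have h4 := congrArg (fun x : ℤ => (x : ℂ)) h3
    push_cast at h4
    exact h4
  rw [h2]
  by_cases h : n = 1
  · subst h
    simp only [if_true, Nat.cast_one, map_one, Real.log_one, Complex.ofReal_zero, one_mul]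
    by_cases hk : k = 0
    · subst hk
      simp
    · simp [hk]
  · simp [h]

theorem MuRec_identity {q : ℕ} (χ : DirichletCharacter ℂ q) (k : ℕ) (s : ℂ) (hs : 1 < s.re) :
    ∑ j ∈ range (k + 1), (k.choose j : ℂ) * (LSeries (ak χ (k - j)) s * LSeries (ej χ j) s) =
      if k = 0 then 1 else 0 := by
  have h1 : ∀ j ∈ range (k + 1), (k.choose j : ℂ) *
      (LSeries (ak χ (k - j)) s * LSeries (ej χ j) s) =
      LSeries ((k.choose j : ℂ) • (LSeries.convolution (ak χ (k - j)) (ej χ j))) s := by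
    intro j _
    rw [LSeries_smul, LSeries_convolution' (MuRec_summable hs (MuRec_ak_le χ (k - j)))
      (MuRec_summable hs (MuRec_ej_le χ j))]
  rw [Finset.sum_congr rfl h1]
  have h2 : ∀ j ∈ range (k + 1), LSeriesSummable ((k.choose j : ℂ) • (LSeries.convolution (ak χ (k - j)) (ej χ j))) s := by
    intro j _
    exact (LSeriesSummable.convolution (MuRec_summable hs (MuRec_ak_le χ (k - j)))
      (MuRec_summable hs (MuRec_ej_le χ j))).smul _
  rw [← LSeries_sum h2]
  have h3 : LSeries (∑ j ∈ range (k + 1), (k.choose j : ℂ) • (LSeries.convolution (ak χ (k - j)) (ej χ j))) s =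
      LSeries (fun n => if n = 1 then (if k = 0 then 1 else 0) else 0) s := by
    refine LSeries_congr (fun {n} hn => ?_) s
    rw [← MuRec_conv χ k n hn]
    simp only [Finset.sum_apply, Pi.smul_apply, smul_eq_mul]
  rw [h3]
  by_cases hk : k = 0
  · simp only [hk, if_true]
    have : (fun n : ℕ => if n = 1 then (1 : ℂ) else 0) = LSeries.delta := by
      funext n
      simp [LSeries.delta]
    rw [this, LSeries_delta]
    simp
  · simp only [hk, if_false]
    have : (fun n : ℕ => if n = 1 then (0 : ℂ) else 0) = 0 := by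
      funext n
      simp
    rw [this, LSeries_zero]
    simp

theorem Fk_rec (k : ℕ) : ∃ C : ℝ, 0 < C ∧ ∀ (q : ℕ) (χ : DirichletCharacter ℂ q) (s : ℂ)
    (m H : ℝ), 1 < s.re → 0 < m → m ≤ 1 → 1 ≤ H → m ≤ ‖LSeries (ej χ 0) s‖ →
    (∀ j : ℕ, 1 ≤ j → j ≤ k → ‖LSeries (ej χ j) s‖ ≤ H) →
    ‖LSeries (ak χ k) s‖ ≤ C * H ^ k / m ^ (k + 1) := by
  induction k using Nat.strong_induction_on with
  | _ k ih =>
  have ih' : ∀ i : ℕ, ∃ C : ℝ, 0 < C ∧ (i < k → ∀ (q : ℕ) (χ : DirichletCharacter ℂ q) (s : ℂ)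
    (m H : ℝ), 1 < s.re → 0 < m → m ≤ 1 → 1 ≤ H → m ≤ ‖LSeries (ej χ 0) s‖ →
    (∀ j : ℕ, 1 ≤ j → j ≤ i → ‖LSeries (ej χ j) s‖ ≤ H) →
    ‖LSeries (ak χ i) s‖ ≤ C * H ^ i / m ^ (i + 1)) := by
    intro i
    by_cases hi : i < k
    · obtain ⟨C, hC, h⟩ := ih i hi
      exact ⟨C, hC, fun _ => h⟩
    · exact ⟨1, one_pos, fun h => absurd h hi⟩
  choose Cf hCf hih using ih'
  refine ⟨1 + ∑ j ∈ range k, (k.choose (j + 1) : ℝ) * Cf (k - (j + 1)), ?_, ?_⟩
  · have : 0 ≤ ∑ j ∈ range k, (k.choose (j + 1) : ℝ) * Cf (k - (j + 1)) :=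
      Finset.sum_nonneg fun j _ => mul_nonneg (Nat.cast_nonneg _) (hCf _).le
    linarith
  intro q χ s m H hs hm hm1 hH hL hE
  have hid := MuRec_identity χ k s hs
  have hL0 : LSeries (ej χ 0) s ≠ 0 := by
    intro h0
    rw [h0, norm_zero] at hL
    linarith
  have hLpos : 0 < ‖LSeries (ej χ 0) s‖ := norm_pos_iff.2 hL0
  rw [Finset.sum_range_succ'] at hid
  simp only [Nat.choose_zero_right, Nat.cast_one, one_mul, Nat.sub_zero] at hid
  set SS1 : ℂ := ∑ j ∈ range k, (k.choose (j + 1) : ℂ) *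
    (LSeries (ak χ (k - (j + 1))) s * LSeries (ej χ (j + 1)) s) with hSS
  have hmk : 0 < m ^ k := by positivity
  have hHk : 1 ≤ H ^ k := one_le_pow₀ hH
  -- bound for the sum
  have hS : ‖SS1‖ ≤ (∑ j ∈ range k, (k.choose (j + 1) : ℝ) * Cf (k - (j + 1))) * (H ^ k / m ^ k) := by
    rw [hSS, Finset.sum_mul]
    refine le_trans (norm_sum_le _ _) (Finset.sum_le_sum fun j hj => ?_)
    rw [Finset.mem_range] at hj
    rw [norm_mul, norm_mul, Complex.norm_natCast, mul_assoc]
    refine mul_le_mul_of_nonneg_left ?_ (Nat.cast_nonneg _)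
    have h1 := hih (k - (j + 1)) (by omega) q χ s m H hs hm hm1 hH hL
      (fun i hi1 hi2 => hE i hi1 (by omega))
    have h2 := hE (j + 1) (by omega) (by omega)
    calc ‖LSeries (ak χ (k - (j + 1))) s‖ * ‖LSeries (ej χ (j + 1)) s‖
        ≤ (Cf (k - (j + 1)) * H ^ (k - (j + 1)) / m ^ (k - (j + 1) + 1)) * H := by
          refine mul_le_mul h1 h2 (norm_nonneg _) ?_
          have := (hCf (k - (j + 1))).le
          positivity
      _ = Cf (k - (j + 1)) * (H ^ (k - (j + 1) + 1) / m ^ (k - (j + 1) + 1)) := by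
          rw [pow_succ H]
          ring
      _ ≤ Cf (k - (j + 1)) * (H ^ k / m ^ k) := by
          refine mul_le_mul_of_nonneg_left ?_ (hCf _).le
          refine div_le_div₀ (by positivity) ?_ hmk ?_
          · exact pow_le_pow_right₀ hH (by omega)
          · exact pow_le_pow_of_le_one hm.le hm1 (by omega)
  have hF : LSeries (ak χ k) s * LSeries (ej χ 0) s = (if k = 0 then 1 else 0) - SS1 := by
    rw [← hid]
    ring
  have hF2 : ‖LSeries (ak χ k) s‖ * ‖LSeries (ej χ 0) s‖ ≤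
      (1 + ∑ j ∈ range k, (k.choose (j + 1) : ℝ) * Cf (k - (j + 1))) * (H ^ k / m ^ k) := by
    rw [← norm_mul, hF]
    refine le_trans (norm_sub_le _ _) ?_
    rw [add_mul, one_mul]
    refine add_le_add ?_ hS
    have h3 : ‖(if k = 0 then (1 : ℂ) else 0)‖ ≤ 1 := by
      by_cases hk : k = 0
      · simp [hk]
      · simp [hk]
    refine le_trans h3 ?_
    rw [le_div_iff₀ hmk, one_mul]
    exact le_trans (pow_le_one₀ hm.le hm1) hHk
  have hCpos : 0 ≤ 1 + ∑ j ∈ range k, (k.choose (j + 1) : ℝ) * Cf (k - (j + 1)) := by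
    have : 0 ≤ ∑ j ∈ range k, (k.choose (j + 1) : ℝ) * Cf (k - (j + 1)) :=
      Finset.sum_nonneg fun j _ => mul_nonneg (Nat.cast_nonneg _) (hCf _).le
    linarith
  calc ‖LSeries (ak χ k) s‖ = ‖LSeries (ak χ k) s‖ * ‖LSeries (ej χ 0) s‖ /
        ‖LSeries (ej χ 0) s‖ := by field_simp
    _ ≤ (1 + ∑ j ∈ range k, (k.choose (j + 1) : ℝ) * Cf (k - (j + 1))) * (H ^ k / m ^ k) /
        ‖LSeries (ej χ 0) s‖ := by gcongr
    _ ≤ (1 + ∑ j ∈ range k, (k.choose (j + 1) : ℝ) * Cf (k - (j + 1))) * (H ^ k / m ^ k) / m := by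
        gcongr
    _ = _ := by
        rw [pow_succ]
        field_simp

end Pool.MP_dd84fd_nt.SW
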