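import Pool.Agent.Lib.MP_dd84fd_nt.SW.Defs

set_option autoImplicit false

namespace Pool.MP_dd84fd_nt.SW

open Finset MeasureTheory

/-- the Gaussian weight `exp (-T² log² (u/Y) / 8)` -/
private noncomputable def tph (T Y u : ℝ) : ℝ := Real.exp (-(T ^ 2 * Real.log (u / Y) ^ 2 / 8))

private lemma tph_nonneg (T Y u : ℝ) : 0 ≤ tph T Y u := (Real.exp_pos _).le

private lemma tph_le_one (T Y u : ℝ) : tph T Y u ≤ 1 := by
  unfold tph
  rw [Real.exp_le_one_iff]
  have : 0 ≤ T ^ 2 * Real.log (u / Y) ^ 2 / 8 := by positivity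
  linarith only [this]

private lemma tauber_amgm (b y : ℝ) : b * y ≤ b ^ 2 + y ^ 2 / 4 := by
  nlinarith only [sq_nonneg (b - y / 2)]

private lemma tauber_mono {T Y : ℝ} (hY : 0 < Y) {s : Set ℝ} (hs : ∀ u ∈ s, 0 < u ∧ u ≤ Y) :
    MonotoneOn (tph T Y) s := by
  intro a ha b hb hab
  unfold tph
  apply Real.exp_le_exp.mpr
  have h1 : Real.log (a / Y) ≤ Real.log (b / Y) :=
    Real.log_le_log (div_pos (hs a ha).1 hY) (by gcongr)
  have h2 : Real.log (b / Y) ≤ 0 :=
    Real.log_nonpos (div_nonneg (hs b hb).1.le hY.le) ((div_le_one hY).mpr (hs b hb).2)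
  have h3 : Real.log (b / Y) ^ 2 ≤ Real.log (a / Y) ^ 2 := by nlinarith only [h1, h2]
  have h4 : T ^ 2 * Real.log (b / Y) ^ 2 ≤ T ^ 2 * Real.log (a / Y) ^ 2 :=
    mul_le_mul_of_nonneg_left h3 (sq_nonneg T)
  linarith

private lemma tauber_anti {T Y : ℝ} (hY : 0 < Y) {s : Set ℝ} (hs : ∀ u ∈ s, Y ≤ u) :
    AntitoneOn (tph T Y) s := by
  intro a ha b hb hab
  unfold tph
  apply Real.exp_le_exp.mpr
  have ha' := hs a ha
  have h1 : Real.log (a / Y) ≤ Real.log (b / Y) :=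
    Real.log_le_log (div_pos (hY.trans_le ha') hY) (by gcongr)
  have h2 : 0 ≤ Real.log (a / Y) := Real.log_nonneg ((one_le_div hY).mpr ha')
  have h3 : Real.log (a / Y) ^ 2 ≤ Real.log (b / Y) ^ 2 := by nlinarith only [h1, h2]
  have h4 : T ^ 2 * Real.log (a / Y) ^ 2 ≤ T ^ 2 * Real.log (b / Y) ^ 2 :=
    mul_le_mul_of_nonneg_left h3 (sq_nonneg T)
  linarith only [h4]

/-- integral of a dilated Gaussian -/
private lemma tauber_gauss {T c : ℝ} (hT : 0 < T) (hc : 0 < c) :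
    ∫ v : ℝ, Real.exp (-(T ^ 2 * v ^ 2 / c)) = √(Real.pi * c) / T := by
  have h := integral_gaussian (T ^ 2 / c)
  have h1 : (fun v : ℝ => Real.exp (-(T ^ 2 * v ^ 2 / c))) =
      fun v : ℝ => Real.exp (-(T ^ 2 / c) * v ^ 2) := by
    funext v; congr 1; ring
  rw [h1, h]
  have h2 : Real.pi / (T ^ 2 / c) = (Real.pi * c) / T ^ 2 := by field_simp
  rw [h2, Real.sqrt_div (by positivity), Real.sqrt_sq hT.le]

private lemma tauber_gauss_int {T c : ℝ} (hT : 0 < T) (hc : 0 < c) :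
    Integrable (fun v : ℝ => Real.exp (-(T ^ 2 * v ^ 2 / c))) := by
  have h1 : (fun v : ℝ => Real.exp (-(T ^ 2 * v ^ 2 / c))) =
      fun v : ℝ => Real.exp (-(T ^ 2 / c) * v ^ 2) := by
    funext v; congr 1; ring
  rw [h1]
  exact integrable_exp_neg_mul_sq (by positivity)

private lemma tauber_int_phi {T Y a b : ℝ} (hT : 1 ≤ T) (hY : 0 < Y) (ha : 0 < a) (hab : a ≤ b) :
    ∫ u in a..b, tph T Y u ≤ Real.exp 4 * √(Real.pi * 16) * (Y / T) := by
  have hT0 : 0 < T := by linarith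
  have hb : 0 < b := ha.trans_le hab
  have key : ∫ v in (Real.log (a / Y))..(Real.log (b / Y)),
      (tph T Y ∘ fun v => Y * Real.exp v) v * (Y * Real.exp v)
      = ∫ u in (Y * Real.exp (Real.log (a / Y)))..(Y * Real.exp (Real.log (b / Y))), tph T Y u := by
    apply intervalIntegral.integral_comp_mul_deriv'
    · intro x _
      exact (Real.hasDerivAt_exp x).const_mul Y
    · exact (continuous_const.mul Real.continuous_exp).continuousOn
    · rintro u ⟨v, _, rfl⟩
      apply ContinuousAt.continuousWithinAt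
      have hpos : 0 < Y * Real.exp v := by positivity
      unfold tph
      have h1 : ContinuousAt (fun u : ℝ => Real.log (u / Y)) (Y * Real.exp v) := by
        apply ContinuousAt.log
        · exact (continuous_id.div_const Y).continuousAt
        · positivity
      exact ((((h1.pow 2).const_mul (T ^ 2)).div_const 8).neg).rexp
  rw [Real.exp_log (by positivity), Real.exp_log (by positivity), mul_div_cancel₀ _ hY.ne',
    mul_div_cancel₀ _ hY.ne'] at key
  rw [← key]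
  have hle : Real.log (a / Y) ≤ Real.log (b / Y) :=
    Real.log_le_log (by positivity) (by gcongr)
  have hpt : ∀ v : ℝ, (tph T Y ∘ fun v => Y * Real.exp v) v * (Y * Real.exp v) ≤
      (Real.exp 4 * Y) * Real.exp (-(T ^ 2 * v ^ 2 / 16)) := by
    intro v
    have h1 : (tph T Y ∘ fun v => Y * Real.exp v) v = Real.exp (-(T ^ 2 * v ^ 2 / 8)) := by
      simp only [Function.comp, tph]
      rw [mul_div_cancel_left₀ _ hY.ne', Real.log_exp]
    rw [h1]
    have h2 : Real.exp (-(T ^ 2 * v ^ 2 / 8)) * (Y * Real.exp v)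
        = Y * Real.exp (v - T ^ 2 * v ^ 2 / 8) := by
      rw [sub_eq_add_neg, Real.exp_add]; ring
    have h3 : (Real.exp 4 * Y) * Real.exp (-(T ^ 2 * v ^ 2 / 16))
        = Y * Real.exp (4 + -(T ^ 2 * v ^ 2 / 16)) := by
      rw [Real.exp_add]; ring
    rw [h2, h3]
    apply mul_le_mul_of_nonneg_left _ hY.le
    apply Real.exp_le_exp.mpr
    have hT2 : 1 ≤ T ^ 2 := one_le_pow₀ hT
    have h4 : v ^ 2 ≤ T ^ 2 * v ^ 2 := by nlinarith only [hT2, sq_nonneg v]
    have h5 : v ≤ 4 + v ^ 2 / 16 := by nlinarith only [sq_nonneg (v - 8)]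
    nlinarith only [h4, h5]
  have hint2 : Integrable (fun v : ℝ => (Real.exp 4 * Y) * Real.exp (-(T ^ 2 * v ^ 2 / 16))) :=
    (tauber_gauss_int hT0 (by norm_num)).const_mul _
  have hcont : Continuous (fun v : ℝ => (tph T Y ∘ fun v => Y * Real.exp v) v * (Y * Real.exp v)) := by
    have h1 : (fun v : ℝ => (tph T Y ∘ fun v => Y * Real.exp v) v * (Y * Real.exp v)) =
        fun v : ℝ => Real.exp (-(T ^ 2 * v ^ 2 / 8)) * (Y * Real.exp v) := by
      funext v
      simp only [Function.comp, tph]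
      rw [mul_div_cancel_left₀ _ hY.ne', Real.log_exp]
    rw [h1]; fun_prop
  calc ∫ v in (Real.log (a / Y))..(Real.log (b / Y)),
      (tph T Y ∘ fun v => Y * Real.exp v) v * (Y * Real.exp v)
      ≤ ∫ v in (Real.log (a / Y))..(Real.log (b / Y)),
          (Real.exp 4 * Y) * Real.exp (-(T ^ 2 * v ^ 2 / 16)) := by
        apply intervalIntegral.integral_mono_on hle (hcont.intervalIntegrable _ _)
          hint2.intervalIntegrable
        intro x _; exact hpt x
    _ ≤ ∫ v : ℝ, (Real.exp 4 * Y) * Real.exp (-(T ^ 2 * v ^ 2 / 16)) := by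
        rw [intervalIntegral.integral_of_le hle]
        apply setIntegral_le_integral hint2
        exact Filter.Eventually.of_forall fun v => by positivity
    _ = Real.exp 4 * √(Real.pi * 16) * (Y / T) := by
        rw [integral_const_mul, tauber_gauss hT0 (by norm_num)]; ring

private lemma tauber_sum_phi {T Y : ℝ} (hT : 1 ≤ T) (hY : 1 ≤ Y) (N : ℕ) :
    ∑ n ∈ range N, tph T Y n ≤ 3 + 2 * (Real.exp 4 * √(Real.pi * 16)) * (Y / T) := by
  set K := Real.exp 4 * √(Real.pi * 16) with hK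
  have hY0 : 0 < Y := by linarith
  set m := ⌊Y⌋₊ with hm
  have hm1 : 1 ≤ m := by rw [hm]; exact Nat.le_floor (by exact_mod_cast hY)
  have hmY : (m : ℝ) ≤ Y := Nat.floor_le hY0.le
  have hYm : Y < m + 1 := Nat.lt_floor_add_one Y
  have h0 : ∑ n ∈ range N, tph T Y n ≤ ∑ n ∈ range (m + 2 + N), tph T Y n := by
    apply sum_le_sum_of_subset_of_nonneg
    · exact range_subset_range.mpr (by omega)
    · intro i _ _; exact tph_nonneg _ _ _
  have h1 : ∑ n ∈ range (m + 2 + N), tph T Y n =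
      ∑ n ∈ range (m + 2), tph T Y n + ∑ i ∈ range N, tph T Y ((m + 2 + i : ℕ) : ℝ) := by
    rw [sum_range_add]
  have h2 : ∑ n ∈ range (m + 2), tph T Y n =
      tph T Y 0 + ∑ i ∈ range (m - 1), tph T Y (1 + (i : ℝ)) + tph T Y m + tph T Y (m + 1) := by
    obtain ⟨p, hp⟩ : ∃ p, m = p + 1 := ⟨m - 1, by omega⟩
    rw [sum_range_succ, sum_range_succ, hp, sum_range_succ']
    simp only [Nat.add_sub_cancel, Nat.cast_zero, Nat.cast_add, Nat.cast_one]
    have : ∀ i ∈ range p, tph T Y ((i : ℝ) + 1) = tph T Y (1 + (i : ℝ)) := by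
      intro i _; rw [add_comm]
    rw [sum_congr rfl this]; ring
  have h3 : ∑ i ∈ range (m - 1), tph T Y (1 + (i : ℝ)) ≤ K * (Y / T) := by
    have h := MonotoneOn.sum_le_integral (x₀ := 1) (a := m - 1) (f := tph T Y)
      (tauber_mono hY0 (by
        intro u hu
        rw [Set.mem_Icc] at hu
        refine ⟨by linarith [hu.1], ?_⟩
        have : ((m - 1 : ℕ) : ℝ) = m - 1 := by push_cast [Nat.cast_sub hm1]; ring
        rw [this] at hu; linarith [hu.2]))
    refine h.trans (tauber_int_phi hT hY0 one_pos ?_)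
    have : (0 : ℝ) ≤ ((m - 1 : ℕ) : ℝ) := Nat.cast_nonneg _
    linarith
  have h4 : ∑ i ∈ range N, tph T Y ((m + 2 + i : ℕ) : ℝ) ≤ K * (Y / T) := by
    have h := AntitoneOn.sum_le_integral (x₀ := (m : ℝ) + 1) (a := N) (f := tph T Y)
      (tauber_anti hY0 (by
        intro u hu
        rw [Set.mem_Icc] at hu
        linarith [hu.1]))
    have h5 : ∑ i ∈ range N, tph T Y ((m + 2 + i : ℕ) : ℝ) =
        ∑ i ∈ range N, tph T Y ((m : ℝ) + 1 + ((i + 1 : ℕ) : ℝ)) := by
      apply sum_congr rfl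
      intro i _
      congr 1; push_cast; ring
    rw [h5]
    refine h.trans (tauber_int_phi hT hY0 (by positivity) ?_)
    have : (0 : ℝ) ≤ (N : ℝ) := Nat.cast_nonneg _
    linarith
  have e1 := tph_le_one T Y 0
  have e2 := tph_le_one T Y m
  have e3 := tph_le_one T Y (m + 1)
  rw [h1, h2] at h0
  linarith only [e1, e2, e3, h0, h3, h4]


/-- the kernel -/
private noncomputable def tkh (σ T v : ℝ) : ℝ := Real.exp (σ * v - T ^ 2 * v ^ 2 / 2)

private lemma tkh_pos (σ T v : ℝ) : 0 < tkh σ T v := Real.exp_pos _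

private lemma tkh_cont (σ T : ℝ) : Continuous (tkh σ T) := by unfold tkh; fun_prop

/-- `∫ h` over the whole line -/
private noncomputable def tkk (σ T : ℝ) : ℝ := ∫ v : ℝ, tkh σ T v

private lemma tkh_le {σ T : ℝ} (hT : 1 ≤ T) (hσ : 0 ≤ σ) (hσ2 : σ ≤ 2) (v : ℝ) :
    tkh σ T v ≤ Real.exp 4 * Real.exp (-(T ^ 2 * v ^ 2 / 4)) := by
  unfold tkh
  rw [← Real.exp_add]
  apply Real.exp_le_exp.mpr
  have hT2 : 1 ≤ T ^ 2 := one_le_pow₀ hT
  have h4 : v ^ 2 ≤ T ^ 2 * v ^ 2 := by nlinarith [sq_nonneg v]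
  have h5 : σ * v ≤ σ ^ 2 + v ^ 2 / 4 := tauber_amgm σ v
  have h6 : σ ^ 2 ≤ 4 := by nlinarith only [hσ, hσ2]
  nlinarith only [h4, h5, h6]

private lemma tkh_int {σ T : ℝ} (hT : 1 ≤ T) (hσ : 0 ≤ σ) (hσ2 : σ ≤ 2) :
    Integrable (tkh σ T) := by
  have h := (tauber_gauss_int (T := T) (c := 4) (by linarith) (by norm_num)).const_mul (Real.exp 4)
  refine h.mono' (tkh_cont σ T).aestronglyMeasurable ?_
  filter_upwards with v
  rw [Real.norm_of_nonneg (tkh_pos σ T v).le]
  exact tkh_le hT hσ hσ2 v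

private lemma tkk_le {σ T : ℝ} (hT : 1 ≤ T) (hσ : 0 ≤ σ) (hσ2 : σ ≤ 2) :
    tkk σ T ≤ Real.exp 4 * √(Real.pi * 4) / T := by
  unfold tkk
  calc ∫ v : ℝ, tkh σ T v ≤ ∫ v : ℝ, Real.exp 4 * Real.exp (-(T ^ 2 * v ^ 2 / 4)) := by
        apply integral_mono (tkh_int hT hσ hσ2)
          ((tauber_gauss_int (by linarith) (by norm_num)).const_mul _)
        intro v; exact tkh_le hT hσ hσ2 v
    _ = Real.exp 4 * √(Real.pi * 4) / T := by
        rw [integral_const_mul, tauber_gauss (by linarith) (by norm_num)]; ring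

private lemma tkk_ge {σ T : ℝ} (hT : 1 ≤ T) (hσ : 0 ≤ σ) (hσ2 : σ ≤ 2) :
    Real.exp (-(1 / 2)) / T ≤ tkk σ T := by
  have hT0 : 0 < T := by linarith
  have h1 : ∫ v in (0 : ℝ)..(1 / T), Real.exp (-(1 / 2)) ≤ ∫ v in (0 : ℝ)..(1 / T), tkh σ T v := by
    apply intervalIntegral.integral_mono_on (by positivity)
      (continuous_const.intervalIntegrable _ _) ((tkh_cont σ T).intervalIntegrable _ _)
    intro v hv
    unfold tkh
    apply Real.exp_le_exp.mpr
    have h2 : T * v ≤ 1 := by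
      have := hv.2
      rw [le_div_iff₀ hT0] at this; linarith
    have h3 : 0 ≤ T * v := mul_nonneg hT0.le hv.1
    have h4 : T ^ 2 * v ^ 2 ≤ 1 := by nlinarith
    have h5 : 0 ≤ σ * v := mul_nonneg hσ hv.1
    linarith
  rw [intervalIntegral.integral_const, smul_eq_mul, sub_zero] at h1
  have h2 : ∫ v in (0 : ℝ)..(1 / T), tkh σ T v ≤ tkk σ T := by
    rw [intervalIntegral.integral_of_le (by positivity)]
    apply setIntegral_le_integral (tkh_int hT hσ hσ2)
    exact Filter.Eventually.of_forall fun v => (tkh_pos σ T v).le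
  calc Real.exp (-(1 / 2)) / T = 1 / T * Real.exp (-(1 / 2)) := by ring
    _ ≤ _ := h1.trans h2

/-- tails -/
private lemma tkh_tail {σ T A : ℝ} (hT : 1 ≤ T) (hσ : 0 ≤ σ) (hσ2 : σ ≤ 2) {s : Set ℝ}
    (hs : MeasurableSet s) (hA : ∀ v ∈ s, A ^ 2 ≤ v ^ 2) :
    ∫ v in s, tkh σ T v ≤ Real.exp 4 * √(Real.pi * 8) / T * Real.exp (-(T ^ 2 * A ^ 2 / 8)) := by
  have hT0 : 0 < T := by linarith
  have hint : Integrable (fun v : ℝ => (Real.exp 4 * Real.exp (-(T ^ 2 * A ^ 2 / 8))) *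
      Real.exp (-(T ^ 2 * v ^ 2 / 8))) := (tauber_gauss_int hT0 (by norm_num)).const_mul _
  calc ∫ v in s, tkh σ T v ≤ ∫ v in s, (Real.exp 4 * Real.exp (-(T ^ 2 * A ^ 2 / 8))) *
      Real.exp (-(T ^ 2 * v ^ 2 / 8)) := by
        apply setIntegral_mono_on (tkh_int hT hσ hσ2).integrableOn hint.integrableOn hs
        intro v hv
        refine (tkh_le hT hσ hσ2 v).trans ?_
        rw [← Real.exp_add, ← Real.exp_add, ← Real.exp_add]
        apply Real.exp_le_exp.mpr
        have := mul_le_mul_of_nonneg_left (hA v hv) (sq_nonneg T)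
        linarith
    _ ≤ ∫ v : ℝ, (Real.exp 4 * Real.exp (-(T ^ 2 * A ^ 2 / 8))) *
      Real.exp (-(T ^ 2 * v ^ 2 / 8)) := by
        apply setIntegral_le_integral hint
        exact Filter.Eventually.of_forall fun v => by positivity
    _ = _ := by
        rw [integral_const_mul, tauber_gauss hT0 (by norm_num)]; ring

/-- the weight -/
private noncomputable def tkW (σ T a b : ℝ) (n : ℕ) : ℝ :=
  ∫ x in a..b, x ^ (σ - 1) * ((n : ℝ) ^ (-σ) *
    Real.exp (-(T ^ 2 * Real.log (n / x) ^ 2 / 2)))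

private lemma tkW_eq {σ T a b : ℝ} (ha : 0 < a) (hab : a ≤ b) {n : ℕ} (hn : 1 ≤ n) :
    tkW σ T a b n = ∫ v in (Real.log (a / n))..(Real.log (b / n)), tkh σ T v := by
  have hn0 : (0 : ℝ) < n := by exact_mod_cast hn
  have hb : 0 < b := ha.trans_le hab
  unfold tkW
  have key : ∫ v in (Real.log (a / n))..(Real.log (b / n)),
      ((fun x : ℝ => x ^ (σ - 1) * ((n : ℝ) ^ (-σ) *
        Real.exp (-(T ^ 2 * Real.log (n / x) ^ 2 / 2)))) ∘ fun v => n * Real.exp v) v *
        (n * Real.exp v)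
      = ∫ u in (n * Real.exp (Real.log (a / n)))..(n * Real.exp (Real.log (b / n))),
        u ^ (σ - 1) * ((n : ℝ) ^ (-σ) * Real.exp (-(T ^ 2 * Real.log (n / u) ^ 2 / 2))) := by
    apply intervalIntegral.integral_comp_mul_deriv'
    · intro x _
      exact (Real.hasDerivAt_exp x).const_mul (n : ℝ)
    · exact (continuous_const.mul Real.continuous_exp).continuousOn
    · rintro u ⟨v, _, rfl⟩
      apply ContinuousAt.continuousWithinAt
      have hpos : 0 < (n : ℝ) * Real.exp v := by positivity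
      have h1 : ContinuousAt (fun u : ℝ => Real.log (n / u)) (n * Real.exp v) := by
        apply ContinuousAt.log
        · exact continuousAt_const.div continuousAt_id hpos.ne'
        · positivity
      apply ContinuousAt.mul
      · exact Real.continuousAt_rpow_const _ _ (Or.inl hpos.ne')
      · exact continuousAt_const.mul ((((h1.pow 2).const_mul (T ^ 2)).div_const 2).neg).rexp
  rw [Real.exp_log (by positivity), Real.exp_log (by positivity), mul_div_cancel₀ _ hn0.ne',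
    mul_div_cancel₀ _ hn0.ne'] at key
  rw [← key]
  apply intervalIntegral.integral_congr
  intro v _
  simp only [Function.comp, tkh]
  have h1 : Real.log (n / (n * Real.exp v)) = -v := by
    rw [div_mul_cancel_left₀ hn0.ne', Real.log_inv, Real.log_exp]
  rw [h1]
  have h2 : ((n : ℝ) * Real.exp v) ^ (σ - 1) * (n * Real.exp v) = ((n : ℝ) * Real.exp v) ^ σ := by
    rw [← Real.rpow_add_one (by positivity)]; congr 1; ring
  have h3 : ((n : ℝ) * Real.exp v) ^ σ = (n : ℝ) ^ σ * Real.exp (σ * v) := by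
    rw [Real.mul_rpow hn0.le (Real.exp_pos v).le, ← Real.exp_mul, mul_comm v]
  have h4 : (n : ℝ) ^ σ * (n : ℝ) ^ (-σ) = 1 := by
    rw [← Real.rpow_add hn0]; simp
  calc ((n : ℝ) * Real.exp v) ^ (σ - 1) * ((n : ℝ) ^ (-σ) * Real.exp (-(T ^ 2 * (-v) ^ 2 / 2))) *
        (n * Real.exp v)
      = (((n : ℝ) * Real.exp v) ^ (σ - 1) * (n * Real.exp v)) * (n : ℝ) ^ (-σ) *
        Real.exp (-(T ^ 2 * v ^ 2 / 2)) := by rw [neg_sq]; ring
    _ = ((n : ℝ) ^ σ * (n : ℝ) ^ (-σ)) * (Real.exp (σ * v) * Real.exp (-(T ^ 2 * v ^ 2 / 2))) := by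
        rw [h2, h3]; ring
    _ = Real.exp (σ * v - T ^ 2 * v ^ 2 / 2) := by
        rw [h4, one_mul, ← Real.exp_add]; congr 1

private lemma tkk_sub {σ T a b : ℝ} (hT : 1 ≤ T) (hσ : 0 ≤ σ) (hσ2 : σ ≤ 2) :
    tkk σ T - ∫ v in a..b, tkh σ T v = (∫ v in Set.Iic a, tkh σ T v) + ∫ v in Set.Ioi b, tkh σ T v := by
  have hint := tkh_int hT hσ hσ2
  have h1 : tkk σ T = (∫ v in Set.Iic b, tkh σ T v) + ∫ v in Set.Ioi b, tkh σ T v := by
    unfold tkk
    rw [← setIntegral_univ, ← Set.Iic_union_Ioi (a := b),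
      setIntegral_union (Set.Iic_disjoint_Ioi le_rfl) measurableSet_Ioi hint.integrableOn
        hint.integrableOn]
  have h2 : (∫ v in Set.Iic b, tkh σ T v) - ∫ v in Set.Iic a, tkh σ T v = ∫ v in a..b, tkh σ T v :=
    intervalIntegral.integral_Iic_sub_Iic hint.integrableOn hint.integrableOn
  linarith


private noncomputable def tK1 : ℝ := Real.exp 4 * √(Real.pi * 8)

private lemma tK1_pos : 0 < tK1 := by unfold tK1; positivity

private lemma tauber_log_sq (n x : ℝ) : Real.log (x / n) ^ 2 = Real.log (n / x) ^ 2 := by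
  rw [← inv_div, Real.log_inv, neg_sq]

/-- comparison of the weight with `κ 1_{n ≤ X}` -/
private lemma tkW_cmp {σ T a b : ℝ} (hT : 1 ≤ T) (hσ : 0 ≤ σ) (hσ2 : σ ≤ 2) (ha : 0 < a)
    (hab : a ≤ b) {n : ℕ} (hn : 1 ≤ n) :
    |(if (n : ℝ) ≤ b then tkk σ T else 0) - tkW σ T a b n| ≤
      tK1 / T * ((if (n : ℝ) ≤ a then 1 else 0) + tph T a n + tph T b n) := by
  have hT0 : 0 < T := by linarith
  have hn0 : (0 : ℝ) < n := by exact_mod_cast hn
  have hb : 0 < b := ha.trans_le hab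
  have hint := tkh_int hT hσ hσ2
  have hle : Real.log (a / n) ≤ Real.log (b / n) :=
    Real.log_le_log (by positivity) (by gcongr)
  have hK : 0 ≤ tK1 / T := by have := tK1_pos; positivity
  have hsub := tkk_sub (a := Real.log (a / n)) (b := Real.log (b / n)) hT hσ hσ2
  rw [← tkW_eq ha hab hn] at hsub
  have p1 := tph_nonneg T a n
  have p2 := tph_nonneg T b n
  by_cases hnb : (n : ℝ) ≤ b
  · rw [if_pos hnb]
    have hB0 : 0 ≤ Real.log (b / n) := Real.log_nonneg ((one_le_div hn0).mpr hnb)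
    have htail2 : ∫ v in Set.Ioi (Real.log (b / n)), tkh σ T v ≤ tK1 / T * tph T b n := by
      have h := tkh_tail (A := Real.log (b / n)) hT hσ hσ2 (s := Set.Ioi (Real.log (b / n)))
        measurableSet_Ioi (by
          intro v hv
          have hv' : Real.log (b / n) < v := hv
          nlinarith only [hB0, hv'])
      rw [tauber_log_sq] at h
      exact h
    have hn1 : 0 ≤ ∫ v in Set.Iic (Real.log (a / n)), tkh σ T v :=
      setIntegral_nonneg measurableSet_Iic fun v _ => (tkh_pos σ T v).le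
    have hn2 : 0 ≤ ∫ v in Set.Ioi (Real.log (b / n)), tkh σ T v :=
      setIntegral_nonneg measurableSet_Ioi fun v _ => (tkh_pos σ T v).le
    rw [hsub, abs_of_nonneg (by linarith)]
    by_cases hna : (n : ℝ) ≤ a
    · rw [if_pos hna]
      have hW : 0 ≤ tkW σ T a b n := by
        rw [tkW_eq ha hab hn]
        exact intervalIntegral.integral_nonneg hle fun v _ => (tkh_pos σ T v).le
      have h1 : tkk σ T ≤ tK1 / T := by
        refine (tkk_le hT hσ hσ2).trans ?_
        unfold tK1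
        gcongr
        norm_num
      have h2 : tK1 / T * 1 ≤ tK1 / T * (1 + tph T a n + tph T b n) :=
        mul_le_mul_of_nonneg_left (by linarith) hK
      linarith only [h1, h2, hW, hsub]
    · rw [if_neg hna]
      push Not at hna
      have hA0 : Real.log (a / n) ≤ 0 :=
        Real.log_nonpos (by positivity) ((div_le_one hn0).mpr hna.le)
      have htail1 : ∫ v in Set.Iic (Real.log (a / n)), tkh σ T v ≤ tK1 / T * tph T a n := by
        have h := tkh_tail (A := Real.log (a / n)) hT hσ hσ2 (s := Set.Iic (Real.log (a / n)))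
          measurableSet_Iic (by
            intro v hv
            have hv' : v ≤ Real.log (a / n) := hv
            nlinarith only [hA0, hv'])
        rw [tauber_log_sq] at h
        exact h
      calc _ ≤ tK1 / T * tph T a n + tK1 / T * tph T b n := add_le_add htail1 htail2
        _ = _ := by ring
  · rw [if_neg hnb]
    push Not at hnb
    have hW : 0 ≤ tkW σ T a b n := by
      rw [tkW_eq ha hab hn]
      exact intervalIntegral.integral_nonneg hle fun v _ => (tkh_pos σ T v).le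
    rw [zero_sub, abs_neg, abs_of_nonneg hW]
    have hB0 : Real.log (b / n) ≤ 0 :=
      Real.log_nonpos (by positivity) ((div_le_one hn0).mpr hnb.le)
    have h1 : tkW σ T a b n ≤ ∫ v in Set.Iic (Real.log (b / n)), tkh σ T v := by
      rw [tkW_eq ha hab hn, intervalIntegral.integral_of_le hle]
      apply setIntegral_mono_set hint.integrableOn
      · exact Filter.Eventually.of_forall fun v => (tkh_pos σ T v).le
      · exact (Set.Ioc_subset_Iic_self).eventuallyLE
    have h2 := tkh_tail (A := Real.log (b / n)) hT hσ hσ2 (s := Set.Iic (Real.log (b / n)))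
        measurableSet_Iic (by
          intro v hv
          have hv' : v ≤ Real.log (b / n) := hv
          nlinarith only [hB0, hv'])
    rw [tauber_log_sq] at h2
    have h3 : tkW σ T a b n ≤ tK1 / T * tph T b n := h1.trans h2
    refine h3.trans (mul_le_mul_of_nonneg_left ?_ hK)
    have : (0 : ℝ) ≤ (if (n : ℝ) ≤ a then 1 else 0) := by split_ifs <;> norm_num
    linarith only [p1, this]

private lemma tkW_zero {σ T a b : ℝ} (hσ : 0 < σ) : tkW σ T a b 0 = 0 := by
  have h0 : (0 : ℝ) ^ (-σ) = 0 := Real.zero_rpow (by linarith)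
  unfold tkW
  simp [h0]

private lemma tauber_sum_phi' {T Y : ℝ} (hT : 1 ≤ T) (hY : 1 ≤ Y) :
    Summable (fun n : ℕ => tph T Y n) ∧
      ∑' n : ℕ, tph T Y n ≤ 3 + 2 * (Real.exp 4 * √(Real.pi * 16)) * (Y / T) :=
  ⟨summable_of_sum_range_le (fun _ => tph_nonneg _ _ _) (tauber_sum_phi hT hY),
    Real.tsum_le_of_sum_range_le (fun _ => tph_nonneg _ _ _) (tauber_sum_phi hT hY)⟩

private noncomputable def tK2 : ℝ := Real.exp 4 * √(Real.pi * 16)

private lemma tK2_pos : 0 < tK2 := by unfold tK2; positivity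

/-- `∑ a(n) w(n)` is an integral -/
private lemma tauber_swap {σ T b : ℝ} {a : ℕ → ℂ} {x1 : ℝ} (ha : ∀ n, ‖a n‖ ≤ 1) (hσ : 1 < σ)
    (hx1 : 0 < x1) (hb : x1 ≤ b) {R0 E : ℝ}
    (hE : ∀ x : ℝ, x1 ≤ x → x ≤ b → x ^ (σ - 1) ≤ E)
    (hR : ∀ x : ℝ, x1 ≤ x → x ≤ b → ‖Dk a 0 σ T x‖ ≤ R0) :
    Summable (fun n : ℕ => a n * (tkW σ T x1 b n : ℂ)) ∧
      ‖∑' n : ℕ, a n * (tkW σ T x1 b n : ℂ)‖ ≤ E * R0 * (b - x1) := by
  have hE0 : 0 ≤ E := (Real.rpow_nonneg hx1.le _).trans (hE x1 le_rfl hb)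
  set g : ℕ → ℝ → ℝ := fun n x => (n : ℝ) ^ (-σ) *
    Real.exp (-(T ^ 2 * Real.log (n / x) ^ 2 / 2)) with hg
  have hg0 : ∀ n x, 0 ≤ g n x := fun n x => by simp only [hg]; positivity
  have hg1 : ∀ n x, g n x ≤ (n : ℝ) ^ (-σ) := by
    intro n x
    simp only [hg]
    have h1 : Real.exp (-(T ^ 2 * Real.log (n / x) ^ 2 / 2)) ≤ 1 := by
      rw [Real.exp_le_one_iff]
      have : 0 ≤ T ^ 2 * Real.log (n / x) ^ 2 / 2 := by positivity
      linarith
    calc _ ≤ (n : ℝ) ^ (-σ) * 1 := by gcongr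
      _ = _ := mul_one _
  have hsum : Summable (fun n : ℕ => (n : ℝ) ^ (-σ)) := Real.summable_nat_rpow.mpr (by linarith)
  have hag : ∀ x, Summable (fun n : ℕ => a n * ((g n x : ℝ) : ℂ)) := by
    intro x
    apply Summable.of_norm_bounded hsum
    intro n
    rw [norm_mul, Complex.norm_real, Real.norm_of_nonneg (hg0 n x)]
    calc ‖a n‖ * g n x ≤ 1 * g n x := mul_le_mul_of_nonneg_right (ha n) (hg0 n x)
      _ ≤ _ := by rw [one_mul]; exact hg1 n x
  set F : ℕ → ℝ → ℂ := fun n x => a n * ((x ^ (σ - 1) * g n x : ℝ) : ℂ) with hF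
  have hD : ∀ x, HasSum (fun n => F n x) (((x ^ (σ - 1) : ℝ) : ℂ) * Dk a 0 σ T x) := by
    intro x
    have h := (hag x).hasSum.mul_left ((x ^ (σ - 1) : ℝ) : ℂ)
    have h2 : Dk a 0 σ T x = ∑' n : ℕ, a n * ((g n x : ℝ) : ℂ) := by
      unfold Dk
      congr 1
      funext n
      rw [pow_zero, mul_one]
    rw [h2]
    have h3 : (fun n => F n x) = fun n => ((x ^ (σ - 1) : ℝ) : ℂ) * (a n * ((g n x : ℝ) : ℂ)) := by
      funext n
      simp only [hF]
      push_cast
      ring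
    rw [h3]
    exact h
  have hmain : HasSum (fun n => ∫ t in x1..b, F n t)
      (∫ t in x1..b, ((t ^ (σ - 1) : ℝ) : ℂ) * Dk a 0 σ T t) := by
    apply intervalIntegral.hasSum_integral_of_dominated_convergence (F := F)
      (bound := fun (n : ℕ) (_ : ℝ) => E * (n : ℝ) ^ (-σ))
    · intro n
      apply Measurable.aestronglyMeasurable
      simp only [hF, hg]
      fun_prop
    · intro n
      apply Filter.Eventually.of_forall
      intro t ht
      rw [Set.uIoc_of_le hb] at ht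
      have ht0 : 0 < t := hx1.trans ht.1
      simp only [hF]
      rw [norm_mul, Complex.norm_real,
        Real.norm_of_nonneg (mul_nonneg (Real.rpow_nonneg ht0.le _) (hg0 n t))]
      calc ‖a n‖ * (t ^ (σ - 1) * g n t) ≤ 1 * (E * (n : ℝ) ^ (-σ)) := by
            apply mul_le_mul (ha n) _ (mul_nonneg (Real.rpow_nonneg ht0.le _) (hg0 n t)) zero_le_one
            exact mul_le_mul (hE t ht.1.le ht.2) (hg1 n t) (hg0 n t) hE0
        _ = _ := one_mul _
    · apply Filter.Eventually.of_forall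
      intro t _
      exact hsum.mul_left E
    · exact intervalIntegrable_const
    · apply Filter.Eventually.of_forall
      intro t _
      exact hD t
  have hFW : ∀ n, ∫ t in x1..b, F n t = a n * (tkW σ T x1 b n : ℂ) := by
    intro n
    simp only [hF]
    rw [intervalIntegral.integral_const_mul, intervalIntegral.integral_ofReal]
    rfl
  simp only [hFW] at hmain
  refine ⟨hmain.summable, ?_⟩
  rw [hmain.tsum_eq]
  have h := intervalIntegral.norm_integral_le_of_norm_le_const (a := x1) (b := b)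
    (f := fun t => ((t ^ (σ - 1) : ℝ) : ℂ) * Dk a 0 σ T t) (C := E * R0) (by
      intro t ht
      rw [Set.uIoc_of_le hb] at ht
      have ht0 : 0 < t := hx1.trans ht.1
      rw [norm_mul, Complex.norm_real, Real.norm_of_nonneg (Real.rpow_nonneg ht0.le _)]
      exact mul_le_mul (hE t ht.1.le ht.2) (hR t ht.1.le ht.2) (norm_nonneg _) hE0)
  rwa [abs_of_nonneg (by linarith)] at h


private lemma tauber_pt {T x L σ : ℝ} {k n : ℕ} (hT : 1 ≤ T) (hx : 1 ≤ x) (hxL : Real.log x ≤ L)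
    (hL : 1 ≤ L) (hσ : 1 ≤ σ) (hσ2 : σ ≤ 2) (hn : 1 ≤ n) :
    |Real.log n ^ k - Real.log x ^ k| * ((n : ℝ) ^ (-σ) *
      Real.exp (-(T ^ 2 * Real.log (n / x) ^ 2 / 2))) ≤
      (k * Real.exp ((k + 3 : ℝ) ^ 2)) * (L ^ (k - 1) / (T * x)) * tph T x n := by
  have hT0 : 0 < T := by linarith
  have hx0 : 0 < x := by linarith
  have hn0 : (0 : ℝ) < n := by exact_mod_cast hn
  have hL0 : 0 ≤ L := by linarith
  have hv : Real.log (n / x) = Real.log n - Real.log x := Real.log_div hn0.ne' hx0.ne'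
  set v := Real.log (n / x) with hvdef
  have hp : 0 ≤ Real.log n := Real.log_nonneg (by exact_mod_cast hn)
  have hq : 0 ≤ Real.log x := Real.log_nonneg hx
  set y := T * |v| with hy
  have hv0 : 0 ≤ |v| := abs_nonneg v
  have hvy : |v| ≤ y := by rw [hy]; nlinarith only [hT, hv0]
  have hy0 : 0 ≤ y := hv0.trans hvy
  -- the difference of powers
  have h1 : |Real.log n ^ k - Real.log x ^ k| ≤ |v| * k * (L ^ (k - 1) * Real.exp (k * y)) := by
    have h := abs_pow_sub_pow_le (Real.log n) (Real.log x) k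
    rw [← hv] at h
    refine h.trans ?_
    apply mul_le_mul_of_nonneg_left _ (by positivity)
    have hmax : max |Real.log n| |Real.log x| ≤ L * Real.exp |v| := by
      have he : 1 + |v| ≤ Real.exp |v| := by linarith [Real.add_one_le_exp |v|]
      have h2 : L * (1 + |v|) ≤ L * Real.exp |v| := mul_le_mul_of_nonneg_left he hL0
      have h3 : |v| ≤ L * |v| := by nlinarith only [hL, hv0]
      rw [abs_of_nonneg hp, abs_of_nonneg hq]
      apply max_le
      · have : v ≤ |v| := le_abs_self v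
        nlinarith only [h2, h3, hv, hxL, this]
      · nlinarith only [h2, h3, hv0, hxL]
    have hmax0 : 0 ≤ max |Real.log n| |Real.log x| := le_max_of_le_left (abs_nonneg _)
    calc max |Real.log n| |Real.log x| ^ (k - 1) ≤ (L * Real.exp |v|) ^ (k - 1) :=
          pow_le_pow_left₀ hmax0 hmax _
      _ = L ^ (k - 1) * Real.exp (((k - 1 : ℕ) : ℝ) * |v|) := by
          rw [mul_pow, ← Real.exp_nat_mul]
      _ ≤ L ^ (k - 1) * Real.exp (k * y) := by
          apply mul_le_mul_of_nonneg_left _ (by positivity)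
          apply Real.exp_le_exp.mpr
          have hk : ((k - 1 : ℕ) : ℝ) ≤ k := by exact_mod_cast Nat.sub_le k 1
          exact mul_le_mul hk hvy hv0 (Nat.cast_nonneg k)
  have h2 : (n : ℝ) ^ (-σ) ≤ x⁻¹ * Real.exp (2 * y) := by
    rw [Real.rpow_def_of_pos hn0]
    have hxe : x⁻¹ = Real.exp (-Real.log x) := by rw [Real.exp_neg, Real.exp_log hx0]
    rw [hxe, ← Real.exp_add]
    apply Real.exp_le_exp.mpr
    have hnv : Real.log n = Real.log x + v := by linarith
    rw [hnv]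
    have h3 : -v * σ ≤ 2 * |v| := by
      have h4 : -v ≤ |v| := neg_le_abs v
      nlinarith only [h4, hv0, hσ, hσ2]
    nlinarith only [h3, hq, hvy, hσ]
  have h3 : |v| ≤ Real.exp y / T := by
    rw [le_div_iff₀ hT0]
    calc |v| * T = y := by rw [hy]; ring
      _ ≤ Real.exp y := by linarith [Real.add_one_le_exp y]
  have hy2 : y ^ 2 = T ^ 2 * v ^ 2 := by rw [hy, mul_pow, sq_abs]
  have hexp : Real.exp y * Real.exp (k * y) * Real.exp (2 * y) *
      Real.exp (-(T ^ 2 * v ^ 2 / 2)) ≤ Real.exp ((k + 3 : ℝ) ^ 2) *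
      Real.exp (-(T ^ 2 * v ^ 2 / 8)) := by
    rw [← Real.exp_add, ← Real.exp_add, ← Real.exp_add, ← Real.exp_add]
    apply Real.exp_le_exp.mpr
    have h5 := tauber_amgm (k + 3 : ℝ) y
    rw [hy2] at h5
    have h6 : 0 ≤ T ^ 2 * v ^ 2 := by positivity
    nlinarith only [h5, hy2]
  have hk0 : (0 : ℝ) ≤ k := Nat.cast_nonneg k
  have hn1 : 0 ≤ (n : ℝ) ^ (-σ) := Real.rpow_nonneg hn0.le _
  calc |Real.log n ^ k - Real.log x ^ k| * ((n : ℝ) ^ (-σ) * Real.exp (-(T ^ 2 * v ^ 2 / 2)))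
      ≤ (|v| * k * (L ^ (k - 1) * Real.exp (k * y))) *
        ((x⁻¹ * Real.exp (2 * y)) * Real.exp (-(T ^ 2 * v ^ 2 / 2))) := by
        apply mul_le_mul h1 _ (by positivity) (by positivity)
        exact mul_le_mul_of_nonneg_right h2 (Real.exp_pos _).le
    _ ≤ ((Real.exp y / T) * k * (L ^ (k - 1) * Real.exp (k * y))) *
        ((x⁻¹ * Real.exp (2 * y)) * Real.exp (-(T ^ 2 * v ^ 2 / 2))) := by
        gcongr
    _ = (k * (L ^ (k - 1) / (T * x))) * (Real.exp y * Real.exp (k * y) * Real.exp (2 * y) *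
        Real.exp (-(T ^ 2 * v ^ 2 / 2))) := by
        field_simp
    _ ≤ (k * (L ^ (k - 1) / (T * x))) * (Real.exp ((k + 3 : ℝ) ^ 2) *
        Real.exp (-(T ^ 2 * v ^ 2 / 8))) := by
        apply mul_le_mul_of_nonneg_left hexp (by positivity)
    _ = _ := by unfold tph; rw [← hvdef]; ring

/-- removing the factor `(log n)^k` -/
private lemma tauber_step1 {T x L σ R : ℝ} {k : ℕ} {a : ℕ → ℂ} (ha : ∀ n, ‖a n‖ ≤ 1)
    (hT : 1 ≤ T) (hx : T ≤ x) (hxL : Real.log x ≤ L) (hxL' : L / 2 ≤ Real.log x)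
    (hL : 1 ≤ L) (hσ : 1 < σ) (hσ2 : σ ≤ 2) (hR : ‖Dk a k σ T x‖ ≤ R) :
    ‖Dk a 0 σ T x‖ ≤ 2 ^ k * (R / L ^ k +
      (k * Real.exp ((k + 3 : ℝ) ^ 2)) * (3 + 2 * tK2) / T ^ 2) := by
  have hT0 : 0 < T := by linarith
  have hx1 : 1 ≤ x := hT.trans hx
  have hx0 : 0 < x := by linarith
  set Ck : ℝ := k * Real.exp ((k + 3 : ℝ) ^ 2) with hCk
  have hCk0 : 0 ≤ Ck := by rw [hCk]; positivity
  set g : ℕ → ℝ := fun n => (n : ℝ) ^ (-σ) *
    Real.exp (-(T ^ 2 * Real.log (n / x) ^ 2 / 2)) with hg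
  have hg0 : ∀ n, 0 ≤ g n := fun n => by simp only [hg]; positivity
  have hgz : g 0 = 0 := by
    have h0 : (0 : ℝ) ^ (-σ) = 0 := Real.zero_rpow (by linarith)
    simp [hg, h0]
  have hg1 : ∀ n, g n ≤ (n : ℝ) ^ (-σ) := by
    intro n
    simp only [hg]
    have h1 : Real.exp (-(T ^ 2 * Real.log (n / x) ^ 2 / 2)) ≤ 1 := by
      rw [Real.exp_le_one_iff]
      have : 0 ≤ T ^ 2 * Real.log (n / x) ^ 2 / 2 := by positivity
      linarith
    calc _ ≤ (n : ℝ) ^ (-σ) * 1 := by gcongr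
      _ = _ := mul_one _
  have hsum : Summable (fun n : ℕ => (n : ℝ) ^ (-σ)) := Real.summable_nat_rpow.mpr (by linarith)
  have hS1 : Summable (fun n : ℕ => a n * ((g n : ℝ) : ℂ)) := by
    apply Summable.of_norm_bounded hsum
    intro n
    rw [norm_mul, Complex.norm_real, Real.norm_of_nonneg (hg0 n)]
    calc ‖a n‖ * g n ≤ 1 * g n := mul_le_mul_of_nonneg_right (ha n) (hg0 n)
      _ ≤ _ := by rw [one_mul]; exact hg1 n
  have hphi := tauber_sum_phi' (T := T) (Y := x) hT hx1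
  have hbd : ∀ n : ℕ, ‖a n * (((Real.log n ^ k - Real.log x ^ k : ℝ) : ℂ) * ((g n : ℝ) : ℂ))‖ ≤
      Ck * (L ^ (k - 1) / (T * x)) * tph T x n := by
    intro n
    rw [norm_mul, norm_mul, Complex.norm_real, Complex.norm_real, Real.norm_of_nonneg (hg0 n),
      Real.norm_eq_abs]
    rcases Nat.eq_zero_or_pos n with h0 | hn
    · subst h0
      rw [hgz, mul_zero, mul_zero]
      have := tph_nonneg T x ((0 : ℕ) : ℝ)
      positivity
    · calc ‖a n‖ * (|Real.log n ^ k - Real.log x ^ k| * g n)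
          ≤ 1 * (|Real.log n ^ k - Real.log x ^ k| * g n) :=
            mul_le_mul_of_nonneg_right (ha n) (mul_nonneg (abs_nonneg _) (hg0 n))
        _ ≤ _ := by
            rw [one_mul]
            exact tauber_pt hT hx1 hxL hL hσ.le hσ2 hn
  have hphis := hphi.1.mul_left (Ck * (L ^ (k - 1) / (T * x)))
  have hS2 : Summable (fun n : ℕ => a n *
      (((Real.log n ^ k - Real.log x ^ k : ℝ) : ℂ) * ((g n : ℝ) : ℂ))) :=
    Summable.of_norm_bounded hphis hbd
  have hE : ‖∑' n : ℕ, a n *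
      (((Real.log n ^ k - Real.log x ^ k : ℝ) : ℂ) * ((g n : ℝ) : ℂ))‖ ≤
      Ck * (L ^ (k - 1) / (T * x)) * (3 + 2 * tK2 * (x / T)) := by
    refine (tsum_of_norm_bounded hphis.hasSum hbd).trans ?_
    rw [tsum_mul_left]
    apply mul_le_mul_of_nonneg_left _ (by positivity)
    exact hphi.2
  have hD0 : Dk a 0 σ T x = ∑' n : ℕ, a n * ((g n : ℝ) : ℂ) := by
    unfold Dk
    congr 1
    funext n
    rw [pow_zero, mul_one]
  have hDk : Dk a k σ T x = ((Real.log x ^ k : ℝ) : ℂ) * Dk a 0 σ T x + ∑' n : ℕ, a n *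
      (((Real.log n ^ k - Real.log x ^ k : ℝ) : ℂ) * ((g n : ℝ) : ℂ)) := by
    rw [hD0, ← tsum_mul_left, ← (hS1.mul_left _).tsum_add hS2]
    unfold Dk
    congr 1
    funext n
    simp only [hg]
    push_cast
    ring
  have hlogpos : 0 < Real.log x := by linarith
  have h1 : Real.log x ^ k * ‖Dk a 0 σ T x‖ ≤ R + Ck * (L ^ (k - 1) / (T * x)) *
      (3 + 2 * tK2 * (x / T)) := by
    have h2 : ((Real.log x ^ k : ℝ) : ℂ) * Dk a 0 σ T x = Dk a k σ T x - ∑' n : ℕ, a n *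
      (((Real.log n ^ k - Real.log x ^ k : ℝ) : ℂ) * ((g n : ℝ) : ℂ)) := by
      rw [hDk]; ring
    have h3 : ‖((Real.log x ^ k : ℝ) : ℂ) * Dk a 0 σ T x‖ = Real.log x ^ k * ‖Dk a 0 σ T x‖ := by
      rw [norm_mul, Complex.norm_real, Real.norm_of_nonneg (by positivity)]
    rw [← h3, h2]
    exact (norm_sub_le _ _).trans (add_le_add hR hE)
  have h4 : Ck * (L ^ (k - 1) / (T * x)) * (3 + 2 * tK2 * (x / T)) ≤
      Ck * (3 + 2 * tK2) / T ^ 2 * L ^ k := by
    have h5 : (3 + 2 * tK2 * (x / T)) ≤ (3 + 2 * tK2) * (x / T) := by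
      have : 1 ≤ x / T := (one_le_div hT0).mpr hx
      nlinarith only [this]
    have h6 : L ^ (k - 1) ≤ L ^ k := pow_le_pow_right₀ hL (Nat.sub_le k 1)
    have hK2 := tK2_pos
    calc Ck * (L ^ (k - 1) / (T * x)) * (3 + 2 * tK2 * (x / T))
        ≤ Ck * (L ^ k / (T * x)) * ((3 + 2 * tK2) * (x / T)) := by gcongr
      _ = _ := by field_simp
  have h7 : (L / 2) ^ k * ‖Dk a 0 σ T x‖ ≤ R + Ck * (3 + 2 * tK2) / T ^ 2 * L ^ k := by
    have h8 : (L / 2) ^ k ≤ Real.log x ^ k := pow_le_pow_left₀ (by linarith only [hL]) hxL' k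
    calc (L / 2) ^ k * ‖Dk a 0 σ T x‖ ≤ Real.log x ^ k * ‖Dk a 0 σ T x‖ :=
          mul_le_mul_of_nonneg_right h8 (norm_nonneg _)
      _ ≤ _ := h1
      _ ≤ _ := by linarith
  have hLk : 0 < L ^ k := by positivity
  have h9 : ‖Dk a 0 σ T x‖ = 2 ^ k * (((L / 2) ^ k * ‖Dk a 0 σ T x‖) / L ^ k) := by
    rw [div_pow]; field_simp
  rw [h9]
  apply mul_le_mul_of_nonneg_left _ (by positivity)
  calc ((L / 2) ^ k * ‖Dk a 0 σ T x‖) / L ^ k
      ≤ (R + Ck * (3 + 2 * tK2) / T ^ 2 * L ^ k) / L ^ k := by gcongr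
    _ = _ := by field_simp

theorem tauber (k : ℕ) : ∃ C : ℝ, 0 < C ∧ ∀ (a : ℕ → ℂ) (X : ℕ) (T R : ℝ),
    (∀ n, ‖a n‖ ≤ 1) → 3 ≤ X → 1 ≤ T → T ^ 4 ≤ X → 0 ≤ R →
    (∀ x : ℝ, Real.sqrt X ≤ x → x ≤ X → ‖Dk a k (1 + 1 / Real.log X) T x‖ ≤ R) →
    ‖∑ n ∈ Icc 1 X, a n‖ ≤ C * (T * X * R / Real.log X ^ k + X / T) := by
  have hK1 := tK1_pos
  have hK2 := tK2_pos
  set Ck : ℝ := k * Real.exp ((k + 3 : ℝ) ^ 2) with hCk
  have hCk0 : 0 ≤ Ck := by rw [hCk]; positivity
  set c1 : ℝ := Real.exp (1 / 2) * (Real.exp 1 * 2 ^ k) with hc1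
  set c2 : ℝ := c1 * (Ck * (3 + 2 * tK2)) + Real.exp (1 / 2) * (tK1 * (8 + 4 * tK2)) with hc2
  have hc1pos : 0 < c1 := by rw [hc1]; positivity
  have hc2pos : 0 < c2 := by rw [hc2]; positivity
  refine ⟨c1 + c2, by positivity, ?_⟩
  intro a X T R ha hX hT hTX hR hD
  have hT0 : 0 < T := by linarith
  have hXr : (3 : ℝ) ≤ X := by exact_mod_cast hX
  have hX0 : (0 : ℝ) < X := by linarith
  set L := Real.log X with hLdef
  have hL1 : 1 ≤ L := by
    rw [hLdef, Real.le_log_iff_exp_le hX0]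
    linarith [Real.exp_one_lt_d9]
  have hL0 : 0 < L := by linarith
  set σ : ℝ := 1 + 1 / L with hσdef
  have hinv : 1 / L ≤ 1 := by rw [div_le_one hL0]; exact hL1
  have hinv0 : 0 < 1 / L := by positivity
  have hσ1 : 1 < σ := by rw [hσdef]; linarith
  have hσ2 : σ ≤ 2 := by rw [hσdef]; linarith
  set s := Real.sqrt X with hs
  have hs2 : s ^ 2 = X := Real.sq_sqrt hX0.le
  have hspos : 0 < s := Real.sqrt_pos.mpr hX0
  have hs1 : 1 ≤ s := by rw [hs, Real.one_le_sqrt]; linarith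
  have hsX : s ≤ X := by nlinarith only [hs1, hs2, hspos]
  have hTs : T ≤ s := by
    have h1 : T ^ 2 ≤ s := by
      rw [hs]; apply Real.le_sqrt_of_sq_le; nlinarith only [hTX]
    nlinarith only [h1, hT, hs1]
  have hlogs : Real.log s = L / 2 := by rw [hs, Real.log_sqrt hX0.le]
  -- the bound for `D_0`
  set R0 : ℝ := 2 ^ k * (R / L ^ k + Ck * (3 + 2 * tK2) / T ^ 2) with hR0
  have hD0 : ∀ x : ℝ, s ≤ x → x ≤ X → ‖Dk a 0 σ T x‖ ≤ R0 := by
    intro x h1 h2
    have hx0 : 0 < x := hspos.trans_le h1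
    apply tauber_step1 ha hT (hTs.trans h1) (Real.log_le_log hx0 h2) _ hL1 hσ1 hσ2 (hD x h1 h2)
    rw [← hlogs]; exact Real.log_le_log hspos h1
  have hR00 : 0 ≤ R0 := by rw [hR0]; positivity
  have hE : ∀ x : ℝ, s ≤ x → x ≤ X → x ^ (σ - 1) ≤ Real.exp 1 := by
    intro x h1 h2
    have hx0 : 0 < x := hspos.trans_le h1
    rw [Real.rpow_def_of_pos hx0]
    apply Real.exp_le_exp.mpr
    have h3 : σ - 1 = 1 / L := by rw [hσdef]; ring
    rw [h3]
    have h4 : Real.log x ≤ L := Real.log_le_log hx0 h2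
    rw [mul_one_div, div_le_one hL0]; exact h4
  obtain ⟨hsw, hswb⟩ := tauber_swap (T := T) ha hσ1 hspos hsX hE hD0
  set κ := tkk σ T with hκ
  have hκge : Real.exp (-(1 / 2)) / T ≤ κ := tkk_ge hT (by linarith) hσ2
  have hκ0 : 0 < κ := lt_of_lt_of_le (by positivity) hκge
  -- comparison
  set ind : ℕ → ℝ := fun n => if n ∈ Icc 1 X then κ else 0 with hind
  have hfin : HasSum (fun n : ℕ => a n * ((ind n : ℝ) : ℂ)) (∑ n ∈ Icc 1 X, a n * (κ : ℂ)) := by
    have h : HasSum (fun n : ℕ => a n * ((ind n : ℝ) : ℂ))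
        (∑ n ∈ Icc 1 X, a n * ((ind n : ℝ) : ℂ)) := by
      apply hasSum_sum_of_ne_finset_zero
      intro n hn
      simp only [hind]
      rw [if_neg hn]; simp
    have h2 : ∑ n ∈ Icc 1 X, a n * ((ind n : ℝ) : ℂ) = ∑ n ∈ Icc 1 X, a n * (κ : ℂ) := by
      apply sum_congr rfl
      intro n hn
      simp only [hind]
      rw [if_pos hn]
    rw [h2] at h
    exact h
  set W : ℕ → ℝ := fun n => tkW σ T s X n with hW
  have hphi1 := tauber_sum_phi' (T := T) (Y := s) hT hs1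
  have hphi2 := tauber_sum_phi' (T := T) (Y := (X : ℝ)) hT (by linarith only [hXr])
  set ia : ℕ → ℝ := fun n => if (n : ℝ) ≤ s then 1 else 0 with hia
  have hia_sum : HasSum ia (∑ n ∈ range (⌊s⌋₊ + 1), ia n) := by
    apply hasSum_sum_of_ne_finset_zero
    intro n hn
    simp only [hia]
    rw [if_neg]
    intro h
    apply hn
    rw [mem_range]
    exact Nat.lt_succ_of_le (Nat.le_floor h)
  have hia_le : ∑' n, ia n ≤ s + 1 := by
    rw [hia_sum.tsum_eq]
    calc ∑ n ∈ range (⌊s⌋₊ + 1), ia n ≤ ∑ n ∈ range (⌊s⌋₊ + 1), (1 : ℝ) := by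
          apply sum_le_sum; intro i _; simp only [hia]; split_ifs <;> norm_num
      _ = (⌊s⌋₊ : ℝ) + 1 := by simp
      _ ≤ s + 1 := by linarith only [hspos, Nat.floor_le hspos.le]
  have hcmp : ∀ n : ℕ, ‖a n * ((ind n : ℝ) : ℂ) - a n * ((W n : ℝ) : ℂ)‖ ≤
      tK1 / T * (ia n + tph T s n + tph T X n) := by
    intro n
    rw [← mul_sub, ← Complex.ofReal_sub, norm_mul, Complex.norm_real, Real.norm_eq_abs]
    have hnn : 0 ≤ tK1 / T * (ia n + tph T s n + tph T X n) := by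
      have h1 := tph_nonneg T s n
      have h2 := tph_nonneg T X n
      have h3 : 0 ≤ ia n := by simp only [hia]; split_ifs <;> norm_num
      (clear * - h1 h2 hK1 hT; positivity)
    rcases Nat.eq_zero_or_pos n with h0 | hn
    · subst h0
      have h1 : ind 0 = 0 := by simp [hind]
      have h2 : W 0 = 0 := by simp only [hW]; exact tkW_zero (by linarith only [hinv0])
      rw [h1, h2]; simpa using hnn
    · have h := tkW_cmp (n := n) hT (by linarith only [hinv0]) hσ2 hspos hsX hn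
      have h1 : ind n = if (n : ℝ) ≤ X then tkk σ T else 0 := by
        simp only [hind, mem_Icc]
        by_cases h2 : n ≤ X
        · rw [if_pos ⟨hn, h2⟩, if_pos (by exact_mod_cast h2)]
        · rw [if_neg (fun h3 => h2 h3.2), if_neg (by exact_mod_cast h2)]
      rw [h1]
      calc ‖a n‖ * |(if (n : ℝ) ≤ X then tkk σ T else 0) - W n|
          ≤ 1 * |(if (n : ℝ) ≤ X then tkk σ T else 0) - W n| :=
            mul_le_mul_of_nonneg_right (ha n) (abs_nonneg _)
        _ ≤ _ := by rw [one_mul]; exact h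
  have hbs : Summable (fun n : ℕ => tK1 / T * (ia n + tph T s n + tph T X n)) :=
    ((hia_sum.summable.add hphi1.1).add hphi2.1).mul_left _
  have hdiff : ‖∑' n : ℕ, (a n * ((ind n : ℝ) : ℂ) - a n * ((W n : ℝ) : ℂ))‖ ≤
      tK1 / T * ((8 + 4 * tK2) * (X / T)) := by
    refine (tsum_of_norm_bounded hbs.hasSum hcmp).trans ?_
    rw [tsum_mul_left, (hia_sum.summable.add hphi1.1).tsum_add hphi2.1,
      hia_sum.summable.tsum_add hphi1.1]
    apply mul_le_mul_of_nonneg_left _ (by positivity)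
    have hXT1 : 1 ≤ X / T := by
      rw [one_le_div hT0]; exact hTs.trans hsX
    have hsXT : s ≤ X / T := by
      rw [le_div_iff₀ hT0, ← hs2]; nlinarith only [hTs, hspos]
    have hsT : s / T ≤ X / T := by gcongr
    have e1 := hphi1.2
    have e2 := hphi2.2
    change _ ≤ 3 + 2 * tK2 * (s / T) at e1
    change _ ≤ 3 + 2 * tK2 * (X / T) at e2
    have e3 : 2 * tK2 * (s / T) ≤ 2 * tK2 * (X / T) := by gcongr
    nlinarith only [e1, e2, e3, hXT1, hia_le, hsXT]
  have htot : (∑ n ∈ Icc 1 X, a n) * (κ : ℂ) =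
      (∑' n : ℕ, (a n * ((ind n : ℝ) : ℂ) - a n * ((W n : ℝ) : ℂ))) +
      ∑' n : ℕ, a n * ((W n : ℝ) : ℂ) := by
    rw [hfin.summable.tsum_sub hsw, hfin.tsum_eq, ← sum_mul]
    simp only [hW]
    ring
  have hfinal : ‖∑ n ∈ Icc 1 X, a n‖ * κ ≤
      tK1 / T * ((8 + 4 * tK2) * (X / T)) + Real.exp 1 * R0 * X := by
    have h1 : ‖(∑ n ∈ Icc 1 X, a n) * (κ : ℂ)‖ = ‖∑ n ∈ Icc 1 X, a n‖ * κ := by
      rw [norm_mul, Complex.norm_real, Real.norm_of_nonneg hκ0.le]
    rw [← h1, htot]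
    refine (norm_add_le _ _).trans (add_le_add hdiff ?_)
    refine hswb.trans ?_
    have : 0 ≤ Real.exp 1 * R0 := by (clear * - hK2 hL1 hR hT; positivity)
    nlinarith only [hspos, this]
  have h10 : ‖∑ n ∈ Icc 1 X, a n‖ * (Real.exp (-(1 / 2)) / T) ≤
      tK1 / T * ((8 + 4 * tK2) * (X / T)) + Real.exp 1 * R0 * X :=
    (mul_le_mul_of_nonneg_left hκge (norm_nonneg _)).trans hfinal
  have h11 : ‖∑ n ∈ Icc 1 X, a n‖ = (‖∑ n ∈ Icc 1 X, a n‖ * (Real.exp (-(1 / 2)) / T)) *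
      (T * Real.exp (1 / 2)) := by
    have : Real.exp (-(1 / 2)) * Real.exp (1 / 2) = 1 := by rw [← Real.exp_add]; simp
    field_simp
    linear_combination (-‖∑ n ∈ Icc 1 X, a n‖) * this
  rw [h11]
  calc (‖∑ n ∈ Icc 1 X, a n‖ * (Real.exp (-(1 / 2)) / T)) * (T * Real.exp (1 / 2))
      ≤ (tK1 / T * ((8 + 4 * tK2) * (X / T)) + Real.exp 1 * R0 * X) * (T * Real.exp (1 / 2)) :=
        mul_le_mul_of_nonneg_right h10 (by positivity)
    _ = c1 * (T * X * R / L ^ k) + c2 * (X / T) := by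
        rw [hR0, hc2, hc1]; field_simp; ring
    _ ≤ (c1 + c2) * (T * X * R / L ^ k + X / T) := by
        have e1 : 0 ≤ T * X * R / L ^ k := by positivity
        have e2 : 0 ≤ X / T := by positivity
        nlinarith only [e1, e2, hc1pos, hc2pos]

end Pool.MP_dd84fd_nt.SW
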