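import Pool.Agent.Lib.MP_dd84fd_nt.SW.EjBound

set_option autoImplicit false

namespace Pool.MP_dd84fd_nt.SW

open Finset

private theorem ej_zero {q : ℕ} (χ : DirichletCharacter ℂ q) :
    ej χ 0 = fun n : ℕ => χ n := by
  funext n
  simp [ej]

private theorem step_aux {a y : ℝ} (ha : 0 < a) (hy : 1 < y) :
    a * y ^ (-(1 + a)) ≤ (y - 1) ^ (-a) - y ^ (-a) := by
  have hy0 : 0 < y := by linarith
  have hy1 : 0 < y - 1 := by linarith
  have h1 : Real.log (y - 1) ≤ Real.log y - 1 / y := by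
    have h2 : Real.log ((y - 1) / y) ≤ (y - 1) / y - 1 := Real.log_le_sub_one_of_pos (by positivity)
    rw [Real.log_div hy1.ne' hy0.ne'] at h2
    have h3 : (y - 1) / y - 1 = -(1 / y) := by
      field_simp
      ring
    linarith
  have h4 : y ^ (-a) * (1 + a / y) ≤ (y - 1) ^ (-a) := by
    rw [Real.rpow_def_of_pos hy0, Real.rpow_def_of_pos hy1]
    have h5 : 1 + a / y ≤ Real.exp (a / y) := by
      have := Real.add_one_le_exp (a / y)
      linarith
    calc Real.exp (Real.log y * -a) * (1 + a / y)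
        ≤ Real.exp (Real.log y * -a) * Real.exp (a / y) :=
          mul_le_mul_of_nonneg_left h5 (Real.exp_pos _).le
      _ = Real.exp (Real.log y * -a + a / y) := (Real.exp_add _ _).symm
      _ ≤ Real.exp (Real.log (y - 1) * -a) := by
          apply Real.exp_le_exp.mpr
          have h6 : a * Real.log (y - 1) ≤ a * (Real.log y - 1 / y) :=
            mul_le_mul_of_nonneg_left h1 ha.le
          have h7 : a * (Real.log y - 1 / y) = a * Real.log y - a / y := by ring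
          linarith
  have h8 : y ^ (-(1 + a)) = y ^ (-a) / y := by
    rw [neg_add, add_comm, Real.rpow_add hy0, Real.rpow_neg_one]
    rfl
  rw [h8]
  have h9 : y ^ (-a) * (1 + a / y) = y ^ (-a) + a * (y ^ (-a) / y) := by ring
  linarith

private theorem sum_aux {a : ℝ} (ha : 0 < a) (m : ℕ) :
    ∑ i ∈ range (m + 2), (if i = 0 then 0 else (i : ℝ) ^ (-(1 + a))) ≤
      1 + (1 - ((m : ℝ) + 1) ^ (-a)) / a := by
  induction m with
  | zero =>
    simp [Finset.sum_range_succ]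
  | succ m ih =>
    rw [Finset.sum_range_succ]
    have h1 := step_aux ha (y := (m : ℝ) + 2) (by
      have : (0 : ℝ) ≤ m := Nat.cast_nonneg m
      linarith)
    have h2 : ((m + 2 : ℕ) : ℝ) = (m : ℝ) + 2 := by push_cast; ring
    rw [if_neg (by omega), h2]
    have h3 : ((m + 1 : ℕ) : ℝ) + 1 = (m : ℝ) + 2 := by push_cast; ring
    rw [h3]
    have h4 : (m : ℝ) + 2 - 1 = (m : ℝ) + 1 := by ring
    rw [h4] at h1
    have h5 : ((m : ℝ) + 2) ^ (-(1 + a)) ≤
        (((m : ℝ) + 1) ^ (-a) - ((m : ℝ) + 2) ^ (-a)) / a := by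
      rw [le_div_iff₀ ha]
      linarith
    calc _ ≤ 1 + (1 - ((m : ℝ) + 1) ^ (-a)) / a +
          (((m : ℝ) + 1) ^ (-a) - ((m : ℝ) + 2) ^ (-a)) / a := add_le_add ih h5
      _ = 1 + (1 - ((m : ℝ) + 2) ^ (-a)) / a := by ring

private theorem sum_aux' {a : ℝ} (ha : 0 < a) (m : ℕ) :
    ∑ i ∈ range m, (if i = 0 then 0 else (i : ℝ) ^ (-(1 + a))) ≤ 1 + 1 / a := by
  have h1 : ∑ i ∈ range m, (if i = 0 then 0 else (i : ℝ) ^ (-(1 + a))) ≤
      ∑ i ∈ range (m + 2), (if i = 0 then 0 else (i : ℝ) ^ (-(1 + a))) := by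
    apply Finset.sum_le_sum_of_subset_of_nonneg
    · intro i hi
      rw [mem_range] at hi ⊢
      omega
    · intro i _ _
      split_ifs
      · exact le_rfl
      · positivity
  refine h1.trans ((sum_aux ha m).trans ?_)
  have h2 : 0 ≤ ((m : ℝ) + 1) ^ (-a) := by positivity
  have h3 : (1 - ((m : ℝ) + 1) ^ (-a)) / a ≤ 1 / a := by
    apply div_le_div_of_nonneg_right _ ha.le
    linarith
  linarith

theorem L_triv_lower (q : ℕ) (χ : DirichletCharacter ℂ q) (s : ℂ) (h1 : 1 < s.re)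
    (h2 : s.re ≤ 2) : (s.re - 1) / 2 ≤ ‖LSeries (ej χ 0) s‖ := by
  rw [ej_zero]
  have h3 := DirichletCharacter.LSeries.mul_mu_eq_one χ h1
  have ha : 0 < s.re - 1 := by linarith
  have h4 : ‖LSeries ((fun n : ℕ => χ n) *
      (fun n : ℕ => ((ArithmeticFunction.moebius n : ℤ) : ℂ))) s‖ ≤ 2 / (s.re - 1) := by
    have hterm : ∀ n : ℕ, ‖LSeries.term ((fun n : ℕ => χ n) *
        (fun n : ℕ => ((ArithmeticFunction.moebius n : ℤ) : ℂ))) s n‖ ≤
        if n = 0 then 0 else (n : ℝ) ^ (-(1 + (s.re - 1))) := by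
      intro n
      rw [LSeries.norm_term_eq]
      split_ifs with hn
      · exact le_rfl
      · have hn0 : (0 : ℝ) < n := by exact_mod_cast Nat.pos_of_ne_zero hn
        have e1 : -(1 + (s.re - 1)) = -s.re := by ring
        rw [e1, Real.rpow_neg hn0.le, ← one_div]
        apply div_le_div_of_nonneg_right _ (by positivity)
        rw [Pi.mul_apply, norm_mul]
        have h5 : ‖((ArithmeticFunction.moebius n : ℤ) : ℂ)‖ ≤ 1 := by
          rw [Complex.norm_intCast]
          exact_mod_cast ArithmeticFunction.abs_moebius_le_one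
        calc ‖χ n‖ * ‖((ArithmeticFunction.moebius n : ℤ) : ℂ)‖ ≤ 1 * 1 :=
              mul_le_mul (χ.norm_le_one n) h5 (norm_nonneg _) zero_le_one
          _ = 1 := one_mul 1
    have hsum : ∀ m, ∑ i ∈ range m, ‖LSeries.term ((fun n : ℕ => χ n) *
        (fun n : ℕ => ((ArithmeticFunction.moebius n : ℤ) : ℂ))) s i‖ ≤ 2 / (s.re - 1) := by
      intro m
      refine (Finset.sum_le_sum fun i _ => hterm i).trans ((sum_aux' ha m).trans ?_)
      have e2 : 1 + 1 / (s.re - 1) = s.re / (s.re - 1) := by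
        field_simp
        ring
      rw [e2]
      exact div_le_div_of_nonneg_right h2 ha.le
    have hsm : Summable fun n => ‖LSeries.term ((fun n : ℕ => χ n) *
        (fun n : ℕ => ((ArithmeticFunction.moebius n : ℤ) : ℂ))) s n‖ :=
      summable_of_sum_range_le (fun n => norm_nonneg _) hsum
    unfold LSeries
    exact (norm_tsum_le_tsum_norm hsm).trans
      (Real.tsum_le_of_sum_range_le (fun n => norm_nonneg _) hsum)
  have h5 : ‖LSeries (fun n : ℕ => χ n) s‖ * ‖LSeries ((fun n : ℕ => χ n) *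
      (fun n : ℕ => ((ArithmeticFunction.moebius n : ℤ) : ℂ))) s‖ = 1 := by
    rw [← norm_mul]
    have h6 := congrArg norm h3
    rw [norm_one] at h6
    exact h6
  have h6 : 1 ≤ ‖LSeries (fun n : ℕ => χ n) s‖ * (2 / (s.re - 1)) := by
    exact h5.symm.le.trans (mul_le_mul_of_nonneg_left h4 (norm_nonneg _))
  rw [mul_div_assoc', le_div_iff₀ ha] at h6
  linarith

private theorem one_mem_closure :
    (1 : ℂ) ∈ closure {w : ℂ | 1 < w.re ∧ w.re ≤ 2 ∧ |w.im| ≤ 1} := by
  rw [Metric.mem_closure_iff]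
  intro ε hε
  refine ⟨((1 + min ε 1 / 2 : ℝ) : ℂ), ?_, ?_⟩
  · have h1 : 0 < min ε 1 := lt_min hε one_pos
    have h2 : min ε 1 ≤ 1 := min_le_right _ _
    refine ⟨?_, ?_, ?_⟩
    · rw [Complex.ofReal_re]
      linarith
    · rw [Complex.ofReal_re]
      linarith
    · rw [Complex.ofReal_im]
      simp
  · rw [← Complex.ofReal_one, Complex.dist_eq, ← Complex.ofReal_sub, Complex.norm_real,
      Real.norm_eq_abs]
    have h1 : 0 < min ε 1 := lt_min hε one_pos
    have h2 : min ε 1 ≤ ε := min_le_left _ _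
    rw [abs_lt]
    constructor <;> linarith

private theorem convex_strip : Convex ℝ {w : ℂ | 1 < w.re ∧ w.re ≤ 2 ∧ |w.im| ≤ 1} := by
  have h1 : Convex ℝ {w : ℂ | 1 < w.re} := (convex_Ioi (1 : ℝ)).is_linear_preimage
    Complex.reLm.isLinear
  have h2 : Convex ℝ {w : ℂ | w.re ≤ 2} := (convex_Iic (2 : ℝ)).is_linear_preimage
    Complex.reLm.isLinear
  have h3 : Convex ℝ {w : ℂ | |w.im| ≤ 1} := by
    have h4 : {w : ℂ | |w.im| ≤ 1} = Complex.imLm ⁻¹' (Set.Icc (-1) 1) := by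
      ext w
      simp [abs_le]
    rw [h4]
    exact (convex_Icc (-1 : ℝ) 1).is_linear_preimage Complex.imLm.isLinear
  exact h1.inter (h2.inter h3)

private theorem ell_zero_pos {q : ℕ} (hq : 1 ≤ q) : 1 ≤ ell q 0 := by
  unfold ell
  rw [abs_zero, zero_add]
  have hq' : (1 : ℝ) ≤ q := by exact_mod_cast hq
  rw [Real.le_log_iff_exp_le (by positivity)]
  have := Real.exp_one_lt_d9
  nlinarith

private theorem ell_le {q : ℕ} (hq : 1 ≤ q) {t : ℝ} (ht : |t| ≤ 1) : ell q t ≤ 2 * ell q 0 := by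
  unfold ell
  rw [abs_zero, zero_add]
  have hq' : (1 : ℝ) ≤ q := by exact_mod_cast hq
  have h0 : 0 ≤ |t| := abs_nonneg t
  have h1 : (2 : ℝ) * Real.log (q * 3) = Real.log ((q * 3) ^ 2) := by
    rw [Real.log_pow]
    norm_num
  rw [h1]
  apply Real.log_le_log (by positivity)
  nlinarith

private theorem ell_nonneg {q : ℕ} (hq : 1 ≤ q) (t : ℝ) : 0 ≤ ell q t := by
  unfold ell
  apply Real.log_nonneg
  have hq' : (1 : ℝ) ≤ q := by exact_mod_cast hq
  have h0 : 0 ≤ |t| := abs_nonneg t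
  nlinarith

theorem L_near_one : ∃ C : ℝ, 0 < C ∧ ∀ (q : ℕ) [NeZero q] (χ : DirichletCharacter ℂ q) (s : ℂ),
    χ ≠ 1 → 1 < s.re → s.re ≤ 2 → |s.im| ≤ 1 →
    ‖LSeries (ej χ 0) s - χ.LFunction 1‖ ≤ C * ‖s - 1‖ * ell q 0 ^ 2 := by
  obtain ⟨C, hC, hE⟩ := Ej_bound 1
  refine ⟨C * 4, by positivity, ?_⟩
  intro q _ χ s hχ hs1 hs2 hs3
  have hq : 1 ≤ q := Nat.one_le_iff_ne_zero.mpr (NeZero.ne q)
  set S : Set ℂ := {w : ℂ | 1 < w.re ∧ w.re ≤ 2 ∧ |w.im| ≤ 1} with hS
  have hdiff := DirichletCharacter.differentiable_LFunction hχ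
  have hbd : ∀ w ∈ S, ‖deriv χ.LFunction w‖ ≤ C * (4 * ell q 0 ^ 2) := by
    rintro w ⟨hw1, hw2, hw3⟩
    have h1 : deriv χ.LFunction w = -LSeries (ej χ 1) w := by
      have h2 : χ.LFunction =ᶠ[nhds w] LSeries (fun n : ℕ => χ n) := by
        have h3 : ∀ᶠ z : ℂ in nhds w, 1 < z.re :=
          (isOpen_lt continuous_const Complex.continuous_re).mem_nhds hw1
        filter_upwards [h3] with z hz
        exact DirichletCharacter.LFunction_eq_LSeries χ hz
      rw [h2.deriv_eq, LSeries_deriv (by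
        rw [DirichletCharacter.absicssaOfAbsConv_eq_one (NeZero.ne q)]
        exact_mod_cast hw1)]
      congr 1
      apply LSeries_congr
      intro n _
      simp [LSeries.logMul, ej, mul_comm]
    rw [h1, norm_neg]
    refine (hE q χ w hq hχ hw1 hw2).trans ?_
    apply mul_le_mul_of_nonneg_left _ hC.le
    have h4 := ell_le hq hw3
    have h5 := ell_nonneg hq w.im
    calc ell q w.im ^ (1 + 1) ≤ (2 * ell q 0) ^ 2 := pow_le_pow_left₀ h5 h4 2
      _ = 4 * ell q 0 ^ 2 := by ring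
  have hbd' : ∀ w ∈ closure S, ‖deriv χ.LFunction w‖ ≤ C * (4 * ell q 0 ^ 2) := by
    have hcl : IsClosed {w : ℂ | ‖deriv χ.LFunction w‖ ≤ C * (4 * ell q 0 ^ 2)} := by
      apply isClosed_le _ continuous_const
      exact (hdiff.contDiff.continuous_deriv le_top).norm
    exact fun w hw => closure_minimal hbd hcl hw
  have hmv := Convex.norm_image_sub_le_of_norm_deriv_le (f := χ.LFunction)
    (fun w _ => hdiff w) hbd' convex_strip.closure one_mem_closure
    (subset_closure (⟨hs1, hs2, hs3⟩ : s ∈ S))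
  rw [ej_zero, ← DirichletCharacter.LFunction_eq_LSeries χ hs1]
  calc _ ≤ C * (4 * ell q 0 ^ 2) * ‖s - 1‖ := hmv
    _ = C * 4 * ‖s - 1‖ * ell q 0 ^ 2 := by ring

theorem L_one_upper : ∃ C : ℝ, 0 < C ∧ ∀ (q : ℕ) [NeZero q] (χ : DirichletCharacter ℂ q),
    χ ≠ 1 → ‖χ.LFunction 1‖ ≤ C * ell q 0 := by
  obtain ⟨C, hC, hE⟩ := Ej_bound 0
  refine ⟨C * 2, by positivity, ?_⟩
  intro q _ χ hχ
  have hq : 1 ≤ q := Nat.one_le_iff_ne_zero.mpr (NeZero.ne q)
  have hdiff := DirichletCharacter.differentiable_LFunction hχ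
  have hbd : ∀ w ∈ {w : ℂ | 1 < w.re ∧ w.re ≤ 2 ∧ |w.im| ≤ 1},
      ‖χ.LFunction w‖ ≤ C * 2 * ell q 0 := by
    rintro w ⟨hw1, hw2, hw3⟩
    have h1 := hE q χ w hq hχ hw1 hw2
    rw [ej_zero, ← DirichletCharacter.LFunction_eq_LSeries χ hw1, zero_add, pow_one] at h1
    refine h1.trans ?_
    rw [mul_assoc]
    exact mul_le_mul_of_nonneg_left (ell_le hq hw3) hC.le
  have hcl : IsClosed {w : ℂ | ‖χ.LFunction w‖ ≤ C * 2 * ell q 0} :=
    isClosed_le hdiff.continuous.norm continuous_const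
  exact closure_minimal hbd hcl one_mem_closure

end Pool.MP_dd84fd_nt.SW
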