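import Pool.Agent.Lib.MP_dd84fd_nt.SW.Defs

set_option autoImplicit false

namespace Pool.MP_dd84fd_nt.SW

open Finset

/-- An entire function which is real on a half line is real on the real axis. -/
private theorem real_of_real (f : ℂ → ℂ) (hf : Differentiable ℂ f)
    (h : ∀ t : ℝ, 1 < t → (f t).im = 0) (t : ℝ) : (f t).im = 0 := by
  have h1 : AnalyticOnNhd ℝ (fun t : ℝ => (f t).im) Set.univ := by
    intro x _
    have h2 : AnalyticAt ℂ f (x : ℂ) := hf.analyticAt _
    have h3 : AnalyticAt ℝ f (x : ℂ) := h2.restrictScalars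
    have h4 : AnalyticAt ℝ (fun t : ℝ => (t : ℂ)) x := Complex.ofRealCLM.analyticAt x
    have h5 : AnalyticAt ℝ (fun t : ℝ => f (t : ℂ)) x := AnalyticAt.fun_comp h3 h4
    exact AnalyticAt.fun_comp (Complex.imCLM.analyticAt _) h5
  have h2 := h1.eqOn_zero_of_preconnected_of_eventuallyEq_zero isPreconnected_univ
    (Set.mem_univ (2 : ℝ)) (by
      have h3 : ∀ᶠ t : ℝ in nhds 2, 1 < t := eventually_gt_nhds (by norm_num)
      filter_upwards [h3] with t ht
      exact h t ht)
  exact h2 (Set.mem_univ t)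

private theorem im_tsum_zero (f : ℕ → ℂ) (h : ∀ n, (f n).im = 0) : (∑' n, f n).im = 0 := by
  have h1 : f = fun n => (((f n).re : ℝ) : ℂ) := by
    funext n
    apply Complex.ext
    · simp
    · simp [h n]
  rw [h1, ← Complex.ofReal_tsum]
  exact Complex.ofReal_im _

private theorem natCast_cpow_real (n : ℕ) (t : ℝ) :
    ((n : ℂ) ^ (t : ℂ)) = (((n : ℝ) ^ t : ℝ) : ℂ) := by
  rw [Complex.ofReal_cpow (Nat.cast_nonneg n)]
  simp

private theorem chi_cases {N : ℕ} [NeZero N] (χ : DirichletCharacter ℂ N) (h : χ ^ 2 = 1)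
    (a : ZMod N) : χ a = 0 ∨ χ a = 1 ∨ χ a = -1 := by
  by_cases ha : IsUnit a
  · right
    have h1 : (χ ^ 2) a = 1 := by
      rw [h]
      exact MulChar.one_apply ha
    rw [MulChar.pow_apply' _ two_ne_zero] at h1
    exact sq_eq_one_iff.mp h1
  · left
    exact χ.map_nonunit ha

theorem LF_real_pos (N : ℕ) [NeZero N] (χ : DirichletCharacter ℂ N) (h : χ ^ 2 = 1) (h1 : χ ≠ 1)
    (β : ℝ) (hβ : 0 < β) (hβ1 : β < 1) (hz : ∀ t : ℝ, β ≤ t → t < 1 → χ.LFunction t ≠ 0) :
    0 < (χ.LFunction β).re ∧ (χ.LFunction β).im = 0 := by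
  have hterm : ∀ (t : ℝ) (n : ℕ), (LSeries.term (fun n : ℕ => χ n) (t : ℂ) n).im = 0 := by
    intro t n
    rw [LSeries.term]
    split_ifs with hn
    · rfl
    · rw [natCast_cpow_real]
      rcases chi_cases χ h n with hc | hc | hc
      · simp [hc]
      · rw [hc, ← Complex.ofReal_one, ← Complex.ofReal_div]
        exact Complex.ofReal_im _
      · rw [hc, ← Complex.ofReal_one, ← Complex.ofReal_neg, ← Complex.ofReal_div]
        exact Complex.ofReal_im _
  have him : ∀ t : ℝ, (χ.LFunction t).im = 0 := by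
    apply real_of_real _ (DirichletCharacter.differentiable_LFunction h1)
    intro t ht
    rw [DirichletCharacter.LFunction_eq_LSeries χ (by simpa using ht)]
    exact im_tsum_zero _ (hterm t)
  refine ⟨?_, him β⟩
  -- positivity at 2
  have h2pos : 0 < (χ.LFunction (2 : ℝ)).re := by
    rw [DirichletCharacter.LFunction_eq_LSeries χ (by simp)]
    have hs : LSeriesSummable (fun n : ℕ => χ n) ((2 : ℝ) : ℂ) :=
      ZMod.LSeriesSummable_of_one_lt_re _ (by simp)
    have hs' : HasSum (fun n => (LSeries.term (fun n : ℕ => χ n) ((2 : ℝ) : ℂ) n).re)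
        (LSeries (fun n : ℕ => χ n) ((2 : ℝ) : ℂ)).re := Complex.hasSum_re hs.hasSum
    have hg : HasSum (fun n : ℕ => (if n = 1 then (2 : ℝ) else 0) - 1 / (n : ℝ) ^ 2)
        (2 - Real.pi ^ 2 / 6) := by
      apply HasSum.sub _ hasSum_zeta_two
      exact hasSum_ite_eq 1 2
    have hle : 2 - Real.pi ^ 2 / 6 ≤ (LSeries (fun n : ℕ => χ n) ((2 : ℝ) : ℂ)).re := by
      refine hasSum_le ?_ hg hs'
      intro n
      rw [LSeries.term]
      by_cases hn : n = 0
      · subst hn
        simp
      rw [if_neg hn, natCast_cpow_real]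
      have hn0 : (0 : ℝ) < (n : ℝ) ^ 2 := by positivity
      have e1 : ((n : ℝ) ^ (2 : ℝ)) = (n : ℝ) ^ 2 := by
        rw [← Real.rpow_natCast]
        norm_num
      rw [e1]
      by_cases hn1 : n = 1
      · subst hn1
        simp
        norm_num
      rw [if_neg hn1]
      rcases chi_cases χ h n with hc | hc | hc
      · rw [hc]
        simp
      · rw [hc, ← Complex.ofReal_one, ← Complex.ofReal_div, Complex.ofReal_re]
        have : 0 < 1 / (n : ℝ) ^ 2 := by positivity
        linarith
      · rw [hc, ← Complex.ofReal_one, ← Complex.ofReal_neg, ← Complex.ofReal_div,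
          Complex.ofReal_re]
        rw [neg_div]
        linarith
    have hpi : Real.pi ^ 2 / 6 < 2 := by
      have := Real.pi_lt_d2
      have h0 := Real.pi_pos
      nlinarith
    linarith
  by_contra hneg
  push Not at hneg
  have hcont : Continuous fun t : ℝ => (χ.LFunction (t : ℂ)).re :=
    Complex.continuous_re.comp ((DirichletCharacter.differentiable_LFunction h1).continuous.comp
      Complex.continuous_ofReal)
  have hiv : (0 : ℝ) ∈ (fun t : ℝ => (χ.LFunction (t : ℂ)).re) '' Set.Icc β 2 := by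
    apply intermediate_value_Icc (by linarith) hcont.continuousOn
    exact ⟨hneg, h2pos.le⟩
  obtain ⟨t, ⟨ht1, ht2⟩, ht⟩ := hiv
  have h0 : χ.LFunction t = 0 := Complex.ext ht (him t)
  rcases lt_or_ge t 1 with h3 | h3
  · exact hz t ht1 h3 h0
  · exact DirichletCharacter.LFunction_ne_zero_of_one_le_re χ (Or.inl h1) (by simpa using h3) h0

theorem zeta_neg : ∃ δ : ℝ, 0 < δ ∧ δ < 1 ∧ ∀ β : ℝ, 1 - δ < β → β < 1 →
    (riemannZeta β).re < 0 ∧ (riemannZeta β).im = 0 := by
  let Z : ℂ → ℂ := Function.update (fun s => (s - 1) * riemannZeta s) 1 1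
  have hZ1 : Z 1 = 1 := Function.update_self _ _ _
  have hZ : ∀ s : ℂ, s ≠ 1 → Z s = (s - 1) * riemannZeta s := fun s hs =>
    Function.update_of_ne hs _ _
  have hcont1 : ContinuousAt Z 1 := by
    rw [continuousAt_update_same]
    exact riemannZeta_residue_one
  have hdiff1 : ∀ s : ℂ, s ≠ 1 → DifferentiableAt ℂ Z s := by
    intro s hs
    have h2 : DifferentiableAt ℂ (fun s => (s - 1) * riemannZeta s) s :=
      (differentiableAt_id.sub_const 1).mul (differentiableAt_riemannZeta hs)
    refine h2.congr_of_eventuallyEq ?_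
    filter_upwards [isOpen_ne.mem_nhds hs] with z hz
    exact hZ z hz
  have hdiff : Differentiable ℂ Z := by
    intro s
    by_cases hs : s = 1
    · subst hs
      refine (Complex.analyticAt_of_differentiable_on_punctured_nhds_of_continuousAt ?_
        hcont1).differentiableAt
      filter_upwards [self_mem_nhdsWithin] with z hz
      exact hdiff1 z hz
    · exact hdiff1 s hs
  have him : ∀ t : ℝ, (Z t).im = 0 := by
    apply real_of_real _ hdiff
    intro t ht
    have ht1 : (t : ℂ) ≠ 1 := by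
      intro h
      have : t = 1 := by exact_mod_cast h
      linarith
    rw [hZ _ ht1, zeta_eq_tsum_one_div_nat_cpow (by simpa using ht)]
    have h2 : (∑' n : ℕ, 1 / (n : ℂ) ^ (t : ℂ)).im = 0 := by
      apply im_tsum_zero
      intro n
      rw [natCast_cpow_real, ← Complex.ofReal_one, ← Complex.ofReal_div]
      exact Complex.ofReal_im _
    rw [Complex.mul_im, h2, mul_zero, zero_add]
    simp
  have hre : ∀ᶠ t : ℝ in nhds 1, 0 < (Z t).re := by
    have h2 : Filter.Tendsto (fun t : ℝ => (Z (t : ℂ)).re) (nhds 1) (nhds 1) := by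
      have h3 : ContinuousAt (fun t : ℝ => (Z (t : ℂ)).re) 1 :=
        (Complex.continuous_re.comp (hdiff.continuous.comp Complex.continuous_ofReal)).continuousAt
      have h4 : (Z ((1 : ℝ) : ℂ)).re = 1 := by
        rw [Complex.ofReal_one, hZ1]
        rfl
      have h5 := h3.tendsto
      rw [h4] at h5
      exact h5
    exact h2.eventually (eventually_gt_nhds one_pos)
  obtain ⟨δ, hδ, hball⟩ := Metric.eventually_nhds_iff.mp hre
  refine ⟨min δ (1 / 2), lt_min hδ (by norm_num), lt_of_le_of_lt (min_le_right _ _) (by norm_num),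
    ?_⟩
  intro β hb1 hb2
  have hb3 : dist β 1 < δ := by
    rw [Real.dist_eq, abs_lt]
    have := min_le_left δ (1 / 2)
    constructor <;> linarith
  have h2 := hball hb3
  have hβ1 : (β : ℂ) ≠ 1 := by
    intro h
    have : β = 1 := by exact_mod_cast h
    linarith
  have h3 := him β
  rw [hZ _ hβ1, Complex.mul_im] at h3
  rw [hZ _ hβ1, Complex.mul_re] at h2
  simp only [Complex.sub_re, Complex.ofReal_re, Complex.one_re, Complex.sub_im, Complex.ofReal_im,
    Complex.one_im, sub_zero, zero_mul, add_zero] at h2 h3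
  have hb : β - 1 < 0 := by linarith
  constructor
  · by_contra h4
    push Not at h4
    have := mul_nonpos_of_nonpos_of_nonneg hb.le h4
    linarith
  · exact (mul_eq_zero.mp h3).resolve_left hb.ne

end Pool.MP_dd84fd_nt.SW
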