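import Pool.Agent.Lib.MP_dd84fd_nt.SW.Estermann
import Pool.Agent.Lib.MP_dd84fd_nt.SW.RealPos
import Pool.Agent.Lib.MP_dd84fd_nt.SW.NearOne

set_option autoImplicit false

namespace Pool.MP_dd84fd_nt.SW

open Finset

private theorem prod_bounds (S : Finset ℕ) : (∀ p ∈ S, 2 ≤ p) →
    ∏ p ∈ S, (1 + 1 / (p : ℝ)) ≤ S.card + 1 ∧
      1 / ((S.card : ℝ) + 1) ≤ ∏ p ∈ S, (1 - 1 / (p : ℝ)) := by
  induction S using Finset.induction_on_max with
  | empty => intro _; simp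
  | insert a s hs ih =>
    intro h
    have hi := ih fun p hp => h p (Finset.mem_insert_of_mem hp)
    have ha : a ∉ s := fun hh => lt_irrefl _ (hs a hh)
    have ha2 : 2 ≤ a := h a (Finset.mem_insert_self _ _)
    have hcard : s.card + 2 ≤ a := by
      have h1 : s ⊆ Finset.Ico 2 a := fun x hx =>
        Finset.mem_Ico.mpr ⟨h x (Finset.mem_insert_of_mem hx), hs x hx⟩
      have h2 := Finset.card_le_card h1
      rw [Nat.card_Ico] at h2
      omega
    have hcR : (s.card : ℝ) + 2 ≤ a := by exact_mod_cast hcard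
    have hk : (0 : ℝ) ≤ s.card := by positivity
    have hinv : 1 / (a : ℝ) ≤ 1 / ((s.card : ℝ) + 2) :=
      one_div_le_one_div_of_le (by linarith) hcR
    rw [Finset.prod_insert ha, Finset.prod_insert ha, Finset.card_insert_of_notMem ha]
    push_cast
    constructor
    · calc (1 + 1 / (a : ℝ)) * ∏ p ∈ s, (1 + 1 / (p : ℝ))
          ≤ (1 + 1 / ((s.card : ℝ) + 2)) * (s.card + 1) := by
            refine mul_le_mul (by linarith) hi.1 (Finset.prod_nonneg fun p _ => by positivity)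
              (by positivity)
        _ ≤ (s.card : ℝ) + 1 + 1 := by
            have : 1 / ((s.card : ℝ) + 2) * (s.card + 1) ≤ 1 := by
              rw [div_mul_eq_mul_div, div_le_one (by linarith)]
              linarith
            linarith
    · calc 1 / ((s.card : ℝ) + 1 + 1) = (1 - 1 / ((s.card : ℝ) + 2)) * (1 / ((s.card : ℝ) + 1)) := by
            field_simp
            ring
        _ ≤ (1 - 1 / (a : ℝ)) * ∏ p ∈ s, (1 - 1 / (p : ℝ)) := by
            have h3 : 1 / ((s.card : ℝ) + 2) ≤ 1 := by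
              rw [div_le_one (by linarith)]
              linarith
            refine mul_le_mul (by linarith) hi.2 (by positivity) ?_
            linarith

private theorem prod_norm {q : ℕ} (χ : DirichletCharacter ℂ q) (N : ℕ) :
    ‖∏ p ∈ N.primeFactors, (1 - χ p * (p : ℂ) ^ (-(1 : ℂ)))‖ ≤ N.primeFactors.card + 1 ∧
      1 / ((N.primeFactors.card : ℝ) + 1) ≤
        ‖∏ p ∈ N.primeFactors, (1 - χ p * (p : ℂ) ^ (-(1 : ℂ)))‖ := by
  have hb := prod_bounds N.primeFactors fun p hp => (Nat.prime_of_mem_primeFactors hp).two_le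
  have hterm : ∀ p : ℕ, ‖χ p * (p : ℂ) ^ (-(1 : ℂ))‖ ≤ 1 / (p : ℝ) := by
    intro p
    rw [norm_mul, Complex.cpow_neg_one, norm_inv, Complex.norm_natCast, one_div]
    exact mul_le_of_le_one_left (by positivity) (DirichletCharacter.norm_le_one χ _)
  rw [norm_prod]
  constructor
  · refine le_trans (Finset.prod_le_prod (fun p _ => norm_nonneg _) fun p _ => ?_) hb.1
    refine (norm_sub_le _ _).trans ?_
    rw [norm_one]
    linarith [hterm p]
  · refine le_trans hb.2 (Finset.prod_le_prod (fun p hp => ?_) fun p _ => ?_)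
    · have h2 : (2 : ℝ) ≤ p := by exact_mod_cast (Nat.prime_of_mem_primeFactors hp).two_le
      have : 1 / (p : ℝ) ≤ 1 := by
        rw [div_le_one (by linarith)]
        linarith
      linarith
    · have := norm_sub_norm_le (1 : ℂ) (χ p * (p : ℂ) ^ (-(1 : ℂ)))
      rw [norm_one] at this
      linarith [hterm p]

private theorem omega_le (N : ℕ) (hN : N ≠ 0) :
    (N.primeFactors.card : ℝ) + 1 ≤ 2 * ell N 0 := by
  have h1 : 2 ^ N.primeFactors.card ≤ N := by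
    have h2 : 2 ^ N.primeFactors.card ≤ ∏ p ∈ N.primeFactors, p := by
      rw [← Finset.prod_const]
      exact Finset.prod_le_prod' fun p hp => (Nat.prime_of_mem_primeFactors hp).two_le
    exact h2.trans (Nat.le_of_dvd (Nat.pos_of_ne_zero hN) (Nat.prod_primeFactors_dvd N))
  have hN0 : (0 : ℝ) < N := by exact_mod_cast Nat.pos_of_ne_zero hN
  have h3 : (N.primeFactors.card : ℝ) * Real.log 2 ≤ Real.log N := by
    rw [← Real.log_pow]
    exact Real.log_le_log (by positivity) (by exact_mod_cast h1)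
  have h4 : Real.log N + Real.log 2 ≤ ell N 0 := by
    rw [← Real.log_mul hN0.ne' two_ne_zero, ell, abs_zero, zero_add]
    exact Real.log_le_log (by positivity) (by nlinarith)
  have h5 : 1 / 2 ≤ Real.log 2 := by
    have := Real.log_two_gt_d9
    linarith
  have h6 : ((N.primeFactors.card : ℝ) + 1) * Real.log 2 ≤ ell N 0 := by linarith
  have h7 : 0 ≤ (N.primeFactors.card : ℝ) + 1 := by positivity
  nlinarith

/-- The reference character of the proof of Siegel's theorem. -/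
private theorem reference (η : ℝ) (hη : 0 < η) (hη1 : η < 1) (δ : ℝ) (hδη : η < δ)
    (hδ : ∀ β : ℝ, 1 - δ < β → β < 1 → (riemannZeta β).re < 0 ∧ (riemannZeta β).im = 0) :
    ∃ (r : ℕ) (_ : NeZero r) (χ₁ : DirichletCharacter ℂ r) (β : ℝ), χ₁ ≠ 1 ∧ χ₁ ^ 2 = 1 ∧
      1 - η < β ∧ β < 1 ∧ ∀ (N : ℕ) [NeZero N] (hN : r ∣ N) (χ : DirichletCharacter ℂ N),
        χ ≠ 1 → χ ^ 2 = 1 → DirichletCharacter.changeLevel hN χ₁ * χ ≠ 1 →
        (riemannZeta β * (DirichletCharacter.changeLevel hN χ₁).LFunction β * χ.LFunction β *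
          (DirichletCharacter.changeLevel hN χ₁ * χ).LFunction β).re ≤ 0 := by
  by_cases hA : ∃ (r : ℕ) (_ : NeZero r) (χ₁ : DirichletCharacter ℂ r) (β : ℝ), χ₁ ≠ 1 ∧
      χ₁ ^ 2 = 1 ∧ 1 - η < β ∧ β < 1 ∧ χ₁.LFunction β = 0
  · obtain ⟨r, hr, χ₁, β, h1, h2, h3, h4, h5⟩ := hA
    refine ⟨r, hr, χ₁, β, h1, h2, h3, h4, ?_⟩
    intro N _ hN χ _ _ _
    have h6 : (DirichletCharacter.changeLevel hN χ₁).LFunction β = 0 := by
      rw [DirichletCharacter.LFunction_changeLevel hN χ₁ (Or.inl h1), h5, zero_mul]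
    rw [h6]
    simp
  · push Not at hA
    have hpos : ∀ (N : ℕ) [NeZero N] (χ : DirichletCharacter ℂ N), χ ≠ 1 → χ ^ 2 = 1 →
        0 < (χ.LFunction ((1 - η / 2 : ℝ) : ℂ)).re ∧ (χ.LFunction ((1 - η / 2 : ℝ) : ℂ)).im = 0 := by
      intro N hN χ h1 h2
      refine LF_real_pos N χ h2 h1 (1 - η / 2) (by linarith) (by linarith) ?_
      intro t ht ht1
      exact hA N hN χ t h1 h2 (by linarith) ht1
    set χ₁ : DirichletCharacter ℂ 4 := ZMod.χ₄.ringHomComp (Int.castRingHom ℂ) with hχ₁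
    have hne : χ₁ ≠ 1 := by
      intro h
      have h3 : χ₁ ((3 : ℕ) : ZMod 4) = 1 := by
        rw [h]
        exact MulChar.one_apply (by decide)
      rw [hχ₁] at h3
      have h4 : (ZMod.χ₄.ringHomComp (Int.castRingHom ℂ)) ((3 : ℕ) : ZMod 4) = -1 := by
        have : ZMod.χ₄ ((3 : ℕ) : ZMod 4) = -1 := by decide
        rw [MulChar.ringHomComp_apply, this]
        simp
      rw [h4] at h3
      norm_num at h3
    have hsq : χ₁ ^ 2 = 1 := (ZMod.isQuadratic_χ₄.comp (Int.castRingHom ℂ)).sq_eq_one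
    refine ⟨4, ⟨by norm_num⟩, χ₁, 1 - η / 2, hne, hsq, by linarith, by linarith, ?_⟩
    intro N _ hN χ h1 h2 h3
    have hc1 : DirichletCharacter.changeLevel hN χ₁ ≠ 1 := fun h =>
      hne ((DirichletCharacter.changeLevel_eq_one_iff hN).mp h)
    have hc2 : DirichletCharacter.changeLevel hN χ₁ ^ 2 = 1 := by
      rw [← map_pow, hsq, map_one]
    have hc3 : (DirichletCharacter.changeLevel hN χ₁ * χ) ^ 2 = 1 := by
      rw [mul_pow, hc2, h2, one_mul]
    obtain ⟨a1, a2⟩ := hpos N _ hc1 hc2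
    obtain ⟨b1, b2⟩ := hpos N _ h1 h2
    obtain ⟨c1, c2⟩ := hpos N _ h3 hc3
    obtain ⟨d1, d2⟩ := hδ (1 - η / 2) (by linarith) (by linarith)
    have e1 : ∀ z : ℂ, z.im = 0 → z = ((z.re : ℝ) : ℂ) := fun z hz => by
      apply Complex.ext <;> simp [hz]
    rw [e1 _ a2, e1 _ b2, e1 _ c2, e1 _ d2, ← Complex.ofReal_mul, ← Complex.ofReal_mul,
      ← Complex.ofReal_mul, Complex.ofReal_re]
    have h5 := mul_pos (mul_pos a1 b1) c1
    nlinarith

theorem siegel (ε : ℝ) (hε : 0 < ε) : ∃ c : ℝ, 0 < c ∧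
    ∀ (q : ℕ) [NeZero q] (χ : DirichletCharacter ℂ q), χ ≠ 1 → χ ^ 2 = 1 →
      c * (q : ℝ) ^ (-ε) ≤ ‖χ.LFunction 1‖ := by
  obtain ⟨C, hC1, hest⟩ := estermann
  obtain ⟨δ, hδ0, hδ1, hδ⟩ := zeta_neg
  obtain ⟨C5, hC5, hup⟩ := L_one_upper
  set η : ℝ := min (min (1 / 8) δ) (ε / (8 * C)) / 2 with hη
  have hC0 : 0 < C := by linarith
  have hm0 : 0 < min (min (1 / 8) δ) (ε / (8 * C)) := by positivity
  have hη0 : 0 < η := by positivity
  have hηa : η < 1 / 8 := by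
    have : min (min (1 / 8) δ) (ε / (8 * C)) ≤ 1 / 8 := (min_le_left _ _).trans (min_le_left _ _)
    rw [hη]
    linarith
  have hηb : η < δ := by
    have : min (min (1 / 8) δ) (ε / (8 * C)) ≤ δ := (min_le_left _ _).trans (min_le_right _ _)
    rw [hη]
    linarith
  have hηc : C * η ≤ ε / 8 := by
    have h1 : min (min (1 / 8) δ) (ε / (8 * C)) ≤ ε / (8 * C) := min_le_right _ _
    have h2 : η ≤ ε / (8 * C) := by
      rw [hη]
      linarith
    calc C * η ≤ C * (ε / (8 * C)) := by gcongr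
      _ = ε / 8 := by field_simp
  obtain ⟨r, hr, χ₁, β, hne1, hsq1, hβ, hβ1, href⟩ := reference η hη0 (by linarith) δ hηb hδ
  have h1β : 0 < 1 - β := by linarith
  have hr0 : (0 : ℝ) < r := by exact_mod_cast Nat.pos_of_ne_zero (NeZero.ne r)
  have hr1 : (1 : ℝ) ≤ r := by exact_mod_cast Nat.one_le_iff_ne_zero.mpr (NeZero.ne r)
  have hL1 : 0 < ‖χ₁.LFunction 1‖ :=
    norm_pos_iff.mpr (DirichletCharacter.LFunction_apply_one_ne_zero hne1)
  set K1 : ℝ := 3 ^ (ε / 8) / (ε / 8) with hK1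
  have hK10 : 0 < K1 := by positivity
  set c1 : ℝ := (1 - β) / C / (2 * C5 ^ 2 * K1 ^ 3) with hc1
  set c2 : ℝ := ‖χ₁.LFunction 1‖ / (4 * K1 ^ 2) with hc2
  have hc10 : 0 < c1 := by positivity
  have hc20 : 0 < c2 := by positivity
  refine ⟨min c1 c2 * (r : ℝ) ^ (-(ε / 2)), by positivity, ?_⟩
  intro q hq χ hne hsq
  have hq0 : (0 : ℝ) < q := by exact_mod_cast Nat.pos_of_ne_zero (NeZero.ne q)
  have hq1 : (1 : ℝ) ≤ q := by exact_mod_cast Nat.one_le_iff_ne_zero.mpr (NeZero.ne q)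
  set N : ℕ := r * q with hN
  have hNne : NeZero N := ⟨Nat.mul_ne_zero (NeZero.ne r) (NeZero.ne q)⟩
  have hrN : r ∣ N := Dvd.intro _ rfl
  have hqN : q ∣ N := Dvd.intro_left _ rfl
  have hNc : (N : ℝ) = r * q := by rw [hN]; push_cast; ring
  have hN0 : (0 : ℝ) < N := by rw [hNc]; positivity
  have hN1 : (1 : ℝ) ≤ N := by rw [hNc]; nlinarith
  set χ₁' := DirichletCharacter.changeLevel hrN χ₁ with hχ₁'
  set χ' := DirichletCharacter.changeLevel hqN χ with hχ'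
  have hne1' : χ₁' ≠ 1 := fun h => hne1 ((DirichletCharacter.changeLevel_eq_one_iff hrN).mp h)
  have hne' : χ' ≠ 1 := fun h => hne ((DirichletCharacter.changeLevel_eq_one_iff hqN).mp h)
  have hsq1' : χ₁' ^ 2 = 1 := by rw [hχ₁', ← map_pow, hsq1, map_one]
  have hsq' : χ' ^ 2 = 1 := by rw [hχ', ← map_pow, hsq, map_one]
  have hLχ' : χ'.LFunction 1 = χ.LFunction 1 *
      ∏ p ∈ N.primeFactors, (1 - χ p * (p : ℂ) ^ (-(1 : ℂ))) :=
    DirichletCharacter.LFunction_changeLevel hqN χ (Or.inl hne)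
  have hLχ₁' : χ₁'.LFunction 1 = χ₁.LFunction 1 *
      ∏ p ∈ N.primeFactors, (1 - χ₁ p * (p : ℂ) ^ (-(1 : ℂ))) :=
    DirichletCharacter.LFunction_changeLevel hrN χ₁ (Or.inl hne1)
  set ℓ : ℝ := ell N 0 with hℓ
  have hω := omega_le N (NeZero.ne N)
  have hω1 : (1 : ℝ) ≤ (N.primeFactors.card : ℝ) + 1 := by
    have : (0 : ℝ) ≤ N.primeFactors.card := by positivity
    linarith
  have hℓ0 : 0 < ℓ := by
    rw [← hℓ] at hω
    linarith
  have hℓK : ℓ ≤ K1 * (N : ℝ) ^ (ε / 8) := by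
    have h1 : ℓ ≤ ((N : ℝ) * 3) ^ (ε / 8) / (ε / 8) := by
      rw [hℓ, ell, abs_zero, zero_add]
      exact Real.log_le_rpow_div (by positivity) (by positivity)
    rw [Real.mul_rpow hN0.le (by norm_num)] at h1
    rw [hK1]
    calc ℓ ≤ _ := h1
      _ = _ := by ring
  -- the key bound in terms of `N`
  have hkey : min c1 c2 * (N : ℝ) ^ (-(ε / 2)) ≤ ‖χ.LFunction 1‖ := by
    by_cases heq : χ₁' * χ' = 1
    · -- equal lifts
      have h3 : χ' = χ₁' := by
        have h4 : χ₁' * χ' = χ₁' * χ₁' := by rw [heq, ← sq, hsq1']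
        exact mul_left_cancel h4
      have h5 : ‖χ₁.LFunction 1‖ * (1 / ((N.primeFactors.card : ℝ) + 1)) ≤
          ‖χ.LFunction 1‖ * ((N.primeFactors.card : ℝ) + 1) := by
        calc ‖χ₁.LFunction 1‖ * (1 / ((N.primeFactors.card : ℝ) + 1))
            ≤ ‖χ₁'.LFunction 1‖ := by
              rw [hLχ₁', norm_mul]
              exact mul_le_mul_of_nonneg_left (prod_norm χ₁ N).2 (norm_nonneg _)
          _ = ‖χ'.LFunction 1‖ := by rw [h3]
          _ ≤ ‖χ.LFunction 1‖ * ((N.primeFactors.card : ℝ) + 1) := by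
              rw [hLχ', norm_mul]
              exact mul_le_mul_of_nonneg_left (prod_norm χ N).1 (norm_nonneg _)
      have h6 : ‖χ₁.LFunction 1‖ ≤ ‖χ.LFunction 1‖ * (2 * ℓ) ^ 2 := by
        have h7 : ‖χ₁.LFunction 1‖ ≤
            ‖χ.LFunction 1‖ * ((N.primeFactors.card : ℝ) + 1) ^ 2 := by
          rw [mul_one_div, div_le_iff₀ (by linarith)] at h5
          linarith
        refine h7.trans ?_
        gcongr
      have h8 : ‖χ₁.LFunction 1‖ ≤ ‖χ.LFunction 1‖ * (4 * K1 ^ 2 * (N : ℝ) ^ (ε / 2)) := by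
        refine h6.trans (mul_le_mul_of_nonneg_left ?_ (norm_nonneg _))
        calc (2 * ℓ) ^ 2 ≤ (2 * (K1 * (N : ℝ) ^ (ε / 8))) ^ 2 := by gcongr
          _ = 4 * K1 ^ 2 * ((N : ℝ) ^ (ε / 8)) ^ 2 := by ring
          _ ≤ 4 * K1 ^ 2 * (N : ℝ) ^ (ε / 2) := by
              rw [← Real.rpow_natCast ((N : ℝ) ^ (ε / 8)), ← Real.rpow_mul hN0.le]
              gcongr
              push_cast
              linarith
      have h9 : (N : ℝ) ^ (-(ε / 2)) * (N : ℝ) ^ (ε / 2) = 1 := by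
        rw [← Real.rpow_add hN0]
        simp
      have h10 : 0 < (N : ℝ) ^ (-(ε / 2)) := by positivity
      calc min c1 c2 * (N : ℝ) ^ (-(ε / 2)) ≤ c2 * (N : ℝ) ^ (-(ε / 2)) := by
            gcongr
            exact min_le_right _ _
        _ ≤ ‖χ.LFunction 1‖ * (4 * K1 ^ 2 * (N : ℝ) ^ (ε / 2)) / (4 * K1 ^ 2) *
              (N : ℝ) ^ (-(ε / 2)) := by
            rw [hc2]
            gcongr
        _ = ‖χ.LFunction 1‖ * ((N : ℝ) ^ (-(ε / 2)) * (N : ℝ) ^ (ε / 2)) := by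
            field_simp
        _ = ‖χ.LFunction 1‖ := by rw [h9, mul_one]
    · -- different lifts
      have hneg := href N hrN χ' hne' hsq' heq
      have h3 := hest N χ₁' χ' hsq1' hsq' hne1' hne' heq β (by linarith) hβ1 hneg
      have h4 : ‖χ₁'.LFunction 1‖ ≤ C5 * ℓ := hup N χ₁' hne1'
      have h5 : ‖(χ₁' * χ').LFunction 1‖ ≤ C5 * ℓ := hup N _ heq
      have h6 : ‖χ'.LFunction 1‖ ≤ ‖χ.LFunction 1‖ * (2 * ℓ) := by
        rw [hLχ', norm_mul]
        exact mul_le_mul_of_nonneg_left ((prod_norm χ N).1.trans hω) (norm_nonneg _)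
      have h7 : (1 - β) / C * (N : ℝ) ^ (-(C * (1 - β))) ≤
          ‖χ.LFunction 1‖ * (2 * C5 ^ 2 * ℓ ^ 3) := by
        refine h3.trans ?_
        calc ‖χ₁'.LFunction 1‖ * ‖χ'.LFunction 1‖ * ‖(χ₁' * χ').LFunction 1‖
            ≤ (C5 * ℓ) * (‖χ.LFunction 1‖ * (2 * ℓ)) * (C5 * ℓ) := by gcongr
          _ = _ := by ring
      have h8 : (N : ℝ) ^ (-(ε / 8)) ≤ (N : ℝ) ^ (-(C * (1 - β))) := by
        apply Real.rpow_le_rpow_of_exponent_le hN1
        have : C * (1 - β) ≤ C * η := by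
          have : 1 - β ≤ η := by linarith
          gcongr
        linarith
      have h9 : ℓ ^ 3 ≤ K1 ^ 3 * (N : ℝ) ^ (3 * ε / 8) := by
        calc ℓ ^ 3 ≤ (K1 * (N : ℝ) ^ (ε / 8)) ^ 3 := by gcongr
          _ = K1 ^ 3 * (N : ℝ) ^ (3 * ε / 8) := by
              rw [mul_pow, ← Real.rpow_natCast ((N : ℝ) ^ (ε / 8)), ← Real.rpow_mul hN0.le]
              congr 2
              push_cast
              ring
      have h10 : (1 - β) / C * (N : ℝ) ^ (-(ε / 8)) ≤
          ‖χ.LFunction 1‖ * (2 * C5 ^ 2 * (K1 ^ 3 * (N : ℝ) ^ (3 * ε / 8))) := by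
        calc (1 - β) / C * (N : ℝ) ^ (-(ε / 8)) ≤ (1 - β) / C * (N : ℝ) ^ (-(C * (1 - β))) := by
              gcongr
          _ ≤ _ := h7
          _ ≤ _ := by gcongr
      have h11 : (N : ℝ) ^ (-(ε / 2)) = (N : ℝ) ^ (-(ε / 8)) * (N : ℝ) ^ (-(3 * ε / 8)) := by
        rw [← Real.rpow_add hN0]
        congr 1
        ring
      have h12 : (N : ℝ) ^ (3 * ε / 8) * (N : ℝ) ^ (-(3 * ε / 8)) = 1 := by
        rw [← Real.rpow_add hN0]
        simp
      have h13 : 0 < (N : ℝ) ^ (-(3 * ε / 8)) := by positivity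
      have h14 : 0 < 2 * C5 ^ 2 * K1 ^ 3 := by positivity
      calc min c1 c2 * (N : ℝ) ^ (-(ε / 2)) ≤ c1 * (N : ℝ) ^ (-(ε / 2)) := by
            gcongr
            exact min_le_left _ _
        _ = (1 - β) / C * (N : ℝ) ^ (-(ε / 8)) * (N : ℝ) ^ (-(3 * ε / 8)) /
              (2 * C5 ^ 2 * K1 ^ 3) := by
            rw [h11, hc1]
            ring
        _ ≤ ‖χ.LFunction 1‖ * (2 * C5 ^ 2 * (K1 ^ 3 * (N : ℝ) ^ (3 * ε / 8))) *
              (N : ℝ) ^ (-(3 * ε / 8)) / (2 * C5 ^ 2 * K1 ^ 3) := by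
            gcongr
        _ = ‖χ.LFunction 1‖ * ((N : ℝ) ^ (3 * ε / 8) * (N : ℝ) ^ (-(3 * ε / 8))) := by
            field_simp
        _ = ‖χ.LFunction 1‖ := by rw [h12, mul_one]
  refine le_trans ?_ hkey
  have h3 : (N : ℝ) ^ (-(ε / 2)) = (r : ℝ) ^ (-(ε / 2)) * (q : ℝ) ^ (-(ε / 2)) := by
    rw [hNc, Real.mul_rpow hr0.le hq0.le]
  rw [h3]
  have h4 : (q : ℝ) ^ (-ε) ≤ (q : ℝ) ^ (-(ε / 2)) := by
    apply Real.rpow_le_rpow_of_exponent_le hq1
    linarith
  have h5 : 0 < min c1 c2 := lt_min hc10 hc20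
  calc min c1 c2 * (r : ℝ) ^ (-(ε / 2)) * (q : ℝ) ^ (-ε)
      ≤ min c1 c2 * (r : ℝ) ^ (-(ε / 2)) * (q : ℝ) ^ (-(ε / 2)) := by gcongr
    _ = _ := by ring

end Pool.MP_dd84fd_nt.SW
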