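import Pool.Agent.Lib.MP_dd84fd_nt.SW.ThreeFour
import Pool.Agent.Lib.MP_dd84fd_nt.SW.NearOne
import Pool.Agent.Lib.MP_dd84fd_nt.SW.Siegel

set_option autoImplicit false

namespace Pool.MP_dd84fd_nt.SW

open Finset

theorem LowerAll_ell_one (q : ℕ) (t : ℝ) (hq : 1 ≤ q) : 1 ≤ ell q t := by
  unfold ell
  have hqR : (1 : ℝ) ≤ q := by exact_mod_cast hq
  have ht := abs_nonneg t
  have h1 : (3 : ℝ) ≤ q * (|t| + 3) := by nlinarith
  rw [Real.le_log_iff_exp_le (by linarith)]
  have := Real.exp_one_lt_d9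
  linarith

theorem LowerAll_ell_mono (q : ℕ) (t : ℝ) (hq : 1 ≤ q) : ell q 0 ≤ ell q t := by
  unfold ell
  have hqR : (1 : ℝ) ≤ q := by exact_mod_cast hq
  have ht := abs_nonneg t
  rw [abs_zero]
  apply Real.log_le_log (by nlinarith)
  nlinarith

theorem L_lower (ε : ℝ) (hε : 0 < ε) : ∃ c : ℝ, 0 < c ∧
    ∀ (q : ℕ) (χ : DirichletCharacter ℂ q) (s : ℂ), 1 ≤ q → 1 < s.re → s.re ≤ 2 →
    (χ ≠ 1 ∨ (q = 1 ∧ 1 / 2 ≤ |s.im|)) →
    c * (q : ℝ) ^ (-ε) / ell q s.im ^ 13 ≤ ‖LSeries (ej χ 0) s‖ := by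
  obtain ⟨c1', hc1', h1'⟩ := L_lower_far
  obtain ⟨C2', hC2', h2'⟩ := L_near_one
  obtain ⟨c3', hc3', h3'⟩ := siegel ε hε
  -- normalised constants
  set c1 : ℝ := min c1' 1 with hc1
  set c3 : ℝ := min c3' 1 with hc3
  set C2 : ℝ := max C2' 1 with hC2
  have c1pos : 0 < c1 := lt_min hc1' one_pos
  have c3pos : 0 < c3 := lt_min hc3' one_pos
  have c1le : c1 ≤ 1 := min_le_right _ _
  have c3le : c3 ≤ 1 := min_le_right _ _
  have C2ge : 1 ≤ C2 := le_max_right _ _
  have C2pos : 0 < C2 := by linarith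
  refine ⟨c1 * c3 / (8 * C2), by positivity, ?_⟩
  intro q χ s hq hs1 hs2 hχ
  have hqR : (1 : ℝ) ≤ q := by exact_mod_cast hq
  have hq0 : (0 : ℝ) < q := by linarith
  set l : ℝ := ell q s.im with hl
  set l0 : ℝ := ell q 0 with hl0
  have hl1 : 1 ≤ l := LowerAll_ell_one q _ hq
  have hl01 : 1 ≤ l0 := LowerAll_ell_one q _ hq
  have hl0l : l0 ≤ l := LowerAll_ell_mono q _ hq
  have hlpos : 0 < l := by linarith
  have hl0pos : 0 < l0 := by linarith
  set Q : ℝ := (q : ℝ) ^ (-ε) with hQ
  have hQpos : 0 < Q := Real.rpow_pos_of_pos hq0 _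
  have hQ1 : Q ≤ 1 := Real.rpow_le_one_of_one_le_of_nonpos hqR (by linarith)
  -- the bound by `l ^ 9`
  have hpow : ∀ a b : ℕ, a ≤ b → (l ^ b)⁻¹ ≤ (l ^ a)⁻¹ := by
    intro a b hab
    have := pow_le_pow_right₀ hl1 hab
    gcongr
  have caseA : ∀ η : ℝ, 1 / 2 ≤ η → η ≤ 1 → c1' * η / l ^ 9 ≤ ‖LSeries (ej χ 0) s‖ →
      c1 * c3 / (8 * C2) * Q / l ^ 13 ≤ ‖LSeries (ej χ 0) s‖ := by
    intro η hη1 _ hb
    refine le_trans ?_ hb
    calc c1 * c3 / (8 * C2) * Q / l ^ 13 = c1 * (c3 * Q / (8 * C2)) * (l ^ 13)⁻¹ := by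
          field_simp
      _ ≤ c1 * (1 / 2) * (l ^ 9)⁻¹ := by
          have e1 : c3 * Q / (8 * C2) ≤ 1 / 2 := by
            rw [div_le_iff₀ (by positivity)]
            nlinarith [mul_le_mul c3le hQ1 hQpos.le zero_le_one]
          have e2 := hpow 9 13 (by norm_num)
          gcongr
      _ ≤ c1' * η * (l ^ 9)⁻¹ := by
          have : c1 ≤ c1' := min_le_left _ _
          gcongr
      _ = c1' * η / l ^ 9 := by rw [div_eq_mul_inv]
  rcases hχ with hχ | ⟨hq1, him⟩
  · by_cases hχ2 : χ ^ 2 = 1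
    · -- real character
      haveI : NeZero q := ⟨by omega⟩
      set lam : ℝ := c3 * Q with hlam
      have hlampos : 0 < lam := by positivity
      have hlam1 : lam ≤ 1 := by
        rw [hlam]
        nlinarith
      have hsieg : lam ≤ ‖χ.LFunction 1‖ := by
        refine le_trans ?_ (h3' q χ hχ hχ2)
        have : c3 ≤ c3' := min_le_left _ _
        rw [hlam]
        gcongr
      set η : ℝ := lam / (4 * C2 * l0 ^ 2) with hη
      have hηpos : 0 < η := by positivity
      have hl02 : 1 ≤ l0 ^ 2 := one_le_pow₀ hl01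
      have hη1 : η ≤ 1 := by
        rw [hη, div_le_one (by positivity)]
        nlinarith
      by_cases ht : η ≤ |s.im|
      · refine le_trans ?_ (h1' q χ s η hq hs1 hs2 hηpos hη1 (Or.inl hχ) (Or.inr ht))
        rw [← hl]
        have hinv : (l ^ 2)⁻¹ ≤ (l0 ^ 2)⁻¹ := by
          have := pow_le_pow_left₀ hl0pos.le hl0l 2
          gcongr
        calc c1 * c3 / (8 * C2) * Q / l ^ 13 = c1 * (lam / (8 * C2)) * (l ^ 13)⁻¹ := by
              rw [hlam]
              field_simp
          _ ≤ c1 * (lam / (4 * C2)) * (l ^ 11)⁻¹ := by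
              have e1 : lam / (8 * C2) ≤ lam / (4 * C2) := by
                gcongr
                norm_num
              have e2 := hpow 11 13 (by norm_num)
              gcongr
          _ = c1 * (lam / (4 * C2)) * ((l ^ 2)⁻¹ * (l ^ 9)⁻¹) := by
              rw [← mul_inv, ← pow_add]
          _ ≤ c1' * (lam / (4 * C2)) * ((l0 ^ 2)⁻¹ * (l ^ 9)⁻¹) := by
              have : c1 ≤ c1' := min_le_left _ _
              gcongr
          _ = c1' * η / l ^ 9 := by
              rw [hη]
              field_simp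
      · rw [not_le] at ht
        have hsmall : c1 * c3 / (8 * C2) * Q / l ^ 13 ≤ η / 2 := by
          have hinv : (l ^ 2)⁻¹ ≤ (l0 ^ 2)⁻¹ := by
            have := pow_le_pow_left₀ hl0pos.le hl0l 2
            gcongr
          calc c1 * c3 / (8 * C2) * Q / l ^ 13 = c1 * (lam / (8 * C2)) * (l ^ 13)⁻¹ := by
                rw [hlam]
                field_simp
            _ ≤ 1 * (lam / (8 * C2)) * (l ^ 2)⁻¹ := by
                have e2 := hpow 2 13 (by norm_num)
                gcongr
            _ ≤ 1 * (lam / (8 * C2)) * (l0 ^ 2)⁻¹ := by gcongr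
            _ = η / 2 := by
                rw [hη]
                field_simp
                ring
        by_cases hσ : η ≤ s.re - 1
        · have h4 := L_triv_lower q χ s hs1 hs2
          linarith
        · rw [not_le] at hσ
          have h5 := h2' q χ s hχ hs1 hs2 (by linarith)
          have hs : ‖s - 1‖ ≤ 2 * η := by
            calc ‖s - 1‖ ≤ |(s - 1).re| + |(s - 1).im| := Complex.norm_le_abs_re_add_abs_im _
              _ = (s.re - 1) + |s.im| := by
                  rw [Complex.sub_re, Complex.sub_im, Complex.one_re, Complex.one_im, sub_zero,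
                    abs_of_pos (by linarith)]
              _ ≤ 2 * η := by linarith
          have h6 : ‖LSeries (ej χ 0) s - χ.LFunction 1‖ ≤ lam / 2 := by
            calc ‖LSeries (ej χ 0) s - χ.LFunction 1‖ ≤ C2' * ‖s - 1‖ * ell q 0 ^ 2 := h5
              _ ≤ C2 * (2 * η) * l0 ^ 2 := by
                  have : C2' ≤ C2 := le_max_left _ _
                  gcongr
              _ = lam / 2 := by
                  rw [hη]
                  field_simp
                  ring
          have h7 : ‖χ.LFunction 1‖ ≤ ‖LSeries (ej χ 0) s‖ + ‖LSeries (ej χ 0) s - χ.LFunction 1‖ := by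
            have := norm_sub_le (LSeries (ej χ 0) s) (LSeries (ej χ 0) s - χ.LFunction 1)
            rw [sub_sub_cancel] at this
            exact this
          have h8 : η / 2 ≤ lam / 2 := by
            have : η ≤ lam := by
              rw [hη]
              apply div_le_self hlampos.le
              nlinarith
            linarith
          linarith
    · exact caseA 1 (by norm_num) le_rfl
        (h1' q χ s 1 hq hs1 hs2 one_pos le_rfl (Or.inl hχ) (Or.inl hχ2))
  · exact caseA (1 / 2) le_rfl (by norm_num)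
      (h1' q χ s (1 / 2) hq hs1 hs2 (by norm_num) (by norm_num) (Or.inr ⟨hq1, him⟩) (Or.inr him))

end Pool.MP_dd84fd_nt.SW
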