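import Pool.Agent.Lib.MP_dd84fd_nt.SW.EjBound
import Pool.Agent.Lib.MP_dd84fd_nt.SW.SumTools

set_option autoImplicit false

namespace Pool.MP_dd84fd_nt.SW

open Finset

theorem L_upper : ∃ C : ℝ, 0 < C ∧ ∀ (q : ℕ) (χ : DirichletCharacter ℂ q) (s : ℂ),
    1 ≤ q → 1 < s.re → s.re ≤ 2 →
    ‖LSeries (ej χ 0) s‖ ≤ C / ‖s - 1‖ + C * ell q s.im := by
  obtain ⟨C0, hC0, h0⟩ := Ej_bound 0
  refine ⟨max C0 30, lt_max_of_lt_left hC0, fun q χ s hq hs hs2 => ?_⟩
  have hne : s ≠ 1 := by
    intro h
    rw [h] at hs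
    simp at hs
  have hs1 : 0 < ‖s - 1‖ := norm_pos_iff.2 (sub_ne_zero.2 hne)
  have hl1 := ell_ge_one hq s.im
  by_cases hχ : χ = 1
  · subst hχ
    have hq0 : (1 : ℝ) ≤ q := by exact_mod_cast hq
    have hNe : NeZero q := ⟨by omega⟩
    obtain ⟨r, hr⟩ : ∃ r : ℝ, r = (Nat.totient q : ℝ) / q := ⟨_, rfl⟩
    have hr0 : 0 ≤ r := by rw [hr]; positivity
    have hr1 : r ≤ 1 := by
      rw [hr, div_le_one (by linarith)]
      exact_mod_cast Nat.totient_le q
    have hN3 := NN_three hq s.im
    have hN3' : (3 : ℝ) ≤ NN q s.im := by exact_mod_cast hN3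
    have hL0 : 0 ≤ Real.log (NN q s.im) := Real.log_nonneg (by linarith)
    have hL2 := NN_log hq s.im
    have hE : Filter.Tendsto (fun K : ℕ => ‖Gj s 0 K‖) Filter.atTop (nhds 0) := by
      simpa using (Gj_zero_tendsto hs).norm
    have hM : (1 + Real.log (NN q s.im)) + 25 + 1 / ‖s - 1‖ ≤
        max C0 30 / ‖s - 1‖ + max C0 30 * ell q s.im := by
      have e1 : 1 / ‖s - 1‖ ≤ max C0 30 / ‖s - 1‖ :=
        div_le_div_of_nonneg_right ((by norm_num : (1 : ℝ) ≤ 30).trans (le_max_right _ _)) hs1.le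
      have e2 : 30 * ell q s.im ≤ max C0 30 * ell q s.im :=
        mul_le_mul_of_nonneg_right (le_max_right _ _) (by linarith)
      linarith
    refine (LSeries_le (1 : DirichletCharacter ℂ q) 0 s
      (M := (1 + Real.log (NN q s.im)) + 25 + 1 / ‖s - 1‖)
      (E := fun K : ℕ => ‖Gj s 0 K‖) (by positivity) hE (N := NN q s.im) ?_).trans hM
    intro K hK
    rw [← Finset.sum_Ico_consecutive _ (by omega : 1 ≤ NN q s.im) hK, add_assoc, add_assoc]
    refine (norm_add_le _ _).trans (add_le_add ?_ ?_)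
    · have := head_bound 0 hs.le (b := fun n => (1 : DirichletCharacter ℂ q) (n : ZMod q))
        (fun n => DirichletCharacter.norm_le_one _ _) hN3
      simpa using this
    · have hval : ∀ n : ZMod q, (1 : DirichletCharacter ℂ q) n = 0 ∨
          (1 : DirichletCharacter ℂ q) n = 1 := by
        intro n
        by_cases hn : IsUnit n
        · exact Or.inr (MulChar.one_apply hn)
        · exact Or.inl (MulChar.map_nonunit _ hn)
      have hper : ∀ k N : ℕ, ‖∑ m ∈ Ico N (N + k),
          ((1 : DirichletCharacter ℂ q) (m : ZMod q) - (r : ℂ))‖ ≤ q := by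
        refine periodic_bound (b := fun m => (1 : DirichletCharacter ℂ q) (m : ZMod q) - (r : ℂ))
          hq ?_ ?_ ?_
        · intro m
          simp
        · rw [sum_range_zmod (fun a => (1 : DirichletCharacter ℂ q) a - (r : ℂ)),
            Finset.sum_sub_distrib]
          have e1 : ∑ a : ZMod q, (1 : DirichletCharacter ℂ q) a = (Nat.totient q : ℂ) := by
            rw [MulChar.sum_one_eq_card_units, ZMod.card_units_eq_totient]
          rw [e1]
          simp only [sum_const, card_univ, ZMod.card, nsmul_eq_mul, hr]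
          push_cast
          have : (q : ℂ) ≠ 0 := by exact_mod_cast hNe.ne
          field_simp
          ring
        · intro m
          rcases hval (m : ZMod q) with h | h
          · rw [h, zero_sub, norm_neg, Complex.norm_real, Real.norm_of_nonneg hr0]
            exact hr1
          · rw [h]
            have e1 : (1 : ℂ) - (r : ℂ) = ((1 - r : ℝ) : ℂ) := by push_cast; ring
            rw [e1, Complex.norm_real, Real.norm_of_nonneg (by linarith)]
            linarith
      have e1 : ∑ n ∈ Ico (NN q s.im) K, (1 : DirichletCharacter ℂ q) (n : ZMod q) * gj 0 s n =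
          (∑ n ∈ Ico (NN q s.im) K,
            ((1 : DirichletCharacter ℂ q) (n : ZMod q) - (r : ℂ)) * gj 0 s n) +
          (r : ℂ) * ((∑ n ∈ Ico (NN q s.im) K, gj 0 s n - (Gj s 0 K - Gj s 0 (NN q s.im))) +
            (Gj s 0 K - Gj s 0 (NN q s.im))) := by
        rw [sub_add_cancel, Finset.mul_sum, ← Finset.sum_add_distrib]
        refine Finset.sum_congr rfl fun n _ => ?_
        ring
      rw [e1]
      have h1 := tail_bound 0 hs.le hN3 hK
        (b := fun n => (1 : DirichletCharacter ℂ q) (n : ZMod q) - (r : ℂ)) (B := q)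
        (fun n hn => by
          obtain ⟨k, rfl⟩ := Nat.exists_eq_add_of_le hn
          exact hper k _)
      have h2 := int_bound 0 hs.le hne hN3 hK
      have h3 := SumTools_rem 0 hq (s := s) (by linarith) hs2 hL0
      have h4 := NN_s hq (s := s) (by linarith) hs2
      have h5 := norm_sub_le (Gj s 0 K) (Gj s 0 (NN q s.im))
      have h6 := Gj_zero_norm s (u := (NN q s.im : ℝ)) (by linarith)
      have h7 : (NN q s.im : ℝ) ^ (1 - s.re) ≤ 1 :=
        Real.rpow_le_one_of_one_le_of_nonpos (by linarith) (by linarith)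
      have h8 : ‖Gj s 0 (NN q s.im)‖ ≤ 1 / ‖s - 1‖ := by
        rw [h6]
        exact div_le_div_of_nonneg_right h7 hs1.le
      simp only [pow_zero, CharP.cast_eq_zero, zero_add, mul_one] at h1 h2 h3
      have h9 : (q : ℝ) / NN q s.im ≤ 1 := by
        refine le_trans ?_ h4
        refine div_le_div_of_nonneg_right ?_ (by linarith)
        have : 0 ≤ (q : ℝ) * ‖s‖ := by positivity
        linarith
      have h10 : (q : ℝ) * ((1 + 2 * (‖s‖ * 8)) * (1 / NN q s.im)) ≤ 17 := by
        have e2 : (q : ℝ) * ((1 + 2 * (‖s‖ * 8)) * (1 / NN q s.im)) =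
          (q : ℝ) / NN q s.im + 2 * ((q : ℝ) * (‖s‖ * (8 * (1 / NN q s.im)))) := by ring
        rw [e2]
        linarith
      have h11 : ‖s‖ * (8 * (1 / NN q s.im)) ≤ 8 := by
        have e2 : ‖s‖ * (8 * (1 / NN q s.im)) ≤ (q : ℝ) * (‖s‖ * (8 * (1 / NN q s.im))) :=
          le_mul_of_one_le_left (by positivity) hq0
        linarith
      refine (norm_add_le _ _).trans ?_
      rw [norm_mul, Complex.norm_real, Real.norm_of_nonneg hr0]
      have h12 : ‖(∑ n ∈ Ico (NN q s.im) K, gj 0 s n - (Gj s 0 K - Gj s 0 (NN q s.im))) +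
            (Gj s 0 K - Gj s 0 (NN q s.im))‖ ≤ 8 + (‖Gj s 0 K‖ + 1 / ‖s - 1‖) :=
        (norm_add_le _ _).trans (add_le_add (h2.trans h11) (h5.trans (by linarith)))
      have h13 := mul_le_mul hr1 h12 (norm_nonneg _) zero_le_one
      linarith [h1.trans h10]
  · have h1 := h0 q χ s hq hχ hs hs2
    have e1 : 0 ≤ max C0 30 / ‖s - 1‖ := by positivity
    have e2 : C0 * ell q s.im ≤ max C0 30 * ell q s.im :=
      mul_le_mul_of_nonneg_right (le_max_left _ _) (by linarith)
    rw [zero_add, pow_one] at h1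
    linarith

end Pool.MP_dd84fd_nt.SW
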