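import Pool.Agent.Lib.MP_dd84fd_nt.SW.Defs
import Pool.Agent.Lib.MP_dd84fd_nt.SW.SumTools

set_option autoImplicit false

namespace Pool.MP_dd84fd_nt.SW

open Finset

theorem zeta_Ej (j : ℕ) : ∃ C : ℝ, 0 < C ∧ ∀ s : ℂ, 1 < s.re → s.re ≤ 2 → 1 / 2 ≤ |s.im| →
    ‖LSeries (ej (1 : DirichletCharacter ℂ 1) j) s‖ ≤ C * ell 1 s.im ^ (j + 1) := by
  obtain ⟨C, hC, hG⟩ := Gj_norm j
  obtain ⟨D, hD⟩ : ∃ D : ℝ, D = (j + 1) * (8 * (2 * j + 1) ^ j) + C * 2 ^ j := ⟨_, rfl⟩
  have hD0 : 0 ≤ D := by rw [hD]; positivity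
  refine ⟨2 ^ j * (3 + D), by positivity, fun s hs hs2 hs3 => ?_⟩
  have hq : 1 ≤ 1 := le_rfl
  have hs1 : 1 / 2 ≤ ‖s - 1‖ := by
    refine hs3.trans ?_
    have := Complex.abs_im_le_norm (s - 1)
    simpa using this
  have hne : s ≠ 1 := by
    intro h
    rw [h, sub_self, norm_zero] at hs1
    linarith
  have hN3 := NN_three hq s.im
  have hN3' : (3 : ℝ) ≤ NN 1 s.im := by exact_mod_cast hN3
  have hL1 := SumTools_log_ge_one hN3'
  have hL0 : 0 ≤ Real.log (NN 1 s.im) := Real.log_nonneg (by linarith)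
  have hfin := SumTools_final j (ell_ge_one hq s.im) hL0 (NN_log hq s.im) hD0
  have hE : Filter.Tendsto (fun K : ℕ => ‖Gj s j K‖) Filter.atTop (nhds 0) := by
    simpa using (Gj_tendsto hs hs1 j).norm
  refine (LSeries_le (1 : DirichletCharacter ℂ 1) j s
    (M := Real.log (NN 1 s.im) ^ j * (1 + Real.log (NN 1 s.im)) +
    D * Real.log (NN 1 s.im) ^ j) (E := fun K : ℕ => ‖Gj s j K‖) (by positivity) hE
    (N := NN 1 s.im) ?_).trans hfin
  intro K hK
  have hone : ∀ n : ℕ, (1 : DirichletCharacter ℂ 1) (n : ZMod 1) = 1 := by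
    intro n
    exact MulChar.one_apply (isUnit_of_subsingleton _)
  rw [← Finset.sum_Ico_consecutive _ (by omega : 1 ≤ NN 1 s.im) hK, add_assoc]
  refine (norm_add_le _ _).trans (add_le_add ?_ ?_)
  · exact head_bound j hs.le (b := fun n => (1 : DirichletCharacter ℂ 1) (n : ZMod 1))
      (fun n => DirichletCharacter.norm_le_one _ _) hN3
  · have e1 : ∑ n ∈ Ico (NN 1 s.im) K, (1 : DirichletCharacter ℂ 1) (n : ZMod 1) * gj j s n =
        (∑ n ∈ Ico (NN 1 s.im) K, gj j s n - (Gj s j K - Gj s j (NN 1 s.im))) +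
          (Gj s j K - Gj s j (NN 1 s.im)) := by
      rw [sub_add_cancel]
      refine Finset.sum_congr rfl fun n _ => ?_
      rw [hone, one_mul]
    rw [e1]
    refine (norm_add_le _ _).trans ?_
    have h1 := int_bound j hs.le hne hN3 hK
    have h2 := SumTools_rem j hq (s := s) (by linarith) hs2 hL0
    rw [Nat.cast_one, one_mul] at h2
    have h3 := norm_sub_le (Gj s j K) (Gj s j (NN 1 s.im))
    have h4 := hG s hs1 (NN 1 s.im) (by linarith)
    have h5 : (NN 1 s.im : ℝ) ^ (1 - s.re) ≤ 1 :=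
      Real.rpow_le_one_of_one_le_of_nonpos (by linarith) (by linarith)
    have h6 : (1 + Real.log (NN 1 s.im)) ^ j ≤ 2 ^ j * Real.log (NN 1 s.im) ^ j := by
      rw [← mul_pow]
      exact pow_le_pow_left₀ (by linarith) (by linarith) _
    have h7 : C * (1 + Real.log (NN 1 s.im)) ^ j * (NN 1 s.im : ℝ) ^ (1 - s.re) ≤
        C * (2 ^ j * Real.log (NN 1 s.im) ^ j) * 1 :=
      mul_le_mul (mul_le_mul_of_nonneg_left h6 hC.le) h5 (by positivity) (by positivity)
    rw [hD]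
    linarith

end Pool.MP_dd84fd_nt.SW
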