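import Pool.Agent.Lib.MP_dd84fd_nt.SW.EjBound
import Pool.Agent.Lib.MP_dd84fd_nt.SW.ZetaEj
import Pool.Agent.Lib.MP_dd84fd_nt.SW.UpperAll
import Pool.Agent.Lib.MP_dd84fd_nt.SW.NearOne

set_option autoImplicit false

namespace Pool.MP_dd84fd_nt.SW

open Finset

private lemma threeFour_ell_gt_one (q : ℕ) (hq : 1 ≤ q) (t : ℝ) : 1 < ell q t := by
  have hq' : (1 : ℝ) ≤ q := by exact_mod_cast hq
  have h3 : (3 : ℝ) ≤ q * (|t| + 3) := by nlinarith only [hq', abs_nonneg t]
  have he : Real.exp 1 < q * (|t| + 3) := by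
    have := Real.exp_one_lt_d9
    linarith
  rw [ell, Real.lt_log_iff_exp_lt (by linarith)]
  exact he

private lemma threeFour_ell_two (q : ℕ) (hq : 1 ≤ q) (t : ℝ) : ell q (2 * t) ≤ 2 * ell q t := by
  have hq' : (1 : ℝ) ≤ q := by exact_mod_cast hq
  have h0 : (0 : ℝ) < q * (|t| + 3) := by positivity
  have ht := abs_nonneg t
  rw [ell, ell, show (2 : ℝ) * Real.log (q * (|t| + 3)) = Real.log ((q * (|t| + 3)) ^ 2) by
    rw [Real.log_pow]; norm_num]
  apply Real.log_le_log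
  · positivity
  · rw [abs_mul, abs_of_pos (by norm_num : (0 : ℝ) < 2)]
    have h1 : (2 * |t| + 3 : ℝ) ≤ (|t| + 3) ^ 2 := by nlinarith only [h0, hq', ht]
    have h2 : (q : ℝ) ≤ q ^ 2 := by nlinarith
    calc (q : ℝ) * (2 * |t| + 3) ≤ q ^ 2 * (|t| + 3) ^ 2 :=
          mul_le_mul h2 h1 (by positivity) (by positivity)
      _ = (q * (|t| + 3)) ^ 2 := by ring

private lemma threeFour_ell_zero (q : ℕ) (hq : 1 ≤ q) (t : ℝ) : ell q 0 ≤ ell q t := by
  have hq' : (1 : ℝ) ≤ q := by exact_mod_cast hq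
  have ht := abs_nonneg t
  rw [ell, ell]
  apply Real.log_le_log
  · positivity
  · rw [abs_zero]
    exact mul_le_mul_of_nonneg_left (by linarith) (by linarith)

private lemma threeFour_lip (q : ℕ) (hq : 1 ≤ q) (χ : DirichletCharacter ℂ q) (t K : ℝ)
    (hK : ∀ z : ℂ, 1 < z.re → z.re ≤ 2 → z.im = t → ‖LSeries (ej χ 1) z‖ ≤ K)
    (s s' : ℂ) (h1 : 1 < s.re) (h2 : s.re ≤ 2) (h3 : s.im = t) (h1' : 1 < s'.re)
    (h2' : s'.re ≤ 2) (h3' : s'.im = t) :
    ‖LSeries (ej χ 0) s' - LSeries (ej χ 0) s‖ ≤ K * ‖s' - s‖ := by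
  have hej : ej χ 0 = fun n : ℕ => χ n := by
    funext n; simp [ej]
  have hlog : LSeries.logMul (ej χ 0) = ej χ 1 := by
    funext n
    simp only [LSeries.logMul, ej, pow_zero, mul_one, pow_one]
    rw [← Complex.natCast_log]
    ring
  set S : Set ℂ := {z | 1 < z.re ∧ z.re ≤ 2 ∧ z.im = t} with hS
  have hconv : Convex ℝ S := by
    intro x hx y hy a b ha hb hab
    obtain ⟨hx1, hx2, hx3⟩ := hx
    obtain ⟨hy1, hy2, hy3⟩ := hy
    refine ⟨?_, ?_, ?_⟩
    · simp only [Complex.add_re, Complex.real_smul, Complex.mul_re, Complex.ofReal_re,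
        Complex.ofReal_im, zero_mul, sub_zero]
      rcases eq_or_lt_of_le ha with h | h
      · have : b = 1 := by linarith
        rw [← h, this]; linarith
      · nlinarith only [h, hab, hb, hx1, hy1]
    · simp only [Complex.add_re, Complex.real_smul, Complex.mul_re, Complex.ofReal_re,
        Complex.ofReal_im, zero_mul, sub_zero]
      nlinarith only [ha, hab, hb, hx2, hy2]
    · simp only [Complex.add_im, Complex.real_smul, Complex.mul_im, Complex.ofReal_re,
        Complex.ofReal_im, zero_mul, add_zero]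
      rw [hx3, hy3, ← add_mul, hab, one_mul]
  refine hconv.norm_image_sub_le_of_norm_hasDerivWithin_le (f := LSeries (ej χ 0))
    (f' := fun z => -LSeries (ej χ 1) z) (C := K) ?_ ?_ ⟨h1, h2, h3⟩ ⟨h1', h2', h3'⟩
  · intro z hz
    have habs : LSeries.abscissaOfAbsConv (ej χ 0) < z.re := by
      rw [hej, DirichletCharacter.absicssaOfAbsConv_eq_one (by omega) χ, ← EReal.coe_one,
        EReal.coe_lt_coe_iff]
      exact hz.1
    have := LSeries_hasDerivAt habs
    rw [hlog] at this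
    exact this.hasDerivWithinAt
  · intro z hz
    rw [norm_neg]
    exact hK z hz.1 hz.2.1 hz.2.2

theorem L_lower_far : ∃ c : ℝ, 0 < c ∧ ∀ (q : ℕ) (χ : DirichletCharacter ℂ q) (s : ℂ) (η : ℝ),
    1 ≤ q → 1 < s.re → s.re ≤ 2 → 0 < η → η ≤ 1 → (χ ≠ 1 ∨ (q = 1 ∧ 1 / 2 ≤ |s.im|)) →
    (χ ^ 2 ≠ 1 ∨ η ≤ |s.im|) → c * η / ell q s.im ^ 9 ≤ ‖LSeries (ej χ 0) s‖ := by
  obtain ⟨C0, hC0, hE0⟩ := Ej_bound 0
  obtain ⟨C1, hC1, hE1⟩ := Ej_bound 1
  obtain ⟨C2, hC2, hE2⟩ := zeta_Ej 1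
  obtain ⟨C3, hC3, hU⟩ := L_upper
  obtain ⟨C, hC1', hCC0, hCC1, hCC2, hCC3⟩ : ∃ C : ℝ, 1 ≤ C ∧ C0 ≤ C ∧ C1 ≤ C ∧ C2 ≤ C ∧
      C3 ≤ C := ⟨1 + C0 + C1 + C2 + C3, by linarith, by linarith, by linarith, by linarith,
      by linarith⟩
  have hCpos : 0 < C := by linarith
  obtain ⟨c2, hc2⟩ : ∃ c2 : ℝ, c2 = 1 / (384 * C ^ 8) := ⟨_, rfl⟩
  have hc2pos : 0 < c2 := by rw [hc2]; positivity
  have hc2le : c2 ≤ 1 := by
    rw [hc2, div_le_one (by positivity)]
    have : 1 ≤ C ^ 8 := one_le_pow₀ hC1'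
    linarith
  refine ⟨c2 / 2, by positivity, ?_⟩
  intro q χ s η hq h1 h2 hη hη1 hχ hχ2
  obtain ⟨t, ht⟩ : ∃ t : ℝ, s.im = t := ⟨_, rfl⟩
  rw [ht] at hχ hχ2 ⊢
  obtain ⟨l, hl⟩ : ∃ l : ℝ, ell q t = l := ⟨_, rfl⟩
  rw [hl]
  have hl1 : 1 < l := hl ▸ threeFour_ell_gt_one q hq t
  have hlpos : 0 < l := by linarith
  obtain ⟨h, hh⟩ : ∃ h : ℝ, h = c2 * η / l ^ 9 := ⟨_, rfl⟩
  have hhpos : 0 < h := by rw [hh]; positivity
  have hl9 : 1 ≤ l ^ 9 := one_le_pow₀ hl1.le
  have hce : c2 * η ≤ 1 := mul_le_one₀ hc2le hη.le hη1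
  have hh1 : h ≤ 1 := by
    rw [hh, div_le_one (by positivity)]
    exact hce.trans hl9
  have hlh : l ≤ 1 / h := by
    rw [le_div_iff₀ hhpos, hh, mul_div_assoc', div_le_one (by positivity)]
    have : l ≤ l ^ 9 := by
      calc l = l ^ 1 := by ring
        _ ≤ l ^ 9 := pow_le_pow_right₀ hl1.le (by norm_num)
    calc l * (c2 * η) ≤ l * 1 := mul_le_mul_of_nonneg_left hce hlpos.le
      _ = l := mul_one l
      _ ≤ l ^ 9 := this
  -- derivative bound
  have hK : ∀ z : ℂ, 1 < z.re → z.re ≤ 2 → z.im = t → ‖LSeries (ej χ 1) z‖ ≤ C * l ^ 2 := by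
    intro z hz1 hz2 hz3
    rcases hχ with hχ | ⟨hq1, ht1⟩
    · have := hE1 q χ z hq hχ hz1 hz2
      rw [hz3, hl] at this
      refine this.trans ?_
      exact mul_le_mul_of_nonneg_right hCC1 (by positivity)
    · subst hq1
      have h1' : χ = 1 := DirichletCharacter.level_one χ
      have := hE2 z hz1 hz2 (by rw [hz3]; exact ht1)
      rw [hz3, ← h1', hl] at this
      refine this.trans ?_
      exact mul_le_mul_of_nonneg_right hCC2 (by positivity)
  by_cases hcase : 1 + h ≤ s.re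
  · have h3 := L_triv_lower q χ s h1 h2
    have h4 : h / 2 ≤ (s.re - 1) / 2 := by linarith
    have h5 : c2 / 2 * η / l ^ 9 = h / 2 := by rw [hh]; ring
    rw [h5]
    exact h4.trans h3
  · push Not at hcase
    -- the point s1
    obtain ⟨s1, hs1⟩ : ∃ s1 : ℂ, s1 = 1 + h + Complex.I * t := ⟨_, rfl⟩
    have hs1re : s1.re = 1 + h := by simp [hs1]
    have hs1im : s1.im = t := by simp [hs1]
    have hdiff : ‖LSeries (ej χ 0) s1 - LSeries (ej χ 0) s‖ ≤ C * l ^ 2 * ‖s1 - s‖ :=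
      threeFour_lip q hq χ t (C * l ^ 2) hK s s1 h1 h2 ht (by rw [hs1re]; linarith)
        (by rw [hs1re]; linarith) hs1im
    have hns : ‖s1 - s‖ ≤ h := by
      have : s1 - s = ((1 + h - s.re : ℝ) : ℂ) := by
        apply Complex.ext
        · simp [hs1re]
        · simp [hs1im, ht]
      rw [this, Complex.norm_real, Real.norm_eq_abs, abs_of_pos (by linarith)]
      linarith
    have hdiff2 : ‖LSeries (ej χ 0) s1 - LSeries (ej χ 0) s‖ ≤ C * c2 * η / l ^ 7 := by
      refine hdiff.trans ?_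
      have h3 : C * l ^ 2 * ‖s1 - s‖ ≤ C * l ^ 2 * h :=
        mul_le_mul_of_nonneg_left hns (by positivity)
      have h4 : C * l ^ 2 * h = C * c2 * η / l ^ 7 := by
        rw [hh]
        field_simp
      linarith
    -- 3-4-1
    have : NeZero q := ⟨by omega⟩
    have h341 := DirichletCharacter.norm_LSeries_product_ge_one χ hhpos t
    have hej : ∀ ψ : DirichletCharacter ℂ q, (fun n : ℕ => ψ n) = ej ψ 0 := by
      intro ψ; funext n; simp [ej]
    rw [hej 1, hej χ, hej (χ ^ 2), norm_mul, norm_mul, norm_pow, norm_pow] at h341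
    have hA : ‖LSeries (ej (1 : DirichletCharacter ℂ q) 0) (1 + h)‖ ≤ 2 * C / h := by
      have h3 := hU q 1 (1 + h) hq (by simp [hhpos]) (by simp; linarith)
      have h4 : ‖(1 + h : ℂ) - 1‖ = h := by
        rw [add_sub_cancel_left, Complex.norm_real, Real.norm_eq_abs, abs_of_pos hhpos]
      have h5 : (1 + (h : ℂ)).im = 0 := by simp
      rw [h4, h5] at h3
      refine h3.trans ?_
      have h6 : ell q 0 ≤ 1 / h := (threeFour_ell_zero q hq t).trans (hl ▸ hlh)
      have h7 : C3 ≤ C := hCC3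
      calc C3 / h + C3 * ell q 0 ≤ C / h + C * (1 / h) := by
            apply add_le_add
            · exact div_le_div_of_nonneg_right h7 hhpos.le
            · apply mul_le_mul h7 h6 ?_ hCpos.le
              exact (lt_trans one_pos (threeFour_ell_gt_one q hq 0)).le
        _ = 2 * C / h := by ring
    have hB : ‖LSeries (ej (χ ^ 2) 0) (1 + h + 2 * Complex.I * t)‖ ≤ 3 * C * l / η := by
      have hre : (1 + h + 2 * Complex.I * t : ℂ).re = 1 + h := by simp
      have him : (1 + h + 2 * Complex.I * t : ℂ).im = 2 * t := by simp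
      have hl2 : ell q (2 * t) ≤ 2 * l := hl ▸ threeFour_ell_two q hq t
      have hl2p : 0 < ell q (2 * t) := lt_trans one_pos (threeFour_ell_gt_one q hq (2 * t))
      have hinv : l ≤ l / η := by
        rw [le_div_iff₀ hη]; nlinarith only [hl1, hη1]
      rcases hχ2 with hχ2 | hη2
      · have h3 := hE0 q (χ ^ 2) (1 + h + 2 * Complex.I * t) hq hχ2 (by rw [hre]; linarith)
          (by rw [hre]; linarith)
        rw [him, zero_add, pow_one] at h3
        have h7 : C0 ≤ C := hCC0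
        calc _ ≤ C0 * ell q (2 * t) := h3
          _ ≤ C * (2 * l) := mul_le_mul h7 hl2 hl2p.le hCpos.le
          _ ≤ 3 * C * l := by nlinarith only [hCpos, hlpos, mul_pos hCpos hlpos]
          _ = 3 * C * l / 1 := by ring
          _ ≤ 3 * C * l / η := div_le_div_of_nonneg_left (by positivity) hη hη1
      · have h3 := hU q (χ ^ 2) (1 + h + 2 * Complex.I * t) hq (by rw [hre]; linarith)
          (by rw [hre]; linarith)
        rw [him] at h3
        have h7 : C3 ≤ C := hCC3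
        have hn : η ≤ ‖(1 + h + 2 * Complex.I * t : ℂ) - 1‖ := by
          have h8 := Complex.abs_im_le_norm ((1 + h + 2 * Complex.I * t : ℂ) - 1)
          have h9 : ((1 + h + 2 * Complex.I * t : ℂ) - 1).im = 2 * t := by simp
          rw [h9, abs_mul, abs_of_pos (by norm_num : (0 : ℝ) < 2)] at h8
          have := abs_nonneg t
          linarith
        calc _ ≤ C3 / ‖(1 + h + 2 * Complex.I * t : ℂ) - 1‖ + C3 * ell q (2 * t) := h3
          _ ≤ C * l / η + C * (2 * l) := by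
              apply add_le_add
              · apply div_le_div₀ (by positivity) ?_ hη hn
                nlinarith only [hC1', hCC3, hl1]
              · exact mul_le_mul h7 hl2 hl2p.le hCpos.le
          _ ≤ C * l / η + 2 * (C * l / η) := by
              have : C * l ≤ C * l / η := by
                rw [mul_div_assoc]
                exact mul_le_mul_of_nonneg_left hinv hCpos.le
              linarith
          _ = 3 * C * l / η := by ring
    rw [← hs1] at h341
    obtain ⟨a, ha⟩ : ∃ a : ℝ, a = ‖LSeries (ej (1 : DirichletCharacter ℂ q) 0) (1 + h)‖ :=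
      ⟨_, rfl⟩
    obtain ⟨b, hb⟩ : ∃ b : ℝ, b = ‖LSeries (ej χ 0) s1‖ := ⟨_, rfl⟩
    obtain ⟨d, hd⟩ : ∃ d : ℝ, d = ‖LSeries (ej (χ ^ 2) 0) (1 + h + 2 * Complex.I * t)‖ :=
      ⟨_, rfl⟩
    rw [← ha, ← hb, ← hd] at h341
    rw [← ha] at hA
    rw [← hd] at hB
    have ha0 : 0 ≤ a := ha ▸ norm_nonneg _
    have hb0 : 0 ≤ b := hb ▸ norm_nonneg _
    have hd0 : 0 ≤ d := hd ▸ norm_nonneg _
    have h341' : 1 ≤ (2 * C / h) ^ 3 * b ^ 4 * (3 * C * l / η) := by
      refine le_trans h341 ?_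
      apply mul_le_mul ?_ hB hd0 (by positivity)
      exact mul_le_mul_of_nonneg_right (pow_le_pow_left₀ ha0 hA 3) (by positivity)
    have hb4 : (2 * C * c2 * η / l ^ 7) ^ 4 ≤ b ^ 4 := by
      have e1 : (2 * C / h) ^ 3 * b ^ 4 * (3 * C * l / η) =
          b ^ 4 * (24 * C ^ 4 * l ^ 28 / (c2 ^ 3 * η ^ 4)) := by
        rw [hh]
        field_simp
        ring
      rw [e1] at h341'
      have e2 : (2 * C * c2 * η / l ^ 7) ^ 4 * (24 * C ^ 4 * l ^ 28 / (c2 ^ 3 * η ^ 4)) =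
          384 * C ^ 8 * c2 := by
        field_simp
        ring
      have e3 : 384 * C ^ 8 * c2 = 1 := by
        rw [hc2]; field_simp
      have e4 : 0 < 24 * C ^ 4 * l ^ 28 / (c2 ^ 3 * η ^ 4) := by positivity
      refine le_of_mul_le_mul_right ?_ e4
      rw [e2, e3]
      exact h341'
    have hb1 : 2 * C * c2 * η / l ^ 7 ≤ b :=
      (pow_le_pow_iff_left₀ (by positivity) hb0 (by norm_num)).1 hb4
    have htri : b ≤ ‖LSeries (ej χ 0) s‖ + ‖LSeries (ej χ 0) s1 - LSeries (ej χ 0) s‖ := by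
      have := norm_add_le (LSeries (ej χ 0) s) (LSeries (ej χ 0) s1 - LSeries (ej χ 0) s)
      rw [add_sub_cancel, ← hb] at this
      exact this
    have hfin : C * c2 * η / l ^ 7 ≤ ‖LSeries (ej χ 0) s‖ := by
      have e5 : 2 * C * c2 * η / l ^ 7 = C * c2 * η / l ^ 7 + C * c2 * η / l ^ 7 := by ring
      linarith only [e5, hb1, hdiff2, htri]
    refine le_trans ?_ hfin
    apply div_le_div₀ (by positivity) ?_ (by positivity) (pow_le_pow_right₀ hl1.le (by norm_num))
    have h0 : 0 < c2 * η := mul_pos hc2pos hη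
    calc c2 / 2 * η = c2 * η / 2 := by ring
      _ ≤ 1 * (c2 * η) := by linarith only [h0]
      _ ≤ C * (c2 * η) := mul_le_mul_of_nonneg_right hC1' h0.le
      _ = C * c2 * η := by ring

end Pool.MP_dd84fd_nt.SW
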