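import Pool.Agent.Lib.MP_dd84fd_nt.SW.Defs

set_option autoImplicit false

namespace Pool.MP_dd84fd_nt.SW

open Finset

/-- partial sums of a nonprincipal character are bounded by `q` -/
private lemma lfb_sum (q : ℕ) [NeZero q] (χ : DirichletCharacter ℂ q) (hχ : χ ≠ 1) (n : ℕ) :
    ‖∑ k ∈ Icc 1 n, χ (k : ZMod q)‖ ≤ q := by
  have hq : 0 < q := NeZero.pos q
  have hq1 : q ≠ 1 := by
    rintro rfl
    exact hχ (Subsingleton.elim _ _)
  have h0 : χ ((0 : ℕ) : ZMod q) = 0 := by
    rw [Nat.cast_zero]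
    exact χ.map_nonunit (by
      intro h
      rw [isUnit_zero_iff] at h
      have : Fact (1 < q) := ⟨by omega⟩
      exact zero_ne_one h)
  have h1 : ∑ k ∈ Icc 1 n, χ (k : ZMod q) = ∑ k ∈ range (n + 1), χ (k : ZMod q) := by
    rw [Finset.range_eq_Ico, Finset.sum_eq_sum_Ico_succ_bot (Nat.succ_pos n), h0, zero_add]
    rfl
  have hper : ∑ k ∈ range q, χ (k : ZMod q) = 0 := by
    rw [← MulChar.sum_eq_zero_of_ne_one hχ]
    refine Finset.sum_nbij' (fun k => (k : ZMod q)) (fun a => a.val) ?_ ?_ ?_ ?_ ?_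
    · intro k _; exact mem_univ _
    · intro a _; exact mem_range.2 (ZMod.val_lt a)
    · intro k hk; exact ZMod.val_cast_of_lt (mem_range.1 hk)
    · intro a _; exact ZMod.natCast_zmod_val a
    · intro k _; rfl
  have h2 : ∀ m r : ℕ, ∑ k ∈ range (q * m + r), χ (k : ZMod q) = ∑ k ∈ range r, χ (k : ZMod q) := by
    intro m
    induction m with
    | zero => intro r; simp
    | succ m ih =>
      intro r
      have e : q * (m + 1) + r = q + (q * m + r) := by ring
      rw [e, Finset.sum_range_add, hper, zero_add, ← ih r]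
      refine Finset.sum_congr rfl ?_
      intro k _
      push_cast
      rw [ZMod.natCast_self, zero_add]
  rw [h1, ← Nat.div_add_mod (n + 1) q, h2]
  calc ‖∑ k ∈ range ((n + 1) % q), χ (k : ZMod q)‖ ≤ ∑ k ∈ range ((n + 1) % q), (1 : ℝ) := by
        refine (norm_sum_le _ _).trans (Finset.sum_le_sum ?_)
        intro k _
        exact χ.norm_le_one _
    _ = (((n + 1) % q : ℕ) : ℝ) := by simp
    _ ≤ q := by exact_mod_cast (Nat.mod_lt _ hq).le

theorem LF_bound : ∃ C : ℝ, 0 < C ∧ ∀ (q : ℕ) [NeZero q] (χ : DirichletCharacter ℂ q) (s : ℂ),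
    χ ≠ 1 → 1 / 2 ≤ s.re → ‖s‖ ≤ 4 → ‖χ.LFunction s‖ ≤ C * q := by
  refine ⟨8, by norm_num, ?_⟩
  intro q _ χ s hχ hs hs4
  set S : ℝ → ℂ := fun t => ∑ k ∈ Icc 1 ⌊t⌋₊, χ (k : ZMod q) with hS
  have hSb : ∀ t, ‖S t‖ ≤ q := fun t => lfb_sum q χ hχ _
  have hSm : Measurable S := by
    have : S = (fun n : ℕ => ∑ k ∈ Icc 1 n, χ (k : ZMod q)) ∘ (fun t : ℝ => ⌊t⌋₊) := rfl
    rw [this]
    exact (measurable_from_top).comp Nat.measurable_floor
  set F : ℝ → ℂ := (Set.Ioi (1 : ℝ)).indicator S with hF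
  have hFm : Measurable F := hSm.indicator measurableSet_Ioi
  have hFb : ∀ t, ‖F t‖ ≤ q := by
    intro t
    rw [hF]
    refine (norm_indicator_le_norm_self _ _).trans (hSb t)
  -- the Mellin transform
  have hmel : ∀ z : ℂ, mellin F (-z) = ∫ t in Set.Ioi (1 : ℝ), S t * (t : ℂ) ^ (-(z + 1)) := by
    intro z
    rw [mellin, hF]
    have h1 : ∀ t : ℝ, (t : ℂ) ^ (-z - 1) • (Set.Ioi (1 : ℝ)).indicator S t =
        (Set.Ioi (1 : ℝ)).indicator (fun t => S t * (t : ℂ) ^ (-(z + 1))) t := by
      intro t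
      by_cases ht : t ∈ Set.Ioi (1 : ℝ)
      · rw [Set.indicator_of_mem ht, Set.indicator_of_mem ht, smul_eq_mul, mul_comm]
        congr 2
        ring
      · rw [Set.indicator_of_notMem ht, Set.indicator_of_notMem ht, smul_zero]
    simp_rw [h1]
    rw [MeasureTheory.setIntegral_indicator measurableSet_Ioi]
    congr 2
    ext t
    simp only [Set.mem_inter_iff, Set.mem_Ioi]
    constructor
    · rintro ⟨_, h⟩; exact h
    · intro h; exact ⟨by linarith, h⟩
  have hdiff : ∀ z : ℂ, 0 < z.re → DifferentiableAt ℂ (mellin F) (-z) := by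
    intro z hz
    refine mellin_differentiableAt_of_isBigO_rpow (a := 0) (b := -z.re - 1) ?_ ?_ ?_ ?_ ?_
    · refine MeasureTheory.LocallyIntegrable.locallyIntegrableOn ?_ _
      intro x
      refine ⟨Metric.ball x 1, Metric.ball_mem_nhds x one_pos, ?_⟩
      refine MeasureTheory.Measure.integrableOn_of_bounded (M := (q : ℝ)) ?_
        hFm.aestronglyMeasurable ?_
      · exact (MeasureTheory.measure_ball_lt_top).ne
      · exact Filter.Eventually.of_forall hFb
    · refine Asymptotics.IsBigO.of_bound (q : ℝ) ?_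
      refine Filter.Eventually.of_forall ?_
      intro t
      simpa using hFb t
    · simp [hz]
    · refine Asymptotics.IsBigO.of_bound 0 ?_
      have : Set.Iio (1 : ℝ) ∈ nhdsWithin (0 : ℝ) (Set.Ioi 0) :=
        mem_nhdsWithin_of_mem_nhds (Iio_mem_nhds one_pos)
      filter_upwards [this] with t ht
      rw [hF, Set.indicator_of_notMem (by
        simp only [Set.mem_Ioi, not_lt]
        exact (Set.mem_Iio.1 ht).le)]
      simp
    · simp
  set H : ℂ → ℂ := fun z => z * mellin F (-z) with hH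
  have hHdiff : DifferentiableOn ℂ H {z : ℂ | 0 < z.re} := by
    intro z hz
    refine DifferentiableAt.differentiableWithinAt ?_
    refine differentiableAt_id.mul ?_
    exact (hdiff z hz).comp z differentiableAt_id.neg
  have hopen : IsOpen {z : ℂ | 0 < z.re} := isOpen_lt continuous_const Complex.continuous_re
  have hEq : Set.EqOn (χ.LFunction) H {z : ℂ | 0 < z.re} := by
    refine AnalyticOnNhd.eqOn_of_preconnected_of_eventuallyEq
      ((DirichletCharacter.differentiable_LFunction hχ).differentiableOn.analyticOnNhd hopen)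
      (hHdiff.analyticOnNhd hopen) ?_ (z₀ := 2) (by simp) ?_
    · exact (convex_halfSpace_re_gt 0).isPreconnected
    · have hn : {z : ℂ | 1 < z.re} ∈ nhds (2 : ℂ) :=
        (isOpen_lt continuous_const Complex.continuous_re).mem_nhds (by simp)
      filter_upwards [hn] with z hz
      rw [DirichletCharacter.LFunction_eq_LSeries χ hz]
      rw [LSeries_eq_mul_integral (fun n => χ (n : ZMod q)) (le_refl (0 : ℝ))
        (by linarith [show (1 : ℝ) < z.re from hz])
        (DirichletCharacter.LSeriesSummable_of_one_lt_re χ hz)]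
      · rw [hH]
        simp only
        rw [hmel]
      · refine Asymptotics.IsBigO.of_bound (q : ℝ) ?_
        refine Filter.Eventually.of_forall ?_
        intro n
        simpa using lfb_sum q χ hχ n
  have hs0 : 0 < s.re := by linarith
  rw [hEq hs0, hH]
  simp only
  rw [norm_mul, hmel]
  have hint : ‖∫ t in Set.Ioi (1 : ℝ), S t * (t : ℂ) ^ (-(s + 1))‖ ≤ 2 * q := by
    have hg : MeasureTheory.IntegrableOn (fun t : ℝ => (q : ℝ) * t ^ (-(3 / 2) : ℝ)) (Set.Ioi 1) :=
      (integrableOn_Ioi_rpow_of_lt (by norm_num) one_pos).const_mul _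
    have h1 := MeasureTheory.norm_integral_le_of_norm_le (f := fun t : ℝ => S t * (t : ℂ) ^ (-(s + 1)))
      (g := fun t : ℝ => (q : ℝ) * t ^ (-(3 / 2) : ℝ)) (μ := MeasureTheory.volume.restrict (Set.Ioi 1)) hg ?_
    · refine h1.trans (le_of_eq ?_)
      rw [MeasureTheory.integral_const_mul, integral_Ioi_rpow_of_lt (by norm_num) one_pos]
      norm_num
      ring
    · refine (MeasureTheory.ae_restrict_mem measurableSet_Ioi).mono ?_
      intro t ht
      have ht1 : (1 : ℝ) < t := ht
      have ht0 : (0 : ℝ) < t := by linarith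
      rw [norm_mul, Complex.norm_cpow_eq_rpow_re_of_pos ht0]
      refine mul_le_mul (hSb t) ?_ (by positivity) (by positivity)
      refine Real.rpow_le_rpow_of_exponent_le ht1.le ?_
      simp
      linarith
  calc ‖s‖ * ‖∫ t in Set.Ioi (1 : ℝ), S t * (t : ℂ) ^ (-(s + 1))‖ ≤ 4 * (2 * q) :=
        mul_le_mul hs4 hint (norm_nonneg _) (by norm_num)
    _ = 8 * q := by ring

end Pool.MP_dd84fd_nt.SW
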