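import Pool.Agent.Lib.MP_dd84fd_nt.SW.Defs

set_option autoImplicit false

namespace Pool.MP_dd84fd_nt.SW

open Finset

section coeffpart

open scoped ComplexOrder

/-- The arithmetic function of a character. -/
private noncomputable def cfA {N : ℕ} (χ : DirichletCharacter ℂ N) : ArithmeticFunction ℂ :=
  toArithmeticFunction (χ ·)

private theorem cfA_pow {N : ℕ} (χ : DirichletCharacter ℂ N) {p : ℕ} (hp : p.Prime) (k : ℕ) :
    cfA χ (p ^ k) = χ p ^ k := by
  have h : p ^ k ≠ 0 := pow_ne_zero _ hp.ne_zero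
  show (if p ^ k = 0 then (0 : ℂ) else χ ((p ^ k : ℕ) : ZMod N)) = _
  rw [if_neg h, Nat.cast_pow, map_pow]

private theorem cfA_mul_pow {N : ℕ} (u v : DirichletCharacter ℂ N) {p : ℕ} (hp : p.Prime) (k : ℕ) :
    (cfA u * cfA v) (p ^ k) = ∑ i ∈ range (k + 1), u p ^ i * v p ^ (k - i) := by
  rw [ArithmeticFunction.mul_apply, Nat.sum_divisorsAntidiagonal
    (f := fun a b => cfA u a * cfA v b), Nat.sum_divisors_prime_pow hp]
  refine Finset.sum_congr rfl fun i hi => ?_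
  have hik : i ≤ k := Nat.lt_succ_iff.1 (Finset.mem_range.1 hi)
  rw [Nat.pow_div hik hp.pos, cfA_pow u hp, cfA_pow v hp]

private theorem cf_geom {z : ℂ} (hz : z = 0 ∨ z = 1 ∨ z = -1) (k : ℕ) :
    0 ≤ ∑ i ∈ range (k + 1), z ^ i := by
  rcases hz with h | h | h
  · refine Finset.sum_nonneg fun i _ => ?_
    simp only [h, le_refl, pow_nonneg]
  · refine Finset.sum_nonneg fun i _ => ?_
    simp only [h, one_pow, zero_le_one]
  · simp only [h, neg_one_geom_sum]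
    split_ifs
    exacts [le_rfl, zero_le_one]

private theorem cf_geom1 {z : ℂ} (hz : z = 0 ∨ z = 1 ∨ z = -1) (k : ℕ) :
    0 ≤ ∑ i ∈ range (k + 1), z ^ i * (1 : ℂ) ^ (k - i) := by
  have h := cf_geom hz k
  simpa using h

private theorem cf_geom2 {z : ℂ} (hz : z = 0 ∨ z = 1 ∨ z = -1) (k : ℕ) :
    0 ≤ ∑ i ∈ range (k + 1), (1 : ℂ) ^ i * z ^ (k - i) := by
  have h := cf_geom hz k
  rw [← Finset.sum_range_reflect] at h
  simpa using h

private theorem cf_geom0 (k : ℕ) :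
    0 ≤ ∑ i ∈ range (k + 1), (0 : ℂ) ^ i * (0 : ℂ) ^ (k - i) := by
  refine Finset.sum_nonneg fun i _ => ?_
  exact mul_nonneg (pow_nonneg le_rfl _) (pow_nonneg le_rfl _)

private theorem cf_mulnn (f g : ArithmeticFunction ℂ) {p : ℕ} (hp : p.Prime)
    (hf : ∀ k, 0 ≤ f (p ^ k)) (hg : ∀ k, 0 ≤ g (p ^ k)) (k : ℕ) : 0 ≤ (f * g) (p ^ k) := by
  rw [ArithmeticFunction.mul_apply, Nat.sum_divisorsAntidiagonal
    (f := fun a b => f a * g b), Nat.sum_divisors_prime_pow hp]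
  refine Finset.sum_nonneg fun i hi => ?_
  have hik : i ≤ k := Nat.lt_succ_iff.1 (Finset.mem_range.1 hi)
  rw [Nat.pow_div hik hp.pos]
  exact mul_nonneg (hf _) (hg _)

private theorem cf_prime_pow {N : ℕ} (χ₁ χ₂ : DirichletCharacter ℂ N) (h1 : χ₁ ^ 2 = 1)
    (h2 : χ₂ ^ 2 = 1) {p : ℕ} (hp : p.Prime) (k : ℕ) :
    0 ≤ (χ₁.zetaMul * (cfA χ₂ * cfA (χ₁ * χ₂))) (p ^ k) := by
  have hx := MulChar.isQuadratic_iff_sq_eq_one.mpr h1 p
  have hy := MulChar.isQuadratic_iff_sq_eq_one.mpr h2 p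
  have hxy : (χ₁ * χ₂) (p : ZMod N) = χ₁ p * χ₂ p := MulChar.mul_apply _ _ _
  -- the second grouping
  have hgr : χ₁.zetaMul * (cfA χ₂ * cfA (χ₁ * χ₂)) = χ₂.zetaMul * (cfA χ₁ * cfA (χ₁ * χ₂)) := by
    show ((ArithmeticFunction.zeta : ArithmeticFunction ℂ) * cfA χ₁) * (cfA χ₂ * cfA (χ₁ * χ₂)) =
      ((ArithmeticFunction.zeta : ArithmeticFunction ℂ) * cfA χ₂) * (cfA χ₁ * cfA (χ₁ * χ₂))
    ring
  have first : (∀ k, 0 ≤ (cfA χ₂ * cfA (χ₁ * χ₂)) (p ^ k)) →
      0 ≤ (χ₁.zetaMul * (cfA χ₂ * cfA (χ₁ * χ₂))) (p ^ k) := fun h =>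
    cf_mulnn _ _ hp (fun j => DirichletCharacter.zetaMul_prime_pow_nonneg h1 hp j) h k
  have second : (∀ k, 0 ≤ (cfA χ₁ * cfA (χ₁ * χ₂)) (p ^ k)) →
      0 ≤ (χ₁.zetaMul * (cfA χ₂ * cfA (χ₁ * χ₂))) (p ^ k) := fun h => by
    rw [hgr]
    exact cf_mulnn _ _ hp (fun j => DirichletCharacter.zetaMul_prime_pow_nonneg h2 hp j) h k
  rcases hy with hy0 | hy1 | hy2
  · refine first fun j => ?_
    rw [cfA_mul_pow _ _ hp, hxy, hy0, mul_zero]
    exact cf_geom0 j
  · refine first fun j => ?_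
    rw [cfA_mul_pow _ _ hp, hxy, hy1, mul_one]
    exact cf_geom2 hx j
  · rcases hx with hx0 | hx1 | hx2
    · refine second fun j => ?_
      rw [cfA_mul_pow _ _ hp, hxy, hx0, zero_mul]
      exact cf_geom0 j
    · refine second fun j => ?_
      rw [cfA_mul_pow _ _ hp, hxy, hx1, one_mul]
      exact cf_geom2 (Or.inr (Or.inr hy2)) j
    · refine first fun j => ?_
      rw [cfA_mul_pow _ _ hp, hxy, hx2, hy2, show ((-1 : ℂ) * -1) = 1 by norm_num]
      exact cf_geom1 (Or.inr (Or.inr rfl)) j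

private theorem cfA_summable {N : ℕ} (χ : DirichletCharacter ℂ N) {s : ℂ} (hs : 1 < s.re) :
    LSeriesSummable (fun n => cfA χ n) s := by
  refine LSeriesSummable_of_bounded_of_one_lt_re (m := 1) (fun n hn => ?_) hs
  have h : cfA χ n = χ n := by
    show (if n = 0 then (0 : ℂ) else χ (n : ZMod N)) = _
    rw [if_neg hn]
  rw [h]
  exact DirichletCharacter.norm_le_one χ _

private theorem cfA_LSeries {N : ℕ} [NeZero N] (χ : DirichletCharacter ℂ N) {s : ℂ}
    (hs : 1 < s.re) : LSeries (fun n => cfA χ n) s = χ.LFunction s := by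
  rw [DirichletCharacter.LFunction_eq_LSeries χ hs]
  refine LSeries_congr (fun {n} hn => ?_) s
  show (if n = 0 then (0 : ℂ) else χ (n : ZMod N)) = _
  rw [if_neg hn]

theorem coeff (N : ℕ) [NeZero N] (χ₁ χ₂ : DirichletCharacter ℂ N) (h1 : χ₁ ^ 2 = 1)
    (h2 : χ₂ ^ 2 = 1) : ∃ f : ℕ → ℝ, (∀ n, 0 ≤ f n) ∧ f 1 = 1 ∧ ∀ s : ℂ, 1 < s.re →
      LSeriesSummable (fun n => (f n : ℂ)) s ∧ LSeries (fun n => (f n : ℂ)) s =
        riemannZeta s * χ₁.LFunction s * χ₂.LFunction s * (χ₁ * χ₂).LFunction s := by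
  set F : ArithmeticFunction ℂ := χ₁.zetaMul * (cfA χ₂ * cfA (χ₁ * χ₂)) with hF
  have hmA : ∀ χ : DirichletCharacter ℂ N, (cfA χ).IsMultiplicative := fun χ =>
    DirichletCharacter.isMultiplicative_toArithmeticFunction χ
  have hm : F.IsMultiplicative :=
    χ₁.isMultiplicative_zetaMul.mul ((hmA χ₂).mul (hmA (χ₁ * χ₂)))
  have hnn : ∀ n, 0 ≤ F n := by
    intro n
    rcases eq_or_ne n 0 with rfl | hn
    · simp only [ArithmeticFunction.map_zero, le_refl]
    · rw [hm.multiplicative_factorization _ hn]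
      exact Finset.prod_nonneg fun p hp =>
        cf_prime_pow χ₁ χ₂ h1 h2 (Nat.prime_of_mem_primeFactors hp) _
  have hre : ∀ n, (((F n).re : ℝ) : ℂ) = F n := by
    intro n
    have h3 := (Complex.nonneg_iff.1 (hnn n)).2
    exact Complex.ext (by simp) (by simpa using h3)
  refine ⟨fun n => (F n).re, fun n => (Complex.nonneg_iff.1 (hnn n)).1, ?_, ?_⟩
  · show (F 1).re = 1
    rw [hm.map_one, Complex.one_re]
  · intro s hs
    have e : (fun n => (((F n).re : ℝ) : ℂ)) = fun n => F n := funext hre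
    rw [e]
    have s1 : LSeriesSummable (fun n => χ₁.zetaMul n) s := χ₁.LSeriesSummable_zetaMul hs
    have s2 : LSeriesSummable (fun n => (cfA χ₂ * cfA (χ₁ * χ₂)) n) s :=
      ArithmeticFunction.LSeriesSummable_mul (cfA_summable _ hs) (cfA_summable _ hs)
    refine ⟨ArithmeticFunction.LSeriesSummable_mul s1 s2, ?_⟩
    have e1 : LSeries (fun n => F n) s = LSeries (fun n => χ₁.zetaMul n) s *
        LSeries (fun n => (cfA χ₂ * cfA (χ₁ * χ₂)) n) s := ArithmeticFunction.LSeries_mul' s1 s2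
    have e2 : LSeries (fun n => (cfA χ₂ * cfA (χ₁ * χ₂)) n) s =
        LSeries (fun n => cfA χ₂ n) s * LSeries (fun n => cfA (χ₁ * χ₂) n) s :=
      ArithmeticFunction.LSeries_mul' (cfA_summable _ hs) (cfA_summable _ hs)
    have e3 : LSeries (fun n => χ₁.zetaMul n) s = riemannZeta s * χ₁.LFunction s := by
      have h4 : LSeries (fun n => χ₁.zetaMul n) s =
          LSeries (fun n => (ArithmeticFunction.zeta : ArithmeticFunction ℂ) n) s *
            LSeries (fun n => cfA χ₁ n) s :=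
        ArithmeticFunction.LSeries_mul'
          (ArithmeticFunction.LSeriesSummable_zeta_iff.mpr hs) (cfA_summable _ hs)
      rw [h4, cfA_LSeries _ hs]
      congr 1
      exact ArithmeticFunction.LSeries_zeta_eq_riemannZeta hs
    rw [e1, e2, e3, cfA_LSeries _ hs, cfA_LSeries _ hs]
    ring

end coeffpart

end Pool.MP_dd84fd_nt.SW
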