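import Mathlib

/-!
# The Siegel-Walfisz theorem: definitions
-/

set_option autoImplicit false

namespace Pool.MP_dd84fd_nt.SW

open Finset

/-- `χ(n) (log n)^j` -/
noncomputable def ej {q : ℕ} (χ : DirichletCharacter ℂ q) (j n : ℕ) : ℂ :=
  χ n * (Real.log n : ℂ) ^ j

/-- `μ(n) χ(n) (log n)^k` -/
noncomputable def ak {q : ℕ} (χ : DirichletCharacter ℂ q) (k n : ℕ) : ℂ :=
  ((ArithmeticFunction.moebius n : ℤ) : ℂ) * χ n * (Real.log n : ℂ) ^ k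

/-- `log (q (|t| + 3))` -/
noncomputable def ell (q : ℕ) (t : ℝ) : ℝ := Real.log (q * (|t| + 3))

/-- The Gaussian average `∑ a(n) (log n)^k n^(-σ) exp (-T² log² (n/x) / 2)`. -/
noncomputable def Dk (a : ℕ → ℂ) (k : ℕ) (σ T x : ℝ) : ℂ :=
  ∑' n : ℕ, a n * (Real.log n : ℂ) ^ k *
    (((n : ℝ) ^ (-σ) * Real.exp (-(T ^ 2 * Real.log (n / x) ^ 2 / 2)) : ℝ) : ℂ)

end Pool.MP_dd84fd_nt.SW
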