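import Pool.Agent.Lib.MP_dd84fd_nt.SW.Defs
import Pool.Agent.Lib.MP_dd84fd_nt.SW.SumTools

set_option autoImplicit false

namespace Pool.MP_dd84fd_nt.SW

open Finset

theorem Ej_bound (j : ℕ) : ∃ C : ℝ, 0 < C ∧ ∀ (q : ℕ) (χ : DirichletCharacter ℂ q) (s : ℂ),
    1 ≤ q → χ ≠ 1 → 1 < s.re → s.re ≤ 2 → ‖LSeries (ej χ j) s‖ ≤ C * ell q s.im ^ (j + 1) := by
  obtain ⟨D, hD⟩ : ∃ D : ℝ, D = 1 + 2 * ((j + 1) * (8 * (2 * j + 1) ^ j)) := ⟨_, rfl⟩
  have hD0 : 0 ≤ D := by rw [hD]; positivity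
  refine ⟨2 ^ j * (3 + D), by positivity, fun q χ s hq hχ hs hs2 => ?_⟩
  have hN3 := NN_three hq s.im
  have hN3' : (3 : ℝ) ≤ NN q s.im := by exact_mod_cast hN3
  have hL0 : 0 ≤ Real.log (NN q s.im) := Real.log_nonneg (by linarith)
  have hfin := SumTools_final j (ell_ge_one hq s.im) hL0 (NN_log hq s.im) hD0
  refine (LSeries_le χ j s (M := Real.log (NN q s.im) ^ j * (1 + Real.log (NN q s.im)) +
    D * Real.log (NN q s.im) ^ j) (E := fun _ => 0) (by positivity) tendsto_const_nhds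
    (N := NN q s.im) ?_).trans hfin
  intro K hK
  rw [← Finset.sum_Ico_consecutive _ (by omega : 1 ≤ NN q s.im) hK, add_zero]
  refine (norm_add_le _ _).trans (add_le_add ?_ ?_)
  · exact head_bound j hs.le (b := fun n => χ (n : ZMod q))
      (fun n => DirichletCharacter.norm_le_one χ _) hN3
  · have h1 := tail_bound j hs.le hN3 hK (b := fun n => χ (n : ZMod q)) (B := q)
      (fun n hn => char_sum_bound hq χ hχ hn)
    refine h1.trans ?_
    have h2 := SumTools_rem j hq (s := s) (by linarith) hs2 hL0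
    have h3 := NN_s hq (s := s) (by linarith) hs2
    have h4 : (q : ℝ) * (Real.log (NN q s.im) ^ j / NN q s.im) ≤ Real.log (NN q s.im) ^ j := by
      have h5 : (q : ℝ) / NN q s.im ≤ 1 := by
        refine le_trans ?_ h3
        refine div_le_div_of_nonneg_right ?_ (by linarith)
        have : 0 ≤ (q : ℝ) * ‖s‖ := by positivity
        linarith
      calc (q : ℝ) * (Real.log (NN q s.im) ^ j / NN q s.im) =
          Real.log (NN q s.im) ^ j * ((q : ℝ) / NN q s.im) := by ring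
        _ ≤ Real.log (NN q s.im) ^ j * 1 := mul_le_mul_of_nonneg_left h5 (by positivity)
        _ = _ := mul_one _
    rw [hD]
    linarith

end Pool.MP_dd84fd_nt.SW
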