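import Pool.Agent.Lib.MP_dd84fd_nt.SW.LFBound
import Pool.Agent.Lib.MP_dd84fd_nt.SW.Coeff

set_option autoImplicit false

namespace Pool.MP_dd84fd_nt.SW

open Finset Filter Topology

open scoped ComplexOrder

/-- `(s - 1) ζ(s)`, with value `1` at `1` -/
private noncomputable def zz : ℂ → ℂ := Function.update (fun s => (s - 1) * riemannZeta s) 1 1

private theorem zz_diff : Differentiable ℂ zz := by
  rw [← differentiableOn_univ,
    ← Complex.differentiableOn_compl_singleton_and_continuousAt_iff (c := 1) Filter.univ_mem]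
  refine ⟨DifferentiableOn.congr (f := fun s ↦ (s - 1) * riemannZeta s) (fun s hs ↦ ?_)
    fun _ hs ↦ Function.update_of_ne (Set.mem_sdiff_singleton.mp hs).2 ..,
    continuousWithinAt_compl_self.mp ?_⟩
  · have hs1 : s ≠ 1 := (Set.mem_sdiff_singleton.mp hs).2
    exact ((differentiableAt_id.sub_const 1).mul
      (differentiableAt_riemannZeta hs1)).differentiableWithinAt
  · have h := riemannZeta_residue_one
    rw [zz, continuousWithinAt_update_same]
    exact h.mono_left (nhdsWithin_mono _ (by intro x hx; simpa using hx))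

private theorem zeta_circle : ∃ B : ℝ, 1 ≤ B ∧ ∀ s : ℂ, ‖s - 2‖ = 3 / 2 → ‖riemannZeta s‖ ≤ B := by
  have hc : IsCompact (Metric.sphere (2 : ℂ) (3 / 2)) := isCompact_sphere _ _
  have hcont : ContinuousOn (fun s : ℂ => ‖riemannZeta s‖) (Metric.sphere (2 : ℂ) (3 / 2)) := by
    intro s hs
    have hs1 : s ≠ 1 := by
      rintro rfl
      rw [mem_sphere_iff_norm] at hs
      norm_num at hs
    exact (differentiableAt_riemannZeta hs1).continuousAt.norm.continuousWithinAt
  obtain ⟨B, hB⟩ := hc.bddAbove_image hcont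
  refine ⟨max B 1, le_max_right _ _, fun s hs => le_trans (hB ⟨s, ?_, rfl⟩) (le_max_left _ _)⟩
  rw [mem_sphere_iff_norm]
  exact hs

private theorem taylor_arg (P : ℂ → ℂ) (hP : Differentiable ℂ P) (f : ℕ → ℝ) (hf : ∀ n, 0 ≤ f n)
    (hf1 : f 1 = 1) (hL : ∀ s : ℂ, 1 < s.re → LSeriesSummable (fun n => (f n : ℂ)) s ∧
      LSeries (fun n => (f n : ℂ)) s = riemannZeta s * P s) (K : ℝ)
    (hK : ∀ s : ℂ, ‖s - 2‖ = 3 / 2 → ‖riemannZeta s * P s‖ ≤ K) (hK1 : ‖P 1‖ ≤ K)
    (β : ℝ) (hβ : 7 / 8 < β) (hβ1 : β < 1) (hneg : (riemannZeta β * P β).re ≤ 0) (M : ℕ)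
    (hM1 : 1 ≤ M) (hM : 12 * K * (3 / 4) ^ M ≤ 1 / 2) :
    (1 - β) / 2 ≤ (P 1).re * (2 - β) ^ M := by
  have hK0 : 0 ≤ K := le_trans (norm_nonneg _) hK1
  set lam : ℂ := P 1 with hlam
  set F0 : ℂ → ℂ := fun s => zz s * P s with hF0
  have hF0d : Differentiable ℂ F0 := zz_diff.mul hP
  set G : ℂ → ℂ := dslope F0 1 with hG
  have hGd : Differentiable ℂ G := by
    rw [← differentiableOn_univ]
    exact (Complex.differentiableOn_dslope Filter.univ_mem).mpr hF0d.differentiableOn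
  have hGv : ∀ s : ℂ, s ≠ 1 → G s = riemannZeta s * P s - lam * (s - 1)⁻¹ := by
    intro s hs
    have h1 : s - 1 ≠ 0 := sub_ne_zero.mpr hs
    rw [hG, dslope_of_ne _ hs, slope_def_field, hF0]
    simp only [zz, Function.update_self, Function.update_of_ne hs, one_mul]
    rw [← hlam]
    field_simp
  have hGK : ∀ s ∈ Metric.sphere (2 : ℂ) (3 / 2), ‖G s‖ ≤ 3 * K := by
    intro s hs
    rw [mem_sphere_iff_norm] at hs
    have hs1 : s ≠ 1 := by
      rintro rfl
      norm_num at hs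
    have h2 : (1 : ℝ) / 2 ≤ ‖s - 1‖ := by
      have h3 : ‖s - 2‖ ≤ ‖s - 1‖ + 1 := by
        have := norm_sub_le (s - 1) (1 : ℂ)
        have e : s - 1 - 1 = s - 2 := by ring
        rw [e] at this
        simpa using this
      linarith
    rw [hGv s hs1]
    calc ‖riemannZeta s * P s - lam * (s - 1)⁻¹‖ ≤ ‖riemannZeta s * P s‖ + ‖lam * (s - 1)⁻¹‖ :=
          norm_sub_le _ _
      _ ≤ K + K * 2 := by
          refine add_le_add (hK s hs) ?_
          rw [norm_mul, norm_inv]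
          refine mul_le_mul hK1 ?_ (by positivity) hK0
          rw [inv_le_comm₀ (by linarith) (by norm_num)]
          linarith
      _ = 3 * K := by ring
  have hcK : ∀ m : ℕ, ‖iteratedDeriv m G 2‖ ≤ m.factorial * (3 * K) / (3 / 2) ^ m := fun m =>
    Complex.norm_iteratedDeriv_le_of_forall_mem_sphere_norm_le m (by norm_num)
      hGd.diffContOnCl hGK
  set g : ℕ → ℂ := fun n => (f n : ℂ) with hg
  have hg0 : (0 : ℕ → ℂ) ≤ g := by
    intro n
    simp only [hg, Pi.zero_apply]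
    exact_mod_cast hf n
  have habs : LSeries.abscissaOfAbsConv g < ((2 : ℝ) : EReal) := by
    have h1 : LSeries.abscissaOfAbsConv g ≤ ((3 / 2 : ℝ) : EReal) := by
      have := (hL ((3 / 2 : ℝ) : ℂ) (by norm_num)).1.abscissaOfAbsConv_le
      simpa only [Complex.ofReal_re] using this
    refine lt_of_le_of_lt h1 ?_
    exact_mod_cast (by norm_num : (3 / 2 : ℝ) < 2)
  have hcv : ∀ m : ℕ, iteratedDeriv m G 2 =
      iteratedDeriv m (LSeries g) 2 - lam * ((-1) ^ m * m.factorial) := by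
    intro m
    have hev : G =ᶠ[𝓝 (2 : ℂ)] fun s => LSeries g s - lam * (fun z : ℂ => z⁻¹) (s - 1) := by
      have hopen : IsOpen {s : ℂ | 1 < s.re} := isOpen_lt continuous_const Complex.continuous_re
      filter_upwards [hopen.mem_nhds (by simp : (2 : ℂ) ∈ {s : ℂ | 1 < s.re})] with s hs
      have hs' : 1 < s.re := hs
      have hs1 : s ≠ 1 := by
        rintro rfl
        simp at hs'
      rw [hGv s hs1, (hL s hs').2]
    rw [hev.iteratedDeriv_eq]
    have hd1 : ContDiffAt ℂ m (LSeries g) 2 := by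
      have : AnalyticAt ℂ (LSeries g) 2 := by
        apply LSeries_analyticOnNhd g
        simpa using habs
      exact this.contDiffAt
    have hd2 : ContDiffAt ℂ m (fun s : ℂ => lam * (fun z : ℂ => z⁻¹) (s - 1)) 2 := by
      refine contDiffAt_const.mul ?_
      simp only
      refine ContDiffAt.inv (by fun_prop) (by norm_num)
    have hsub := iteratedDeriv_sub hd1 hd2
    have e1 : (fun s => LSeries g s - lam * (fun z : ℂ => z⁻¹) (s - 1)) =
        LSeries g - (fun s : ℂ => lam * (fun z : ℂ => z⁻¹) (s - 1)) := rfl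
    rw [e1, hsub, iteratedDeriv_const_mul_field, iteratedDeriv_comp_sub_const]
    have h3 : iteratedDeriv m (Inv.inv : ℂ → ℂ) (2 - 1) = (-1) ^ m * m.factorial := by
      have h4 := iter_deriv_inv (𝕜 := ℂ) m (2 - 1)
      rw [← iteratedDeriv_eq_iterate] at h4
      rw [h4]
      norm_num
    exact congrArg (fun z => iteratedDeriv m (LSeries g) 2 - lam * z) h3
  have hpos : ∀ m : ℕ, 0 ≤ (-1) ^ m * iteratedDeriv m (LSeries g) 2 := by
    intro m
    have := LSeries.iteratedDeriv_alternating hg0 habs m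
    simpa using this
  have hb0 : 1 ≤ (LSeries g 2).re := by
    have hsum : Summable (fun n => LSeries.term g 2 n) := (hL 2 (by norm_num)).1
    have hre : (LSeries g 2).re = ∑' n, (LSeries.term g 2 n).re := by
      rw [LSeries, Complex.re_tsum hsum]
    rw [hre]
    have h1 : (LSeries.term g 2 1).re = 1 := by
      rw [LSeries.term_of_ne_zero one_ne_zero]
      simp [hg, hf1]
    rw [← h1]
    refine (Complex.hasSum_re hsum.hasSum).summable.le_tsum 1 fun n _ => ?_
    have h0 := LSeries.term_nonneg (hg0 n) (2 : ℝ)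
    have h0' := (Complex.le_def.mp h0).1
    simpa using h0'
  have hsum := Complex.hasSum_taylorSeries_of_entire hGd 2 (β : ℂ)
  set r : ℕ → ℝ := fun m => (((m.factorial : ℂ))⁻¹ • ((β : ℂ) - 2) ^ m •
    iteratedDeriv m G 2).re with hr
  have hsumr : HasSum r (G β).re := Complex.hasSum_re hsum
  have hrv : ∀ m, r m = (2 - β) ^ m * ((((-1 : ℂ) ^ m * iteratedDeriv m (LSeries g) 2).re) /
      m.factorial - lam.re) := by
    intro m
    have hm0 : (m.factorial : ℝ) ≠ 0 := by positivity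
    have hm0' : (m.factorial : ℂ) ≠ 0 := by exact_mod_cast Nat.factorial_ne_zero m
    simp only [hr]
    rw [hcv m]
    have e1 : ((β : ℂ) - 2) ^ m = (-1) ^ m * ((2 - β : ℝ) : ℂ) ^ m := by
      rw [← mul_pow]
      push_cast
      ring
    have e2 : (-1 : ℂ) ^ m * (-1) ^ m = 1 := by
      rw [← mul_pow]
      norm_num
    have e3 : ((m.factorial : ℂ))⁻¹ • ((β : ℂ) - 2) ^ m •
        (iteratedDeriv m (LSeries g) 2 - lam * ((-1) ^ m * m.factorial)) =
        (((2 - β) ^ m / m.factorial : ℝ) : ℂ) * ((-1) ^ m * iteratedDeriv m (LSeries g) 2) -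
        (((2 - β) ^ m : ℝ) : ℂ) * lam := by
      rw [e1, smul_eq_mul, smul_eq_mul, Complex.ofReal_div, Complex.ofReal_pow,
        Complex.ofReal_natCast]
      field_simp
      linear_combination (-((2 - β : ℝ) : ℂ) ^ m * lam * (m.factorial : ℂ)) * e2
    rw [e3, Complex.sub_re, Complex.re_ofReal_mul, Complex.re_ofReal_mul]
    ring
  have h2β : 1 < 2 - β := by linarith
  have h2β0 : 0 < 2 - β := by linarith
  have hr1 : ∀ m, -(lam.re * (2 - β) ^ m) ≤ r m := by
    intro m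
    rw [hrv m]
    have h1 : 0 ≤ ((-1 : ℂ) ^ m * iteratedDeriv m (LSeries g) 2).re / m.factorial :=
      div_nonneg (Complex.le_def.mp (hpos m)).1 (by positivity)
    have h2 : 0 ≤ (2 - β) ^ m := by positivity
    nlinarith only [h1, h2, mul_nonneg h2 h1]
  have hr0 : 1 - lam.re * (2 - β) ^ 0 ≤ r 0 := by
    rw [hrv 0]
    simp only [pow_zero, one_mul, iteratedDeriv_zero, Nat.factorial_zero, Nat.cast_one, div_one,
      mul_one]
    linarith
  have hr2 : ∀ m, -(3 * K * (3 / 4) ^ m) ≤ r m := by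
    intro m
    have hm0 : (0 : ℝ) < m.factorial := by positivity
    have h1 : |r m| ≤ 3 * K * (3 / 4) ^ m := by
      simp only [hr]
      refine (Complex.abs_re_le_norm _).trans ?_
      rw [norm_smul, norm_smul, norm_inv, norm_pow]
      have h3 : ‖(β : ℂ) - 2‖ = 2 - β := by
        have : (β : ℂ) - 2 = ((β - 2 : ℝ) : ℂ) := by push_cast; ring
        rw [this, Complex.norm_real, Real.norm_eq_abs, abs_of_neg (by linarith)]
        ring
      rw [h3]
      have h4 : ‖(m.factorial : ℂ)‖ = m.factorial := by simp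
      rw [h4]
      calc ((m.factorial : ℝ))⁻¹ * ((2 - β) ^ m * ‖iteratedDeriv m G 2‖)
          ≤ ((m.factorial : ℝ))⁻¹ * ((9 / 8) ^ m * (m.factorial * (3 * K) / (3 / 2) ^ m)) := by
            gcongr
            · linarith
            · exact hcK m
        _ = 3 * K * ((9 / 8) ^ m / (3 / 2) ^ m) := by
            field_simp
        _ = 3 * K * (3 / 4) ^ m := by
            rw [← div_pow]
            norm_num
    exact neg_le_of_abs_le h1
  have hGβ : (G β).re = (riemannZeta β * P β).re + lam.re / (1 - β) := by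
    have hβne : (β : ℂ) ≠ 1 := by
      intro h
      have : β = 1 := by exact_mod_cast h
      linarith
    rw [hGv β hβne, Complex.sub_re]
    have e : ((β : ℂ) - 1)⁻¹ = (((β - 1)⁻¹ : ℝ) : ℂ) := by push_cast; ring
    rw [e, mul_comm lam, Complex.re_ofReal_mul]
    have hb : β - 1 ≠ 0 := by linarith
    have hb' : 1 - β ≠ 0 := by linarith
    have : (β - 1)⁻¹ = -(1 - β)⁻¹ := by
      rw [← neg_sub 1 β, inv_neg]
    rw [this]
    ring
  -- split the sum
  have hsplit : (∑ m ∈ range M, r m) + ∑' m, r (m + M) = (G β).re := by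
    rw [hsumr.summable.sum_add_tsum_nat_add M, hsumr.tsum_eq]
  have htail : -(12 * K * (3 / 4) ^ M) ≤ ∑' m, r (m + M) := by
    have hgeo : HasSum (fun m : ℕ => -(3 * K * (3 / 4) ^ M * (3 / 4) ^ m))
        (-(3 * K * (3 / 4) ^ M * (1 - 3 / 4)⁻¹)) :=
      ((hasSum_geometric_of_lt_one (by norm_num) (by norm_num)).mul_left _).neg
    have hs2 : Summable (fun m => r (m + M)) := (summable_nat_add_iff M).mpr hsumr.summable
    have h1 : -(3 * K * (3 / 4) ^ M * (1 - 3 / 4)⁻¹) ≤ ∑' m, r (m + M) := by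
      rw [← hgeo.tsum_eq]
      refine hgeo.summable.tsum_le_tsum (fun m => ?_) hs2
      have := hr2 (m + M)
      rw [pow_add] at this
      calc -(3 * K * (3 / 4) ^ M * (3 / 4) ^ m) = -(3 * K * ((3 / 4) ^ m * (3 / 4) ^ M)) := by ring
        _ ≤ r (m + M) := this
    have h2 : (1 - 3 / 4 : ℝ)⁻¹ = 4 := by norm_num
    rw [h2] at h1
    linarith only [h1]
  have hhead : 1 - lam.re * (((2 - β) ^ M - 1) / (1 - β)) ≤ ∑ m ∈ range M, r m := by
    obtain ⟨M', rfl⟩ : ∃ M', M = M' + 1 := ⟨M - 1, by omega⟩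
    have hgs : ∑ m ∈ range (M' + 1), (2 - β) ^ m = ((2 - β) ^ (M' + 1) - 1) / (1 - β) := by
      rw [geom_sum_eq (by linarith)]
      congr 1
      ring
    rw [← hgs, Finset.sum_range_succ', Finset.sum_range_succ', mul_add, Finset.mul_sum]
    have h1 : ∑ m ∈ range M', -(lam.re * (2 - β) ^ (m + 1)) ≤ ∑ m ∈ range M', r (m + 1) :=
      Finset.sum_le_sum fun m _ => hr1 (m + 1)
    rw [Finset.sum_neg_distrib] at h1
    linarith
  have hfin : 1 - lam.re * (((2 - β) ^ M - 1) / (1 - β)) - 1 / 2 ≤ lam.re / (1 - β) := by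
    have h1 : (G β).re ≤ lam.re / (1 - β) := by rw [hGβ]; linarith
    linarith
  have h1β : 0 < 1 - β := by linarith
  have h3 : 1 / 2 ≤ lam.re * (2 - β) ^ M / (1 - β) := by
    have : lam.re * (2 - β) ^ M / (1 - β) =
        lam.re * (((2 - β) ^ M - 1) / (1 - β)) + lam.re / (1 - β) := by
      field_simp
      ring
    rw [this]
    linarith
  rw [le_div_iff₀ h1β] at h3
  linarith

theorem estermann : ∃ C : ℝ, 1 ≤ C ∧ ∀ (N : ℕ) [NeZero N] (χ₁ χ₂ : DirichletCharacter ℂ N),
    χ₁ ^ 2 = 1 → χ₂ ^ 2 = 1 → χ₁ ≠ 1 → χ₂ ≠ 1 → χ₁ * χ₂ ≠ 1 → ∀ β : ℝ, 7 / 8 < β → β < 1 →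
    (riemannZeta β * χ₁.LFunction β * χ₂.LFunction β * (χ₁ * χ₂).LFunction β).re ≤ 0 →
    (1 - β) / C * (N : ℝ) ^ (-(C * (1 - β))) ≤
      ‖χ₁.LFunction 1‖ * ‖χ₂.LFunction 1‖ * ‖(χ₁ * χ₂).LFunction 1‖ := by
  obtain ⟨B, hB1, hB⟩ := zeta_circle
  obtain ⟨C1, hC1, hLF⟩ := LF_bound
  set D : ℝ := 24 * B * (max C1 1) ^ 3 with hD
  have hD1 : 1 ≤ D := by
    have h1 : (1 : ℝ) ≤ max C1 1 := le_max_right _ _
    have h2 : (1 : ℝ) ≤ (max C1 1) ^ 3 := one_le_pow₀ h1
    rw [hD]
    nlinarith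
  have hlog43 : 0 < Real.log (4 / 3) := Real.log_pos (by norm_num)
  set C2 : ℝ := Real.log D / Real.log (4 / 3) + 2 with hC2
  set C3 : ℝ := 3 / Real.log (4 / 3) with hC3
  have hC20 : 0 ≤ C2 := by
    rw [hC2]
    have := Real.log_nonneg hD1
    positivity
  have hC30 : 0 < C3 := by positivity
  refine ⟨max (max (2 * Real.exp C2) C3) 1, le_max_right _ _, ?_⟩
  intro N hN χ₁ χ₂ h1 h2 hn1 hn2 hn12 β hβ hβ1 hneg
  set C : ℝ := max (max (2 * Real.exp C2) C3) 1 with hC
  have hCa : 2 * Real.exp C2 ≤ C := (le_max_left _ _).trans (le_max_left _ _)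
  have hCb : C3 ≤ C := (le_max_right _ _).trans (le_max_left _ _)
  have hN1 : (1 : ℝ) ≤ N := by
    exact_mod_cast Nat.one_le_iff_ne_zero.mpr (NeZero.ne N)
  have hN0 : (0 : ℝ) < N := by linarith
  obtain ⟨f, hf0, hf1, hfL⟩ := coeff N χ₁ χ₂ h1 h2
  set P : ℂ → ℂ := fun s => χ₁.LFunction s * χ₂.LFunction s * (χ₁ * χ₂).LFunction s with hP
  have hPd : Differentiable ℂ P :=
    ((DirichletCharacter.differentiable_LFunction hn1).mul
      (DirichletCharacter.differentiable_LFunction hn2)).mul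
      (DirichletCharacter.differentiable_LFunction hn12)
  have hPb : ∀ s : ℂ, 1 / 2 ≤ s.re → ‖s‖ ≤ 4 → ‖P s‖ ≤ (max C1 1 * N) ^ 3 := by
    intro s hs hs4
    have hb : ∀ χ : DirichletCharacter ℂ N, χ ≠ 1 → ‖χ.LFunction s‖ ≤ max C1 1 * N := by
      intro χ hχ
      exact (hLF N χ s hχ hs hs4).trans (by gcongr; exact le_max_left _ _)
    simp only [hP]
    rw [norm_mul, norm_mul, pow_succ, pow_two]
    gcongr
    · exact hb _ hn1
    · exact hb _ hn2
    · exact hb _ hn12
  set K : ℝ := B * (max C1 1 * N) ^ 3 with hKdef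
  have hK0 : 0 < K := by positivity
  have hK : ∀ s : ℂ, ‖s - 2‖ = 3 / 2 → ‖riemannZeta s * P s‖ ≤ K := by
    intro s hs
    rw [norm_mul, hKdef]
    have hre : 1 / 2 ≤ s.re := by
      have h3 := Complex.abs_re_le_norm (s - 2)
      rw [hs] at h3
      have h4 := (abs_le.mp h3).1
      simp at h4
      linarith
    have hn : ‖s‖ ≤ 4 := by
      have h3 : ‖s‖ ≤ ‖s - 2‖ + ‖(2 : ℂ)‖ := by
        have := norm_add_le (s - 2) (2 : ℂ)
        simpa using this
      rw [hs] at h3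
      have h4 : ‖(2 : ℂ)‖ = 2 := by simp
      rw [h4] at h3
      linarith
    exact mul_le_mul (hB s hs) (hPb s hre hn) (norm_nonneg _) (by linarith)
  have hK1 : ‖P 1‖ ≤ K := by
    refine (hPb 1 (by norm_num) (by norm_num)).trans ?_
    rw [hKdef]
    have h3 : 0 ≤ (max C1 1 * (N : ℝ)) ^ 3 := by positivity
    nlinarith only [h3, hB1]
  -- choice of `M`
  set M : ℕ := ⌈Real.log (24 * K) / Real.log (4 / 3)⌉₊ + 1 with hM
  have h24K : 24 * K = D * N ^ 3 := by
    rw [hKdef, hD]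
    ring
  have h24K1 : 1 ≤ 24 * K := by
    rw [h24K]
    have : (1 : ℝ) ≤ (N : ℝ) ^ 3 := one_le_pow₀ hN1
    nlinarith only [hD1, this]
  have hMle : (M : ℝ) ≤ C2 + C3 * Real.log N := by
    have h3 : 0 ≤ Real.log (24 * K) / Real.log (4 / 3) :=
      div_nonneg (Real.log_nonneg h24K1) hlog43.le
    have h4 := (Nat.ceil_lt_add_one h3).le
    have h5 : Real.log (24 * K) = Real.log D + 3 * Real.log N := by
      rw [h24K, Real.log_mul (by positivity) (by positivity), Real.log_pow]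
      norm_num
    rw [hM]
    push_cast
    rw [h5] at h4 ⊢
    rw [hC2, hC3]
    have h6 : (Real.log D + 3 * Real.log N) / Real.log (4 / 3) =
        Real.log D / Real.log (4 / 3) + 3 / Real.log (4 / 3) * Real.log N := by
      field_simp
    rw [h6] at h4 ⊢
    linarith only [h4]
  have hMge : 12 * K * (3 / 4) ^ M ≤ 1 / 2 := by
    have h3 : Real.log (24 * K) ≤ M * Real.log (4 / 3) := by
      have h4 : Real.log (24 * K) / Real.log (4 / 3) ≤ M := by
        rw [hM]
        push_cast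
        exact (Nat.le_ceil _).trans (by linarith only [hβ, hβ1])
      rwa [div_le_iff₀ hlog43] at h4
    have h5 : 24 * K ≤ (4 / 3 : ℝ) ^ M := by
      rw [← Real.log_le_log_iff (by positivity) (by positivity), Real.log_pow]
      exact h3
    have h6 : (3 / 4 : ℝ) ^ M * (4 / 3) ^ M = 1 := by
      rw [← mul_pow]
      norm_num
    have h7 : (0 : ℝ) < (3 / 4) ^ M := by positivity
    nlinarith only [h5, h6, h7, hβ, hβ1]
  have hneg' : (riemannZeta β * P β).re ≤ 0 := by
    have e : riemannZeta β * P β =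
        riemannZeta β * χ₁.LFunction β * χ₂.LFunction β * (χ₁ * χ₂).LFunction β := by
      simp only [hP]
      ring
    rw [e]
    exact hneg
  have hmain := taylor_arg P hPd f hf0 hf1 (fun s hs => ⟨(hfL s hs).1, by
    rw [(hfL s hs).2]
    simp only [hP]
    ring⟩) K hK hK1 β hβ hβ1 hneg' M (by omega) hMge
  have h1β : 0 < 1 - β := by linarith only [hβ1]
  have hnorm : (P 1).re ≤ ‖χ₁.LFunction 1‖ * ‖χ₂.LFunction 1‖ * ‖(χ₁ * χ₂).LFunction 1‖ := by
    refine (Complex.re_le_norm _).trans ?_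
    simp only [hP]
    rw [norm_mul, norm_mul]
  set Λ : ℝ := ‖χ₁.LFunction 1‖ * ‖χ₂.LFunction 1‖ * ‖(χ₁ * χ₂).LFunction 1‖ with hΛ
  have hΛ0 : 0 ≤ Λ := by positivity
  have hpow : (2 - β) ^ M ≤ Real.exp C2 * (N : ℝ) ^ (C3 * (1 - β)) := by
    have h3 : 2 - β ≤ Real.exp (1 - β) := by
      have := Real.add_one_le_exp (1 - β)
      linarith
    calc (2 - β) ^ M ≤ (Real.exp (1 - β)) ^ M := by
          have : 0 ≤ 2 - β := by linarith
          gcongr
      _ = Real.exp (M * (1 - β)) := by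
          rw [← Real.exp_nat_mul]
      _ ≤ Real.exp (C2 + Real.log N * (C3 * (1 - β))) := by
          apply Real.exp_le_exp.mpr
          have h4 : (M : ℝ) * (1 - β) ≤ (C2 + C3 * Real.log N) * (1 - β) := by gcongr
          have h5 : C2 * (1 - β) ≤ C2 := by nlinarith only [hC20, hβ]
          nlinarith only [h4, h5]
      _ = Real.exp C2 * (N : ℝ) ^ (C3 * (1 - β)) := by
          rw [Real.exp_add, Real.rpow_def_of_pos hN0]
  have h8 : (1 - β) / 2 ≤ Λ * (Real.exp C2 * (N : ℝ) ^ (C3 * (1 - β))) := by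
    refine hmain.trans ?_
    have : 0 ≤ (2 - β) ^ M := by
      have : 0 ≤ 2 - β := by linarith only [hβ, hβ1]
      (clear * - this; positivity)
    calc (P 1).re * (2 - β) ^ M ≤ Λ * (2 - β) ^ M := by gcongr
      _ ≤ _ := by gcongr
  have hC0 : 0 < C := by
    have : 0 < Real.exp C2 := Real.exp_pos _
    linarith only [hCa, this]
  have h9 : (N : ℝ) ^ (-(C * (1 - β))) ≤ (N : ℝ) ^ (-(C3 * (1 - β))) := by
    apply Real.rpow_le_rpow_of_exponent_le hN1
    nlinarith only [hCb, hβ1]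
  calc (1 - β) / C * (N : ℝ) ^ (-(C * (1 - β)))
      ≤ (1 - β) / (2 * Real.exp C2) * (N : ℝ) ^ (-(C3 * (1 - β))) := by
        have : 0 < Real.exp C2 := Real.exp_pos _
        gcongr
    _ ≤ Λ := by
        have h10 : (N : ℝ) ^ (C3 * (1 - β)) * (N : ℝ) ^ (-(C3 * (1 - β))) = 1 := by
          rw [← Real.rpow_add hN0]
          simp
        have h11 : 0 < (N : ℝ) ^ (-(C3 * (1 - β))) := by positivity
        have h12 : 0 < Real.exp C2 := Real.exp_pos _
        have h13 : (1 - β) / (2 * Real.exp C2) * (N : ℝ) ^ (-(C3 * (1 - β))) =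
            (1 - β) / 2 * ((Real.exp C2)⁻¹ * (N : ℝ) ^ (-(C3 * (1 - β)))) := by
          field_simp
        rw [h13]
        calc (1 - β) / 2 * ((Real.exp C2)⁻¹ * (N : ℝ) ^ (-(C3 * (1 - β))))
            ≤ Λ * (Real.exp C2 * (N : ℝ) ^ (C3 * (1 - β))) *
              ((Real.exp C2)⁻¹ * (N : ℝ) ^ (-(C3 * (1 - β)))) := by gcongr
          _ = Λ * ((Real.exp C2 * (Real.exp C2)⁻¹) *
              ((N : ℝ) ^ (C3 * (1 - β)) * (N : ℝ) ^ (-(C3 * (1 - β))))) := by ring
          _ = Λ := by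
              rw [h10, mul_inv_cancel₀ h12.ne']
              ring

end Pool.MP_dd84fd_nt.SW
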