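import Pool.Agent.Lib.MP_dd84fd_nt.SW.Defs

set_option autoImplicit false

namespace Pool.MP_dd84fd_nt.SW

open Finset

open scoped ArithmeticFunction.Moebius Topology

/-- `(s-1) ζ(s)` with the value `1` at `s = 1` -/
noncomputable def FkZeta_Z : ℂ → ℂ := Function.update (fun s => (s - 1) * riemannZeta s) 1 1

theorem FkZeta_Z_analytic : AnalyticOnNhd ℂ FkZeta_Z Set.univ := by
  intro s _
  by_cases hs : s = 1
  · subst hs
    refine Complex.analyticAt_of_differentiable_on_punctured_nhds_of_continuousAt ?_ ?_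
    · filter_upwards [self_mem_nhdsWithin] with t ht
      have ht1 : t ≠ 1 := ht
      have h1 : DifferentiableAt ℂ (fun s => (s - 1) * riemannZeta s) t :=
        (differentiableAt_id.sub_const 1).mul (differentiableAt_riemannZeta ht1)
      refine h1.congr_of_eventuallyEq ?_
      filter_upwards [isOpen_ne.mem_nhds ht1] with w hw
      unfold FkZeta_Z
      rw [Function.update_of_ne hw]
    · unfold FkZeta_Z
      rw [continuousAt_update_same]
      exact riemannZeta_residue_one
  · have h1 : DifferentiableOn ℂ FkZeta_Z {s | s ≠ 1} := by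
      intro t ht
      have ht1 : t ≠ 1 := ht
      have h1 : DifferentiableAt ℂ (fun s => (s - 1) * riemannZeta s) t :=
        (differentiableAt_id.sub_const 1).mul (differentiableAt_riemannZeta ht1)
      refine (h1.congr_of_eventuallyEq ?_).differentiableWithinAt
      filter_upwards [isOpen_ne.mem_nhds ht1] with w hw
      unfold FkZeta_Z
      rw [Function.update_of_ne hw]
    exact h1.analyticAt (isOpen_ne.mem_nhds hs)

theorem FkZeta_Z_ne {s : ℂ} (hs : 1 ≤ s.re) : FkZeta_Z s ≠ 0 := by
  unfold FkZeta_Z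
  by_cases h1 : s = 1
  · subst h1
    rw [Function.update_self]
    exact one_ne_zero
  · rw [Function.update_of_ne h1]
    exact mul_ne_zero (sub_ne_zero.2 h1) (riemannZeta_ne_zero_of_one_le_re hs)

theorem FkZeta_iter (k : ℕ) (n : ℕ) :
    (LSeries.logMul^[k] (fun n => ((ArithmeticFunction.moebius n : ℤ) : ℂ))) n =
      ak (1 : DirichletCharacter ℂ 1) k n := by
  induction k generalizing n with
  | zero =>
    simp only [Function.iterate_zero, id_eq, ak, pow_zero, mul_one]
    rw [MulChar.one_apply]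
    · rw [mul_one]
    · exact isUnit_of_subsingleton _
  | succ k ih =>
    rw [Function.iterate_succ_apply']
    simp only [LSeries.logMul]
    rw [ih]
    unfold ak
    push_cast
    ring

theorem Fk_zeta_near (k : ℕ) : ∃ C : ℝ, 0 < C ∧ ∀ s : ℂ, 1 < s.re → s.re ≤ 2 → |s.im| ≤ 1 →
    ‖LSeries (ak (1 : DirichletCharacter ℂ 1) k) s‖ ≤ C := by
  set g : ℂ → ℂ := fun s => (s - 1) / FkZeta_Z s with hg
  have hga : AnalyticOnNhd ℂ g {s | FkZeta_Z s ≠ 0} := by
    intro s hs
    exact (analyticAt_id.sub analyticAt_const).div (FkZeta_Z_analytic s trivial) hs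
  have hgk : AnalyticOnNhd ℂ (iteratedDeriv k g) {s | FkZeta_Z s ≠ 0} := by
    rw [iteratedDeriv_eq_iterate]
    exact hga.iterated_deriv k
  set K : Set ℂ := Set.Icc 1 2 ×ℂ Set.Icc (-1) 1 with hK
  have hKc : IsCompact K := isCompact_Icc.reProdIm isCompact_Icc
  have hcont : ContinuousOn (iteratedDeriv k g) K := by
    refine hgk.continuousOn.mono ?_
    intro s hs
    rw [hK, Complex.mem_reProdIm] at hs
    exact FkZeta_Z_ne hs.1.1
  obtain ⟨C, hC⟩ := hKc.exists_bound_of_continuousOn hcont
  refine ⟨max C 1, lt_max_of_lt_right one_pos, fun s hs1 hs2 him => ?_⟩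
  have hsK : s ∈ K := by
    rw [hK, Complex.mem_reProdIm]
    exact ⟨⟨hs1.le, hs2⟩, ⟨by linarith [neg_abs_le s.im], by linarith [le_abs_self s.im]⟩⟩
  set μf : ℕ → ℂ := fun n => ((ArithmeticFunction.moebius n : ℤ) : ℂ) with hμ
  have habs : LSeries.abscissaOfAbsConv μf < s.re := by
    have : LSeries.abscissaOfAbsConv μf = 1 := ArithmeticFunction.abscissaOfAbsConv_moebius
    rw [this]
    exact_mod_cast hs1
  have h1 := LSeries_iteratedDeriv k habs
  have h2 : LSeries (LSeries.logMul^[k] μf) s = LSeries (ak (1 : DirichletCharacter ℂ 1) k) s :=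
    LSeries_congr (fun {n} _ => FkZeta_iter k n) s
  have h3 : iteratedDeriv k (LSeries μf) s = iteratedDeriv k g s := by
    refine Filter.EventuallyEq.iteratedDeriv_eq k ?_
    have hopen : IsOpen {w : ℂ | 1 < w.re} := isOpen_lt continuous_const Complex.continuous_re
    filter_upwards [hopen.mem_nhds hs1] with w hw
    have hw1 : 1 < w.re := hw
    have hne : w ≠ 1 := by
      rintro rfl
      simp at hw1
    have h4 := ArithmeticFunction.LSeries_zeta_mul_Lseries_moebius hw1
    rw [ArithmeticFunction.LSeries_zeta_eq_riemannZeta hw1] at h4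
    have hz : riemannZeta w ≠ 0 := riemannZeta_ne_zero_of_one_le_re hw1.le
    rw [hg]
    simp only
    unfold FkZeta_Z
    rw [Function.update_of_ne hne]
    have hw0 : w - 1 ≠ 0 := sub_ne_zero.2 hne
    rw [eq_div_iff (mul_ne_zero hw0 hz)]
    calc LSeries μf w * ((w - 1) * riemannZeta w) = (w - 1) * (riemannZeta w * LSeries μf w) := by ring
      _ = (w - 1) * 1 := by rw [h4]
      _ = w - 1 := mul_one _
  rw [h2, h3] at h1
  have h5 : ‖LSeries (ak (1 : DirichletCharacter ℂ 1) k) s‖ = ‖iteratedDeriv k g s‖ := by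
    rw [h1, norm_mul, norm_pow, norm_neg, norm_one, one_pow, one_mul]
  rw [h5]
  exact le_trans (hC s hsK) (le_max_left _ _)

end Pool.MP_dd84fd_nt.SW
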