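import Pool.Agent.Lib.MP_dd84fd_nt.SW.LowerAll
import Pool.Agent.Lib.MP_dd84fd_nt.SW.MuRec
import Pool.Agent.Lib.MP_dd84fd_nt.SW.FkZeta
import Pool.Agent.Lib.MP_dd84fd_nt.SW.EjBound
import Pool.Agent.Lib.MP_dd84fd_nt.SW.ZetaEj

set_option autoImplicit false

namespace Pool.MP_dd84fd_nt.SW

open Finset

theorem Fk_bound (k : ℕ) (ε : ℝ) (hε : 0 < ε) : ∃ (C : ℝ) (D : ℕ), 0 < C ∧
    ∀ (q : ℕ) (χ : DirichletCharacter ℂ q) (s : ℂ), 1 ≤ q → 1 < s.re → s.re ≤ 2 →
    (χ ≠ 1 ∨ q = 1) → ‖LSeries (ak χ k) s‖ ≤ C * (q : ℝ) ^ ε * ell q s.im ^ D := by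
  obtain ⟨c', hc', hlow⟩ := L_lower (ε / (k + 1)) (by positivity)
  obtain ⟨C3, hC3, hrec⟩ := Fk_rec k
  obtain ⟨C0, hC0, hzeta⟩ := Fk_zeta_near k
  choose Ce hCe hE using Ej_bound
  choose Cz hCz hZ using zeta_Ej
  set c : ℝ := min c' 1 with hc
  have cpos : 0 < c := lt_min hc' one_pos
  have cle : c ≤ 1 := min_le_right _ _
  set C4 : ℝ := 1 + ∑ j ∈ range (k + 1), (Ce j + Cz j) with hC4
  have hC4sum : ∀ j, j ≤ k → Ce j ≤ C4 ∧ Cz j ≤ C4 := by
    intro j hj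
    have h1 : Ce j + Cz j ≤ ∑ j ∈ range (k + 1), (Ce j + Cz j) :=
      Finset.single_le_sum (f := fun j => Ce j + Cz j)
        (fun i _ => by have := hCe i; have := hCz i; positivity) (Finset.mem_range.2 (by omega))
    have h2 := hCe j
    have h3 := hCz j
    constructor <;> linarith
  have hC4ge : 1 ≤ C4 := by
    have : 0 ≤ ∑ j ∈ range (k + 1), (Ce j + Cz j) :=
      Finset.sum_nonneg fun i _ => by have := hCe i; have := hCz i; positivity
    linarith
  refine ⟨C0 + C3 * C4 ^ k / c ^ (k + 1), (k + 1) * k + 13 * (k + 1), by positivity, ?_⟩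
  intro q χ s hq hs1 hs2 hχ
  have hqR : (1 : ℝ) ≤ q := by exact_mod_cast hq
  have hq0 : (0 : ℝ) < q := by linarith
  set l : ℝ := ell q s.im with hl
  have hl1 : 1 ≤ l := LowerAll_ell_one q _ hq
  have hlpos : 0 < l := by linarith
  have hQε : 1 ≤ (q : ℝ) ^ ε := Real.one_le_rpow hqR hε.le
  have hlD : 1 ≤ l ^ ((k + 1) * k + 13 * (k + 1)) := one_le_pow₀ hl1
  -- main case
  have main : (χ ≠ 1 ∨ (q = 1 ∧ 1 / 2 ≤ |s.im|)) →
      (∀ j : ℕ, 1 ≤ j → j ≤ k → ‖LSeries (ej χ j) s‖ ≤ C4 * l ^ (k + 1)) →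
      ‖LSeries (ak χ k) s‖ ≤ (C0 + C3 * C4 ^ k / c ^ (k + 1)) * (q : ℝ) ^ ε *
        l ^ ((k + 1) * k + 13 * (k + 1)) := by
    intro hχ' hEj
    have hlow' := hlow q χ s hq hs1 hs2 hχ'
    set Q : ℝ := (q : ℝ) ^ (-(ε / (k + 1))) with hQ
    have hQpos : 0 < Q := Real.rpow_pos_of_pos hq0 _
    have hQ1 : Q ≤ 1 := by
      refine Real.rpow_le_one_of_one_le_of_nonpos hqR ?_
      have : 0 < ε / (k + 1) := by positivity
      linarith
    set m : ℝ := c * Q / l ^ 13 with hm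
    have hmpos : 0 < m := by positivity
    have hl13 : 1 ≤ l ^ 13 := one_le_pow₀ hl1
    have hm1 : m ≤ 1 := by
      rw [hm, div_le_one (by positivity)]
      nlinarith [mul_le_mul cle hQ1 hQpos.le zero_le_one]
    have hmL : m ≤ ‖LSeries (ej χ 0) s‖ := by
      refine le_trans ?_ hlow'
      have : c ≤ c' := min_le_left _ _
      rw [hm]
      gcongr
    have hH : 1 ≤ C4 * l ^ (k + 1) := by
      have : 1 ≤ l ^ (k + 1) := one_le_pow₀ hl1
      nlinarith
    have h1 := hrec q χ s m (C4 * l ^ (k + 1)) hs1 hmpos hm1 hH hmL hEj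
    have e : C3 * (C4 * l ^ (k + 1)) ^ k / m ^ (k + 1) =
        C3 * C4 ^ k / c ^ (k + 1) * (q : ℝ) ^ ε * l ^ ((k + 1) * k + 13 * (k + 1)) := by
      have hQk : Q ^ (k + 1) = ((q : ℝ) ^ ε)⁻¹ := by
        rw [hQ, ← Real.rpow_natCast, ← Real.rpow_mul hq0.le, ← Real.rpow_neg hq0.le]
        congr 1
        push_cast
        field_simp
      rw [hm, div_pow, mul_pow c Q, hQk, mul_pow, ← pow_mul l (k + 1) k, ← pow_mul l 13 (k + 1),
        pow_add l ((k + 1) * k)]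
      have : (q : ℝ) ^ ε ≠ 0 := by positivity
      field_simp
    rw [e] at h1
    refine le_trans h1 ?_
    gcongr
    linarith
  rcases hχ with hχ | hq1
  · refine main (Or.inl hχ) fun j _ hj => ?_
    refine le_trans (hE j q χ s hq hχ hs1 hs2) ?_
    have h1 := (hC4sum j hj).1
    have h2 : l ^ (j + 1) ≤ l ^ (k + 1) := pow_le_pow_right₀ hl1 (by omega)
    have h3 := (hCe j).le
    rw [← hl]
    exact mul_le_mul h1 h2 (by positivity) (by linarith)
  · by_cases him : 1 / 2 ≤ |s.im|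
    · subst hq1
      have hχ1 : χ = 1 := DirichletCharacter.level_one χ
      subst hχ1
      refine main (Or.inr ⟨rfl, him⟩) fun j _ hj => ?_
      refine le_trans (hZ j s hs1 hs2 him) ?_
      have h1 := (hC4sum j hj).2
      have h2 : l ^ (j + 1) ≤ l ^ (k + 1) := pow_le_pow_right₀ hl1 (by omega)
      have h3 := (hCz j).le
      rw [← hl]
      exact mul_le_mul h1 h2 (by positivity) (by linarith)
    · rw [not_le] at him
      subst hq1
      have hχ1 : χ = 1 := DirichletCharacter.level_one χ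
      subst hχ1
      have h1 := hzeta s hs1 hs2 (by linarith)
      refine le_trans h1 ?_
      have hC5 : 0 ≤ C3 * C4 ^ k / c ^ (k + 1) := by positivity
      calc C0 ≤ (C0 + C3 * C4 ^ k / c ^ (k + 1)) * 1 * 1 := by linarith
        _ ≤ _ := by gcongr

end Pool.MP_dd84fd_nt.SW
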