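import Pool.Agent.Lib.MP_dd84fd_nt.SW.Defs

set_option autoImplicit false

namespace Pool.MP_dd84fd_nt.SW

open Finset MeasureTheory

/-- summability of `L`-series of functions with logarithmic growth -/
theorem GaussAvg_summable {f : ℕ → ℂ} {j : ℕ} {s : ℂ} (hs : 1 < s.re)
    (hf : ∀ n, ‖f n‖ ≤ |Real.log n| ^ j) : LSeriesSummable f s := by
  refine LSeriesSummable_of_isBigO_rpow (x := (1 + s.re) / 2) (by linarith) ?_
  have h1 : (fun x : ℝ => Real.log x ^ (j : ℝ)) =o[Filter.atTop]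
      fun x => x ^ ((1 + s.re) / 2 - 1) :=
    isLittleO_log_rpow_rpow_atTop (j : ℝ) (by linarith)
  have h2 := h1.isBigO.comp_tendsto (tendsto_natCast_atTop_atTop (R := ℝ))
  refine Asymptotics.IsBigO.trans (Asymptotics.IsBigO.of_bound 1 ?_) h2
  refine Filter.Eventually.of_forall fun n => ?_
  rw [one_mul, Function.comp_apply, Real.rpow_natCast, norm_pow, Real.norm_eq_abs]
  exact hf n

/-- the Fourier transform of the Gaussian -/
theorem GaussAvg_fourier (T v : ℝ) (hT : 0 < T) :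
    ∫ t : ℝ, Complex.exp (Complex.I * v * t) * (Real.exp (-(t ^ 2 / (2 * T ^ 2))) : ℂ) =
      ((Real.sqrt (2 * Real.pi * T ^ 2) : ℝ) : ℂ) * (Real.exp (-(T ^ 2 * v ^ 2 / 2)) : ℂ) := by
  have hb : 0 < ((1 / (2 * T ^ 2) : ℝ) : ℂ).re := by
    rw [Complex.ofReal_re]
    positivity
  have h := fourierIntegral_gaussian hb (v : ℂ)
  have e1 : ∀ t : ℝ, Complex.exp (Complex.I * v * t) * (Real.exp (-(t ^ 2 / (2 * T ^ 2))) : ℂ) =
      Complex.exp (Complex.I * v * t) * Complex.exp (-((1 / (2 * T ^ 2) : ℝ) : ℂ) * t ^ 2) := by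
    intro t
    congr 1
    rw [Complex.ofReal_exp]
    congr 1
    push_cast
    ring
  simp_rw [e1]
  rw [h]
  congr 1
  · have e2 : (Real.pi : ℂ) / ((1 / (2 * T ^ 2) : ℝ) : ℂ) = ((2 * Real.pi * T ^ 2 : ℝ) : ℂ) := by
      push_cast
      field_simp
    rw [e2]
    have e3 : (1 / 2 : ℂ) = ((1 / 2 : ℝ) : ℂ) := by push_cast; ring
    rw [e3, ← Complex.ofReal_cpow (by positivity), Real.sqrt_eq_rpow]
  · rw [Complex.ofReal_exp]
    congr 1
    push_cast
    have hTc : (T : ℂ) ≠ 0 := by exact_mod_cast hT.ne'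
    field_simp
    ring

theorem GaussAvg_pow_le (D : ℕ) (u : ℝ) (hu : 0 ≤ u) :
    (1 + u) ^ D * Real.exp (-(u ^ 2 / 2)) ≤ D.factorial * Real.exp 2 * Real.exp (-(u ^ 2 / 4)) := by
  have h1 : (1 + u) ^ D ≤ D.factorial * Real.exp (1 + u) := by
    have := Real.pow_div_factorial_le_exp (1 + u) (by linarith) D
    rw [div_le_iff₀ (by positivity)] at this
    linarith
  calc (1 + u) ^ D * Real.exp (-(u ^ 2 / 2)) ≤ D.factorial * Real.exp (1 + u) *
        Real.exp (-(u ^ 2 / 2)) := by gcongr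
    _ = D.factorial * Real.exp (1 + u + -(u ^ 2 / 2)) := by rw [mul_assoc, ← Real.exp_add]
    _ ≤ D.factorial * Real.exp (2 + -(u ^ 2 / 4)) := by
        refine mul_le_mul_of_nonneg_left (Real.exp_le_exp.2 ?_) (Nat.cast_nonneg _)
        nlinarith [sq_nonneg (u / 2 - 1)]
    _ = _ := by rw [Real.exp_add, mul_assoc]

theorem GaussAvg_log_le (D : ℕ) (T t : ℝ) (hT : 1 ≤ T) :
    Real.log (|t| + 3) ^ D ≤ Real.log (T + 3) ^ D * (1 + |t| / T) ^ D := by
  have hT0 : 0 < T := by linarith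
  have ht := abs_nonneg t
  have hu : 0 ≤ |t| / T := by positivity
  have hlogT : 1 ≤ Real.log (T + 3) := by
    rw [Real.le_log_iff_exp_le (by linarith)]
    have := Real.exp_one_lt_d9
    linarith
  rw [← mul_pow]
  refine pow_le_pow_left₀ (Real.log_nonneg (by linarith)) ?_ D
  have h1 : |t| + 3 ≤ (T + 3) * (1 + |t| / T) := by
    have e : (T + 3) * (1 + |t| / T) = T + 3 + |t| + 3 * (|t| / T) := by
      field_simp
      ring
    rw [e]
    nlinarith
  calc Real.log (|t| + 3) ≤ Real.log ((T + 3) * (1 + |t| / T)) :=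
        Real.log_le_log (by linarith) h1
    _ = Real.log (T + 3) + Real.log (1 + |t| / T) := by
        rw [Real.log_mul (by linarith) (by linarith)]
    _ ≤ Real.log (T + 3) + |t| / T := by
        have := Real.log_le_sub_one_of_pos (show 0 < 1 + |t| / T by linarith)
        linarith
    _ ≤ Real.log (T + 3) * (1 + |t| / T) := by nlinarith

theorem gauss_avg (D : ℕ) : ∃ C : ℝ, 0 < C ∧ ∀ (a : ℕ → ℂ) (k : ℕ) (σ T x M : ℝ),
    (∀ n, ‖a n‖ ≤ 1) → 1 < σ → 1 ≤ T → 0 < x → 0 ≤ M →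
    (∀ t : ℝ, ‖LSeries (fun n => a n * (Real.log n : ℂ) ^ k) (σ + t * Complex.I)‖ ≤
      M * Real.log (|t| + 3) ^ D) →
    ‖Dk a k σ T x‖ ≤ C * M * Real.log (T + 3) ^ D := by
  refine ⟨D.factorial * Real.exp 2 * Real.sqrt 2, by positivity, ?_⟩
  intro a k σ T x M ha hσ hT hx hM hL
  have hT0 : 0 < T := by linarith
  set f : ℕ → ℂ := fun n => a n * (Real.log n : ℂ) ^ k with hf
  have hfb : ∀ n, ‖f n‖ ≤ |Real.log n| ^ k := by
    intro n
    rw [hf]
    simp only
    rw [norm_mul, norm_pow, Complex.norm_real, Real.norm_eq_abs]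
    calc ‖a n‖ * |Real.log n| ^ k ≤ 1 * |Real.log n| ^ k := by gcongr; exact ha n
      _ = _ := one_mul _
  let F : ℕ → ℝ → ℂ := fun n t => (Real.exp (-(t ^ 2 / (2 * T ^ 2))) : ℂ) *
    (x : ℂ) ^ ((t : ℂ) * Complex.I) * LSeries.term f (σ + t * Complex.I) n
  have hxn : ∀ t : ℝ, ‖(x : ℂ) ^ ((t : ℂ) * Complex.I)‖ = 1 := by
    intro t
    rw [Complex.norm_cpow_eq_rpow_re_of_pos hx]
    simp
  have hre : ∀ t : ℝ, ((σ : ℂ) + t * Complex.I).re = σ := by
    intro t
    simp
  have hgauss : Integrable (fun t : ℝ => Real.exp (-(t ^ 2 / (2 * T ^ 2)))) := by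
    have := integrable_exp_neg_mul_sq (b := 1 / (2 * T ^ 2)) (by positivity)
    refine this.congr (Filter.Eventually.of_forall fun t => ?_)
    simp only
    congr 1
    ring
  have hnormF : ∀ n (t : ℝ), ‖F n t‖ = Real.exp (-(t ^ 2 / (2 * T ^ 2))) *
      ‖LSeries.term f (σ : ℂ) n‖ := by
    intro n t
    simp only [F]
    rw [norm_mul, norm_mul, hxn, mul_one, Complex.norm_real, Real.norm_of_nonneg (Real.exp_pos _).le]
    congr 1
    rw [LSeries.norm_term_eq, LSeries.norm_term_eq, hre]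
    simp
  -- closed form of the terms
  have hterm : ∀ n (t : ℝ), F n t = LSeries.term f (σ : ℂ) n *
      (Complex.exp (Complex.I * ((Real.log (x / n) : ℝ) : ℂ) * t) *
        (Real.exp (-(t ^ 2 / (2 * T ^ 2))) : ℂ)) := by
    intro n t
    simp only [F]
    by_cases hn : n = 0
    · subst hn
      simp
    · have hn0 : (n : ℂ) ≠ 0 := by exact_mod_cast hn
      have hnr : (0 : ℝ) < n := by
        have : 0 < n := Nat.pos_of_ne_zero hn
        exact_mod_cast this
      rw [LSeries.term_of_ne_zero hn, LSeries.term_of_ne_zero hn, Complex.cpow_add _ _ hn0]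
      have e1 : (x : ℂ) ^ ((t : ℂ) * Complex.I) / (n : ℂ) ^ ((t : ℂ) * Complex.I) =
          Complex.exp (Complex.I * ((Real.log (x / n) : ℝ) : ℂ) * t) := by
        have hxc : (x : ℂ) ≠ 0 := by exact_mod_cast hx.ne'
        rw [Complex.cpow_def_of_ne_zero hxc, Complex.cpow_def_of_ne_zero hn0, ← Complex.exp_sub]
        congr 1
        rw [Real.log_div hx.ne' hnr.ne']
        push_cast
        rw [Complex.ofReal_log hx.le]
        ring
      rw [← e1]
      have hnc : (n : ℂ) ^ ((t : ℂ) * Complex.I) ≠ 0 := by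
        rw [Complex.cpow_def_of_ne_zero hn0]
        exact Complex.exp_ne_zero _
      have hnc2 : (n : ℂ) ^ (σ : ℂ) ≠ 0 := by
        rw [Complex.cpow_def_of_ne_zero hn0]
        exact Complex.exp_ne_zero _
      field_simp
  have hFint : ∀ n, Integrable (F n) := by
    intro n
    have h1 : Integrable (fun t : ℝ => Real.exp (-(t ^ 2 / (2 * T ^ 2))) *
      ‖LSeries.term f (σ : ℂ) n‖) := hgauss.mul_const _
    refine Integrable.mono' h1 ?_ (Filter.Eventually.of_forall fun t => (hnormF n t).le)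
    have h2 : F n = fun t : ℝ => LSeries.term f (σ : ℂ) n *
      (Complex.exp (Complex.I * ((Real.log (x / n) : ℝ) : ℂ) * t) *
        (Real.exp (-(t ^ 2 / (2 * T ^ 2))) : ℂ)) := funext fun t => hterm n t
    rw [h2]
    apply Continuous.aestronglyMeasurable
    fun_prop
  have hsum0 : Summable (fun n => ‖LSeries.term f (σ : ℂ) n‖) := by
    have : LSeriesSummable f (σ : ℂ) := GaussAvg_summable (j := k) (by simpa using hσ) hfb
    exact this.norm
  have hsum : Summable (fun n => ∫ t, ‖F n t‖) := by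
    have : ∀ n, ∫ t, ‖F n t‖ = (∫ t : ℝ, Real.exp (-(t ^ 2 / (2 * T ^ 2)))) *
        ‖LSeries.term f (σ : ℂ) n‖ := by
      intro n
      simp_rw [hnormF]
      rw [integral_mul_const]
    simp_rw [this]
    exact hsum0.mul_left _
  have hHS := hasSum_integral_of_summable_integral_norm hFint hsum
  -- evaluation of the integrals
  set c : ℂ := ((Real.sqrt (2 * Real.pi * T ^ 2) : ℝ) : ℂ) with hc
  have hval : ∀ n, ∫ t, F n t = c * (a n * (Real.log n : ℂ) ^ k *
    (((n : ℝ) ^ (-σ) * Real.exp (-(T ^ 2 * Real.log (n / x) ^ 2 / 2)) : ℝ) : ℂ)) := by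
    intro n
    simp_rw [hterm]
    rw [integral_const_mul, GaussAvg_fourier T _ hT0]
    by_cases hn : n = 0
    · subst hn
      simp only [LSeries.term_zero, zero_mul, Nat.cast_zero]
      rw [Real.zero_rpow (by linarith)]
      simp
    · have hnr : (0 : ℝ) < n := by
        have : 0 < n := Nat.pos_of_ne_zero hn
        exact_mod_cast this
      rw [LSeries.term_of_ne_zero hn, hf]
      have e1 : Real.log (x / n) ^ 2 = Real.log (n / x) ^ 2 := by
        rw [← inv_div, Real.log_inv]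
        ring
      rw [e1]
      have e2 : (n : ℂ) ^ (σ : ℂ) = (((n : ℝ) ^ σ : ℝ) : ℂ) := by
        rw [Complex.ofReal_cpow hnr.le]
        simp
      rw [e2, Real.rpow_neg hnr.le]
      have : ((n : ℝ) ^ σ : ℝ) ≠ 0 := (Real.rpow_pos_of_pos hnr _).ne'
      rw [hc]
      push_cast
      field_simp
  have hDk : c * Dk a k σ T x = ∫ t, ∑' n, F n t := by
    rw [← hHS.tsum_eq]
    unfold Dk
    rw [← tsum_mul_left]
    exact tsum_congr fun n => (hval n).symm
  have htsum : ∀ t : ℝ, ∑' n, F n t = (Real.exp (-(t ^ 2 / (2 * T ^ 2))) : ℂ) *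
      (x : ℂ) ^ ((t : ℂ) * Complex.I) * LSeries f (σ + t * Complex.I) := by
    intro t
    simp only [F]
    rw [tsum_mul_left]
    rfl
  -- the bound
  have hb : ∀ t : ℝ, ‖∑' n, F n t‖ ≤ M * Real.log (T + 3) ^ D * (D.factorial * Real.exp 2) *
      Real.exp (-(t ^ 2 / (4 * T ^ 2))) := by
    intro t
    rw [htsum, norm_mul, norm_mul, hxn, mul_one, Complex.norm_real,
      Real.norm_of_nonneg (Real.exp_pos _).le]
    have hlogT : 0 ≤ Real.log (T + 3) := Real.log_nonneg (by linarith)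
    have hu : 0 ≤ |t| / T := by positivity
    have g1 := GaussAvg_pow_le D (|t| / T) hu
    have g2 := GaussAvg_log_le D T t hT
    have e1 : (|t| / T) ^ 2 / 2 = t ^ 2 / (2 * T ^ 2) := by
      rw [div_pow, sq_abs]
      field_simp
    have e2 : (|t| / T) ^ 2 / 4 = t ^ 2 / (4 * T ^ 2) := by
      rw [div_pow, sq_abs]
      field_simp
    rw [e1, e2] at g1
    calc Real.exp (-(t ^ 2 / (2 * T ^ 2))) * ‖LSeries f (σ + t * Complex.I)‖
        ≤ Real.exp (-(t ^ 2 / (2 * T ^ 2))) * (M * Real.log (|t| + 3) ^ D) := by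
          gcongr
          exact hL t
      _ ≤ Real.exp (-(t ^ 2 / (2 * T ^ 2))) * (M * (Real.log (T + 3) ^ D * (1 + |t| / T) ^ D)) := by
          gcongr
      _ = M * Real.log (T + 3) ^ D * ((1 + |t| / T) ^ D * Real.exp (-(t ^ 2 / (2 * T ^ 2)))) := by
          ring
      _ ≤ M * Real.log (T + 3) ^ D * (D.factorial * Real.exp 2 *
          Real.exp (-(t ^ 2 / (4 * T ^ 2)))) := by gcongr
      _ = _ := by ring
  have hgauss2 : Integrable (fun t : ℝ => Real.exp (-(t ^ 2 / (4 * T ^ 2)))) := by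
    have := integrable_exp_neg_mul_sq (b := 1 / (4 * T ^ 2)) (by positivity)
    refine this.congr (Filter.Eventually.of_forall fun t => ?_)
    simp only
    congr 1
    ring
  have hint2 : ∫ t : ℝ, Real.exp (-(t ^ 2 / (4 * T ^ 2))) = Real.sqrt (4 * Real.pi * T ^ 2) := by
    have h := integral_gaussian (1 / (4 * T ^ 2))
    have e : ∀ t : ℝ, Real.exp (-(t ^ 2 / (4 * T ^ 2))) = Real.exp (-(1 / (4 * T ^ 2)) * t ^ 2) := by
      intro t
      congr 1
      ring
    simp_rw [e]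
    rw [h]
    congr 1
    field_simp
  have hnorm := norm_integral_le_of_norm_le (hgauss2.const_mul
    (M * Real.log (T + 3) ^ D * (D.factorial * Real.exp 2))) (Filter.Eventually.of_forall hb)
  rw [integral_const_mul, hint2, ← hDk, norm_mul, hc, Complex.norm_real,
    Real.norm_of_nonneg (Real.sqrt_nonneg _)] at hnorm
  have hs : Real.sqrt (4 * Real.pi * T ^ 2) = Real.sqrt 2 * Real.sqrt (2 * Real.pi * T ^ 2) := by
    rw [← Real.sqrt_mul (by norm_num)]
    congr 1
    ring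
  rw [hs] at hnorm
  have hpos : 0 < Real.sqrt (2 * Real.pi * T ^ 2) := Real.sqrt_pos.2 (by positivity)
  refine le_of_mul_le_mul_left (le_trans hnorm (le_of_eq ?_)) hpos
  ring

end Pool.MP_dd84fd_nt.SW
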