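import Pool.Agent.Lib.MP_dd84fd_nt.SW.FkBound
import Pool.Agent.Lib.MP_dd84fd_nt.SW.GaussAvg
import Pool.Agent.Lib.MP_dd84fd_nt.SW.Tauber

set_option autoImplicit false

namespace Pool.MP_dd84fd_nt.SW

open Finset Filter

/-- powers of `log` are eventually small compared with powers of `x` -/
theorem MuChar_ev (K : ℝ) (n : ℕ) (s : ℝ) (hs : 0 < s) :
    ∀ᶠ x : ℝ in atTop, K * Real.log x ^ n ≤ x ^ s := by
  have h := (isLittleO_log_rpow_rpow_atTop (n : ℝ) hs).bound
    (show (0 : ℝ) < 1 / (|K| + 1) by positivity)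
  filter_upwards [h, eventually_ge_atTop (1 : ℝ)] with x h3 hx
  rw [Real.rpow_natCast, Real.norm_eq_abs, Real.norm_eq_abs,
    abs_of_nonneg (Real.rpow_nonneg (by linarith) s)] at h3
  have hp : 0 < |K| + 1 := by positivity
  have hX0 : (0 : ℝ) ≤ x ^ s := Real.rpow_nonneg (by linarith) s
  calc K * Real.log x ^ n ≤ |K * Real.log x ^ n| := le_abs_self _
    _ = |K| * |Real.log x ^ n| := abs_mul _ _
    _ ≤ |K| * (1 / (|K| + 1) * x ^ s) := mul_le_mul_of_nonneg_left h3 (abs_nonneg _)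
    _ = (|K| / (|K| + 1)) * x ^ s := by ring
    _ ≤ 1 * x ^ s := by
        apply mul_le_mul_of_nonneg_right _ hX0
        rw [div_le_one hp]
        linarith
    _ = x ^ s := one_mul _

theorem mu_char (A B : ℕ) : ∃ X0 : ℕ, ∀ X : ℕ, X0 ≤ X → ∀ (q : ℕ) (χ : DirichletCharacter ℂ q),
    1 ≤ q → (q : ℝ) ≤ Real.log X ^ B → (χ ≠ 1 ∨ q = 1) →
    ‖∑ n ∈ Icc 1 X, ((ArithmeticFunction.moebius n : ℤ) : ℂ) * χ n‖ ≤ X / Real.log X ^ A := by
  obtain ⟨C, D, hC, hF⟩ := Fk_bound (2 * A + 6) (1 / (B + 1)) (by positivity)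
  obtain ⟨C2, hC2, hG⟩ := gauss_avg D
  obtain ⟨C3, hC3, hTb⟩ := tauber (2 * A + 6)
  -- conditions on `L = log X`
  have hlogX : Tendsto (fun X : ℕ => Real.log X) atTop atTop :=
    Real.tendsto_log_atTop.comp (tendsto_natCast_atTop_atTop (R := ℝ))
  set K : ℝ := C2 * C * ((1 + B) * (A + 3)) ^ D with hK
  have ev1 : ∀ᶠ X : ℕ in atTop, K * Real.log (Real.log X) ^ (2 * D) ≤ Real.log X ^ (1 : ℝ) :=
    hlogX.eventually (MuChar_ev K (2 * D) 1 one_pos)
  have ev2 : ∀ᶠ X : ℕ in atTop, 1 * Real.log X ^ (4 * (A + 1)) ≤ (X : ℝ) ^ (1 : ℝ) :=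
    (tendsto_natCast_atTop_atTop (R := ℝ)).eventually (MuChar_ev 1 (4 * (A + 1)) 1 one_pos)
  have ev3 : ∀ᶠ X : ℕ in atTop, max (Real.exp 1) (2 * C3) ≤ Real.log X :=
    hlogX.eventually (eventually_ge_atTop _)
  have ev4 : ∀ᶠ X : ℕ in atTop, 3 ≤ X := eventually_ge_atTop 3
  obtain ⟨X0, hX0⟩ := eventually_atTop.mp (ev1.and (ev2.and (ev3.and ev4)))
  refine ⟨X0, fun X hX q χ hq hqX hχ => ?_⟩
  obtain ⟨e1, e2, e3, e4⟩ := hX0 X hX
  rw [Real.rpow_one] at e1 e2
  rw [one_mul] at e2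
  set L : ℝ := Real.log X with hL
  have hLe : Real.exp 1 ≤ L := le_trans (le_max_left _ _) e3
  have hLC : 2 * C3 ≤ L := le_trans (le_max_right _ _) e3
  have hexp1 : (2 : ℝ) ≤ Real.exp 1 := by
    have := Real.add_one_le_exp (1 : ℝ)
    linarith
  have hL2 : 2 ≤ L := le_trans hexp1 hLe
  have hL1 : 1 ≤ L := by linarith
  have hL0 : 0 < L := by linarith
  have hlogL : 1 ≤ Real.log L := by
    rw [Real.le_log_iff_exp_le hL0]
    exact hLe
  have hqR : (1 : ℝ) ≤ q := by exact_mod_cast hq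
  have hq0 : (0 : ℝ) < q := by linarith
  set T : ℝ := L ^ (A + 1) with hT
  have hT1 : 1 ≤ T := one_le_pow₀ hL1
  have hT0 : 0 < T := by linarith
  have hlogq : 0 ≤ Real.log q := Real.log_nonneg hqR
  -- the constants `M` and `R`
  set M : ℝ := C * (q : ℝ) ^ (1 / ((B : ℝ) + 1)) * (1 + Real.log q) ^ D with hM
  have hM0 : 0 ≤ M := by positivity
  have hlogT3 : 0 ≤ Real.log (T + 3) := Real.log_nonneg (by linarith)
  set R : ℝ := C2 * M * Real.log (T + 3) ^ D with hR
  have hR0 : 0 ≤ R := by positivity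
  -- bound for `R`
  have hqε : (q : ℝ) ^ (1 / ((B : ℝ) + 1)) ≤ L := by
    calc (q : ℝ) ^ (1 / ((B : ℝ) + 1)) ≤ (L ^ B) ^ (1 / ((B : ℝ) + 1)) := by
          apply Real.rpow_le_rpow hq0.le hqX
          positivity
      _ = L ^ ((B : ℝ) * (1 / ((B : ℝ) + 1))) := by
          rw [← Real.rpow_natCast, ← Real.rpow_mul hL0.le]
      _ ≤ L ^ (1 : ℝ) := by
          apply Real.rpow_le_rpow_of_exponent_le hL1
          rw [mul_one_div, div_le_one (by positivity)]
          linarith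
      _ = L := Real.rpow_one _
  have hlogq2 : 1 + Real.log q ≤ (1 + B) * Real.log L := by
    have h1 : Real.log q ≤ B * Real.log L := by
      rw [← Real.log_pow]
      exact Real.log_le_log hq0 hqX
    nlinarith
  have hlogT2 : Real.log (T + 3) ≤ (A + 3) * Real.log L := by
    have h1 : T + 3 ≤ L ^ (A + 3) := by
      have h2 : L ^ (A + 3) = T * L ^ 2 := by
        rw [hT, ← pow_add]
      rw [h2]
      have hL4 : 4 ≤ L ^ 2 := by nlinarith
      calc T + 3 ≤ T * 4 := by linarith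
        _ ≤ T * L ^ 2 := by gcongr
    calc Real.log (T + 3) ≤ Real.log (L ^ (A + 3)) := Real.log_le_log (by linarith) h1
      _ = (A + 3) * Real.log L := by
          rw [Real.log_pow]
          push_cast
          ring
  have hRle : R ≤ L ^ 2 := by
    calc R = C2 * (C * (q : ℝ) ^ (1 / ((B : ℝ) + 1)) * (1 + Real.log q) ^ D) *
          Real.log (T + 3) ^ D := by rw [hR, hM]
      _ ≤ C2 * (C * L * ((1 + B) * Real.log L) ^ D) * ((A + 3) * Real.log L) ^ D := by gcongr
      _ = L * (K * Real.log L ^ (2 * D)) := by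
          rw [hK, mul_pow, mul_pow, mul_pow, pow_mul, pow_two, mul_pow]
          ring
      _ ≤ L * L := by gcongr
      _ = L ^ 2 := by ring
  -- the hypothesis of `gauss_avg`
  set a : ℕ → ℂ := fun n => ((ArithmeticFunction.moebius n : ℤ) : ℂ) * χ n with ha
  have hab : ∀ n, ‖a n‖ ≤ 1 := by
    intro n
    rw [ha]
    simp only
    rw [norm_mul]
    have h1 := χ.norm_le_one n
    have h2 : ‖((ArithmeticFunction.moebius n : ℤ) : ℂ)‖ ≤ 1 := by
      rw [Complex.norm_intCast]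
      exact_mod_cast ArithmeticFunction.abs_moebius_le_one
    calc ‖((ArithmeticFunction.moebius n : ℤ) : ℂ)‖ * ‖χ n‖ ≤ 1 * 1 := by gcongr
      _ = 1 := one_mul _
  set σ : ℝ := 1 + 1 / L with hσ
  have hσ1 : 1 < σ := by
    rw [hσ]
    have : 0 < 1 / L := by positivity
    linarith
  have hσ2 : σ ≤ 2 := by
    rw [hσ]
    have : 1 / L ≤ 1 := by
      rw [div_le_one hL0]
      exact hL1
    linarith
  have hLS : ∀ t : ℝ, ‖LSeries (fun n => a n * (Real.log n : ℂ) ^ (2 * A + 6)) (σ + t * Complex.I)‖ ≤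
      M * Real.log (|t| + 3) ^ D := by
    intro t
    have h1 := hF q χ (σ + t * Complex.I) hq (by simpa using hσ1) (by simpa using hσ2) hχ
    have him : ((σ : ℂ) + t * Complex.I).im = t := by simp
    rw [him] at h1
    have h2 : (fun n => a n * (Real.log n : ℂ) ^ (2 * A + 6)) = ak χ (2 * A + 6) := by
      funext n
      rfl
    rw [h2]
    refine le_trans h1 ?_
    have ht := abs_nonneg t
    have hlt : 1 ≤ Real.log (|t| + 3) := by
      rw [Real.le_log_iff_exp_le (by linarith)]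
      have := Real.exp_one_lt_d9
      linarith
    have h3 : ell q t ≤ (1 + Real.log q) * Real.log (|t| + 3) := by
      unfold ell
      rw [Real.log_mul hq0.ne' (by linarith)]
      nlinarith
    have h4 : 0 ≤ ell q t := by
      have := LowerAll_ell_one q t hq
      linarith
    have h5 : ell q t ^ D ≤ ((1 + Real.log q) * Real.log (|t| + 3)) ^ D :=
      pow_le_pow_left₀ h4 h3 D
    calc C * (q : ℝ) ^ (1 / ((B : ℝ) + 1)) * ell q t ^ D
        ≤ C * (q : ℝ) ^ (1 / ((B : ℝ) + 1)) * ((1 + Real.log q) * Real.log (|t| + 3)) ^ D := by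
          gcongr
      _ = M * Real.log (|t| + 3) ^ D := by
          rw [hM, mul_pow]
          ring
  have hXpos : (0 : ℝ) < X := by
    have : 0 < X := by omega
    exact_mod_cast this
  have hfinal := hTb a X T R hab e4 hT1 (by
      rw [hT, ← pow_mul, mul_comm (A + 1) 4]
      exact e2) hR0 (by
      intro x hx1 _
      have hx0 : 0 < x := lt_of_lt_of_le (Real.sqrt_pos.2 hXpos) hx1
      exact hG a (2 * A + 6) σ T x M hab hσ1 hT1 hx0 hM0 hLS)
  refine le_trans hfinal ?_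
  rw [← hL]
  have hb1 : T * X * R / L ^ (2 * A + 6) ≤ X / L ^ (A + 1) := by
    rw [div_le_div_iff₀ (by positivity) (by positivity)]
    calc T * X * R * L ^ (A + 1) ≤ T * X * L ^ 2 * L ^ (A + 1) := by gcongr
      _ = X * L ^ (2 * A + 4) := by
          rw [hT]
          ring
      _ ≤ X * L ^ (2 * A + 6) :=
          mul_le_mul_of_nonneg_left (pow_le_pow_right₀ hL1 (by omega)) hXpos.le
  have hb2 : (X : ℝ) / T = X / L ^ (A + 1) := by rw [hT]
  calc C3 * (T * X * R / L ^ (2 * A + 6) + X / T) ≤ C3 * (X / L ^ (A + 1) + X / L ^ (A + 1)) := by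
        rw [hb2]
        gcongr
    _ = (2 * C3 / L) * (X / L ^ A) := by
        rw [pow_succ]
        field_simp
        ring
    _ ≤ 1 * (X / L ^ A) := by
        gcongr
        rw [div_le_one hL0]
        exact hLC
    _ = X / L ^ A := one_mul _

end Pool.MP_dd84fd_nt.SW
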